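import Pool.Agent.Lib_fca3ff.Func

set_option autoImplicit false

/-!
# Closed choice on `ℕ × 2^ℕ` reduces to `C_ℕ × C_{2^ℕ}`
-/

namespace Pool.Agent.CMTW

open Prim Set

/-- all binary strings of length `s` -/
def strs : ℕ → List (List Bool)
  | 0 => [[]]
  | s + 1 => (strs s).flatMap fun l => [false :: l, true :: l]

theorem mem_strs {s : ℕ} {l : List Bool} : l ∈ strs s ↔ l.length = s := by
  induction s generalizing l with
  | zero => simp [strs]
  | succ s ih =>
    simp only [strs, List.mem_flatMap, List.mem_cons, List.not_mem_nil, or_false]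
    constructor
    · rintro ⟨l', hl', rfl | rfl⟩ <;> simp [ih.1 hl']
    · intro h
      cases l with
      | nil => simp at h
      | cons b l' =>
        refine ⟨l', ih.2 (by simpa using h), ?_⟩
        cases b <;> simp

theorem primrec_strs : Primrec strs := by
  have h : Primrec fun s : ℕ => (Nat.rec [[]] (fun _ ih =>
      ih.flatMap fun l => [false :: l, true :: l]) s : List (List Bool)) := by
    apply rec' (β := List (List Bool)) (g := fun _ => [[]])
      (h := fun _ _ (ih : List (List Bool)) => ih.flatMap fun l => [false :: l, true :: l])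
      (by fun_prop) (by fun_prop)
    apply flatMap' (g := fun (x : ℕ × ℕ × List (List Bool)) (l : List Bool) =>
      [false :: l, true :: l]) _ (by fun_prop)
    fun_prop
  refine h.of_eq fun s => ?_
  induction s with
  | zero => rfl
  | succ s ih => simp only [strs, ← ih]

section
variable (R : List ℕ × ℕ × List Bool → ℕ → Prop)

/-- stage `|σ|`: the string `τ` is seen to be outside of slice `k` -/
def Bad (σ : List ℕ) (k : ℕ) (τ : List Bool) : Prop :=
  ∃ m < σ.length, ∃ j < σ.length, ∃ c < σ.length, j ≤ τ.length ∧ R (σ.take m, k, τ.take j) c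

/-- stage `|σ|`: the slice `k` is seen to be empty -/
def Dead (σ : List ℕ) (k : ℕ) : Prop := ∀ τ ∈ strs σ.length, Bad R σ k τ

variable {R}

theorem primrec_bad (hR : PrimrecPred fun x : (List ℕ × ℕ × List Bool) × ℕ => R x.1 x.2) :
    PrimrecPred fun x : List ℕ × ℕ × List Bool => Bad R x.1 x.2.1 x.2.2 := by
  unfold Bad
  apply ex_lt (P := fun (x : List ℕ × ℕ × List Bool) m => ∃ j < x.1.length, ∃ c < x.1.length,
    j ≤ x.2.2.length ∧ R (x.1.take m, x.2.1, x.2.2.take j) c) _ (by fun_prop)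
  apply ex_lt (P := fun (y : (List ℕ × ℕ × List Bool) × ℕ) j => ∃ c < y.1.1.length,
    j ≤ y.1.2.2.length ∧ R (y.1.1.take y.2, y.1.2.1, y.1.2.2.take j) c) _ (by fun_prop)
  apply ex_lt (P := fun (y : ((List ℕ × ℕ × List Bool) × ℕ) × ℕ) c =>
    y.2 ≤ y.1.1.2.2.length ∧ R (y.1.1.1.take y.1.2, y.1.1.2.1, y.1.1.2.2.take y.2) c) _
    (by fun_prop)
  apply and' (by fun_prop)
  exact hR.comp (f := fun y : (((List ℕ × ℕ × List Bool) × ℕ) × ℕ) × ℕ =>
    ((y.1.1.1.1.take y.1.1.2, y.1.1.1.2.1, y.1.1.1.2.2.take y.1.2), y.2)) (by fun_prop)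

theorem primrec_dead (hR : PrimrecPred fun x : (List ℕ × ℕ × List Bool) × ℕ => R x.1 x.2) :
    PrimrecPred fun x : List ℕ × ℕ => Dead R x.1 x.2 := by
  unfold Dead
  apply all_mem (P := fun (x : List ℕ × ℕ) τ => Bad R x.1 x.2 τ)
  · exact (primrec_bad hR).comp (f := fun x : (List ℕ × ℕ) × List Bool =>
      (x.1.1, x.1.2, x.2)) (by fun_prop)
  · exact primrec_strs.comp (by fun_prop)

theorem bad_pre {p : ℕ → ℕ} {s k : ℕ} {τ : List Bool} : Bad R (pre p s) k τ ↔
    ∃ m < s, ∃ j < s, ∃ c < s, j ≤ τ.length ∧ R (pre p m, k, τ.take j) c := by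
  unfold Bad
  rw [pre_length]
  refine exists_congr fun m => and_congr_right fun hm => ?_
  rw [take_pre, min_eq_left hm.le]

theorem bad_mono {p : ℕ → ℕ} {s s' k : ℕ} {z : ℕ → Bool} {j j' : ℕ} (hs : s ≤ s') (hj : j ≤ j')
    (h : Bad R (pre p s) k (pre z j)) : Bad R (pre p s') k (pre z j') := by
  rw [bad_pre] at h ⊢
  obtain ⟨m, hm, i, hi, c, hc, h1, h2⟩ := h
  rw [pre_length] at h1
  refine ⟨m, by omega, i, by omega, c, by omega, by rw [pre_length]; omega, ?_⟩
  rw [take_pre, min_eq_left h1] at h2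
  rw [take_pre, min_eq_left (by omega)]
  exact h2

/-- extension of a string by `false` -/
def ext (τ : List Bool) : ℕ → Bool := fun i => τ.getD i false

theorem pre_ext (τ : List Bool) {j : ℕ} (hj : j ≤ τ.length) : pre (ext τ) j = τ.take j := by
  apply List.ext_getElem?
  intro i
  rw [pre_getElem?, List.getElem?_take]
  by_cases h : i < j
  · simp only [h, if_true, ext]
    rw [List.getD_eq_getElem _ _ (by omega), List.getElem?_eq_getElem (by omega)]
  · simp [h]

theorem isOpen_pre (P : List Bool → Prop) (s : ℕ) : IsOpen {z : ℕ → Bool | P (pre z s)} := by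
  rw [isOpen_iff_mem_nhds]
  intro z hz
  have h1 : IsOpen (⋂ i ∈ Finset.range s, {z' : ℕ → Bool | z' i = z i}) := by
    apply isOpen_biInter_finset
    intro i _
    have h2 : IsOpen ((fun z' : ℕ → Bool => z' i) ⁻¹' {z i}) :=
      (isOpen_discrete _).preimage (continuous_apply i)
    exact h2
  refine Filter.mem_of_superset (h1.mem_nhds (by simp)) ?_
  intro z' hz'
  have h2 : pre z' s = pre z s := by
    apply pre_congr
    intro i hi
    simp only [Finset.mem_range, mem_iInter] at hz'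
    exact hz' i hi
  show P (pre z' s)
  rw [h2]
  exact hz

theorem isClosed_pre (P : List Bool → Prop) (s : ℕ) : IsClosed {z : ℕ → Bool | P (pre z s)} := by
  rw [← isOpen_compl_iff]
  exact isOpen_pre (fun l => ¬ P l) s

theorem alive_point {p : ℕ → ℕ} {k : ℕ} (h : ∀ s, ¬ Dead R (pre p s) k) :
    ∃ z : ℕ → Bool, ∀ s j, ¬ Bad R (pre p s) k (pre z j) := by
  set F : ℕ → Set (ℕ → Bool) := fun s => {z | ¬ Bad R (pre p s) k (pre z s)} with hF
  have hne : ∀ s, (F s).Nonempty := by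
    intro s
    have h1 := h s
    unfold Dead at h1
    push Not at h1
    obtain ⟨τ, hτ, hbad⟩ := h1
    rw [mem_strs, pre_length] at hτ
    refine ⟨ext τ, ?_⟩
    show ¬ Bad R (pre p s) k (pre (ext τ) s)
    rw [pre_ext _ hτ.ge, ← hτ, List.take_length]
    rw [hτ]
    exact hbad
  have hclosed : ∀ s, IsClosed (F s) :=
    fun s => isClosed_pre (fun l => ¬ Bad R (pre p s) k l) s
  obtain ⟨z, hz⟩ := IsCompact.nonempty_iInter_of_sequence_nonempty_isCompact_isClosed F
    (fun s z hz hbad => hz (bad_mono (Nat.le_succ s) (Nat.le_succ s) hbad)) hne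
    (hclosed 0).isCompact hclosed
  refine ⟨z, fun s j hbad => ?_⟩
  rw [mem_iInter] at hz
  exact hz (max s j) (bad_mono (le_max_left _ _) (le_max_right _ _) hbad)

theorem slice_point (p : ℕ → ℕ) (k : ℕ) :
    ∃ z : ℕ → Bool, ∀ s j, Bad R (pre p s) k (pre z j) → Dead R (pre p s) k := by
  classical
  by_cases h : ∀ s, ¬ Dead R (pre p s) k
  · obtain ⟨z, hz⟩ := alive_point h
    exact ⟨z, fun s j hb => absurd hb (hz s j)⟩
  push Not at h
  have hmono : ∀ s s', s ≤ s' → Dead R (pre p s) k → Dead R (pre p s') k := by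
    intro s s' hs hd τ hτ
    rw [mem_strs, pre_length] at hτ
    have h1 := hd (τ.take s) (by rw [mem_strs, pre_length, List.length_take]; omega)
    rw [bad_pre] at h1 ⊢
    obtain ⟨m, hm, j, hj, c, hc, h2, h3⟩ := h1
    rw [List.length_take] at h2
    refine ⟨m, by omega, j, by omega, c, by omega, by omega, ?_⟩
    rwa [List.take_take, min_eq_left (by omega)] at h3
  obtain ⟨s0, hs0, hmin⟩ : ∃ s0, Dead R (pre p s0) k ∧ ∀ s < s0, ¬ Dead R (pre p s) k :=
    ⟨Nat.find h, Nat.find_spec h, fun s hs => Nat.find_min h hs⟩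
  have hpos : 0 < s0 := by
    rw [Nat.pos_iff_ne_zero]
    intro h0
    rw [h0] at hs0
    obtain ⟨m, hm, -⟩ := bad_pre.1 (hs0 [] (by rw [mem_strs, pre_length]; rfl))
    omega
  have h1 := hmin (s0 - 1) (by omega)
  unfold Dead at h1
  push Not at h1
  obtain ⟨τ, hτ, hbad⟩ := h1
  rw [mem_strs, pre_length] at hτ
  refine ⟨ext τ, fun s j hb => ?_⟩
  by_cases hs : s0 ≤ s
  · exact hmono _ _ hs hs0
  · exfalso
    apply hbad
    rw [bad_pre] at hb ⊢
    obtain ⟨m, hm, i, hi, c, hc, h2, h3⟩ := hb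
    rw [pre_length] at h2
    refine ⟨m, by omega, i, by omega, c, by omega, by omega, ?_⟩
    rw [take_pre, min_eq_left h2, pre_ext _ (by omega)] at h3
    exact h3

/-- slice `k` of a point of Cantor space -/
def slc (z : ℕ → Bool) (k : ℕ) : ℕ → Bool := fun i => z (Nat.pair k i)

/-- slice of a string -/
def slcL (τ : List Bool) (k j : ℕ) : List Bool :=
  (List.range j).map fun i => τ.getD (Nat.pair k i) false

theorem slcL_pre (z : ℕ → Bool) (m k j : ℕ) (h : ∀ i < j, Nat.pair k i < m) :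
    slcL (pre z m) k j = pre (slc z k) j := by
  unfold slcL
  conv_rhs => unfold pre
  apply List.map_congr_left
  intro i hi
  rw [List.mem_range] at hi
  rw [pre_getD _ _ _ _ (h i hi)]
  rfl

theorem choice_main {V : List ℕ × ℕ × List Bool → Prop} (hV : Sig1 V) :
    ∃ K : List ℕ × ℕ × ℕ → Prop, Sig1 K ∧ ∀ p : ℕ → ℕ,
      (∃ k, ∃ z : ℕ → Bool, ∀ m m', ¬ V (pre p m, k, pre z m')) →
      ∃ kk, ∃ A : (CN.prod CCantor).Src.Pt, Sends K p kk ∧ (CN.prod CCantor).Src.Names kk A ∧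
        (CN.prod CCantor).Dom A ∧ ∀ n z, (CN.prod CCantor).Val A (n, z) →
          ∀ m m', ¬ V (pre p m, n, pre (slc z n) m') := by
  obtain ⟨R, hR, hVR⟩ := hV
  -- the `C_ℕ` part
  obtain ⟨K₁, hK₁, hK₁'⟩ := enum_functional (fun x => Dead R x.1 x.2)
    (Sig1.of_prim (primrec_dead hR))
  -- the `C_{2^ℕ}` part
  set S₂ : List ℕ × ℕ → Prop := fun x => ∃ y : List Bool × ℕ × ℕ,
    Encodable.encode y.1 = x.2 ∧ (∀ i < y.2.2, Nat.pair y.2.1 i < y.1.length) ∧
    Bad R x.1 y.2.1 (slcL y.1 y.2.1 y.2.2) ∧ ¬ Dead R x.1 y.2.1 with hS₂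
  have hS₂s : Sig1 S₂ := by
    apply Sig1.ex (P := fun (x : List ℕ × ℕ) (y : List Bool × ℕ × ℕ) =>
      Encodable.encode y.1 = x.2 ∧ (∀ i < y.2.2, Nat.pair y.2.1 i < y.1.length) ∧
      Bad R x.1 y.2.1 (slcL y.1 y.2.1 y.2.2) ∧ ¬ Dead R x.1 y.2.1)
    apply Sig1.of_prim
    apply and' (by fun_prop)
    apply and'
    · apply all_lt (P := fun (x : (List ℕ × ℕ) × List Bool × ℕ × ℕ) i =>
        Nat.pair x.2.2.1 i < x.2.1.length) (by fun_prop) (by fun_prop)
    apply and'
    · have h1 : Primrec fun x : (List ℕ × ℕ) × List Bool × ℕ × ℕ =>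
          slcL x.2.1 x.2.2.1 x.2.2.2 := by
        unfold slcL
        apply map' (g := fun (x : (List ℕ × ℕ) × List Bool × ℕ × ℕ) i =>
          x.2.1.getD (Nat.pair x.2.2.1 i) false) (by fun_prop) (by fun_prop)
      exact (primrec_bad hR).comp (f := fun x : (List ℕ × ℕ) × List Bool × ℕ × ℕ =>
        (x.1.1, x.2.2.1, slcL x.2.1 x.2.2.1 x.2.2.2)) (by fun_prop)
    · apply not'
      exact (primrec_dead hR).comp (f := fun x : (List ℕ × ℕ) × List Bool × ℕ × ℕ =>
        (x.1.1, x.2.2.1)) (by fun_prop)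
  obtain ⟨K₂, hK₂, hK₂'⟩ := enum_functional S₂ hS₂s
  refine ⟨joinF K₁ K₂, joinF_sig hK₁ hK₂, ?_⟩
  intro p hp
  obtain ⟨k₁, hk₁, hk₁e⟩ := hK₁' p
  obtain ⟨k₂, hk₂, hk₂e⟩ := hK₂' p
  -- the two closed sets
  set A₁ : Set ℕ := {k | ∀ s, ¬ Dead R (pre p s) k} with hA₁
  set A₂ : Set (ℕ → Bool) := {z | ∀ s k j, Bad R (pre p s) k (pre (slc z k) j) →
    Dead R (pre p s) k} with hA₂
  have hA₂c : A₂ᶜ = ⋃ (i : ℕ) (e : ℕ) (_ : k₂ i = e + 1), cyl e := by
    ext z
    simp only [mem_iUnion]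
    constructor
    · intro hz
      have hz' : ¬ ∀ s k j, Bad R (pre p s) k (pre (slc z k) j) → Dead R (pre p s) k := hz
      push Not at hz'
      obtain ⟨s, k, j, hb, hd⟩ := hz'
      obtain ⟨m, hm⟩ : ∃ m, ∀ i < j, Nat.pair k i < m :=
        ⟨Nat.pair k j + 1, fun i hi => by
          have := Nat.pair_lt_pair_right k hi
          omega⟩
      have hS : S₂ (pre p s, Encodable.encode (pre z m)) := by
        refine ⟨(pre z m, k, j), rfl, ?_, ?_, hd⟩
        · simpa [pre_length] using hm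
        · simp only [slcL_pre z m k j hm]
          exact hb
      obtain ⟨i, hi⟩ := (hk₂e _).2 ⟨s, hS⟩
      exact ⟨i, _, hi, m, rfl⟩
    · rintro ⟨i, e, hie, m, hm⟩ hz
      obtain ⟨s, ⟨τ, k, j⟩, h1, h2, h3, h4⟩ := (hk₂e e).1 ⟨i, hie⟩
      simp only at h1 h2 h3 h4
      have hτ : τ = pre z m := Encodable.encode_injective (h1.trans hm.symm)
      subst hτ
      rw [pre_length] at h2
      rw [slcL_pre z m k j h2] at h3
      exact h4 (hz s k j h3)
  have hA₂closed : IsClosed A₂ := by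
    have : A₂ = ⋂ (s : ℕ) (k : ℕ) (j : ℕ), {z | Bad R (pre p s) k (pre (slc z k) j) →
        Dead R (pre p s) k} := by
      ext z; simp [hA₂]
    rw [this]
    refine isClosed_iInter fun s => isClosed_iInter fun k => isClosed_iInter fun j => ?_
    have hcont : Continuous fun z : ℕ → Bool => slc z k :=
      continuous_pi fun i => continuous_apply (Nat.pair k i)
    exact (isClosed_pre (fun l => Bad R (pre p s) k l → Dead R (pre p s) k) j).preimage hcont
  refine ⟨join k₁ k₂, (⟨A₁, isClosed_discrete _⟩, ⟨A₂, hA₂closed⟩), joinF_sends hk₁ hk₂,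
    ⟨?_, ?_⟩, ⟨?_, ?_⟩, ?_⟩
  · show A₁ᶜ = ⋃ (i : ℕ) (e : ℕ) (_ : join k₁ k₂ (2 * i) = e + 1), {e}
    ext k
    simp only [mem_iUnion, join_even, mem_singleton_iff]
    have : k ∈ A₁ᶜ ↔ ∃ s, Dead R (pre p s) k := by
      show ¬ (∀ s, ¬ Dead R (pre p s) k) ↔ _
      push Not
      rfl
    rw [this, ← hk₁e k]
    constructor
    · rintro ⟨i, hi⟩; exact ⟨i, k, hi, rfl⟩
    · rintro ⟨i, e, hi, rfl⟩; exact ⟨i, hi⟩
  · show A₂ᶜ = ⋃ (i : ℕ) (e : ℕ) (_ : join k₁ k₂ (2 * i + 1) = e + 1), cyl e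
    simp only [join_odd]
    exact hA₂c
  · obtain ⟨k, z, hz⟩ := hp
    refine ⟨k, fun s hd => ?_⟩
    have h1 := hd (pre z s) (by rw [mem_strs, pre_length, pre_length])
    obtain ⟨m, hm, j, hj, c, hc, h2, h3⟩ := bad_pre.1 h1
    rw [pre_length] at h2
    rw [take_pre, min_eq_left h2] at h3
    exact hz m j ((hVR _).2 ⟨c, h3⟩)
  · have h1 := slice_point (R := R) p
    choose zz hzz using h1
    refine ⟨fun n => zz n.unpair.1 n.unpair.2, ?_⟩
    intro s k j hb
    have h2 : slc (fun n => zz n.unpair.1 n.unpair.2) k = zz k := by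
      funext i
      simp [slc]
    rw [h2] at hb
    exact hzz k s j hb
  · rintro n z ⟨hn, hz⟩ m m' hVm
    have hn' : ∀ s, ¬ Dead R (pre p s) n := hn
    have hz' : ∀ s k j, Bad R (pre p s) k (pre (slc z k) j) → Dead R (pre p s) k := hz
    obtain ⟨c, hc⟩ := (hVR _).1 hVm
    apply hn' (max m (max m' c) + 1)
    apply hz' _ _ m'
    rw [bad_pre]
    refine ⟨m, by omega, m', by omega, c, by omega, by rw [pre_length], ?_⟩
    rw [take_pre, min_self]
    exact hc

end

end Pool.Agent.CMTW
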