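import Mathlib

set_option autoImplicit false

/-!
# A cubical Sperner lemma (iterated prisms, modulo 2)
-/

namespace Pool.Agent.CMTW.Sp

open List

/-- the faces of an ordered simplex -/
def faces {V : Type} : List V → List (List V)
  | [] => []
  | x :: l => l :: (faces l).map (x :: ·)

/-- the simplices of the prism over an ordered simplex (`A` bottom, `B` top) -/
def Pr {V : Type} (A B : V → V) : List V → List (List V)
  | [] => []
  | v :: l => (A v :: B v :: l.map B) :: (Pr A B l).map (A v :: ·)

theorem faces_map {V W : Type} (f : V → W) (l : List V) :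
    faces (l.map f) = (faces l).map (map f) := by
  induction l with
  | nil => rfl
  | cons x l ih =>
    simp only [map_cons, faces, ih, List.map_map, List.cons.injEq, true_and]
    rfl

/-- sum over a list modulo 2 -/
def S {W : Type} (φ : W → ZMod 2) (L : List W) : ZMod 2 := (L.map φ).sum

theorem S_cons {W : Type} (φ : W → ZMod 2) (x : W) (L : List W) :
    S φ (x :: L) = φ x + S φ L := by simp [S]
theorem S_nil {W : Type} (φ : W → ZMod 2) : S φ [] = 0 := rfl
theorem S_append {W : Type} (φ : W → ZMod 2) (L L' : List W) :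
    S φ (L ++ L') = S φ L + S φ L' := by simp [S]
theorem S_map {W W' : Type} (φ : W → ZMod 2) (f : W' → W) (L : List W') :
    S φ (L.map f) = S (fun x => φ (f x)) L := by
  simp only [S, List.map_map]; rfl
theorem S_flatMap {W W' : Type} (φ : W → ZMod 2) (f : W' → List W) (L : List W') :
    S φ (L.flatMap f) = S (fun x => S φ (f x)) L := by
  induction L with
  | nil => rfl
  | cons x L ih => simp [S_cons, S_append, ih]
theorem S_add {W : Type} (φ ψ : W → ZMod 2) (L : List W) :
    S (fun x => φ x + ψ x) L = S φ L + S ψ L := by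
  induction L with
  | nil => rfl
  | cons x L ih => rw [S_cons, S_cons, S_cons, ih]; ring
theorem S_zero {W : Type} {φ : W → ZMod 2} {L : List W} (h : ∀ x ∈ L, φ x = 0) : S φ L = 0 := by
  induction L with
  | nil => rfl
  | cons x L ih =>
    rw [S_cons, h x (by simp), ih fun y hy => h y (by simp [hy])]; rfl
theorem S_congr {W : Type} {φ ψ : W → ZMod 2} {L : List W} (h : ∀ x ∈ L, φ x = ψ x) :
    S φ L = S ψ L := by
  induction L with
  | nil => rfl
  | cons x L ih =>
    rw [S_cons, S_cons, h x (by simp), ih fun y hy => h y (by simp [hy])]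
theorem S_comm {W W' : Type} (φ : W → W' → ZMod 2) (L : List W) (L' : List W') :
    S (fun x => S (fun y => φ x y) L') L = S (fun y => S (fun x => φ x y) L) L' := by
  induction L with
  | nil => rw [S_nil]; exact (S_zero fun _ _ => rfl).symm
  | cons x L ih =>
    rw [S_cons, ih, ← S_add]
    rfl

theorem two_self (x : ZMod 2) : x + x = 0 := CharTwo.add_self_eq_zero x

/-- boundary of a prism -/
theorem prism_bd {V : Type} (A B : V → V) (l : List V) : ∀ φ : List V → ZMod 2,
    S (fun s => S φ (faces s)) (Pr A B l) =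
      φ (l.map A) + φ (l.map B) + S (fun f => S φ (Pr A B f)) (faces l) := by
  induction l with
  | nil =>
    intro φ
    simp only [Pr, faces, S_nil, map_nil, two_self, add_zero]
  | cons v l ih =>
    intro φ
    have h1 : S (fun s => S φ (faces s)) (Pr A B (v :: l)) =
        (φ ((v :: l).map B) + (φ (A v :: l.map B) +
          S (fun f => φ (A v :: B v :: f.map B)) (faces l))) +
        (S φ (Pr A B l) + S (fun s => S (fun f => φ (A v :: f)) (faces s)) (Pr A B l)) := by
      simp only [Pr, S_cons, faces, S_map, map_cons, faces_map]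
      rw [S_add]
    rw [h1, ih fun f => φ (A v :: f)]
    have h2 : S (fun f => S φ (Pr A B f)) (faces (v :: l)) =
        S φ (Pr A B l) + (S (fun f => φ (A v :: B v :: f.map B)) (faces l) +
          S (fun f => S (fun s => φ (A v :: s)) (Pr A B f)) (faces l)) := by
      simp only [faces, S_cons, S_map, Pr]
      rw [S_add]
    rw [h2]
    have h3 := two_self (φ (A v :: l.map B))
    simp only [map_cons]
    linear_combination h3

/-! ### labels -/

/-- is the list of labels a permutation of `0, ..., m` -/
def rb (m : ℕ) (L : List ℕ) : ZMod 2 := if L.Perm (List.range (m + 1)) then 1 else 0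

theorem faces_forall₂ {V : Type} (L : List V) :
    List.Forall₂ (fun x f => L.Perm (x :: f)) L (faces L) := by
  induction L with
  | nil => exact .nil
  | cons y l ih =>
    simp only [faces]
    refine .cons (Perm.refl _) ?_
    rw [forall₂_map_right_iff]
    refine ih.imp ?_
    intro x f h
    exact (h.cons y).trans (Perm.swap x y f)

theorem S_forall₂ {V W : Type} {R : V → W → Prop} {φ : V → ZMod 2} {ψ : W → ZMod 2}
    {L : List V} {M : List W} (h : List.Forall₂ R L M) (hR : ∀ x y, R x y → φ x = ψ y) :
    S φ L = S ψ M := by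
  induction h with
  | nil => rfl
  | cons h _ ih => rw [S_cons, S_cons, hR _ _ h, ih]

theorem S_ind (L : List ℕ) (x0 : ℕ) :
    S (fun x => if x = x0 then (1 : ZMod 2) else 0) L = (L.count x0 : ZMod 2) := by
  induction L with
  | nil => rfl
  | cons y l ih =>
    rw [S_cons, ih, List.count_cons]
    by_cases h : y = x0
    · subst h; simp [add_comm]
    · have h' : ¬ (y == x0) = true := by simpa using h
      simp [h]

theorem label_lemma (m : ℕ) (L : List ℕ) (hL : ∀ x ∈ L, x ≤ m + 1) :
    S (rb m) (faces L) = rb (m + 1) L := by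
  have h1 : S (rb m) (faces L) =
      S (fun x => if L.Perm (x :: List.range (m + 1)) then (1 : ZMod 2) else 0) L := by
    symm
    apply S_forall₂ (faces_forall₂ L)
    intro x f h
    unfold rb
    have : L.Perm (x :: List.range (m + 1)) ↔ f.Perm (List.range (m + 1)) := by
      constructor
      · intro h'
        exact (List.perm_cons x).1 (h.symm.trans h')
      · intro h'
        exact h.trans (h'.cons x)
    simp only [this]
  have h2 : (List.range (m + 1 + 1)).Perm ((m + 1) :: List.range (m + 1)) := by
    rw [List.range_succ (n := m + 1)]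
    exact List.perm_append_singleton _ _
  rw [h1]
  by_cases hex : ∃ x0, L.Perm (x0 :: List.range (m + 1))
  · obtain ⟨x0, hx0⟩ := hex
    have huniq : ∀ x, L.Perm (x :: List.range (m + 1)) ↔ x = x0 := by
      intro x
      constructor
      · intro h
        have h3 := hx0.symm.trans h
        have h4 : (↑(x0 :: List.range (m + 1)) : Multiset ℕ) = ↑(x :: List.range (m + 1)) :=
          Multiset.coe_eq_coe.2 h3
        rw [← Multiset.cons_coe, ← Multiset.cons_coe, Multiset.cons_inj_left] at h4
        exact h4.symm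
      · rintro rfl; exact hx0
    have h3 : S (fun x => if L.Perm (x :: List.range (m + 1)) then (1 : ZMod 2) else 0) L =
        S (fun x => if x = x0 then (1 : ZMod 2) else 0) L := by
      apply S_congr
      intro x _
      simp only [huniq]
    rw [h3, S_ind, hx0.count_eq, List.count_cons_self]
    have hle : x0 ≤ m + 1 := hL x0 (hx0.symm.subset (by simp))
    have hrb : rb (m + 1) L = if x0 = m + 1 then 1 else 0 := by
      unfold rb
      have : L.Perm (List.range (m + 1 + 1)) ↔ x0 = m + 1 := by
        constructor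
        · intro h
          exact ((huniq (m + 1)).1 (h.trans h2)).symm
        · rintro h
          subst h
          exact hx0.trans h2.symm
      simp only [this]
    rw [hrb]
    by_cases h : x0 = m + 1
    · subst h
      have : List.count (m + 1) (List.range (m + 1)) = 0 := by
        rw [List.count_eq_zero]; simp
      rw [this]; simp
    · have : List.count x0 (List.range (m + 1)) = 1 := by
        apply List.count_eq_one_of_mem (List.nodup_range)
        rw [List.mem_range]; omega
      rw [this, if_neg h]
      decide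
  · push Not at hex
    rw [S_zero fun x _ => if_neg (hex x)]
    unfold rb
    rw [if_neg]
    intro h
    exact hex _ (h.trans h2)

/-! ### the chain of the cube -/

variable (K : ℕ)

/-- set coordinate `m` to `t` -/
def up (m t : ℕ) (v : ℕ → ℕ) : ℕ → ℕ := Function.update v m t

theorem up_same (m t : ℕ) (v : ℕ → ℕ) : up m t v m = t := Function.update_self _ _ _
theorem up_ne {m t : ℕ} {v : ℕ → ℕ} {i : ℕ} (h : i ≠ m) : up m t v i = v i :=
  Function.update_of_ne h _ _

/-- the chain of the cube `{0, ..., K} ^ m` -/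
def z : ℕ → List (List (ℕ → ℕ))
  | 0 => [[fun _ => 0]]
  | m + 1 => (z m).flatMap fun l => (List.range K).flatMap fun t => Pr (up m t) (up m (t + 1)) l

/-- contained in a facet of the cube -/
def Bd (m : ℕ) (ρ : List (ℕ → ℕ)) : Prop :=
  ∃ i < m, (∀ v ∈ ρ, v i = 0) ∨ (∀ v ∈ ρ, v i = K)

theorem mem_Pr {V : Type} {A B : V → V} {l s : List V} (hs : s ∈ Pr A B l) :
    ∀ w ∈ s, ∃ v ∈ l, w = A v ∨ w = B v := by
  induction l generalizing s with
  | nil => simp [Pr] at hs
  | cons v l ih =>
    simp only [Pr, mem_cons, mem_map] at hs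
    rcases hs with rfl | ⟨s', hs', rfl⟩
    · intro w hw
      simp only [mem_cons, mem_map] at hw
      rcases hw with rfl | rfl | ⟨u, hu, rfl⟩
      · exact ⟨v, by simp, Or.inl rfl⟩
      · exact ⟨v, by simp, Or.inr rfl⟩
      · exact ⟨u, by simp [hu], Or.inr rfl⟩
    · intro w hw
      rcases mem_cons.1 hw with rfl | hw
      · exact ⟨v, by simp, Or.inl rfl⟩
      · obtain ⟨u, hu, hw⟩ := ih hs' w hw
        exact ⟨u, by simp [hu], hw⟩

theorem telescope (f : ℕ → ZMod 2) (n : ℕ) :
    S (fun t => f t + f (t + 1)) (List.range n) = f 0 + f n := by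
  induction n with
  | zero => simp only [List.range_zero, S_nil, two_self]
  | succ n ih =>
    rw [List.range_succ, S_append, ih, S_cons, S_nil]
    have := two_self (f n)
    linear_combination this

theorem sum_succ (m : ℕ) (φ : List (ℕ → ℕ) → ZMod 2) :
    S (fun l => S φ (faces l)) (z K (m + 1)) =
      S (fun l => φ (l.map (up m 0)) + φ (l.map (up m K))) (z K m) +
      S (fun l => S (fun f => S (fun t => S φ (Pr (up m t) (up m (t + 1)) f)) (List.range K))
        (faces l)) (z K m) := by
  rw [← S_add]
  simp only [z, S_flatMap]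
  apply S_congr
  intro l _
  simp only [prism_bd]
  rw [S_add, telescope (fun t => φ (l.map (up m t)))]
  rw [S_comm]

theorem bd_zero (m : ℕ) : ∀ φ : List (ℕ → ℕ) → ZMod 2, φ [] = 0 → (∀ ρ, Bd K m ρ → φ ρ = 0) →
    S (fun l => S φ (faces l)) (z K m) = 0 := by
  induction m with
  | zero =>
    intro φ h _
    simp [z, faces, S_cons, S_nil, h]
  | succ m ih =>
    intro φ h hφ
    rw [sum_succ, ih]
    · rw [S_zero, add_zero]
      intro l _
      rw [hφ, hφ, add_zero]
      · exact ⟨m, by omega, Or.inr fun v hv => by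
          obtain ⟨u, -, rfl⟩ := mem_map.1 hv; exact up_same _ _ _⟩
      · exact ⟨m, by omega, Or.inl fun v hv => by
          obtain ⟨u, -, rfl⟩ := mem_map.1 hv; exact up_same _ _ _⟩
    · apply S_zero
      intro t _
      rfl
    · rintro ρ ⟨i, hi, hρ⟩
      apply S_zero
      intro t _
      apply S_zero
      intro s hs
      apply hφ
      refine ⟨i, by omega, ?_⟩
      rcases hρ with hρ | hρ
      · left
        intro w hw
        obtain ⟨v, hv, rfl | rfl⟩ := mem_Pr hs w hw <;> rw [up_ne (by omega)] <;> exact hρ v hv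
      · right
        intro w hw
        obtain ⟨v, hv, rfl | rfl⟩ := mem_Pr hs w hw <;> rw [up_ne (by omega)] <;> exact hρ v hv

theorem odd_z (m : ℕ) : ∀ ℓ : (ℕ → ℕ) → ℕ, (∀ v, ℓ v ≤ m) →
    (∀ v, ∀ i < m, v i = 0 → ℓ v ≠ i + 1) → (∀ v, ∀ i < m, v i = K → ℓ v ≠ 0) →
    S (fun l => rb m (l.map ℓ)) (z K m) = 1 := by
  induction m with
  | zero =>
    intro ℓ h _ _
    have h0 : ℓ (fun _ => 0) = 0 := Nat.le_zero.1 (h _)
    simp [z, S_cons, S_nil, rb, h0]
  | succ m ih =>
    intro ℓ h1 h2 h3
    have hz1 : ∀ (L : List ℕ) (a : ℕ), a ≤ m → a ∉ L → rb m L = 0 := by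
      intro L a ha hL
      unfold rb
      rw [if_neg]
      intro h
      apply hL
      rw [h.mem_iff, List.mem_range]
      omega
    have e1 : S (fun l => rb (m + 1) (l.map ℓ)) (z K (m + 1)) =
        S (fun l => S (fun ρ => rb m (ρ.map ℓ)) (faces l)) (z K (m + 1)) := by
      apply S_congr
      intro l _
      rw [← label_lemma m (l.map ℓ), faces_map, S_map]
      intro x hx
      obtain ⟨v, -, rfl⟩ := mem_map.1 hx
      exact h1 v
    have e2 : S (fun l => S (fun f => S (fun t => S (fun ρ => rb m (ρ.map ℓ))
        (Pr (up m t) (up m (t + 1)) f)) (List.range K)) (faces l)) (z K m) = 0 := by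
      apply bd_zero
      · apply S_zero
        intro t _
        rfl
      · rintro ρ ⟨i, hi, hρ⟩
        apply S_zero
        intro t _
        apply S_zero
        intro s hs
        rcases hρ with hρ | hρ
        · apply hz1 _ (i + 1) (by omega)
          intro hmem
          obtain ⟨w, hw, hℓ⟩ := mem_map.1 hmem
          refine h2 w i (by omega) ?_ hℓ
          obtain ⟨v, hv, rfl | rfl⟩ := mem_Pr hs w hw <;> rw [up_ne (by omega)] <;> exact hρ v hv
        · apply hz1 _ 0 (by omega)
          intro hmem
          obtain ⟨w, hw, hℓ⟩ := mem_map.1 hmem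
          refine h3 w i (by omega) ?_ hℓ
          obtain ⟨v, hv, rfl | rfl⟩ := mem_Pr hs w hw <;> rw [up_ne (by omega)] <;> exact hρ v hv
    rw [e1, sum_succ, e2, add_zero]
    have e3 : S (fun l => rb m ((l.map (up m 0)).map ℓ) + rb m ((l.map (up m K)).map ℓ)) (z K m) =
        S (fun l => rb m (l.map fun v => ℓ (up m 0 v))) (z K m) := by
      apply S_congr
      intro l _
      rw [hz1 ((l.map (up m K)).map ℓ) 0 (by omega), add_zero, List.map_map]
      · rfl
      · intro hmem
        obtain ⟨w, hw, hℓ⟩ := mem_map.1 hmem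
        obtain ⟨v, -, rfl⟩ := mem_map.1 hw
        exact h3 _ m (by omega) (up_same _ _ _) hℓ
    rw [e3]
    apply ih
    · intro v
      have h4 := h1 (up m 0 v)
      have h5 := h2 (up m 0 v) m (by omega) (up_same _ _ _)
      omega
    · intro v i hi hv
      exact h2 _ i (by omega) (by rw [up_ne (by omega)]; exact hv)
    · intro v i hi hv
      exact h3 _ i (by omega) (by rw [up_ne (by omega)]; exact hv)

theorem z_prop (m : ℕ) : ∀ l ∈ z K m, (∀ v ∈ l, ∀ i, v i ≤ K) ∧
    ∀ u ∈ l, ∀ v ∈ l, ∀ i, u i ≤ v i + 1 := by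
  induction m with
  | zero =>
    intro l hl
    simp only [z, mem_cons, not_mem_nil, or_false] at hl
    subst hl
    simp
  | succ m ih =>
    intro l hl
    simp only [z, mem_flatMap, List.mem_range] at hl
    obtain ⟨l', hl', t, ht, hl⟩ := hl
    obtain ⟨h1, h2⟩ := ih l' hl'
    constructor
    · intro w hw i
      obtain ⟨v, hv, rfl | rfl⟩ := mem_Pr hl w hw
      · by_cases hi : i = m
        · subst hi; rw [up_same]; omega
        · rw [up_ne hi]; exact h1 v hv i
      · by_cases hi : i = m
        · subst hi; rw [up_same]; omega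
        · rw [up_ne hi]; exact h1 v hv i
    · intro w hw w' hw' i
      obtain ⟨v, hv, hwv⟩ := mem_Pr hl w hw
      obtain ⟨v', hv', hwv'⟩ := mem_Pr hl w' hw'
      by_cases hi : i = m
      · subst hi
        rcases hwv with rfl | rfl <;> rcases hwv' with rfl | rfl <;>
          simp only [up_same] <;> omega
      · have := h2 v hv v' hv' i
        rcases hwv with rfl | rfl <;> rcases hwv' with rfl | rfl <;>
          simp only [up_ne hi] <;> exact this

/-- **Cubical Sperner lemma.** -/
theorem sperner (m : ℕ) (ℓ : (ℕ → ℕ) → ℕ) (h1 : ∀ v, ℓ v ≤ m)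
    (h2 : ∀ v, ∀ i < m, v i = 0 → ℓ v ≠ i + 1) (h3 : ∀ v, ∀ i < m, v i = K → ℓ v ≠ 0) :
    ∃ l : List (ℕ → ℕ), (∀ v ∈ l, ∀ i, v i ≤ K) ∧ (∀ u ∈ l, ∀ v ∈ l, ∀ i, u i ≤ v i + 1) ∧
      ∀ a ≤ m, ∃ v ∈ l, ℓ v = a := by
  by_contra hcon
  push Not at hcon
  have h := odd_z K m ℓ h1 h2 h3
  rw [S_zero] at h
  · exact zero_ne_one h
  · intro l hl
    obtain ⟨h4, h5⟩ := z_prop K m l hl
    obtain ⟨a, ha, hne⟩ := hcon l h4 h5
    unfold rb
    rw [if_neg]
    intro hp
    have : a ∈ l.map ℓ := by
      rw [hp.mem_iff, List.mem_range]; omega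
    obtain ⟨v, hv, hva⟩ := mem_map.1 this
    exact hne v hv hva

end Pool.Agent.CMTW.Sp
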