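import Pool.Agent.Lib_fca3ff.Thin
import Pool.Agent.Lib_fca3ff.Sperner

set_option autoImplicit false

/-!
# The cube of dimension `n` has covering dimension at least `n`
-/

namespace Pool.Agent.CMTW

open Set

/-- grid points -/
noncomputable def gp (N : ℕ) (v : ℕ → ℕ) : Q := fun i =>
  ⟨(min (v i) (2 ^ N) : ℕ) / 2 ^ N, by positivity, by
    rw [div_le_one (two_pow_pos' N)]
    exact_mod_cast min_le_right _ _⟩

theorem gp_zero {N : ℕ} {v : ℕ → ℕ} {i : ℕ} (h : v i = 0) : (gp N v i : ℝ) = 0 := by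
  simp [gp, h]

theorem gp_one {N : ℕ} {v : ℕ → ℕ} {i : ℕ} (h : v i = 2 ^ N) : (gp N v i : ℝ) = 1 := by
  have := two_pow_pos' N
  simp [gp, h]

theorem gp_near {N : ℕ} {u v : ℕ → ℕ} (h : ∀ i, u i ≤ v i + 1) (h' : ∀ i, v i ≤ u i + 1) :
    NearB N (gp N u) (gp N v) := by
  intro i _
  have hp := two_pow_pos' N
  have h1 : |(gp N u i : ℝ) - gp N v i| * 2 ^ N =
      |((min (u i) (2 ^ N) : ℕ) : ℝ) - ((min (v i) (2 ^ N) : ℕ) : ℝ)| := by
    simp only [gp]
    rw [← sub_div, abs_div, abs_of_pos hp]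
    field_simp
  rw [h1, abs_le]
  have h2 : min (u i) (2 ^ N) ≤ min (v i) (2 ^ N) + 1 := by have := h i; omega
  have h3 : min (v i) (2 ^ N) ≤ min (u i) (2 ^ N) + 1 := by have := h' i; omega
  have h2' : ((min (u i) (2 ^ N) : ℕ) : ℝ) ≤ ((min (v i) (2 ^ N) : ℕ) : ℝ) + 1 := by
    exact_mod_cast h2
  have h3' : ((min (v i) (2 ^ N) : ℕ) : ℝ) ≤ ((min (u i) (2 ^ N) : ℕ) : ℝ) + 1 := by
    exact_mod_cast h3
  constructor <;> linarith

theorem not_covDimLT_cube {n : ℕ} (ι : ℕ → ℕ) (g : Q → Q) (hg : Continuous g)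
    (hι : ∀ t, ∀ i < n, g t (ι i) = t i) {Z : Set Q} (hZ : ∀ t, g t ∈ Z) :
    ¬ CovDimLT Z n := by
  classical
  intro hdim
  set US : Finset ℕ → Set Z := fun s => {x | ∀ i < n, (i ∈ s → (1 / 3 : ℝ) < x.1 (ι i)) ∧
    (i ∉ s → (x.1 (ι i) : ℝ) < 2 / 3)} with hUS
  have hcoord : ∀ j, Continuous fun x : Z => (x.1 j : ℝ) := fun j =>
    continuous_subtype_val.comp ((continuous_apply j).comp continuous_subtype_val)
  have hUSo : ∀ s, IsOpen (US s) := by
    intro s
    have : US s = ⋂ i ∈ Finset.range n, {x : Z | (i ∈ s → (1 / 3 : ℝ) < x.1 (ι i)) ∧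
        (i ∉ s → (x.1 (ι i) : ℝ) < 2 / 3)} := by
      ext x; simp [hUS]
    rw [this]
    apply isOpen_biInter_finset
    intro i _
    by_cases hi : i ∈ s
    · simp only [hi, true_imp_iff, not_true, false_imp_iff, and_true]
      exact isOpen_lt continuous_const (hcoord _)
    · simp only [hi, true_imp_iff, false_imp_iff, not_false_iff, true_and]
      exact isOpen_lt (hcoord _) continuous_const
  obtain ⟨𝒱, hfin, hopen, hcov, href, hord⟩ := hdim
    (US '' {s | s ∈ (Finset.range n).powerset})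
    (Finite.image _ ((Finset.range n).powerset.finite_toSet))
    (by
      rintro _ ⟨s, -, rfl⟩
      exact hUSo s)
    (by
      rw [eq_univ_iff_forall]
      intro x
      refine ⟨_, ⟨(Finset.range n).filter fun i => (1 / 3 : ℝ) < x.1 (ι i), ?_, rfl⟩, ?_⟩
      · rw [Set.mem_ofPred_eq, Finset.mem_powerset]
        exact Finset.filter_subset _ _
      · intro i hi
        constructor
        · intro h
          exact (Finset.mem_filter.1 h).2
        · intro h
          rw [Finset.mem_filter, not_and] at h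
          have := h (Finset.mem_range.2 hi)
          linarith)
  -- the Lebesgue number
  have hgc : Continuous fun t : Q => (⟨g t, hZ t⟩ : Z) := hg.subtype_mk _
  obtain ⟨N, hN⟩ := lebesgue (K := univ) isClosed_univ
    (U := fun V : 𝒱 => {t : Q | (⟨g t, hZ t⟩ : Z) ∈ V.1})
    (fun V => (hopen V.1 V.2).preimage hgc) (by
      intro t _
      obtain ⟨V, hV, hyV⟩ : ∃ V ∈ 𝒱, (⟨g t, hZ t⟩ : Z) ∈ V := by
        have : (⟨g t, hZ t⟩ : Z) ∈ ⋃₀ 𝒱 := by rw [hcov]; trivial
        exact this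
      exact mem_iUnion.2 ⟨⟨V, hV⟩, hyV⟩)
  have hch : ∀ v : ℕ → ℕ, ∃ V : 𝒱, ∀ s, NearB N (gp N v) s → (⟨g s, hZ s⟩ : Z) ∈ V.1 := fun v =>
    hN (gp N v) (mem_univ _)
  choose V hV using hch
  have hself : ∀ v, (⟨g (gp N v), hZ _⟩ : Z) ∈ (V v).1 := fun v =>
    hV v _ (gp_near (fun i => by omega) (fun i => by omega))
  -- colours
  set col : Set Z → ℕ := fun W => if h : ∃ i, i < n ∧ ∃ x ∈ W, (x.1 (ι i) : ℝ) = 1 then
    Nat.find h + 1 else 0 with hcol
  have hc1 : ∀ W, col W ≤ n := by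
    intro W
    simp only [hcol]
    split_ifs with h
    · exact (Nat.find_spec h).1
    · omega
  have hc2 : ∀ v, ∀ i < n, v i = 0 → col (V v).1 ≠ i + 1 := by
    intro v i hi hv hc
    simp only [hcol] at hc
    split_ifs at hc with h
    have hfi : Nat.find h = i := by omega
    obtain ⟨-, x, hx, hx1⟩ := Nat.find_spec h
    rw [hfi] at hx1
    obtain ⟨_, ⟨s, -, rfl⟩, hVs⟩ := href (V v).1 (V v).2
    have h1 := (hVs hx) i hi
    have h2 := (hVs (hself v)) i hi
    have h3 : (g (gp N v) (ι i) : ℝ) = 0 := by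
      rw [hι _ i hi]; exact gp_zero hv
    by_cases his : i ∈ s
    · have := h2.1 his
      simp only at this
      rw [h3] at this
      norm_num at this
    · have := h1.2 his
      rw [hx1] at this
      norm_num at this
  have hc3 : ∀ v, ∀ i < n, v i = 2 ^ N → col (V v).1 ≠ 0 := by
    intro v i hi hv hc
    simp only [hcol] at hc
    split_ifs at hc with h
    apply h
    refine ⟨i, hi, _, hself v, ?_⟩
    show (g (gp N v) (ι i) : ℝ) = 1
    rw [hι _ i hi]; exact gp_one hv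
  obtain ⟨l, -, hadj, hl⟩ := Sp.sperner (2 ^ N) n (fun v => col (V v).1) (fun v => hc1 _) hc2 hc3
  choose! w hw hwc using hl
  have hx : ∀ a ≤ n, (⟨g (gp N (w 0)), hZ _⟩ : Z) ∈ (V (w a)).1 := by
    intro a ha
    apply hV
    exact gp_near (hadj _ (hw a ha) _ (hw 0 (by omega))) (hadj _ (hw 0 (by omega)) _ (hw a ha))
  have h1 := hord ⟨g (gp N (w 0)), hZ _⟩
  have h2 : (Iio (n + 1)).encard ≤
      {W | W ∈ 𝒱 ∧ (⟨g (gp N (w 0)), hZ _⟩ : Z) ∈ W}.encard := by
    apply encard_le_encard_of_injOn (f := fun a => (V (w a)).1)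
    · intro a ha
      rw [mem_Iio] at ha
      exact ⟨(V (w a)).2, hx a (by omega)⟩
    · intro a ha b hb hab
      rw [mem_Iio] at ha hb
      have h3 : col (V (w a)).1 = col (V (w b)).1 := congrArg col hab
      rwa [hwc a (by omega), hwc b (by omega)] at h3
  have h3 : (Iio (n + 1)).encard = ((n + 1 : ℕ) : ℕ∞) := by
    have : (Iio (n + 1) : Set ℕ) = ((Finset.range (n + 1) : Finset ℕ) : Set ℕ) := by
      ext x; simp
    rw [this, encard_coe_eq_coe_finsetCard, Finset.card_range]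
  rw [h3] at h2
  have h4 := h2.trans h1
  have h5 : n + 1 ≤ n := by exact_mod_cast h4
  omega

end Pool.Agent.CMTW
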