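import Mathlib

set_option autoImplicit false

/-!
# Weihrauch reducibility, closed sets with negative information, the Cantor manifold theorem

Names are elements of Baire space `ℕ → ℕ`.
-/

namespace Pool.Agent.CMTW

open Set TopologicalSpace

/-! ### Computable functionals on Baire space -/

/-- The list of the first `m` values of `p`. -/
def pre {α : Type} (p : ℕ → α) (m : ℕ) : List α := (List.range m).map p

/-- A set `W` of axioms `(σ, n, v)` (meaning: if the input extends `σ` then the `n`-th value of the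
output is `v`) defines a partial functional on Baire space; `Sends W p q` says that this functional
is defined at `p` and has the value `q` there.  The computable partial functionals are those given
by recursively enumerable sets of axioms. -/
def Sends (W : List ℕ × ℕ × ℕ → Prop) (p q : ℕ → ℕ) : Prop :=
  ∀ n v, (∃ m, W (pre p m, n, v)) ↔ v = q n

/-- The pairing of two names: `p` at the even places and `q` at the odd places. -/
def join (p q : ℕ → ℕ) : ℕ → ℕ := fun n => if n % 2 = 0 then p (n / 2) else q (n / 2)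

/-! ### Represented spaces, multi-valued functions, Weihrauch reducibility -/

/-- A represented space: `Names p x` says that `p` is a name of the point `x`; every name names
only one point, and every point has a name (that is, `Names` is the graph of a partial surjection
from Baire space onto the space). -/
structure RepSpace where
  /-- the points -/
  Pt : Type
  /-- `p` is a name of `x` -/
  Names : (ℕ → ℕ) → Pt → Prop
  /-- a name determines the point -/
  single : ∀ p x y, Names p x → Names p y → x = y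
  /-- every point has a name -/
  onto : ∀ x, ∃ p, Names p x

/-- A multi-valued function between represented spaces, with its domain. -/
structure MultiFun where
  /-- the space of the arguments -/
  Src : RepSpace
  /-- the space of the values -/
  Tgt : RepSpace
  /-- the domain -/
  Dom : Src.Pt → Prop
  /-- `Val x y`: `y` is one of the values at `x` -/
  Val : Src.Pt → Tgt.Pt → Prop

/-- Weihrauch reducibility `f ≤_W g`: there are computable functionals `K` and `H` such that, for
every name `p` of a point `x` of the domain of `f`, the functional `K` sends `p` to a name `k` of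
a point `u` of the domain of `g`, and for every name `r` of every value `v` of `g` at `u`, the
functional `H` sends the pair of `p` and `r` to a name of some value of `f` at `x`. -/
def MultiFun.WLE (f g : MultiFun) : Prop :=
  ∃ K H : List ℕ × ℕ × ℕ → Prop, REPred K ∧ REPred H ∧
    ∀ p x, f.Src.Names p x → f.Dom x →
      ∃ k u, Sends K p k ∧ g.Src.Names k u ∧ g.Dom u ∧
        ∀ r v, g.Tgt.Names r v → g.Val u v →
          ∃ q y, Sends H (join p r) q ∧ f.Tgt.Names q y ∧ f.Val x y

/-- Weihrauch equivalence. -/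
def MultiFun.WEquiv (f g : MultiFun) : Prop := f.WLE g ∧ g.WLE f

/-- The product of two represented spaces. -/
def RepSpace.prod (X Y : RepSpace) : RepSpace where
  Pt := X.Pt × Y.Pt
  Names r x := X.Names (fun n => r (2 * n)) x.1 ∧ Y.Names (fun n => r (2 * n + 1)) x.2
  single := fun p x y hx hy =>
    Prod.ext (X.single _ _ _ hx.1 hy.1) (Y.single _ _ _ hx.2 hy.2)
  onto := by
    rintro ⟨x, y⟩
    obtain ⟨p, hp⟩ := X.onto x
    obtain ⟨q, hq⟩ := Y.onto y
    refine ⟨join p q, ?_, ?_⟩
    · have : (fun n => join p q (2 * n)) = p := by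
        funext n
        have h1 : 2 * n % 2 = 0 := by omega
        have h2 : 2 * n / 2 = n := by omega
        simp only [join, h1, h2, if_true]
      rw [this]; exact hp
    · have : (fun n => join p q (2 * n + 1)) = q := by
        funext n
        have h1 : (2 * n + 1) % 2 = 1 := by omega
        have h2 : (2 * n + 1) / 2 = n := by omega
        simp [join, h1, h2]
      rw [this]; exact hq

/-- The product of two multi-valued functions: solve one instance of each. -/
def MultiFun.prod (f g : MultiFun) : MultiFun where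
  Src := f.Src.prod g.Src
  Tgt := f.Tgt.prod g.Tgt
  Dom x := f.Dom x.1 ∧ g.Dom x.2
  Val x y := f.Val x.1 y.1 ∧ g.Val x.2 y.2

/-! ### Closed sets with negative information, closed choice -/

/-- The closed subsets of a space with a numbered base `B`, with negative information: `p` is a
name of `A` if the sets `B e` with `e + 1` in the range of `p` have the union `Aᶜ`. -/
def negSpace (X : Type) [TopologicalSpace X] (B : ℕ → Set X)
    (hB : ∀ (U : Set X) (x : X), IsOpen U → x ∈ U → ∃ e, x ∈ B e ∧ B e ⊆ U) : RepSpace where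
  Pt := Closeds X
  Names p A := (A : Set X)ᶜ = ⋃ (i : ℕ) (e : ℕ) (_ : p i = e + 1), B e
  single := fun p A A' hA hA' => by
    apply Closeds.ext
    rw [← compl_inj_iff, hA, hA']
  onto := by
    classical
    intro A
    refine ⟨fun e => if B e ⊆ (A : Set X)ᶜ then e + 1 else 0, ?_⟩
    ext x
    simp only [mem_iUnion]
    constructor
    · intro hx
      obtain ⟨e, he, heA⟩ := hB _ x A.isClosed.isOpen_compl hx
      exact ⟨e, e, by simp [heA], he⟩
    · rintro ⟨i, e, hie, hx⟩
      by_cases h : B i ⊆ (A : Set X)ᶜ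
      · simp only [h, if_true] at hie
        have : i = e := by omega
        subst this
        exact h hx
      · simp [h] at hie

/-- Closed choice: given a nonempty closed set by negative information, find one of its points. -/
def closedChoice (X : Type) [TopologicalSpace X] (B : ℕ → Set X)
    (hB : ∀ (U : Set X) (x : X), IsOpen U → x ∈ U → ∃ e, x ∈ B e ∧ B e ⊆ U)
    (R : RepSpace) (pt : R.Pt → X) : MultiFun where
  Src := negSpace X B hB
  Tgt := R
  Dom A := (A.carrier).Nonempty
  Val A x := pt x ∈ A.carrier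

/-- The natural numbers; `p` is a name of `p 0`. -/
def natSpace : RepSpace where
  Pt := ℕ
  Names p n := p 0 = n
  single := fun _ _ _ h h' => h.symm.trans h'
  onto := fun n => ⟨fun _ => n, rfl⟩

/-- Cantor space; the name of `z` is `z` itself. -/
def cantorSpace : RepSpace where
  Pt := ℕ → Bool
  Names p z := ∀ i, p i = (z i).toNat
  single := fun p z z' h h' => by
    funext i
    have := (h i).symm.trans (h' i)
    cases h1 : z i <;> cases h2 : z' i <;> simp_all
  onto := fun z => ⟨fun i => (z i).toNat, fun _ => rfl⟩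

/-- The basic open set of Cantor space given by the finite binary string with the number `e`:
all extensions of this string (empty if `e` is not the number of a string). -/
def cyl (e : ℕ) : Set (ℕ → Bool) := {z | ∃ m, Encodable.encode (pre z m) = e}

theorem pre_length {α : Type} (p : ℕ → α) (m : ℕ) : (pre p m).length = m := by
  simp [pre]

theorem pre_getElem? {α : Type} (p : ℕ → α) (m i : ℕ) :
    (pre p m)[i]? = if i < m then some (p i) else none := by
  unfold pre
  rw [List.getElem?_map]
  split_ifs with h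
  · simp [h]
  · simp [h]

theorem pre_congr {α : Type} {p q : ℕ → α} {m : ℕ} (h : ∀ i < m, p i = q i) :
    pre p m = pre q m := by
  unfold pre
  apply List.map_congr_left
  intro i hi
  exact h i (List.mem_range.1 hi)

theorem pre_eq_iff {α : Type} {p q : ℕ → α} {m : ℕ} :
    pre p m = pre q m ↔ ∀ i < m, p i = q i := by
  constructor
  · intro h i hi
    have := congrArg (fun l => l[i]?) h
    simpa [pre_getElem?, hi] using this
  · exact pre_congr

theorem cyl_base (U : Set (ℕ → Bool)) (z : ℕ → Bool) (hU : IsOpen U) (hz : z ∈ U) :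
    ∃ e, z ∈ cyl e ∧ cyl e ⊆ U := by
  obtain ⟨I, u, hu, hIu⟩ := isOpen_pi_iff.1 hU z hz
  obtain ⟨m, hm⟩ : ∃ m, ∀ i ∈ I, i < m := ⟨I.sup id + 1, fun i hi =>
    Nat.lt_succ_of_le (Finset.le_sup (f := id) hi)⟩
  refine ⟨Encodable.encode (pre z m), ⟨m, rfl⟩, ?_⟩
  · rintro z' ⟨m', hm'⟩
    have hz' := Encodable.encode_injective hm'
    have hmm : m' = m := by
      have := congrArg List.length hz'
      simpa [pre_length] using this
    subst hmm
    rw [pre_eq_iff] at hz'
    apply hIu
    intro i hi
    rw [hz' i (hm i hi)]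
    exact (hu i hi).2

/-- `C_ℕ`: closed choice on the natural numbers. -/
def CN : MultiFun :=
  closedChoice ℕ (fun e => {e}) (fun U x _ hx => ⟨x, rfl, by simpa using hx⟩) natSpace id

/-- `C_{2^ℕ}`: closed choice on Cantor space (Weihrauch equivalent to weak König's lemma). -/
def CCantor : MultiFun := closedChoice (ℕ → Bool) cyl cyl_base cantorSpace id

/-! ### The Hilbert cube -/

/-- The Hilbert cube. -/
abbrev Q : Type := ℕ → unitInterval

/-- The rational open box given by a finite list of constraints; `(i, a, b, c)` is the constraint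
`(a - 1) / (c + 1) < x i < b / (c + 1)`. -/
def box (l : List (ℕ × ℕ × ℕ × ℕ)) : Set Q :=
  {x | ∀ t ∈ l, ((t.2.1 : ℝ) - 1) / (t.2.2.2 + 1) < x t.1 ∧
    (x t.1 : ℝ) < (t.2.2.1 : ℝ) / (t.2.2.2 + 1)}

/-- The rational open box number `e`. -/
def boxQ (e : ℕ) : Set Q := box (Denumerable.ofNat (List (ℕ × ℕ × ℕ × ℕ)) e)

theorem mem_box {l : List (ℕ × ℕ × ℕ × ℕ)} {x : Q} : x ∈ box l ↔
    ∀ t ∈ l, (t.2.1 : ℝ) < (t.2.2.2 + 1) * x t.1 + 1 ∧
      (t.2.2.2 + 1) * (x t.1 : ℝ) < t.2.2.1 := by
  unfold box
  simp only [Set.mem_ofPred_eq]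
  refine forall₂_congr fun t _ => ?_
  have h : (0 : ℝ) < (t.2.2.2 : ℝ) + 1 := by positivity
  rw [div_lt_iff₀ h, lt_div_iff₀ h]
  constructor
  · rintro ⟨h1, h2⟩
    constructor <;> linarith
  · rintro ⟨h1, h2⟩
    constructor <;> linarith

theorem isOpen_box (l : List (ℕ × ℕ × ℕ × ℕ)) : IsOpen (box l) := by
  induction l with
  | nil =>
    have : box [] = univ := by ext x; simp [box]
    rw [this]; exact isOpen_univ
  | cons t l ih =>
    have : box (t :: l) = {x : Q | ((t.2.1 : ℝ) - 1) / (t.2.2.2 + 1) < x t.1 ∧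
        (x t.1 : ℝ) < (t.2.2.1 : ℝ) / (t.2.2.2 + 1)} ∩ box l := by
      ext x; simp [box]
    rw [this]
    refine IsOpen.inter ?_ ih
    have hc : Continuous fun x : Q => (x t.1 : ℝ) := continuous_subtype_val.comp (continuous_apply _)
    exact (isOpen_lt continuous_const hc).inter (isOpen_lt hc continuous_const)

theorem isOpen_boxQ (e : ℕ) : IsOpen (boxQ e) := isOpen_box _

/-- `x` and `y` agree up to `4 / 2 ^ N` in the first `N` coordinates -/
def Near (N : ℕ) (x y : Q) : Prop := ∀ i < N, |(x i : ℝ) - y i| * 2 ^ N ≤ 4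

theorem near_of_isOpen {U : Set Q} (hU : IsOpen U) {x : Q} (hx : x ∈ U) :
    ∃ N, ∀ y, Near N x y → y ∈ U := by
  obtain ⟨I, u, hu, hIu⟩ := isOpen_pi_iff.1 hU x hx
  have h1 : ∀ i ∈ I, ∃ N : ℕ, i < N ∧ ∀ M ≥ N, ∀ t : unitInterval,
      |(x i : ℝ) - t| * 2 ^ M ≤ 4 → t ∈ u i := by
    intro i hi
    obtain ⟨ε, hε, hεu⟩ := Metric.isOpen_iff.1 (hu i hi).1 _ (hu i hi).2
    obtain ⟨N, hN⟩ := exists_nat_gt (4 / ε)
    refine ⟨max N (i + 1), by omega, ?_⟩
    intro M hM t ht
    apply hεu
    rw [Metric.mem_ball, Subtype.dist_eq, Real.dist_eq, abs_sub_comm]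
    have h2 : (N : ℝ) < 2 ^ M := by
      calc (N : ℝ) ≤ (M : ℝ) := by exact_mod_cast le_trans (le_max_left _ _) hM
        _ < 2 ^ M := by exact_mod_cast Nat.lt_two_pow_self
    have h3 : (4 : ℝ) < ε * 2 ^ M := by
      rw [div_lt_iff₀ hε] at hN
      nlinarith
    have h4 : (0 : ℝ) < 2 ^ M := by positivity
    by_contra hcon
    rw [not_lt] at hcon
    nlinarith
  choose! N hN using h1
  refine ⟨I.sup N, fun y hy => hIu fun i hi => ?_⟩
  have h5 : N i ≤ I.sup N := Finset.le_sup hi
  exact (hN i hi).2 _ h5 _ (hy i (lt_of_lt_of_le (hN i hi).1 h5))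

/-- the open star of `x` in the grid of mesh `2 ^ -N`, first `N` coordinates -/
noncomputable def star (N : ℕ) (x : Q) : List (ℕ × ℕ × ℕ × ℕ) :=
  (List.range N).map fun i =>
    (i, ⌈(2 : ℝ) ^ N * x i⌉₊, ⌊(2 : ℝ) ^ N * x i⌋₊ + 1, 2 ^ N - 1)

theorem pow_sub_one_cast (N : ℕ) : (((2 ^ N - 1 : ℕ) : ℝ) + 1) = 2 ^ N := by
  have h : 1 ≤ 2 ^ N := Nat.one_le_two_pow
  rw [Nat.cast_sub h]
  push_cast
  ring

theorem mem_star_iff (N : ℕ) (x y : Q) : y ∈ box (star N x) ↔
    ∀ i < N, (⌈(2 : ℝ) ^ N * x i⌉₊ : ℝ) < 2 ^ N * y i + 1 ∧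
      2 ^ N * (y i : ℝ) < ⌊(2 : ℝ) ^ N * x i⌋₊ + 1 := by
  rw [mem_box]
  unfold star
  constructor
  · intro h i hi
    have := h (i, ⌈(2 : ℝ) ^ N * x i⌉₊, ⌊(2 : ℝ) ^ N * x i⌋₊ + 1, 2 ^ N - 1)
      (List.mem_map.2 ⟨i, List.mem_range.2 hi, rfl⟩)
    simp only [pow_sub_one_cast] at this
    push_cast at this
    exact this
  · intro h t ht
    obtain ⟨i, hi, rfl⟩ := List.mem_map.1 ht
    have := h i (List.mem_range.1 hi)
    simp only [pow_sub_one_cast]
    push_cast
    exact this

theorem mem_star_self (N : ℕ) (x : Q) : x ∈ box (star N x) := by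
  rw [mem_star_iff]
  intro i _
  have h0 : (0 : ℝ) ≤ 2 ^ N * x i := mul_nonneg (by positivity) (x i).2.1
  exact ⟨Nat.ceil_lt_add_one h0, Nat.lt_floor_add_one _⟩

theorem near_of_mem_star {N : ℕ} {x y : Q} (h : y ∈ box (star N x)) : Near N x y := by
  rw [mem_star_iff] at h
  intro i hi
  obtain ⟨h1, h2⟩ := h i hi
  have h0 : (0 : ℝ) ≤ 2 ^ N * x i := mul_nonneg (by positivity) (x i).2.1
  have h3 := Nat.le_ceil ((2 : ℝ) ^ N * x i)
  have h4 := Nat.floor_le h0
  have h5 : |(x i : ℝ) - y i| * 2 ^ N = |2 ^ N * (x i : ℝ) - 2 ^ N * y i| := by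
    rw [← mul_sub, abs_mul, abs_of_pos (by positivity : (0 : ℝ) < 2 ^ N)]
    ring
  rw [h5, abs_le]
  constructor <;> linarith

theorem boxQ_base (U : Set Q) (x : Q) (hU : IsOpen U) (hx : x ∈ U) :
    ∃ e, x ∈ boxQ e ∧ boxQ e ⊆ U := by
  obtain ⟨N, hN⟩ := near_of_isOpen hU hx
  refine ⟨Encodable.encode (star N x), ?_, ?_⟩
  · simp only [boxQ, Denumerable.ofNat_encode]
    exact mem_star_self N x
  · intro y hy
    simp only [boxQ, Denumerable.ofNat_encode] at hy
    exact hN y (near_of_mem_star hy)

/-- The closed subsets of the Hilbert cube, with negative information. -/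
def closedQ : RepSpace := negSpace Q boxQ boxQ_base

/-! ### Covering dimension and the Cantor manifold theorem -/

/-- The covering dimension of `X` is less than `k`: every finite open cover has a finite open
refinement such that every point is in at most `k` of its members. -/
def CovDimLT (X : Type) [TopologicalSpace X] (k : ℕ) : Prop :=
  ∀ 𝒰 : Set (Set X), 𝒰.Finite → (∀ U ∈ 𝒰, IsOpen U) → ⋃₀ 𝒰 = univ →
    ∃ 𝒱 : Set (Set X), 𝒱.Finite ∧ (∀ V ∈ 𝒱, IsOpen V) ∧ ⋃₀ 𝒱 = univ ∧
      (∀ V ∈ 𝒱, ∃ U ∈ 𝒰, V ⊆ U) ∧ ∀ x, {V ∈ 𝒱 | x ∈ V}.encard ≤ k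

/-- The `n`-dimensional Cantor manifold theorem `CMT_n` (`1 ≤ n`).  An instance is a closed subset
`X` of the Hilbert cube of covering dimension at least `n` (negative information), a solution is
a closed set `Y ⊆ X` (negative information) of covering dimension at least `n` such that for
every closed `C ⊆ Y` of covering dimension at most `n - 2` the set `Y \ C` is not disconnected. -/
def CMT (n : ℕ) : MultiFun where
  Src := closedQ
  Tgt := closedQ
  Dom X := ¬ CovDimLT X.carrier n
  Val X Y := Y.carrier ⊆ X.carrier ∧ ¬ CovDimLT Y.carrier n ∧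
    ∀ C : Set Q, IsClosed C → C ⊆ Y.carrier → CovDimLT C (n - 1) →
      IsPreconnected (Y.carrier \ C)

end Pool.Agent.CMTW
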