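import Pool.Agent.Lib_fca3ff.Defs

set_option autoImplicit false

/-!
# Covering dimension `< 1`
-/

namespace Pool.Agent.CMTW

open Set

theorem not_covDimLT_one {X : Type} [TopologicalSpace X] [T1Space X] {S : Set X}
    (hS : IsPreconnected S) {x y : X} (hx : x ∈ S) (hy : y ∈ S) (hxy : x ≠ y) :
    ¬ CovDimLT X 1 := by
  intro h
  obtain ⟨𝒱, hfin, hopen, hcov, href, hord⟩ := h {{x}ᶜ, {y}ᶜ} (by simp)
    (by
      rintro U (rfl | rfl)
      · exact isOpen_compl_singleton
      · exact isOpen_compl_singleton)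
    (by
      rw [eq_univ_iff_forall]
      intro z
      by_cases hz : z = x
      · exact ⟨{y}ᶜ, by simp, by simpa [hz] using hxy⟩
      · exact ⟨{x}ᶜ, by simp, by simpa using hz⟩)
  obtain ⟨V, hV, hxV⟩ : ∃ V ∈ 𝒱, x ∈ V := by
    have : x ∈ ⋃₀ 𝒱 := by rw [hcov]; trivial
    exact this
  have huniq : ∀ z, ∀ W ∈ 𝒱, ∀ W' ∈ 𝒱, z ∈ W → z ∈ W' → W = W' := by
    intro z W hW W' hW' h1 h2
    have h3 := hord z
    rw [Nat.cast_one, encard_le_one_iff] at h3
    exact h3 W W' ⟨hW, h1⟩ ⟨hW', h2⟩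
  have hclosed : IsClosed V := by
    have : Vᶜ = ⋃₀ {W ∈ 𝒱 | W ≠ V} := by
      ext z
      constructor
      · intro hz
        obtain ⟨W, hW, hzW⟩ : ∃ W ∈ 𝒱, z ∈ W := by
          have : z ∈ ⋃₀ 𝒱 := by rw [hcov]; trivial
          exact this
        refine ⟨W, ⟨hW, ?_⟩, hzW⟩
        rintro rfl
        exact hz hzW
      · rintro ⟨W, ⟨hW, hWV⟩, hzW⟩ hzV
        exact hWV (huniq z W hW V hV hzW hzV)
    rw [← isOpen_compl_iff, this]
    exact isOpen_sUnion fun W hW => hopen W hW.1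
  have hsub : S ⊆ V := hS.subset_isClopen ⟨hclosed, hopen V hV⟩ ⟨x, hx, hxV⟩
  obtain ⟨U, hU, hVU⟩ := href V hV
  rcases hU with rfl | rfl
  · exact hVU hxV rfl
  · exact hVU (hsub hy) rfl

theorem covDimLT_one {X : Type} [TopologicalSpace X] [CompactSpace X] [T2Space X]
    [TotallyDisconnectedSpace X] : CovDimLT X 1 := by
  intro 𝒰 hfin hopen hcov
  have h1 : ∀ x : X, ∃ W : Set X, IsClopen W ∧ x ∈ W ∧ ∃ U ∈ 𝒰, W ⊆ U := by
    intro x
    obtain ⟨U, hU, hxU⟩ : ∃ U ∈ 𝒰, x ∈ U := by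
      have : x ∈ ⋃₀ 𝒰 := by rw [hcov]; trivial
      exact this
    obtain ⟨W, hW, hxW, hWU⟩ := compact_exists_isClopen_in_isOpen (hopen U hU) hxU
    exact ⟨W, hW, hxW, U, hU, hWU⟩
  choose W hW hxW hWU using h1
  obtain ⟨t, ht⟩ := isCompact_univ.elim_finite_subcover W (fun x => (hW x).isOpen)
    (fun x _ => mem_iUnion.2 ⟨x, hxW x⟩)
  set l := t.toList with hl
  set V : ℕ → Set X := fun n => {x | ∃ h : n < l.length, x ∈ W l[n] ∧
    ∀ m (hm : m < n), x ∉ W (l[m]'(by omega))} with hV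
  have hVsub : ∀ n (h : n < l.length), V n ⊆ W l[n] := by
    rintro n h x ⟨_, hx, _⟩
    exact hx
  have hVopen : ∀ n, IsOpen (V n) := by
    intro n
    by_cases h : n < l.length
    · have : V n = W l[n] ∩ ⋂ m ∈ Finset.range n, (if hm : m < n then (W (l[m]'(by omega)))ᶜ
          else univ) := by
        ext x
        simp only [hV, mem_inter_iff, mem_iInter, Finset.mem_range, Set.mem_ofPred_eq]
        constructor
        · rintro ⟨_, h2, h3⟩
          refine ⟨h2, fun m hm => ?_⟩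
          rw [dif_pos hm]
          exact h3 m hm
        · rintro ⟨h2, h3⟩
          refine ⟨h, h2, fun m hm => ?_⟩
          have := h3 m hm
          rw [dif_pos hm] at this
          exact this
      rw [this]
      apply (hW _).isOpen.inter
      apply isOpen_biInter_finset
      intro m hm
      rw [Finset.mem_range] at hm
      rw [dif_pos hm]
      exact (hW _).isClosed.isOpen_compl
    · have : V n = ∅ := by
        ext x
        simp only [hV, mem_empty_iff_false, iff_false]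
        rintro ⟨h', _⟩
        exact h h'
      rw [this]
      exact isOpen_empty
  have hVdisj : ∀ n m x, x ∈ V n → x ∈ V m → n = m := by
    intro n m x hn hm
    obtain ⟨hn1, hn2, hn3⟩ := hn
    obtain ⟨hm1, hm2, hm3⟩ := hm
    rcases lt_trichotomy n m with h | h | h
    · exact absurd hn2 (hm3 n h)
    · exact h
    · exact absurd hm2 (hn3 m h)
  refine ⟨V '' {n | n < l.length}, (finite_lt_nat _).image _, ?_, ?_, ?_, ?_⟩
  · rintro _ ⟨n, -, rfl⟩
    exact hVopen n
  · rw [eq_univ_iff_forall]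
    intro x
    classical
    have hex : ∃ n, ∃ h : n < l.length, x ∈ W l[n] := by
      obtain ⟨y, hy, hxy⟩ := mem_iUnion₂.1 (ht (mem_univ x))
      obtain ⟨n, hn, hny⟩ := List.getElem_of_mem (Finset.mem_toList.2 hy)
      exact ⟨n, hn, by rw [hny]; exact hxy⟩
    obtain ⟨hlt, hx⟩ := Nat.find_spec hex
    refine ⟨V (Nat.find hex), ⟨_, hlt, rfl⟩, hlt, hx, ?_⟩
    intro m hm hxm
    exact Nat.find_min hex hm ⟨by omega, hxm⟩
  · rintro _ ⟨n, hn, rfl⟩
    obtain ⟨U, hU, hWU'⟩ := hWU l[n]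
    exact ⟨U, hU, (hVsub n hn).trans hWU'⟩
  · intro x
    rw [Nat.cast_one, encard_le_one_iff]
    rintro _ _ ⟨⟨n, -, rfl⟩, hn⟩ ⟨⟨m, -, rfl⟩, hm⟩
    rw [hVdisj n m x hn hm]

theorem covDimLT_empty (k : ℕ) : CovDimLT (∅ : Set Q) k := by
  intro 𝒰 _ _ _
  refine ⟨∅, finite_empty, by simp, ?_, by simp, ?_⟩
  · rw [eq_univ_iff_forall]
    rintro ⟨x, hx⟩
    exact absurd hx (notMem_empty x)
  · rintro ⟨x, hx⟩
    exact absurd hx (notMem_empty x)

/-- a closed set of positive dimension contains a non-degenerate connected set -/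
theorem exists_preconnected {X : Set Q} (hX : IsClosed X) (h : ¬ CovDimLT X 1) :
    ∃ Y ⊆ X, IsPreconnected Y ∧ ∃ x ∈ Y, ∃ y ∈ Y, x ≠ y := by
  by_contra hcon
  push Not at hcon
  apply h
  have : CompactSpace X := isCompact_iff_compactSpace.1 hX.isCompact
  have : TotallyDisconnectedSpace X := by
    rw [totallyDisconnectedSpace_subtype_iff]
    intro Y hY hpre x hx y hy
    exact hcon Y hY hpre x hx y hy
  exact covDimLT_one

/-- a closed set of positive dimension has two points -/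
theorem exists_ne {X : Set Q} (hX : IsClosed X) (h : ¬ CovDimLT X 1) :
    ∃ x ∈ X, ∃ y ∈ X, x ≠ y := by
  obtain ⟨Y, hY, -, x, hx, y, hy, hxy⟩ := exists_preconnected hX h
  exact ⟨x, hY hx, y, hY hy, hxy⟩

/-- a set which contains a connected set with two points has positive dimension -/
theorem not_covDimLT_of_preconnected {X S : Set Q} (hS : IsPreconnected S) (hSX : S ⊆ X)
    {x y : Q} (hx : x ∈ S) (hy : y ∈ S) (hxy : x ≠ y) : ¬ CovDimLT X 1 := by
  have h1 : IsPreconnected ((Subtype.val : X → Q) ⁻¹' S) := by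
    rw [← Topology.IsInducing.subtypeVal.isPreconnected_image]
    rwa [Subtype.image_preimage_coe, inter_eq_right.2 hSX]
  exact not_covDimLT_one h1 (x := (⟨x, hSX hx⟩ : X)) (y := ⟨y, hSX hy⟩) hx hy (by simpa using hxy)

/-- a function with values `0`, `1` is constant on a connected set -/
theorem constant_of_preconnected {Y : Set Q} (hY : IsPreconnected Y) (j : ℕ)
    (h01 : ∀ y ∈ Y, (y j : ℝ) = 0 ∨ (y j : ℝ) = 1) {x y : Q} (hx : x ∈ Y) (hy : y ∈ Y) :
    (x j : ℝ) = y j := by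
  have hc : Continuous fun y : Q => (y j : ℝ) := continuous_subtype_val.comp (continuous_apply _)
  have key : ∀ x ∈ Y, ∀ y ∈ Y, (x j : ℝ) = 0 → (y j : ℝ) = 1 → False := by
    intro x hx y hy h0 h1
    have h2 := hY.intermediate_value hx hy hc.continuousOn
    rw [h0, h1] at h2
    obtain ⟨w, hw, hw2⟩ := h2 (show (1 / 2 : ℝ) ∈ Set.Icc 0 1 by constructor <;> norm_num)
    simp only at hw2
    rcases h01 w hw with h | h
    · rw [h] at hw2; norm_num at hw2
    · rw [h] at hw2; norm_num at hw2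
  rcases h01 x hx with h | h <;> rcases h01 y hy with h' | h'
  · rw [h, h']
  · exact (key x hx y hy h h').elim
  · exact (key y hy x hx h' h).elim
  · rw [h, h']

end Pool.Agent.CMTW
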