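import Pool.Agent.Lib_fca3ff.Prim
import Pool.Agent.Lib_fca3ff.Defs

set_option autoImplicit false

/-!
# Computable functionals: tools
-/

namespace Pool.Agent.CMTW

open Prim

variable {α β γ : Type} [Primcodable α] [Primcodable β] [Primcodable γ]

/-- projections of primitive recursive predicates -/
def Sig1 {α : Type} [Primcodable α] (P : α → Prop) : Prop :=
  ∃ R : α → ℕ → Prop, PrimrecPred (fun x : α × ℕ => R x.1 x.2) ∧ ∀ a, P a ↔ ∃ c, R a c

theorem Sig1.of_prim {P : α → Prop} (hP : PrimrecPred P) : Sig1 P :=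
  ⟨fun a _ => P a, hP.comp (f := fun x : α × ℕ => x.1) (by fun_prop), fun a => by simp⟩

theorem Sig1.congr {P P' : α → Prop} (hP : Sig1 P) (h : ∀ a, P' a ↔ P a) : Sig1 P' := by
  obtain ⟨R, hR, hPR⟩ := hP
  exact ⟨R, hR, fun a => (h a).trans (hPR a)⟩

theorem Sig1.comp {P : β → Prop} (hP : Sig1 P) {f : α → β} (hf : Primrec f) :
    Sig1 fun a => P (f a) := by
  obtain ⟨R, hR, hPR⟩ := hP
  exact ⟨fun a c => R (f a) c, hR.comp (f := fun x : α × ℕ => (f x.1, x.2)) (by fun_prop),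
    fun a => hPR (f a)⟩

theorem Sig1.ex {P : α → β → Prop} (hP : Sig1 fun x : α × β => P x.1 x.2) :
    Sig1 fun a => ∃ b, P a b := by
  obtain ⟨R, hR, hPR⟩ := hP
  refine ⟨fun a n => ∃ b ∈ (Encodable.decode (α := β) n.unpair.1).toList, R (a, b) n.unpair.2,
    ?_, ?_⟩
  · apply ex_mem (α := α × ℕ) (β := β) (P := fun x b => R (x.1, b) x.2.unpair.2)
    · exact hR.comp (f := fun x : (α × ℕ) × β => ((x.1.1, x.2), x.1.2.unpair.2)) (by fun_prop)
    · exact Primrec.optionToList.comp (by fun_prop)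
  · intro a
    constructor
    · rintro ⟨b, hb⟩
      obtain ⟨c, hc⟩ := (hPR (a, b)).1 hb
      exact ⟨Nat.pair (Encodable.encode b) c, b, by simp, by simpa using hc⟩
    · rintro ⟨n, b, -, hb⟩
      exact ⟨b, (hPR (a, b)).2 ⟨_, hb⟩⟩

theorem Sig1.and {P P' : α → Prop} (hP : Sig1 P) (hP' : Sig1 P') :
    Sig1 fun a => P a ∧ P' a := by
  obtain ⟨R, hR, hPR⟩ := hP
  obtain ⟨R', hR', hPR'⟩ := hP'
  refine ⟨fun a n => R a n.unpair.1 ∧ R' a n.unpair.2, ?_, ?_⟩
  · apply and'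
    · exact hR.comp (f := fun x : α × ℕ => (x.1, x.2.unpair.1)) (by fun_prop)
    · exact hR'.comp (f := fun x : α × ℕ => (x.1, x.2.unpair.2)) (by fun_prop)
  · intro a
    show P a ∧ P' a ↔ _
    rw [hPR, hPR']
    constructor
    · rintro ⟨⟨c, hc⟩, c', hc'⟩
      exact ⟨Nat.pair c c', by simpa using ⟨hc, hc'⟩⟩
    · rintro ⟨n, h1, h2⟩
      exact ⟨⟨_, h1⟩, _, h2⟩

theorem Sig1.or {P P' : α → Prop} (hP : Sig1 P) (hP' : Sig1 P') :
    Sig1 fun a => P a ∨ P' a := by
  obtain ⟨R, hR, hPR⟩ := hP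
  obtain ⟨R', hR', hPR'⟩ := hP'
  refine ⟨fun a n => R a n ∨ R' a n, or' hR hR', ?_⟩
  intro a
  show P a ∨ P' a ↔ _
  rw [hPR, hPR', ← exists_or]

theorem Sig1.re {P : α → Prop} (hP : Sig1 P) : REPred P := by
  obtain ⟨R, hR, hPR⟩ := hP
  exact (re_exists_nat hR).of_eq fun a => (hPR a).symm

/-! ### prefixes -/

theorem take_pre {δ : Type} (p : ℕ → δ) (m n : ℕ) : (pre p n).take m = pre p (min m n) := by
  apply List.ext_getElem?
  intro i
  rw [List.getElem?_take, pre_getElem?, pre_getElem?]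
  split_ifs <;> first | rfl | omega

theorem pre_getD {δ : Type} (p : ℕ → δ) (m i : ℕ) (d : δ) (h : i < m) :
    (pre p m).getD i d = p i := by
  rw [List.getD_eq_getElem?_getD, pre_getElem?, if_pos h]
  rfl

theorem mem_pre {δ : Type} {p : ℕ → δ} {m : ℕ} {v : δ} : v ∈ pre p m ↔ ∃ i < m, p i = v := by
  unfold pre
  simp [List.mem_map, List.mem_range]

/-- the entries at even places -/
def evs (ρ : List ℕ) : List ℕ := (List.range ((ρ.length + 1) / 2)).map fun i => ρ.getD (2 * i) 0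
/-- the entries at odd places -/
def ods (ρ : List ℕ) : List ℕ := (List.range (ρ.length / 2)).map fun i => ρ.getD (2 * i + 1) 0

theorem primrec_evs : Primrec evs := by
  unfold evs
  exact map' (by fun_prop) (by fun_prop)

theorem primrec_ods : Primrec ods := by
  unfold ods
  exact map' (by fun_prop) (by fun_prop)

@[fun_prop] theorem primrec_evs' {f : α → List ℕ} (hf : Primrec f) : Primrec fun a => evs (f a) :=
  primrec_evs.comp hf
@[fun_prop] theorem primrec_ods' {f : α → List ℕ} (hf : Primrec f) : Primrec fun a => ods (f a) :=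
  primrec_ods.comp hf

theorem evs_pre (r : ℕ → ℕ) (m : ℕ) : evs (pre r m) = pre (fun n => r (2 * n)) ((m + 1) / 2) := by
  unfold evs
  rw [pre_length]
  conv_rhs => unfold pre
  apply List.map_congr_left
  intro i hi
  rw [List.mem_range] at hi
  exact pre_getD _ _ _ _ (by omega)

theorem ods_pre (r : ℕ → ℕ) (m : ℕ) : ods (pre r m) = pre (fun n => r (2 * n + 1)) (m / 2) := by
  unfold ods
  rw [pre_length]
  conv_rhs => unfold pre
  apply List.map_congr_left
  intro i hi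
  rw [List.mem_range] at hi
  exact pre_getD _ _ _ _ (by omega)

theorem join_even (p q : ℕ → ℕ) (n : ℕ) : join p q (2 * n) = p n := by
  have h1 : 2 * n % 2 = 0 := by omega
  have h2 : 2 * n / 2 = n := by omega
  simp only [join, h1, h2, if_true]

theorem join_odd (p q : ℕ → ℕ) (n : ℕ) : join p q (2 * n + 1) = q n := by
  have h1 : (2 * n + 1) % 2 = 1 := by omega
  have h2 : (2 * n + 1) / 2 = n := by omega
  simp [join, h1, h2]

theorem evs_join (p q : ℕ → ℕ) (m : ℕ) : evs (pre (join p q) m) = pre p ((m + 1) / 2) := by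
  rw [evs_pre]
  exact pre_congr fun i _ => join_even p q i

theorem ods_join (p q : ℕ → ℕ) (m : ℕ) : ods (pre (join p q) m) = pre q (m / 2) := by
  rw [ods_pre]
  exact pre_congr fun i _ => join_odd p q i

/-! ### functionals -/

/-- A total functional with primitive recursive modulus. -/
theorem prim_functional (g : List ℕ → ℕ → ℕ)
    (hg : Primrec fun x : List ℕ × ℕ => g x.1 x.2) :
    ∃ K : List ℕ × ℕ × ℕ → Prop, Sig1 K ∧ ∀ p, Sends K p fun n => g (pre p n) n := by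
  refine ⟨fun x => x.2.1 ≤ x.1.length ∧ x.2.2 = g (x.1.take x.2.1) x.2.1,
    Sig1.of_prim ?_, ?_⟩
  · apply and' (by fun_prop)
    apply eq' (by fun_prop)
    exact hg.comp (g := fun x : List ℕ × ℕ × ℕ => (x.1.take x.2.1, x.2.1)) (by fun_prop)
  · intro p n v
    constructor
    · rintro ⟨m, h1, h2⟩
      simp only [pre_length] at h1
      simp only [take_pre, min_eq_left h1] at h2
      exact h2
    · intro h
      refine ⟨n, ?_, ?_⟩
      · simp [pre_length]
      · simpa only [take_pre, min_self] using h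

/-- Enumeration of a set that is recursively enumerable in the input. -/
theorem enum_functional (S : List ℕ × ℕ → Prop) (hS : Sig1 S) :
    ∃ K : List ℕ × ℕ × ℕ → Prop, Sig1 K ∧ ∀ p, ∃ k, Sends K p k ∧
      ∀ e, (∃ i, k i = e + 1) ↔ ∃ m, S (pre p m, e) := by
  classical
  obtain ⟨R, hR, hSR⟩ := hS
  set g : List ℕ → ℕ → ℕ := fun σ n =>
    if R (σ.take n.unpair.1, n.unpair.2.unpair.2) n.unpair.2.unpair.1
      then n.unpair.2.unpair.2 + 1 else 0 with hg
  have hgp : Primrec fun x : List ℕ × ℕ => g x.1 x.2 := by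
    rw [hg]
    apply ite' _ (by fun_prop) (by fun_prop)
    exact hR.comp (f := fun x : List ℕ × ℕ =>
      ((x.1.take x.2.unpair.1, x.2.unpair.2.unpair.2), x.2.unpair.2.unpair.1)) (by fun_prop)
  obtain ⟨K, hK, hKs⟩ := prim_functional g hgp
  refine ⟨K, hK, fun p => ⟨_, hKs p, fun e => ?_⟩⟩
  constructor
  · rintro ⟨n, hn⟩
    simp only [hg] at hn
    split_ifs at hn with h
    · have he : n.unpair.2.unpair.2 = e := by omega
      rw [he, take_pre] at h
      exact ⟨_, (hSR _).2 ⟨_, h⟩⟩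
  · rintro ⟨m, hm⟩
    obtain ⟨c, hc⟩ := (hSR _).1 hm
    refine ⟨Nat.pair m (Nat.pair c e), ?_⟩
    have hle : m ≤ Nat.pair m (Nat.pair c e) := Nat.left_le_pair _ _
    simp only [hg, Nat.unpair_pair, take_pre, min_eq_left hle]
    rw [if_pos hc]

/-- two functionals side by side -/
def joinF (K₁ K₂ : List ℕ × ℕ × ℕ → Prop) : List ℕ × ℕ × ℕ → Prop := fun x =>
  (x.2.1 % 2 = 0 ∧ K₁ (x.1, x.2.1 / 2, x.2.2)) ∨ (x.2.1 % 2 = 1 ∧ K₂ (x.1, x.2.1 / 2, x.2.2))

theorem joinF_sig {K₁ K₂ : List ℕ × ℕ × ℕ → Prop} (h₁ : Sig1 K₁) (h₂ : Sig1 K₂) :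
    Sig1 (joinF K₁ K₂) := by
  unfold joinF
  refine Sig1.or (Sig1.and (Sig1.of_prim (by fun_prop)) ?_)
    (Sig1.and (Sig1.of_prim (by fun_prop)) ?_)
  · exact h₁.comp (f := fun x : List ℕ × ℕ × ℕ => (x.1, x.2.1 / 2, x.2.2)) (by fun_prop)
  · exact h₂.comp (f := fun x : List ℕ × ℕ × ℕ => (x.1, x.2.1 / 2, x.2.2)) (by fun_prop)

theorem joinF_sends {K₁ K₂ : List ℕ × ℕ × ℕ → Prop} {p k₁ k₂ : ℕ → ℕ} (h₁ : Sends K₁ p k₁)
    (h₂ : Sends K₂ p k₂) : Sends (joinF K₁ K₂) p (join k₁ k₂) := by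
  intro n v
  unfold joinF join
  rcases Nat.mod_two_eq_zero_or_one n with h | h
  · rw [if_pos h, ← h₁ (n / 2) v]
    simp [h]
  · rw [if_neg (by omega), ← h₂ (n / 2) v]
    simp [h]

end Pool.Agent.CMTW
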