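import Pool.Agent.Lib_fca3ff.Func

set_option autoImplicit false

/-!
# Dyadic cells of the Hilbert cube, decidability of finite covers
-/

namespace Pool.Agent.CMTW

open Prim Set

variable {α β γ : Type} [Primcodable α] [Primcodable β] [Primcodable γ]

/-- all lists of length `k` with entries `< B` -/
def lists (B : ℕ) : ℕ → List (List ℕ)
  | 0 => [[]]
  | k + 1 => (lists B k).flatMap fun l => (List.range B).map fun j => j :: l

theorem mem_lists {B k : ℕ} {l : List ℕ} : l ∈ lists B k ↔ l.length = k ∧ ∀ d ∈ l, d < B := by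
  induction k generalizing l with
  | zero =>
    simp only [lists, List.mem_singleton]
    constructor
    · rintro rfl; simp
    · rintro ⟨h, -⟩; exact List.length_eq_zero_iff.1 h
  | succ k ih =>
    simp only [lists, List.mem_flatMap, List.mem_map, List.mem_range]
    constructor
    · rintro ⟨l', hl', j, hj, rfl⟩
      obtain ⟨h1, h2⟩ := ih.1 hl'
      refine ⟨by simp [h1], ?_⟩
      intro d hd
      rcases List.mem_cons.1 hd with rfl | hd
      · exact hj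
      · exact h2 d hd
    · rintro ⟨h1, h2⟩
      cases l with
      | nil => simp at h1
      | cons j l' =>
        refine ⟨l', ih.2 ⟨by simpa using h1, fun d hd => h2 d (List.mem_cons_of_mem _ hd)⟩, j,
          h2 j List.mem_cons_self, rfl⟩

theorem lists_eq_rec (B k : ℕ) : lists B k = (Nat.rec [[]] (fun _ ih =>
    ih.flatMap fun l => (List.range B).map fun j => j :: l) k : List (List ℕ)) := by
  induction k with
  | zero => rfl
  | succ k ih => simp only [lists, ih]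

theorem primrec_lists {f g : α → ℕ} (hf : Primrec f) (hg : Primrec g) :
    Primrec fun a => lists (f a) (g a) := by
  have h : Primrec fun a => (Nat.rec [[]] (fun _ ih =>
      ih.flatMap fun l => (List.range (f a)).map fun j => j :: l) (g a) : List (List ℕ)) := by
    apply rec' (β := List (List ℕ)) (g := fun _ => [[]])
      (h := fun a _ (ih : List (List ℕ)) =>
        ih.flatMap fun l => (List.range (f a)).map fun j => j :: l)
      hg (by fun_prop)
    apply flatMap' (g := fun (x : α × ℕ × List (List ℕ)) l =>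
      (List.range (f x.1)).map fun j => j :: l) _ (by fun_prop)
    apply map' (g := fun (x : (α × ℕ × List (List ℕ)) × List ℕ) j => j :: x.2)
    · fun_prop
    · fun_prop
  exact h.of_eq fun a => (lists_eq_rec _ _).symm

/-- the (codes of the) dyadic cells of level `m` -/
def cells (m : ℕ) : List (List ℕ) := lists (2 ^ m) m

@[fun_prop] theorem primrec_cells {f : α → ℕ} (hf : Primrec f) : Primrec fun a => cells (f a) :=
  primrec_lists (by fun_prop) hf

theorem mem_cells {m : ℕ} {c : List ℕ} : c ∈ cells m ↔ c.length = m ∧ ∀ d ∈ c, d < 2 ^ m :=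
  mem_lists

theorem getD_lt {m : ℕ} {c : List ℕ} (hc : c ∈ cells m) (i : ℕ) : c.getD i 0 < 2 ^ m := by
  by_cases hi : i < c.length
  · rw [List.getD_eq_getElem _ _ hi]
    exact (mem_cells.1 hc).2 _ (List.getElem_mem hi)
  · rw [List.getD_eq_default _ _ (by omega)]
    positivity

/-- the closed cell with the code `c` -/
def cell (c : List ℕ) : Set Q :=
  {x | ∀ i < c.length, (c.getD i 0 : ℝ) ≤ 2 ^ c.length * x i ∧
    2 ^ c.length * (x i : ℝ) ≤ c.getD i 0 + 1}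

theorem mem_cell {c : List ℕ} {x : Q} : x ∈ cell c ↔
    ∀ i < c.length, (c.getD i 0 : ℝ) ≤ 2 ^ c.length * x i ∧
      2 ^ c.length * (x i : ℝ) ≤ c.getD i 0 + 1 := Iff.rfl

theorem pre_mem_cells {m : ℕ} {f : ℕ → ℕ} (hf : ∀ i < m, f i < 2 ^ m) : pre f m ∈ cells m := by
  rw [mem_cells, pre_length]
  refine ⟨rfl, fun d hd => ?_⟩
  obtain ⟨i, hi, rfl⟩ := mem_pre.1 hd
  exact hf i hi

theorem mem_cell_pre {m : ℕ} {f : ℕ → ℕ} {x : Q} : x ∈ cell (pre f m) ↔
    ∀ i < m, (f i : ℝ) ≤ 2 ^ m * x i ∧ 2 ^ m * (x i : ℝ) ≤ f i + 1 := by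
  rw [mem_cell, pre_length]
  refine forall₂_congr fun i hi => ?_
  rw [pre_getD _ _ _ _ hi]

theorem two_pow_pos' (m : ℕ) : (0 : ℝ) < 2 ^ m := by positivity

/-- the digit of level `m` of a point of the unit interval -/
noncomputable def dig (m : ℕ) (t : unitInterval) : ℕ := min ⌊(2 : ℝ) ^ m * t⌋₊ (2 ^ m - 1)

theorem dig_lt (m : ℕ) (t : unitInterval) : dig m t < 2 ^ m := by
  have h : 0 < 2 ^ m := by positivity
  unfold dig
  omega

theorem dig_le (m : ℕ) (t : unitInterval) : (dig m t : ℝ) ≤ 2 ^ m * t := by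
  have h0 : (0 : ℝ) ≤ 2 ^ m * t := mul_nonneg (by positivity) t.2.1
  calc (dig m t : ℝ) ≤ (⌊(2 : ℝ) ^ m * t⌋₊ : ℝ) := Nat.cast_le.2 (min_le_left _ _)
    _ ≤ _ := Nat.floor_le h0

theorem le_dig (m : ℕ) (t : unitInterval) : (2 : ℝ) ^ m * t ≤ dig m t + 1 := by
  unfold dig
  rcases min_cases ⌊(2 : ℝ) ^ m * t⌋₊ (2 ^ m - 1) with ⟨h, -⟩ | ⟨h, -⟩
  · rw [h]
    exact (Nat.lt_floor_add_one _).le
  · rw [h, pow_sub_one_cast]
    have := t.2.2
    have h2 := two_pow_pos' m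
    nlinarith

theorem exists_cell (m : ℕ) (x : Q) : ∃ c ∈ cells m, x ∈ cell c := by
  refine ⟨pre (fun i => dig m (x i)) m, pre_mem_cells fun i _ => dig_lt _ _, ?_⟩
  rw [mem_cell_pre]
  exact fun i _ => ⟨dig_le _ _, le_dig _ _⟩

/-- `x` and `y` agree up to `2 / 2 ^ N` in the first `N` coordinates -/
def NearB (N : ℕ) (x y : Q) : Prop := ∀ i < N, |(x i : ℝ) - y i| * 2 ^ N ≤ 2

theorem NearB.mono {N M : ℕ} (h : N ≤ M) {x y : Q} (hxy : NearB M x y) : NearB N x y := by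
  intro i hi
  have h1 := hxy i (by omega)
  have h2 : (2 : ℝ) ^ N ≤ 2 ^ M := pow_le_pow_right₀ (by norm_num) h
  have h3 : 0 ≤ |(x i : ℝ) - y i| := abs_nonneg _
  nlinarith

theorem nearB_of_cell {m : ℕ} {c : List ℕ} (hc : c ∈ cells m) {x y : Q} (hx : x ∈ cell c)
    (hy : y ∈ cell c) : NearB m x y := by
  have hl := (mem_cells.1 hc).1
  intro i hi
  rw [mem_cell, hl] at hx hy
  obtain ⟨h1, h2⟩ := hx i hi
  obtain ⟨h3, h4⟩ := hy i hi
  have h5 : |(x i : ℝ) - y i| * 2 ^ m = |2 ^ m * (x i : ℝ) - 2 ^ m * y i| := by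
    rw [← mul_sub, abs_mul, abs_of_pos (two_pow_pos' m)]
    ring
  rw [h5, abs_le]
  constructor <;> linarith

/-- Lebesgue number lemma in the Hilbert cube -/
theorem lebesgue {K : Set Q} (hK : IsClosed K) {ι : Type} {U : ι → Set Q}
    (hU : ∀ i, IsOpen (U i)) (hKU : K ⊆ ⋃ i, U i) :
    ∃ N, ∀ x ∈ K, ∃ i, ∀ y, NearB N x y → y ∈ U i := by
  rcases K.eq_empty_or_nonempty with rfl | ⟨xk, hxk⟩
  · exact ⟨0, fun x hx => absurd hx (notMem_empty x)⟩
  have hne : Nonempty ι := by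
    obtain ⟨i, -⟩ := mem_iUnion.1 (hKU hxk)
    exact ⟨i⟩
  have h1 : ∀ x ∈ K, ∃ N, ∃ i, ∀ y, Near N x y → y ∈ U i := by
    intro x hx
    obtain ⟨i, hi⟩ := mem_iUnion.1 (hKU hx)
    obtain ⟨N, hN⟩ := near_of_isOpen (hU i) hi
    exact ⟨N, i, hN⟩
  choose! N i hN using h1
  set O : Q → Set Q := fun x => {y | ∀ j < N x, |(x j : ℝ) - y j| * 2 ^ N x < 2} with hO
  have hOo : ∀ x, IsOpen (O x) := by
    intro x
    have : O x = ⋂ j ∈ Finset.range (N x), {y : Q | |(x j : ℝ) - y j| * 2 ^ N x < 2} := by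
      ext y; simp [hO]
    rw [this]
    apply isOpen_biInter_finset
    intro j _
    apply isOpen_lt _ continuous_const
    have hc : Continuous fun y : Q => (y j : ℝ) :=
      continuous_subtype_val.comp (continuous_apply _)
    fun_prop
  obtain ⟨t, htK, ht⟩ := hK.isCompact.elim_nhds_subcover O
    (fun x _ => (hOo x).mem_nhds (by
      intro j _
      simp))
  refine ⟨t.sup N, fun x hx => ?_⟩
  obtain ⟨x₀, hx₀, hxx₀⟩ := mem_iUnion₂.1 (ht hx)
  refine ⟨i x₀, fun y hy => hN x₀ (htK _ hx₀) y ?_⟩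
  intro j hj
  have hle : N x₀ ≤ t.sup N := Finset.le_sup hx₀
  have h2 := hy.mono hle j hj
  have h3 := hxx₀ j hj
  have h4 : |(x₀ j : ℝ) - y j| ≤ |(x₀ j : ℝ) - x j| + |(x j : ℝ) - y j| := abs_sub_le _ _ _
  have h5 := two_pow_pos' (N x₀)
  nlinarith

/-- arithmetic condition for `cell c ⊆ boxQ e` -/
def inBox (c : List ℕ) (e : ℕ) : Prop :=
  ∀ t ∈ Denumerable.ofNat (List (ℕ × ℕ × ℕ × ℕ)) e, t.1 < c.length ∧
    t.2.1 * 2 ^ c.length < (t.2.2.2 + 1) * c.getD t.1 0 + 2 ^ c.length ∧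
    (t.2.2.2 + 1) * (c.getD t.1 0 + 1) < t.2.2.1 * 2 ^ c.length

theorem primrec_inBox {f : α → List ℕ} {g : α → ℕ} (hf : Primrec f) (hg : Primrec g) :
    PrimrecPred fun a => inBox (f a) (g a) := by
  unfold inBox
  apply all_mem (P := fun a (t : ℕ × ℕ × ℕ × ℕ) => t.1 < (f a).length ∧
    t.2.1 * 2 ^ (f a).length < (t.2.2.2 + 1) * (f a).getD t.1 0 + 2 ^ (f a).length ∧
    (t.2.2.2 + 1) * ((f a).getD t.1 0 + 1) < t.2.2.1 * 2 ^ (f a).length)
  · fun_prop
  · fun_prop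

theorem mem_boxQ {e : ℕ} {x : Q} : x ∈ boxQ e ↔
    ∀ t ∈ Denumerable.ofNat (List (ℕ × ℕ × ℕ × ℕ)) e,
      (t.2.1 : ℝ) < (t.2.2.2 + 1) * x t.1 + 1 ∧ (t.2.2.2 + 1) * (x t.1 : ℝ) < t.2.2.1 := mem_box

theorem cell_subset_of_inBox {c : List ℕ} {e : ℕ} (h : inBox c e) : cell c ⊆ boxQ e := by
  intro x hx
  rw [mem_boxQ]
  intro t ht
  obtain ⟨h1, h2, h3⟩ := h t ht
  obtain ⟨h4, h5⟩ := mem_cell.1 hx _ h1
  have h2' : (t.2.1 : ℝ) * 2 ^ c.length < (t.2.2.2 + 1) * c.getD t.1 0 + 2 ^ c.length := by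
    exact_mod_cast h2
  have h3' : ((t.2.2.2 : ℝ) + 1) * (c.getD t.1 0 + 1) < t.2.2.1 * 2 ^ c.length := by
    exact_mod_cast h3
  have hp := two_pow_pos' c.length
  have ht0 : (0 : ℝ) < (t.2.2.2 : ℝ) + 1 := by positivity
  constructor
  · have h6 : ((t.2.2.2 : ℝ) + 1) * c.getD t.1 0 ≤ (t.2.2.2 + 1) * (2 ^ c.length * x t.1) :=
      mul_le_mul_of_nonneg_left h4 ht0.le
    have h7 : (t.2.1 : ℝ) * 2 ^ c.length < ((t.2.2.2 + 1) * x t.1 + 1) * 2 ^ c.length := by
      nlinarith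
    exact lt_of_mul_lt_mul_right h7 hp.le
  · have h6 : ((t.2.2.2 : ℝ) + 1) * (2 ^ c.length * x t.1) ≤ (t.2.2.2 + 1) * (c.getD t.1 0 + 1) :=
      mul_le_mul_of_nonneg_left h5 ht0.le
    have h7 : ((t.2.2.2 : ℝ) + 1) * x t.1 * 2 ^ c.length < t.2.2.1 * 2 ^ c.length := by
      nlinarith
    exact lt_of_mul_lt_mul_right h7 hp.le

/-- the point of a cell with the coordinates `(c i + δ i) / 2 ^ m` (`i < m`), `0` elsewhere -/
noncomputable def corner (m : ℕ) (f : ℕ → ℕ) : Q := fun i =>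
  if h : i < m ∧ f i ≤ 2 ^ m then ⟨(f i : ℝ) / 2 ^ m, by positivity, by
    rw [div_le_one (two_pow_pos' m)]
    exact_mod_cast h.2⟩ else 0

theorem corner_apply {m : ℕ} {f : ℕ → ℕ} {i : ℕ} (hi : i < m) (hf : f i ≤ 2 ^ m) :
    (2 : ℝ) ^ m * corner m f i = f i := by
  unfold corner
  rw [dif_pos ⟨hi, hf⟩]
  have := two_pow_pos' m
  simp only
  field_simp

theorem corner_mem {m : ℕ} {c : List ℕ} (hc : c ∈ cells m) {f : ℕ → ℕ}
    (h : ∀ i < m, c.getD i 0 ≤ f i ∧ f i ≤ c.getD i 0 + 1) : corner m f ∈ cell c := by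
  have hl := (mem_cells.1 hc).1
  rw [mem_cell, hl]
  intro i hi
  obtain ⟨h1, h2⟩ := h i hi
  have h3 := getD_lt hc i
  rw [corner_apply hi (by omega)]
  exact ⟨by exact_mod_cast h1, by exact_mod_cast h2⟩

theorem cell_nonempty {m : ℕ} {c : List ℕ} (hc : c ∈ cells m) : (cell c).Nonempty :=
  ⟨_, corner_mem hc (f := fun i => c.getD i 0) fun i _ => ⟨le_rfl, by omega⟩⟩

theorem inBox_of_subset {m : ℕ} {c : List ℕ} (hc : c ∈ cells m) {e : ℕ}
    (hsub : cell c ⊆ boxQ e)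
    (hm : ∀ t ∈ Denumerable.ofNat (List (ℕ × ℕ × ℕ × ℕ)) e, t.1 < m) : inBox c e := by
  have hl := (mem_cells.1 hc).1
  have h1 := hsub (corner_mem hc (f := fun i => c.getD i 0) fun i _ => ⟨le_rfl, by omega⟩)
  have h2 := hsub (corner_mem hc (f := fun i => c.getD i 0 + 1) fun i _ => ⟨by omega, le_rfl⟩)
  rw [mem_boxQ] at h1 h2
  intro t ht
  have htm := hm t ht
  have h3 := (h1 t ht).1
  have h4 := (h2 t ht).2
  have h5 := getD_lt hc t.1
  have h6 := corner_apply (f := fun i => c.getD i 0) htm (by omega)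
  have h7 := corner_apply (f := fun i => c.getD i 0 + 1) htm (by omega)
  have hp := two_pow_pos' m
  rw [hl]
  refine ⟨htm, ?_, ?_⟩
  · have : (t.2.1 : ℝ) * 2 ^ m < (t.2.2.2 + 1) * c.getD t.1 0 + 2 ^ m := by
      calc (t.2.1 : ℝ) * 2 ^ m
          < ((t.2.2.2 + 1) * (corner m (fun i => c.getD i 0) t.1 : ℝ) + 1) * 2 ^ m :=
            mul_lt_mul_of_pos_right h3 hp
        _ = (t.2.2.2 + 1) * (2 ^ m * (corner m (fun i => c.getD i 0) t.1 : ℝ)) + 2 ^ m := by
            ring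
        _ = _ := by rw [h6]
    exact_mod_cast this
  · have : ((t.2.2.2 : ℝ) + 1) * (c.getD t.1 0 + 1) < t.2.2.1 * 2 ^ m := by
      calc ((t.2.2.2 : ℝ) + 1) * (c.getD t.1 0 + 1)
          = (t.2.2.2 + 1) * (2 ^ m * (corner m (fun i => c.getD i 0 + 1) t.1 : ℝ)) := by
            rw [h7]; push_cast; ring
        _ = (t.2.2.2 + 1) * (corner m (fun i => c.getD i 0 + 1) t.1 : ℝ) * 2 ^ m := by ring
        _ < _ := mul_lt_mul_of_pos_right h4 hp
    exact_mod_cast this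

/-- the boxes number `e`, `e + 1 ∈ L`, cover the Hilbert cube -/
def CoversQ (L : List ℕ) : Prop := ∀ x : Q, ∃ e, e + 1 ∈ L ∧ x ∈ boxQ e

/-- finite check for `CoversQ` -/
def covL (N : ℕ) (L : List ℕ) : Prop := ∀ c ∈ cells N, ∃ v ∈ L, 0 < v ∧ inBox c (v - 1)

theorem primrec_covL {f : α → ℕ} {g : α → List ℕ} (hf : Primrec f) (hg : Primrec g) :
    PrimrecPred fun a => covL (f a) (g a) := by
  unfold covL
  apply all_mem (P := fun a (c : List ℕ) => ∃ v ∈ g a, 0 < v ∧ inBox c (v - 1)) _ (by fun_prop)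
  apply ex_mem (P := fun (x : α × List ℕ) (v : ℕ) => 0 < v ∧ inBox x.2 (v - 1)) _ (by fun_prop)
  apply and' (by fun_prop)
  exact primrec_inBox (by fun_prop) (by fun_prop)

theorem coversQ_iff (L : List ℕ) : CoversQ L ↔ ∃ N, covL N L := by
  constructor
  · intro h
    obtain ⟨N, hN⟩ := lebesgue (K := univ) isClosed_univ
      (U := fun e : {e // e + 1 ∈ L} => boxQ e.1) (fun e => isOpen_boxQ _) (by
        intro x _
        obtain ⟨e, he, hx⟩ := h x
        exact mem_iUnion.2 ⟨⟨e, he⟩, hx⟩)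
    obtain ⟨M, hM⟩ : ∃ M, ∀ v ∈ L, ∀ t ∈ Denumerable.ofNat (List (ℕ × ℕ × ℕ × ℕ)) (v - 1),
        t.1 < M := by
      have h1 : ∀ v, ∃ M, ∀ t ∈ Denumerable.ofNat (List (ℕ × ℕ × ℕ × ℕ)) (v - 1), t.1 < M := by
        intro v
        refine ⟨((Denumerable.ofNat (List (ℕ × ℕ × ℕ × ℕ)) (v - 1)).map (·.1)).sum + 1, ?_⟩
        intro t ht
        exact Nat.lt_succ_of_le (List.le_sum_of_mem (List.mem_map.2 ⟨t, ht, rfl⟩))
      choose M hM using h1
      refine ⟨(L.map M).sum, ?_⟩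
      intro v hv t ht
      exact lt_of_lt_of_le (hM v t ht) (List.le_sum_of_mem (List.mem_map.2 ⟨v, hv, rfl⟩))
    refine ⟨max N M, ?_⟩
    intro c hc
    obtain ⟨x, hx⟩ := cell_nonempty hc
    obtain ⟨⟨e, he⟩, hxe⟩ := hN x (mem_univ _)
    refine ⟨e + 1, he, by omega, ?_⟩
    apply inBox_of_subset hc
    · intro y hy
      exact hxe y ((nearB_of_cell hc hx hy).mono (le_max_left _ _))
    · intro t ht
      exact lt_of_lt_of_le (hM _ he t ht) (le_max_right _ _)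
  · rintro ⟨N, hN⟩ x
    obtain ⟨c, hc, hx⟩ := exists_cell N x
    obtain ⟨v, hv, hv0, hvc⟩ := hN c hc
    refine ⟨v - 1, ?_, cell_subset_of_inBox hvc hx⟩
    rwa [Nat.sub_add_cancel hv0]

theorem sig1_coversQ {g : α → List ℕ} (hg : Primrec g) : Sig1 fun a => CoversQ (g a) := by
  have h : Sig1 fun a => ∃ N, covL N (g a) := by
    apply Sig1.ex (P := fun a N => covL N (g a))
    exact Sig1.of_prim (primrec_covL (by fun_prop) (by fun_prop))
  exact h.congr fun a => coversQ_iff _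

/-- If the closed set with the name `p` together with finitely many boxes... : compactness -/
theorem coversQ_prefix {p : ℕ → ℕ} {A : Set Q}
    (hp : Aᶜ = ⋃ (i : ℕ) (e : ℕ) (_ : p i = e + 1), boxQ e) (L : List ℕ) :
    (∃ m, CoversQ (pre p m ++ L)) ↔ ∀ x ∈ A, ∃ e, e + 1 ∈ L ∧ x ∈ boxQ e := by
  constructor
  · rintro ⟨m, hm⟩ x hx
    obtain ⟨e, he, hxe⟩ := hm x
    rcases List.mem_append.1 he with he | he
    · exfalso
      obtain ⟨i, -, hi⟩ := mem_pre.1 he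
      have : x ∈ Aᶜ := by
        rw [hp]
        simp only [mem_iUnion]
        exact ⟨i, e, hi, hxe⟩
      exact this hx
    · exact ⟨e, he, hxe⟩
  · intro h
    have hopen : ∀ i : ℕ ⊕ {e // e + 1 ∈ L}, IsOpen (i.elim (fun j => ⋃ (e : ℕ) (_ : p j = e + 1),
        boxQ e) (fun e => boxQ e.1)) := by
      rintro (j | e)
      · exact isOpen_iUnion fun e => isOpen_iUnion fun _ => isOpen_boxQ _
      · exact isOpen_boxQ _
    have hcov : (univ : Set Q) ⊆ ⋃ i : ℕ ⊕ {e // e + 1 ∈ L},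
        (i.elim (fun j => ⋃ (e : ℕ) (_ : p j = e + 1), boxQ e) (fun e => boxQ e.1)) := by
      intro x _
      by_cases hx : x ∈ A
      · obtain ⟨e, he, hxe⟩ := h x hx
        exact mem_iUnion.2 ⟨Sum.inr ⟨e, he⟩, hxe⟩
      · have : x ∈ Aᶜ := hx
        rw [hp] at this
        obtain ⟨j, hj⟩ := mem_iUnion.1 this
        exact mem_iUnion.2 ⟨Sum.inl j, hj⟩
    obtain ⟨t, ht⟩ := isCompact_univ.elim_finite_subcover _ hopen hcov
    have hb : ∃ m, ∀ j, Sum.inl j ∈ t → j < m := by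
      refine ⟨t.sup (fun i => i.elim (fun j => j + 1) (fun _ => 0)), ?_⟩
      intro j hj
      have := Finset.le_sup (f := fun i : ℕ ⊕ {e // e + 1 ∈ L} =>
        i.elim (fun j => j + 1) (fun _ => 0)) hj
      simpa using this
    obtain ⟨m, hm⟩ := hb
    refine ⟨m, fun x => ?_⟩
    obtain ⟨i, hi, hxi⟩ := mem_iUnion₂.1 (ht (mem_univ x))
    rcases i with j | ⟨e, he⟩
    · simp only [Sum.elim_inl, mem_iUnion] at hxi
      obtain ⟨e, hje, hxe⟩ := hxi
      exact ⟨e, List.mem_append_left _ (mem_pre.2 ⟨j, hm j hi, hje⟩), hxe⟩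
    · exact ⟨e, List.mem_append_right _ he, hxi⟩

end Pool.Agent.CMTW
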