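import Pool.Agent.Lib_fca3ff.Thin

set_option autoImplicit false

/-!
# Gluing of covers, minimal sets
-/

namespace Pool.Agent.CMTW

open Set

theorem Small.le {k l : ℕ} (h : k ≤ l) {U : Set Q} (hU : Small l U) : Small k U := by
  intro x hx y hy i hi
  have h1 := hU x hx y hy i (by omega)
  have h2 : (2 : ℝ) ^ k ≤ 2 ^ l := pow_le_pow_right₀ (by norm_num) h
  have h3 : 0 ≤ |(x i : ℝ) - y i| := abs_nonneg _
  nlinarith

theorem Small.nearB {k : ℕ} {U : Set Q} (hU : Small k U) {x y : Q} (hx : x ∈ U) (hy : y ∈ U) :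
    NearB k x y := fun i hi => by
  have := hU x hx y hy i hi
  linarith

theorem enc3 {J A B : Type} (T : Set (J ⊕ A ⊕ B)) (S1 : Set J) (S2 : Set A) (S3 : Set B)
    (h1 : ∀ j, Sum.inl j ∈ T → j ∈ S1) (h2 : ∀ a, Sum.inr (Sum.inl a) ∈ T → a ∈ S2)
    (h3 : ∀ b, Sum.inr (Sum.inr b) ∈ T → b ∈ S3) :
    T.encard ≤ S1.encard + S2.encard + S3.encard := by
  have hsub : T ⊆ (Sum.inl '' S1 ∪ (fun a => Sum.inr (Sum.inl a)) '' S2) ∪
      (fun b => Sum.inr (Sum.inr b)) '' S3 := by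
    rintro (j | a | b) hx
    · exact Or.inl (Or.inl ⟨j, h1 j hx, rfl⟩)
    · exact Or.inl (Or.inr ⟨a, h2 a hx, rfl⟩)
    · exact Or.inr ⟨b, h3 b hx, rfl⟩
  refine (encard_le_encard hsub).trans ((encard_union_le _ _).trans ?_)
  refine add_le_add ((encard_union_le _ _).trans ?_) (encard_image_le _ _)
  exact add_le_add (encard_image_le _ _) (encard_image_le _ _)

theorem enc2 {A B : Type} (T : Set (A ⊕ B)) (S2 : Set A) (S3 : Set B)
    (h2 : ∀ a, Sum.inl a ∈ T → a ∈ S2) (h3 : ∀ b, Sum.inr b ∈ T → b ∈ S3) :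
    T.encard ≤ S2.encard + S3.encard := by
  have hsub : T ⊆ Sum.inl '' S2 ∪ Sum.inr '' S3 := by
    rintro (a | b) hx
    · exact Or.inl ⟨a, h2 a hx, rfl⟩
    · exact Or.inr ⟨b, h3 b hx, rfl⟩
  refine (encard_le_encard hsub).trans ((encard_union_le _ _).trans ?_)
  exact add_le_add (encard_image_le _ _) (encard_image_le _ _)

/-- The mass splitting: `ψ` nonnegative numbers, `R j = c - ∑_{i<j} ψ i`,
`w j = max 0 (min (ψ j) (R j))`, `v j = ψ j - w j`. -/
theorem split_enc {m : ℕ} (ψ : Fin m → ℝ) (hψ : ∀ j, 0 ≤ ψ j) (c : ℝ) (n : ℕ)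
    (hn : {j | 0 < ψ j}.encard ≤ n) :
    {j | 0 < max 0 (min (ψ j) (c - ∑ i ∈ Finset.univ.filter (· < j), ψ i))}.encard +
      {j | 0 < ψ j - max 0 (min (ψ j) (c - ∑ i ∈ Finset.univ.filter (· < j), ψ i))}.encard ≤
      n + 1 := by
  classical
  set R : Fin m → ℝ := fun j => c - ∑ i ∈ Finset.univ.filter (· < j), ψ i with hR
  set W : Set (Fin m) := {j | 0 < max 0 (min (ψ j) (R j))} with hW
  set V : Set (Fin m) := {j | 0 < ψ j - max 0 (min (ψ j) (R j))} with hV
  have hWR : ∀ j ∈ W, 0 < ψ j ∧ 0 < R j := by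
    intro j hj
    have h1 : 0 < max 0 (min (ψ j) (R j)) := hj
    rcases lt_max_iff.1 h1 with h | h
    · exact absurd h (lt_irrefl _)
    · exact lt_min_iff.1 h
  have hVR : ∀ j ∈ V, 0 < ψ j ∧ R j < ψ j := by
    intro j hj
    have h1 : 0 < ψ j - max 0 (min (ψ j) (R j)) := hj
    have h2 : max 0 (min (ψ j) (R j)) < ψ j := by linarith
    obtain ⟨h3, h4⟩ := max_lt_iff.1 h2
    refine ⟨h3, ?_⟩
    rcases min_lt_iff.1 h4 with h | h
    · exact absurd h (lt_irrefl _)
    · exact h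
  have hRlt : ∀ j j', j < j' → R j' ≤ R j - ψ j := by
    intro j j' hjj
    simp only [hR]
    have h1 : ψ j + ∑ i ∈ Finset.univ.filter (· < j), ψ i ≤
        ∑ i ∈ Finset.univ.filter (· < j'), ψ i := by
      have h2 : j ∉ Finset.univ.filter (· < j) := by simp
      rw [← Finset.sum_insert h2]
      apply Finset.sum_le_sum_of_subset_of_nonneg
      · intro i hi
        rcases Finset.mem_insert.1 hi with rfl | hi
        · simp [hjj]
        · have := (Finset.mem_filter.1 hi).2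
          simp [this.trans hjj]
      · intro i _ _
        exact hψ i
    linarith
  have hinter : (W ∩ V).encard ≤ 1 := by
    rw [encard_le_one_iff]
    rintro j j' ⟨hj1, hj2⟩ ⟨hj1', hj2'⟩
    rcases lt_trichotomy j j' with h | h | h
    · exfalso
      have h1 := hRlt j j' h
      have h2 := (hWR j' hj1').2
      have h3 := (hVR j hj2).2
      linarith
    · exact h
    · exfalso
      have h1 := hRlt j' j h
      have h2 := (hWR j hj1).2
      have h3 := (hVR j' hj2').2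
      linarith
  have hunion : (W ∪ V).encard ≤ n := by
    refine le_trans (encard_le_encard ?_) hn
    rintro j (hj | hj)
    · exact (hWR j hj).1
    · exact (hVR j hj).1
  rw [← encard_union_add_encard_inter]
  exact add_le_add hunion hinter

/-- **Gluing.** -/
theorem glue {n k : ℕ} {Y₁ Y₂ : Set Q} (h₁ : IsClosed Y₁) (h₂ : IsClosed Y₂)
    (hC : CovDimLT (Y₁ ∩ Y₂ : Set Q) n) (t₁ : Thin (n + 1) k Y₁) (t₂ : Thin (n + 1) k Y₂) :
    Thin (n + 1) k (Y₁ ∪ Y₂) := by
  classical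
  obtain ⟨A, hA, U, hU, hUY, hUs, hUn⟩ := t₁
  obtain ⟨B, hB, U', hU', hUY', hUs', hUn'⟩ := t₂
  have hCc : IsClosed (Y₁ ∩ Y₂) := h₁.inter h₂
  obtain ⟨N, hN⟩ := lebesgue (K := Y₁ ∩ Y₂) hCc (U := fun ab : A × B => U ab.1 ∩ U' ab.2)
    (fun ab => (hU _).inter (hU' _)) (by
      intro x hx
      obtain ⟨a, ha⟩ := mem_iUnion.1 (hUY hx.1)
      obtain ⟨b, hb⟩ := mem_iUnion.1 (hUY' hx.2)
      exact mem_iUnion.2 ⟨(a, b), ha, hb⟩)
  obtain ⟨J, hJ, V₀, hV₀, hVC₀, hVs₀, hVn₀⟩ := hC.thin N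
  have hJf : Finite {j : J // (V₀ j ∩ (Y₁ ∩ Y₂)).Nonempty} := inferInstance
  obtain ⟨m, ⟨eqv⟩⟩ := Finite.exists_equiv_fin {j : J // (V₀ j ∩ (Y₁ ∩ Y₂)).Nonempty}
  set V : Fin m → Set Q := fun j => V₀ (eqv.symm j).1 with hV
  have hVo : ∀ j, IsOpen (V j) := fun j => hV₀ _
  have hVC : Y₁ ∩ Y₂ ⊆ ⋃ j, V j := by
    intro x hx
    obtain ⟨j, hj⟩ := mem_iUnion.1 (hVC₀ hx)
    refine mem_iUnion.2 ⟨eqv ⟨j, x, hj, hx⟩, ?_⟩
    simp only [hV, Equiv.symm_apply_apply]
    exact hj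
  have hVn : ∀ x, {j | x ∈ V j}.encard ≤ n := by
    intro x
    refine le_trans ?_ (hVn₀ x)
    apply encard_le_encard_of_injOn (f := fun j => (eqv.symm j).1)
    · intro j hj; exact hj
    · intro j _ j' _ h
      exact eqv.symm.injective (Subtype.ext h)
  have hab : ∀ j, ∃ ab : A × B, V j ⊆ U ab.1 ∩ U' ab.2 := by
    intro j
    obtain ⟨x, hx, hxC⟩ := (eqv.symm j).2
    obtain ⟨ab, h⟩ := hN x hxC
    exact ⟨ab, fun y hy => h y ((hVs₀ _).nearB hx hy)⟩
  choose ab hab' using hab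
  choose ψ hψc hψ0 hψ using fun j => exists_pos_fun (hVo j)
  set NC : Set Q := ⋃ j, V j with hNC
  have hNCo : IsOpen NC := isOpen_iUnion hVo
  obtain ⟨s, hs0, hs1, hs01⟩ := exists_continuous_zero_one_of_isClosed hCc
    hNCo.isClosed_compl (by
      rw [disjoint_compl_right_iff_subset]; exact hVC)
  have hsc : Continuous fun x => s x := s.continuous
  have hs0' : ∀ x ∈ Y₁ ∩ Y₂, s x = 0 := fun x hx => hs0 hx
  have hs1' : ∀ x, s x < 1 → x ∈ NC := by
    intro x hx
    by_contra hne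
    have : s x = 1 := hs1 hne
    linarith
  -- separation
  have hcl : ∀ Y : Set Q, IsClosed Y → IsClosed (Y ∩ {x | (1 / 4 : ℝ) ≤ s x}) := fun Y hY =>
    hY.inter (isClosed_le continuous_const hsc)
  obtain ⟨H₁, H₂, hH₁, hH₂, hYH₁, hYH₂, hHd⟩ := normal_separation (hcl Y₁ h₁) (hcl Y₂ h₂) (by
    rw [Set.disjoint_left]
    rintro x ⟨hx1, hx2⟩ ⟨hx3, -⟩
    have h1 : (1 / 4 : ℝ) ≤ s x := hx2
    rw [hs0' x ⟨hx1, hx3⟩] at h1
    norm_num at h1)
  -- the weights
  set w : Fin m → Q → ℝ := fun j x => max 0 (min (ψ j x)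
    ((1 - 2 * s x) - ∑ i ∈ Finset.univ.filter (· < j), ψ i x)) with hw
  have hwc : ∀ j, Continuous (w j) := by
    intro j
    simp only [hw]
    refine continuous_const.max ((hψc j).min ?_)
    refine (continuous_const.sub (continuous_const.mul hsc)).sub ?_
    exact continuous_finsetSum _ fun i _ => hψc i
  have hwψ : ∀ j x, 0 < w j x → 0 < ψ j x := by
    intro j x h
    simp only [hw] at h
    rcases lt_max_iff.1 h with h | h
    · exact absurd h (lt_irrefl _)
    · exact (lt_min_iff.1 h).1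
  have hw0 : ∀ j x, 0 ≤ w j x := fun j x => le_max_left _ _
  have hvψ : ∀ j x, 0 < ψ j x - w j x → 0 < ψ j x := fun j x h => by
    have := hw0 j x; linarith
  have hsplit : ∀ x, {j | 0 < w j x}.encard + {j | 0 < ψ j x - w j x}.encard ≤ n + 1 := by
    intro x
    apply split_enc (fun j => ψ j x) (fun j => hψ0 j x) (1 - 2 * s x) n
    have : {j | 0 < ψ j x} = {j | x ∈ V j} := by
      ext j; exact hψ j x
    rw [this]
    exact hVn x
  -- the sets
  set OW : Fin m → Set Q := fun j => {x | s x < 1 / 2} ∩ {x | 0 < w j x} with hOW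
  set OA : A → Set Q := fun a => ({x | 1 / 4 < s x} ∩ H₁) ∩
    ((⋃ (j : Fin m) (_ : (ab j).1 = a), {x | 0 < ψ j x - w j x}) ∪ ({x | 1 / 2 < s x} ∩ U a))
    with hOA
  set OB : B → Set Q := fun b => ({x | 1 / 4 < s x} ∩ H₂) ∩
    ((⋃ (j : Fin m) (_ : (ab j).2 = b), {x | 0 < ψ j x - w j x}) ∪ ({x | 1 / 2 < s x} ∩ U' b))
    with hOB
  have hvo : ∀ j, IsOpen {x | 0 < ψ j x - w j x} := fun j =>
    isOpen_lt continuous_const ((hψc j).sub (hwc j))
  have hOAU : ∀ a, OA a ⊆ U a := by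
    rintro a x ⟨-, hx | hx⟩
    · simp only [mem_iUnion] at hx
      obtain ⟨j, rfl, hj⟩ := hx
      exact (hab' j ((hψ j x).1 (hvψ j x hj))).1
    · exact hx.2
  have hOBU : ∀ b, OB b ⊆ U' b := by
    rintro b x ⟨-, hx | hx⟩
    · simp only [mem_iUnion] at hx
      obtain ⟨j, rfl, hj⟩ := hx
      exact (hab' j ((hψ j x).1 (hvψ j x hj))).2
    · exact hx.2
  refine ⟨Fin m ⊕ A ⊕ B, inferInstance, Sum.elim OW (Sum.elim OA OB), ?_, ?_, ?_, ?_⟩
  · rintro (j | a | b)
    · exact (isOpen_lt hsc continuous_const).inter (isOpen_lt continuous_const (hwc j))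
    · exact ((isOpen_lt continuous_const hsc).inter hH₁).inter
        ((isOpen_iUnion fun j => isOpen_iUnion fun _ => hvo j).union
          ((isOpen_lt continuous_const hsc).inter (hU a)))
    · exact ((isOpen_lt continuous_const hsc).inter hH₂).inter
        ((isOpen_iUnion fun j => isOpen_iUnion fun _ => hvo j).union
          ((isOpen_lt continuous_const hsc).inter (hU' b)))
  · -- cover
    have hlow : ∀ x, s x < 1 / 2 → ∃ j, x ∈ OW j := by
      intro x hx
      obtain ⟨j0, hj0⟩ := mem_iUnion.1 (hs1' x (by linarith))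
      have hne : (Finset.univ.filter fun j => x ∈ V j).Nonempty := ⟨j0, by simp [hj0]⟩
      obtain ⟨j, hj, hmin⟩ := Finset.exists_min_image _ id hne
      refine ⟨j, hx, ?_⟩
      have hjV : x ∈ V j := (Finset.mem_filter.1 hj).2
      have hsum : ∑ i ∈ Finset.univ.filter (· < j), ψ i x = 0 := by
        apply Finset.sum_eq_zero
        intro i hi
        have hij := (Finset.mem_filter.1 hi).2
        by_contra hne
        have h1 : 0 < ψ i x := lt_of_le_of_ne (hψ0 i x) (Ne.symm hne)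
        have h2 := hmin i (by simp [(hψ i x).1 h1])
        simp only [id] at h2
        exact absurd hij (not_lt.2 h2)
      show 0 < max 0 (min (ψ j x) ((1 - 2 * s x) - ∑ i ∈ Finset.univ.filter (· < j), ψ i x))
      rw [hsum, sub_zero]
      apply lt_max_of_lt_right
      exact lt_min ((hψ j x).2 hjV) (by linarith)
    have hmid : ∀ x, s x = 1 / 2 → ∃ j, 0 < ψ j x - w j x := by
      intro x hx
      obtain ⟨j, hj⟩ := mem_iUnion.1 (hs1' x (by rw [hx]; norm_num))
      refine ⟨j, ?_⟩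
      have h1 : w j x = 0 := by
        simp only [hw]
        apply max_eq_left
        apply min_le_of_right_le
        have h2 : 0 ≤ ∑ i ∈ Finset.univ.filter (· < j), ψ i x :=
          Finset.sum_nonneg fun i _ => hψ0 i x
        rw [hx]; linarith
      rw [h1, sub_zero]
      exact (hψ j x).2 hj
    rintro x (hx | hx)
    · rcases lt_trichotomy (s x) (1 / 2) with h | h | h
      · obtain ⟨j, hj⟩ := hlow x h
        exact mem_iUnion.2 ⟨Sum.inl j, hj⟩
      · obtain ⟨j, hj⟩ := hmid x h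
        refine mem_iUnion.2 ⟨Sum.inr (Sum.inl (ab j).1), ⟨?_, hYH₁ ⟨hx, ?_⟩⟩, Or.inl ?_⟩
        · show 1 / 4 < s x
          rw [h]; norm_num
        · show 1 / 4 ≤ s x
          rw [h]; norm_num
        · exact mem_iUnion.2 ⟨j, mem_iUnion.2 ⟨rfl, hj⟩⟩
      · obtain ⟨a, ha⟩ := mem_iUnion.1 (hUY hx)
        refine mem_iUnion.2 ⟨Sum.inr (Sum.inl a), ⟨?_, hYH₁ ⟨hx, ?_⟩⟩, Or.inr ⟨h, ha⟩⟩
        · show 1 / 4 < s x
          linarith
        · show 1 / 4 ≤ s x
          linarith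
    · rcases lt_trichotomy (s x) (1 / 2) with h | h | h
      · obtain ⟨j, hj⟩ := hlow x h
        exact mem_iUnion.2 ⟨Sum.inl j, hj⟩
      · obtain ⟨j, hj⟩ := hmid x h
        refine mem_iUnion.2 ⟨Sum.inr (Sum.inr (ab j).2), ⟨?_, hYH₂ ⟨hx, ?_⟩⟩, Or.inl ?_⟩
        · show 1 / 4 < s x
          rw [h]; norm_num
        · show 1 / 4 ≤ s x
          rw [h]; norm_num
        · exact mem_iUnion.2 ⟨j, mem_iUnion.2 ⟨rfl, hj⟩⟩
      · obtain ⟨b, hb⟩ := mem_iUnion.1 (hUY' hx)
        refine mem_iUnion.2 ⟨Sum.inr (Sum.inr b), ⟨?_, hYH₂ ⟨hx, ?_⟩⟩, Or.inr ⟨h, hb⟩⟩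
        · show 1 / 4 < s x
          linarith
        · show 1 / 4 ≤ s x
          linarith
  · rintro (j | a | b)
    · refine (hUs (ab j).1).mono ?_
      rintro x ⟨-, hx⟩
      exact (hab' j ((hψ j x).1 (hwψ j x hx))).1
    · exact (hUs a).mono (hOAU a)
    · exact (hUs' b).mono (hOBU b)
  · -- order
    intro x
    have hH : x ∈ H₁ → x ∉ H₂ := fun h h' => Set.disjoint_left.1 hHd h h'
    by_cases hx : s x < 1 / 2
    · by_cases hx1 : x ∈ H₁
      · refine (enc3 _ {j | 0 < w j x} ((fun j => (ab j).1) '' {j | 0 < ψ j x - w j x}) ∅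
          ?_ ?_ ?_).trans ?_
        · intro j hj; exact hj.2
        · rintro a ⟨-, ha | ha⟩
          · simp only [mem_iUnion] at ha
            obtain ⟨j, hj, hj'⟩ := ha
            exact ⟨j, hj', hj⟩
          · exact absurd ha.1 (not_lt.2 hx.le)
        · intro b hb
          exact absurd hb.1.2 (hH hx1)
        · rw [encard_empty, add_zero]
          refine le_trans (add_le_add le_rfl (encard_image_le _ _)) ?_
          exact_mod_cast hsplit x
      · refine (enc3 _ {j | 0 < w j x} ∅ ((fun j => (ab j).2) '' {j | 0 < ψ j x - w j x})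
          ?_ ?_ ?_).trans ?_
        · intro j hj; exact hj.2
        · intro a ha
          exact absurd ha.1.2 hx1
        · rintro b ⟨-, hb | hb⟩
          · simp only [mem_iUnion] at hb
            obtain ⟨j, hj, hj'⟩ := hb
            exact ⟨j, hj', hj⟩
          · exact absurd hb.1 (not_lt.2 hx.le)
        · rw [encard_empty, add_zero]
          refine le_trans (add_le_add le_rfl (encard_image_le _ _)) ?_
          exact_mod_cast hsplit x
    · by_cases hx1 : x ∈ H₁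
      · refine (enc3 _ ∅ {a | x ∈ U a} ∅ ?_ ?_ ?_).trans ?_
        · intro j hj; exact absurd hj.1 hx
        · intro a ha; exact hOAU a ha
        · intro b hb
          exact absurd hb.1.2 (hH hx1)
        · rw [encard_empty, encard_empty, add_zero, zero_add]
          exact hUn x
      · refine (enc3 _ ∅ ∅ {b | x ∈ U' b} ?_ ?_ ?_).trans ?_
        · intro j hj; exact absurd hj.1 hx
        · intro a ha
          exact absurd ha.1.2 hx1
        · intro b hb; exact hOBU b hb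
        · rw [encard_empty, encard_empty, add_zero, zero_add]
          exact hUn' x

/-- The sum theorem for covers of a given mesh. -/
theorem sumThin {n k : ℕ} {Y₁ Y₂ : Set Q} (h₁ : IsClosed Y₁) (h₂ : IsClosed Y₂)
    (t₁ : Thin n k Y₁) (d₂ : CovDimLT Y₂ n) : Thin n k (Y₁ ∪ Y₂) := by
  classical
  obtain ⟨A, hA, U, hU, hUY, hUs, hUn⟩ := t₁
  rcases isEmpty_or_nonempty A with hAe | hAne
  · refine (d₂.thin k).mono ?_
    rintro x (hx | hx)
    · obtain ⟨a, -⟩ := mem_iUnion.1 (hUY hx)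
      exact hAe.elim a
    · exact hx
  obtain ⟨P, hP, hYP, hPU⟩ := normal_exists_closure_subset h₁ (isOpen_iUnion hU) hUY
  obtain ⟨N, hN⟩ := lebesgue (K := closure P) isClosed_closure hU hPU
  obtain ⟨B, hB, W, hW, hWY, hWs, hWn⟩ := d₂.thin (max N k)
  have hass : ∀ b : B, (W b ∩ P).Nonempty → ∃ a, W b ⊆ U a := by
    rintro b ⟨x, hx, hxP⟩
    obtain ⟨a, ha⟩ := hN x (subset_closure hxP)
    exact ⟨a, fun y hy => ha y (((hWs b).le (le_max_left _ _)).nearB hx hy)⟩
  choose! as has using hass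
  set OA : A → Set Q := fun a => ((U a ∩ P) \ Y₂) ∪
    ⋃ (b : B) (_ : (W b ∩ P).Nonempty ∧ as b = a), W b with hOA
  set OB : B → Set Q := fun b => if (W b ∩ P).Nonempty then ∅ else W b with hOB
  have hOAU : ∀ a, OA a ⊆ U a := by
    rintro a x (hx | hx)
    · exact hx.1.1
    · simp only [mem_iUnion] at hx
      obtain ⟨b, ⟨hb, rfl⟩, hxb⟩ := hx
      exact has b hb hxb
  have hOBW : ∀ b, OB b ⊆ W b := by
    intro b x hx
    simp only [hOB] at hx
    split_ifs at hx with h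
    · exact absurd hx (notMem_empty _)
    · exact hx
  refine ⟨A ⊕ B, inferInstance, Sum.elim OA OB, ?_, ?_, ?_, ?_⟩
  · rintro (a | b)
    · refine IsOpen.union ?_ (isOpen_iUnion fun b => isOpen_iUnion fun _ => hW b)
      exact ((hU a).inter hP).sdiff h₂
    · simp only [Sum.elim_inr, hOB]
      split_ifs
      · exact isOpen_empty
      · exact hW b
  · intro x hx
    by_cases hx2 : x ∈ Y₂
    · obtain ⟨b, hb⟩ := mem_iUnion.1 (hWY hx2)
      by_cases h : (W b ∩ P).Nonempty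
      · refine mem_iUnion.2 ⟨Sum.inl (as b), Or.inr ?_⟩
        exact mem_iUnion.2 ⟨b, mem_iUnion.2 ⟨⟨h, rfl⟩, hb⟩⟩
      · refine mem_iUnion.2 ⟨Sum.inr b, ?_⟩
        simp only [Sum.elim_inr, hOB, if_neg h]
        exact hb
    · have hx1 : x ∈ Y₁ := hx.resolve_right hx2
      obtain ⟨a, ha⟩ := mem_iUnion.1 (hUY hx1)
      exact mem_iUnion.2 ⟨Sum.inl a, Or.inl ⟨⟨ha, hYP hx1⟩, hx2⟩⟩
  · rintro (a | b)
    · exact (hUs a).mono (hOAU a)
    · exact ((hWs b).le (le_max_right _ _)).mono (hOBW b)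
  · intro x
    by_cases hx : x ∈ P ∧ x ∉ Y₂
    · refine (enc2 _ {a | x ∈ U a} ∅ ?_ ?_).trans ?_
      · intro a ha; exact hOAU a ha
      · intro b hb
        have hb' : x ∈ OB b := hb
        have h1 := hOBW b hb'
        simp only [hOB] at hb'
        rw [if_pos ⟨x, h1, hx.1⟩] at hb'
        exact absurd hb' (notMem_empty _)
      · rw [encard_empty, add_zero]
        exact hUn x
    · refine (enc2 _ (as '' {b | x ∈ W b ∧ (W b ∩ P).Nonempty})
        {b | x ∈ W b ∧ ¬ (W b ∩ P).Nonempty} ?_ ?_).trans ?_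
      · rintro a (ha | ha)
        · exact absurd ⟨ha.1.2, ha.2⟩ hx
        · simp only [mem_iUnion] at ha
          obtain ⟨b, ⟨hb, hba⟩, hxb⟩ := ha
          exact ⟨b, ⟨hxb, hb⟩, hba⟩
      · intro b hb
        have hb' : x ∈ OB b := hb
        refine ⟨hOBW b hb', fun h => ?_⟩
        simp only [hOB, if_pos h] at hb'
        exact absurd hb' (notMem_empty _)
      · refine le_trans (add_le_add (encard_image_le _ _) le_rfl) ?_
        rw [← encard_union_eq]
        · refine le_trans (encard_le_encard ?_) (hWn x)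
          rintro b (hb | hb) <;> exact hb.1
        · rw [Set.disjoint_left]
          rintro b ⟨-, h1⟩ ⟨-, h2⟩
          exact h2 h1

/-- `Y` is minimal among the closed sets which are not thin at scale `k` -/
def MinFat (n k : ℕ) (Y : Set Q) : Prop :=
  IsClosed Y ∧ ¬ Thin n k Y ∧ ∀ Z ⊆ Y, IsClosed Z → Z ≠ Y → Thin n k Z

theorem MinFat.large {n k : ℕ} {Y : Set Q} (h : MinFat n k Y) {O : Set Q} (hO : IsOpen O)
    (hne : (O ∩ Y).Nonempty) : ∃ D, IsClosed D ∧ D ⊆ O ∧ D ⊆ Y ∧ ¬ CovDimLT D n := by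
  obtain ⟨hY, hfat, hmin⟩ := h
  obtain ⟨y, hyO, hyY⟩ := hne
  obtain ⟨P, hP, hyP, hPO⟩ := normal_exists_closure_subset (isClosed_singleton (x := y)) hO
    (singleton_subset_iff.2 hyO)
  refine ⟨Y ∩ closure P, hY.inter isClosed_closure, fun x hx => hPO hx.2, fun x hx => hx.1, ?_⟩
  intro hd
  apply hfat
  have h1 : Thin n k (Y \ P) := by
    apply hmin _ sdiff_subset (hY.sdiff hP)
    intro heq
    have : y ∈ Y \ P := by rw [heq]; exact hyY
    exact this.2 (hyP rfl)
  refine (sumThin (hY.sdiff hP) (hY.inter isClosed_closure) h1 hd).mono ?_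
  intro x hx
  by_cases hxP : x ∈ P
  · exact Or.inr ⟨hx, subset_closure hxP⟩
  · exact Or.inl ⟨hx, hxP⟩

theorem MinFat.cantor {n k : ℕ} {Y : Set Q} (h : MinFat (n + 1) k Y) (C : Set Q)
    (hC : IsClosed C) (hCY : C ⊆ Y) (hd : CovDimLT C n) : IsPreconnected (Y \ C) := by
  obtain ⟨hY, hfat, hmin⟩ := h
  intro u v hu hv huv hne1 hne2
  by_contra hcon
  rw [not_nonempty_iff_eq_empty] at hcon
  apply hfat
  have key : ∀ w w' : Set Q, IsOpen w → Y \ C ⊆ w' ∪ w → ((Y \ C) ∩ w).Nonempty →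
      Thin (n + 1) k ((Y \ w) ∪ C) ∧ IsClosed ((Y \ w) ∪ C) := by
    rintro w w' hw - ⟨x, hx, hxw⟩
    have hcl : IsClosed ((Y \ w) ∪ C) := (hY.sdiff hw).union hC
    refine ⟨hmin _ (union_subset sdiff_subset hCY) hcl ?_, hcl⟩
    intro heq
    have : x ∈ (Y \ w) ∪ C := by rw [heq]; exact hx.1
    rcases this with h1 | h1
    · exact h1.2 hxw
    · exact hx.2 h1
  obtain ⟨t1, c1⟩ := key v u hv huv hne2
  obtain ⟨t2, c2⟩ := key u v hu (by rwa [union_comm]) hne1
  have hint : ((Y \ v) ∪ C) ∩ ((Y \ u) ∪ C) = C := by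
    apply subset_antisymm
    · rintro x ⟨h1 | h1, h2 | h2⟩
      · by_contra hxC
        rcases huv ⟨h1.1, hxC⟩ with h3 | h3
        · exact h2.2 h3
        · exact h1.2 h3
      · exact h2
      · exact h1
      · exact h1
    · intro x hx
      exact ⟨Or.inr hx, Or.inr hx⟩
  refine (glue c1 c2 (by rw [hint]; exact hd) t1 t2).mono ?_
  intro x hx
  by_cases hxC : x ∈ C
  · exact Or.inl (Or.inr hxC)
  · by_cases hxv : x ∈ v
    · right; left
      refine ⟨hx, fun hxu => ?_⟩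
      have : x ∈ (Y \ C) ∩ (u ∩ v) := ⟨⟨hx, hxC⟩, hxu, hxv⟩
      rw [hcon] at this
      exact this
    · exact Or.inl (Or.inl ⟨hx, hxv⟩)

end Pool.Agent.CMTW
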