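import Pool.Agent.Lib_fca3ff.Glue

set_option autoImplicit false

/-!
# The greedy construction of minimal sets
-/

namespace Pool.Agent.CMTW

open Set

/-- remove the boxes number `e`, `e + 1 ∈ F` -/
def Zs (X : Set Q) (F : List ℕ) : Set Q := {x | x ∈ X ∧ ∀ e, e + 1 ∈ F → x ∉ boxQ e}

theorem Zs_nil (X : Set Q) : Zs X [] = X := by
  ext x; simp [Zs]

theorem Zs_cons (X : Set Q) (j : ℕ) (F : List ℕ) :
    Zs X ((j + 1) :: F) = Zs X F \ boxQ j := by
  ext x
  simp only [Zs, Set.mem_ofPred_eq, List.mem_cons, mem_sdiff]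
  constructor
  · rintro ⟨h1, h2⟩
    exact ⟨⟨h1, fun e he => h2 e (Or.inr he)⟩, h2 j (Or.inl rfl)⟩
  · rintro ⟨⟨h1, h2⟩, h3⟩
    refine ⟨h1, ?_⟩
    rintro e (he | he)
    · have : e = j := by omega
      rw [this]; exact h3
    · exact h2 e he

theorem isClosed_Zs {X : Set Q} (hX : IsClosed X) (F : List ℕ) : IsClosed (Zs X F) := by
  have : Zs X F = X ∩ ⋂ (e : ℕ) (_ : e + 1 ∈ F), (boxQ e)ᶜ := by
    ext x; simp [Zs]
  rw [this]
  exact hX.inter (isClosed_iInter fun e => isClosed_iInter fun _ => (isOpen_boxQ e).isClosed_compl)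

open Classical in
/-- the greedy list of boxes to be removed; `T F` says that `F` removes too much -/
noncomputable def gr (T : List ℕ → Prop) : ℕ → List ℕ
  | 0 => []
  | j + 1 => if T ((j + 1) :: gr T j) then gr T j else (j + 1) :: gr T j

section

variable {X : Set Q} {n k : ℕ}

/-- the result of the greedy construction -/
noncomputable def grY (n k : ℕ) (X : Set Q) : Set Q :=
  ⋂ j, Zs X (gr (fun F => Thin n k (Zs X F)) j)

theorem gr_anti (T : List ℕ → Prop) (j : ℕ) : Zs X (gr T (j + 1)) ⊆ Zs X (gr T j) := by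
  rw [gr]
  split_ifs with h
  · exact subset_rfl
  · rw [Zs_cons]; exact sdiff_subset

theorem gr_fat (h : ¬ Thin n k X) (j : ℕ) :
    ¬ Thin n k (Zs X (gr (fun F => Thin n k (Zs X F)) j)) := by
  induction j with
  | zero => rwa [gr, Zs_nil]
  | succ j ih =>
    rw [gr]
    split_ifs with h1
    · exact ih
    · exact h1

theorem grY_subset : grY n k X ⊆ X := by
  intro x hx
  have := mem_iInter.1 hx 0
  exact this.1

theorem isClosed_grY (hX : IsClosed X) : IsClosed (grY n k X) :=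
  isClosed_iInter fun _ => isClosed_Zs hX _

theorem minFat_grY (hX : IsClosed X) (h : ¬ Thin n k X) : MinFat n k (grY n k X) := by
  refine ⟨isClosed_grY hX, fun ht => ?_, fun Z hZ hZc hne => ?_⟩
  · obtain ⟨j, hj⟩ := thin_iInter (fun j => isClosed_Zs hX _) (fun j => gr_anti _ j) ht
    exact gr_fat h j hj
  · obtain ⟨y, hy, hyZ⟩ : ∃ y ∈ grY n k X, y ∉ Z := by
      by_contra hcon
      push Not at hcon
      exact hne (subset_antisymm hZ hcon)
    obtain ⟨e, hye, heZ⟩ := boxQ_base Zᶜ y hZc.isOpen_compl hyZ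
    by_cases h1 : Thin n k (Zs X ((e + 1) :: gr (fun F => Thin n k (Zs X F)) e))
    · refine h1.mono ?_
      rw [Zs_cons]
      intro z hz
      exact ⟨mem_iInter.1 (hZ hz) e, fun hze => heZ hze hz⟩
    · exfalso
      have h2 := mem_iInter.1 hy (e + 1)
      rw [gr, if_neg h1] at h2
      exact h2.2 e List.mem_cons_self hye

theorem exists_minFat (hX : IsClosed X) (h : ¬ Thin n k X) : ∃ Y ⊆ X, MinFat n k Y :=
  ⟨_, grY_subset, minFat_grY hX h⟩

theorem mem_gr {T : List ℕ → Prop} {j v : ℕ} (h : v ∈ gr T j) :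
    ∃ e, v = e + 1 ∧ e < j ∧ ¬ T ((e + 1) :: gr T e) := by
  induction j with
  | zero => simp [gr] at h
  | succ j ih =>
    rw [gr] at h
    split_ifs at h with h1
    · obtain ⟨e, h2, h3, h4⟩ := ih h
      exact ⟨e, h2, by omega, h4⟩
    · rcases List.mem_cons.1 h with h2 | h2
      · exact ⟨j, h2, by omega, h1⟩
      · obtain ⟨e, h2, h3, h4⟩ := ih h2
        exact ⟨e, h2, by omega, h4⟩

theorem mem_gr_succ {T : List ℕ → Prop} {e : ℕ} :
    e + 1 ∈ gr T (e + 1) ↔ ¬ T ((e + 1) :: gr T e) := by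
  constructor
  · intro h
    obtain ⟨e', h1, -, h2⟩ := mem_gr h
    have : e' = e := by omega
    rwa [this] at h2
  · intro h
    rw [gr, if_neg h]
    exact List.mem_cons_self

theorem mem_grY {x : Q} : x ∈ grY n k X ↔ x ∈ X ∧
    ∀ e, e + 1 ∈ gr (fun F => Thin n k (Zs X F)) (e + 1) → x ∉ boxQ e := by
  constructor
  · intro hx
    exact ⟨grY_subset hx, fun e he => (mem_iInter.1 hx (e + 1)).2 e he⟩
  · rintro ⟨h1, h2⟩
    refine mem_iInter.2 fun j => ⟨h1, fun e he => ?_⟩
    obtain ⟨e', h3, h4, h5⟩ := mem_gr he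
    have h6 : e' = e := by omega
    subst h6
    exact h2 e' (mem_gr_succ.2 h5)

/-- Minimal sets are solutions of the Cantor manifold theorem. -/
theorem MinFat.solution {Y : Set Q} (h : MinFat (n + 1) k Y) :
    ¬ CovDimLT Y (n + 1) ∧ ∀ C : Set Q, IsClosed C → C ⊆ Y → CovDimLT C n →
      IsPreconnected (Y \ C) :=
  ⟨fun hd => h.2.1 (hd.thin k), h.cantor⟩

end

end Pool.Agent.CMTW
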