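import Pool.Agent.Lib_fca3ff.Defs

set_option autoImplicit false

/-!
# The limit operation and topological Weihrauch reducibility
-/

namespace Pool.Agent.CMTW

/-- Baire space; the name of a point is the point itself. -/
def baireSpace : RepSpace where
  Pt := ℕ → ℕ
  Names p x := p = x
  single := fun _ _ _ h h' => h.symm.trans h'
  onto := fun x => ⟨x, rfl⟩

/-- The limit operation `lim` on Baire space.  The point `x` stands for the sequence of points
`x_i = (j ↦ x (Nat.pair i j))`; the domain consists of the `x` for which this sequence converges,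
the value at `x` is the limit. -/
def Lim : MultiFun where
  Src := baireSpace
  Tgt := baireSpace
  Dom x := ∃ y : ℕ → ℕ, ∀ j, ∃ N, ∀ i, N ≤ i → x (Nat.pair i j) = y j
  Val x y := ∀ j, ∃ N, ∀ i, N ≤ i → x (Nat.pair i j) = y j

/-- Topological Weihrauch reducibility: as `WLE`, but with arbitrary sets of axioms for the two
functionals, that is, with continuous instead of computable functionals. -/
def MultiFun.TLE (f g : MultiFun) : Prop :=
  ∃ K H : List ℕ × ℕ × ℕ → Prop,
    ∀ p x, f.Src.Names p x → f.Dom x →
      ∃ k u, Sends K p k ∧ g.Src.Names k u ∧ g.Dom u ∧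
        ∀ r v, g.Tgt.Names r v → g.Val u v →
          ∃ q y, Sends H (join p r) q ∧ f.Tgt.Names q y ∧ f.Val x y

theorem MultiFun.WLE.tle {f g : MultiFun} (h : f.WLE g) : f.TLE g := by
  obtain ⟨K, H, -, -, h⟩ := h
  exact ⟨K, H, h⟩

end Pool.Agent.CMTW
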