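import Pool.Agent.Lib_fca3ff.Geo
import Pool.Agent.Lib_fca3ff.Dim

set_option autoImplicit false

/-!
# `C_ℕ × C_{2^ℕ} ≤_W CMT_1`
-/

namespace Pool.Agent.CMTW

open Prim Set

/-- code of the box with the given constraints -/
def bcode (l : List (ℕ × ℕ × ℕ × ℕ)) : ℕ := Encodable.encode l

theorem boxQ_bcode (l : List (ℕ × ℕ × ℕ × ℕ)) : boxQ (bcode l) = box l := by
  simp [boxQ, bcode]

/-- the constraint `0 < x i < 1` -/
def cMid (i : ℕ) : ℕ × ℕ × ℕ × ℕ := (i, 1, 1, 0)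
/-- the constraint `x i < 1` -/
def cLow (i : ℕ) : ℕ × ℕ × ℕ × ℕ := (i, 0, 1, 0)
/-- the constraint `0 < x i` -/
def cHigh (i : ℕ) : ℕ × ℕ × ℕ × ℕ := (i, 1, 2, 0)
/-- the constraint on coordinate `i` which says that the bit is `b` (for values in `{0, 1}`) -/
def cBit (i : ℕ) (b : Bool) : ℕ × ℕ × ℕ × ℕ := (i, b.toNat, b.toNat + 1, 0)

theorem mem_box_cons {t : ℕ × ℕ × ℕ × ℕ} {l : List (ℕ × ℕ × ℕ × ℕ)} {x : Q} :
    x ∈ box (t :: l) ↔ ((t.2.1 : ℝ) < (t.2.2.2 + 1) * x t.1 + 1 ∧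
      (t.2.2.2 + 1) * (x t.1 : ℝ) < t.2.2.1) ∧ x ∈ box l := by
  rw [mem_box, mem_box]
  simp only [List.mem_cons, forall_eq_or_imp]

theorem mem_box_nil {x : Q} : x ∈ box [] := by
  rw [mem_box]; simp

theorem mem_cMid {i : ℕ} {l : List (ℕ × ℕ × ℕ × ℕ)} {x : Q} :
    x ∈ box (cMid i :: l) ↔ (0 < (x i : ℝ) ∧ (x i : ℝ) < 1) ∧ x ∈ box l := by
  rw [mem_box_cons]
  simp only [cMid]
  norm_num

theorem mem_cLow {i : ℕ} {l : List (ℕ × ℕ × ℕ × ℕ)} {x : Q} :
    x ∈ box (cLow i :: l) ↔ (x i : ℝ) < 1 ∧ x ∈ box l := by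
  rw [mem_box_cons]
  simp only [cLow]
  have := (x i).2.1
  constructor
  · rintro ⟨⟨-, h⟩, h'⟩
    exact ⟨by simpa using h, h'⟩
  · rintro ⟨h, h'⟩
    refine ⟨⟨?_, by simpa using h⟩, h'⟩
    have h2 : (0 : ℝ) ≤ x i := this
    push_cast
    linarith

theorem mem_cHigh {i : ℕ} {l : List (ℕ × ℕ × ℕ × ℕ)} {x : Q} :
    x ∈ box (cHigh i :: l) ↔ 0 < (x i : ℝ) ∧ x ∈ box l := by
  rw [mem_box_cons]
  simp only [cHigh]
  have := (x i).2.2
  constructor
  · rintro ⟨⟨h, -⟩, h'⟩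
    refine ⟨?_, h'⟩
    push_cast at h
    linarith
  · rintro ⟨h, h'⟩
    refine ⟨⟨?_, ?_⟩, h'⟩
    · push_cast
      linarith
    · have h2 : (x i : ℝ) ≤ 1 := this
      push_cast
      linarith

theorem cBit_true (i : ℕ) : cBit i true = cHigh i := rfl
theorem cBit_false (i : ℕ) : cBit i false = cLow i := rfl

/-- the boxes of the instance -/
def SL (x : List ℕ × ℕ) : Prop :=
  (∃ i, x.2 = bcode [cMid (3 * i)]) ∨
  (∃ i, x.2 = bcode [cLow (3 * i), cHigh (3 * i + 1)]) ∨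
  (∃ i j, i ≠ j ∧ x.2 = bcode [cHigh (3 * i), cHigh (3 * j)]) ∨
  (∃ i, i + 1 ∈ evs x.1 ∧ x.2 = bcode [cHigh (3 * i)]) ∨
  (∃ i, x.2 = bcode [cMid (3 * i + 2)]) ∨
  (∃ τ : List Bool, Encodable.encode τ + 1 ∈ ods x.1 ∧
    x.2 = bcode ((List.range τ.length).map fun i => cBit (3 * i + 2) (τ.getD i false)))

theorem sig1_SL : Sig1 SL := by
  unfold SL
  refine Sig1.or ?_ (Sig1.or ?_ (Sig1.or ?_ (Sig1.or ?_ (Sig1.or ?_ ?_))))
  · apply Sig1.ex (P := fun (x : List ℕ × ℕ) i => x.2 = bcode [cMid (3 * i)])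
    apply Sig1.of_prim
    unfold bcode cMid
    fun_prop
  · apply Sig1.ex (P := fun (x : List ℕ × ℕ) i => x.2 = bcode [cLow (3 * i), cHigh (3 * i + 1)])
    apply Sig1.of_prim
    unfold bcode cLow cHigh
    fun_prop
  · have h : Sig1 fun x : List ℕ × ℕ => ∃ y : ℕ × ℕ, y.1 ≠ y.2 ∧
        x.2 = bcode [cHigh (3 * y.1), cHigh (3 * y.2)] := by
      apply Sig1.ex (P := fun (x : List ℕ × ℕ) (y : ℕ × ℕ) => y.1 ≠ y.2 ∧
        x.2 = bcode [cHigh (3 * y.1), cHigh (3 * y.2)])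
      apply Sig1.of_prim
      unfold bcode cHigh
      apply and'
      · exact not' (by fun_prop)
      · fun_prop
    refine h.congr fun x => ?_
    constructor
    · rintro ⟨i, j, h1⟩; exact ⟨(i, j), h1⟩
    · rintro ⟨⟨i, j⟩, h1⟩; exact ⟨i, j, h1⟩
  · apply Sig1.ex (P := fun (x : List ℕ × ℕ) i => i + 1 ∈ evs x.1 ∧ x.2 = bcode [cHigh (3 * i)])
    apply Sig1.of_prim
    unfold bcode cHigh
    apply and'
    · exact mem' (by fun_prop) (by fun_prop)
    · fun_prop
  · apply Sig1.ex (P := fun (x : List ℕ × ℕ) i => x.2 = bcode [cMid (3 * i + 2)])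
    apply Sig1.of_prim
    unfold bcode cMid
    fun_prop
  · apply Sig1.ex (P := fun (x : List ℕ × ℕ) (τ : List Bool) =>
      Encodable.encode τ + 1 ∈ ods x.1 ∧
      x.2 = bcode ((List.range τ.length).map fun i => cBit (3 * i + 2) (τ.getD i false)))
    apply Sig1.of_prim
    apply and'
    · exact mem' (by fun_prop) (by fun_prop)
    · apply eq' (by fun_prop)
      unfold bcode
      apply encode'
      apply map' (g := fun (x : (List ℕ × ℕ) × List Bool) i =>
        cBit (3 * i + 2) (x.2.getD i false)) _ (by fun_prop)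
      unfold cBit
      have h1 : Primrec fun x : ((List ℕ × ℕ) × List Bool) × ℕ =>
          (x.1.2.getD x.2 false).toNat := bool_fun' Bool.toNat (by fun_prop)
      fun_prop

/-- the point with `x (3 k) = 1`, `x (3 k + 1) = t`, `x (3 i + 2) = z i`, and `0` elsewhere -/
noncomputable def pt (k : ℕ) (z : ℕ → Bool) (t : unitInterval) : Q := fun j =>
  if j = 3 * k then 1 else if j = 3 * k + 1 then t else
    if j % 3 = 2 then (if z (j / 3) = true then 1 else 0) else 0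

theorem continuous_pt (k : ℕ) (z : ℕ → Bool) : Continuous (pt k z) := by
  apply continuous_pi
  intro j
  unfold pt
  split_ifs <;> fun_prop

theorem pt_3i (k : ℕ) (z : ℕ → Bool) (t : unitInterval) (i : ℕ) :
    pt k z t (3 * i) = if i = k then 1 else 0 := by
  unfold pt
  by_cases h : i = k
  · subst h; simp
  · have h1 : ¬ 3 * i = 3 * k := by omega
    have h2 : ¬ 3 * i = 3 * k + 1 := by omega
    simp [h, h2]

theorem pt_3i1 (k : ℕ) (z : ℕ → Bool) (t : unitInterval) (i : ℕ) :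
    pt k z t (3 * i + 1) = if i = k then t else 0 := by
  unfold pt
  by_cases h : i = k
  · subst h
    have h1 : ¬ 3 * i + 1 = 3 * i := by omega
    simp
  · have h1 : ¬ 3 * i + 1 = 3 * k := by omega
    have h2 : ¬ 3 * i + 1 = 3 * k + 1 := by omega
    simp [h, h1]

theorem pt_3i2 (k : ℕ) (z : ℕ → Bool) (t : unitInterval) (i : ℕ) :
    pt k z t (3 * i + 2) = if z i = true then 1 else 0 := by
  unfold pt
  have h1 : ¬ 3 * i + 2 = 3 * k := by omega
  have h2 : ¬ 3 * i + 2 = 3 * k + 1 := by omega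
  have h3 : (3 * i + 2) % 3 = 2 := by omega
  have h4 : (3 * i + 2) / 3 = i := by omega
  simp [h1, h2, h3, h4]

theorem mem_box_bits {τ : List Bool} {x : Q} :
    x ∈ box ((List.range τ.length).map fun i => cBit (3 * i + 2) (τ.getD i false)) ↔
      ∀ i < τ.length, if τ.getD i false = true then 0 < (x (3 * i + 2) : ℝ)
        else (x (3 * i + 2) : ℝ) < 1 := by
  rw [mem_box]
  constructor
  · intro h i hi
    have h1 := h _ (List.mem_map.2 ⟨i, List.mem_range.2 hi, rfl⟩)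
    have h2 : x ∈ box [cBit (3 * i + 2) (τ.getD i false)] := by
      rw [mem_box]
      intro t ht
      rw [List.mem_singleton] at ht
      subst ht
      exact h1
    cases hb : τ.getD i false with
    | true =>
      rw [hb, cBit_true, mem_cHigh] at h2
      simpa using h2.1
    | false =>
      rw [hb, cBit_false, mem_cLow] at h2
      simpa using h2.1
  · intro h t ht
    obtain ⟨i, hi, rfl⟩ := List.mem_map.1 ht
    rw [List.mem_range] at hi
    have h1 := h i hi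
    have h2 : x ∈ box [cBit (3 * i + 2) (τ.getD i false)] := by
      cases hb : τ.getD i false with
      | true =>
        rw [hb] at h1
        rw [cBit_true, mem_cHigh]
        exact ⟨by simpa using h1, mem_box_nil⟩
      | false =>
        rw [hb] at h1
        rw [cBit_false, mem_cLow]
        exact ⟨by simpa using h1, mem_box_nil⟩
    rw [mem_box] at h2
    exact h2 _ (List.mem_singleton.2 rfl)

/-- the backward functional -/
def HL (x : List ℕ × ℕ × ℕ) : Prop :=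
  (x.2.1 % 2 = 0 ∧ CoversQ (ods x.1 ++ [bcode [cHigh (3 * x.2.2)] + 1])) ∨
  (x.2.1 % 2 = 1 ∧
    ((x.2.2 = 0 ∧ CoversQ (ods x.1 ++ [bcode [cLow (3 * (x.2.1 / 2) + 2)] + 1])) ∨
     (x.2.2 = 1 ∧ CoversQ (ods x.1 ++ [bcode [cHigh (3 * (x.2.1 / 2) + 2)] + 1]))))

theorem sig1_HL : Sig1 HL := by
  unfold HL
  have h1 : Primrec fun x : List ℕ × ℕ × ℕ => ods x.1 ++ [bcode [cHigh (3 * x.2.2)] + 1] := by
    unfold bcode cHigh; fun_prop
  have h2 : Primrec fun x : List ℕ × ℕ × ℕ =>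
      ods x.1 ++ [bcode [cLow (3 * (x.2.1 / 2) + 2)] + 1] := by
    unfold bcode cLow; fun_prop
  have h3 : Primrec fun x : List ℕ × ℕ × ℕ =>
      ods x.1 ++ [bcode [cHigh (3 * (x.2.1 / 2) + 2)] + 1] := by
    unfold bcode cHigh; fun_prop
  refine Sig1.or (Sig1.and (Sig1.of_prim (by fun_prop)) (sig1_coversQ h1))
    (Sig1.and (Sig1.of_prim (by fun_prop)) (Sig1.or
      (Sig1.and (Sig1.of_prim (by fun_prop)) (sig1_coversQ h2))
      (Sig1.and (Sig1.of_prim (by fun_prop)) (sig1_coversQ h3))))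

/-- covering test for a constraint -/
theorem covers_ods {p r : ℕ → ℕ} {Y : Set Q}
    (hr : Yᶜ = ⋃ (i : ℕ) (e : ℕ) (_ : r i = e + 1), boxQ e) (l : List (ℕ × ℕ × ℕ × ℕ)) :
    (∃ m, CoversQ (ods (pre (join p r) m) ++ [bcode l + 1])) ↔ ∀ x ∈ Y, x ∈ box l := by
  have h1 : (∃ m, CoversQ (ods (pre (join p r) m) ++ [bcode l + 1])) ↔
      ∃ m, CoversQ (pre r m ++ [bcode l + 1]) := by
    constructor
    · rintro ⟨m, hm⟩
      rw [ods_join] at hm
      exact ⟨_, hm⟩
    · rintro ⟨m, hm⟩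
      refine ⟨2 * m, ?_⟩
      rw [ods_join, show 2 * m / 2 = m by omega]
      exact hm
  rw [h1, coversQ_prefix hr]
  refine forall₂_congr fun x _ => ?_
  constructor
  · rintro ⟨e, he, hx⟩
    rw [List.mem_singleton] at he
    have : e = bcode l := by omega
    rw [this, boxQ_bcode] at hx
    exact hx
  · intro hx
    exact ⟨bcode l, List.mem_singleton.2 rfl, by rwa [boxQ_bcode]⟩

theorem lower : (CN.prod CCantor).WLE (CMT 1) := by
  obtain ⟨K, hK, hKe⟩ := enum_functional SL sig1_SL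
  refine ⟨K, HL, hK.re, sig1_HL.re, ?_⟩
  rintro p ⟨(A₁ : TopologicalSpace.Closeds ℕ), (A₂ : TopologicalSpace.Closeds (ℕ → Bool))⟩
    ⟨hp₁, hp₂⟩ ⟨⟨k₀, hk₀⟩, ⟨z₀, hz₀⟩⟩
  have hp₁' : (A₁ : Set ℕ)ᶜ = ⋃ (i : ℕ) (e : ℕ) (_ : p (2 * i) = e + 1), {e} := hp₁
  have hp₂' : (A₂ : Set (ℕ → Bool))ᶜ = ⋃ (i : ℕ) (e : ℕ) (_ : p (2 * i + 1) = e + 1), cyl e := hp₂
  obtain ⟨k, hk, hke⟩ := hKe p
  -- the instance
  set W : Set Q := ⋃ (i : ℕ) (e : ℕ) (_ : k i = e + 1), boxQ e with hW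
  have hWo : IsOpen W := isOpen_iUnion fun _ => isOpen_iUnion fun _ => isOpen_iUnion fun _ =>
    isOpen_boxQ _
  have hWmem : ∀ x, x ∈ W ↔ ∃ m e, SL (pre p m, e) ∧ x ∈ boxQ e := by
    intro x
    simp only [hW, mem_iUnion]
    constructor
    · rintro ⟨i, e, hi, hx⟩
      obtain ⟨m, hm⟩ := (hke e).1 ⟨i, hi⟩
      exact ⟨m, e, hm, hx⟩
    · rintro ⟨m, e, hm, hx⟩
      obtain ⟨i, hi⟩ := (hke e).2 ⟨m, hm⟩
      exact ⟨i, e, hi, hx⟩
  -- membership of the points `pt`
  have hptW : ∀ t, pt k₀ z₀ t ∉ W := by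
    intro t ht
    obtain ⟨m, e, hm, hx⟩ := (hWmem _).1 ht
    rcases hm with ⟨i, he⟩ | ⟨i, he⟩ | ⟨i, j, hij, he⟩ | ⟨i, hi, he⟩ | ⟨i, he⟩ | ⟨τ, hτ, he⟩
    · simp only at he
      rw [he, boxQ_bcode, mem_cMid, pt_3i] at hx
      split_ifs at hx <;> simp at hx
    · simp only at he
      rw [he, boxQ_bcode, mem_cLow, mem_cHigh, pt_3i, pt_3i1] at hx
      split_ifs at hx <;> simp at hx
    · simp only at he
      rw [he, boxQ_bcode, mem_cHigh, mem_cHigh, pt_3i, pt_3i] at hx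
      obtain ⟨h1, h2, -⟩ := hx
      split_ifs at h1 h2
      · omega
      · simp at h2
      · simp at h1
      · simp at h1
    · simp only at he hi
      rw [he, boxQ_bcode, mem_cHigh, pt_3i] at hx
      split_ifs at hx with h
      · subst h
        rw [evs_pre] at hi
        obtain ⟨i', -, hi'⟩ := mem_pre.1 hi
        have : i ∈ (A₁ : Set ℕ)ᶜ := by
          rw [hp₁']
          simp only [mem_iUnion]
          exact ⟨i', i, hi', rfl⟩
        exact this hk₀
      · simp at hx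
    · simp only at he
      rw [he, boxQ_bcode, mem_cMid, pt_3i2] at hx
      split_ifs at hx <;> simp at hx
    · simp only at he hτ
      rw [he, boxQ_bcode, mem_box_bits] at hx
      rw [ods_pre] at hτ
      obtain ⟨i', -, hi'⟩ := mem_pre.1 hτ
      have : z₀ ∈ (A₂ : Set (ℕ → Bool))ᶜ := by
        rw [hp₂']
        simp only [mem_iUnion]
        refine ⟨i', _, hi', τ.length, ?_⟩
        congr 1
        apply List.ext_getElem?
        intro i
        rw [pre_getElem?]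
        split_ifs with hi
        · have h1 := hx i hi
          rw [pt_3i2] at h1
          rw [List.getElem?_eq_getElem hi]
          rw [List.getD_eq_getElem _ _ hi] at h1
          cases hz : z₀ i <;> cases hb : τ[i] <;> simp [hz, hb] at h1 ⊢
        · rw [List.getElem?_eq_none (by omega)]
      exact this hz₀
  have hseg : IsPreconnected (range (pt k₀ z₀)) := isPreconnected_range (continuous_pt _ _)
  have hne : pt k₀ z₀ 0 ≠ pt k₀ z₀ 1 := by
    intro h
    have := congrFun h (3 * k₀ + 1)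
    rw [pt_3i1, pt_3i1] at this
    simp at this
  refine ⟨k, ⟨Wᶜ, hWo.isClosed_compl⟩, hk, ?_, ?_, ?_⟩
  · show (Wᶜ)ᶜ = _
    rw [compl_compl]
  · show ¬ CovDimLT (Wᶜ : Set Q) 1
    refine not_covDimLT_of_preconnected hseg ?_ (mem_range_self 0) (mem_range_self 1) hne
    rintro _ ⟨t, rfl⟩
    exact hptW t
  -- the backward direction
  rintro r Y hr ⟨hYX, hYdim, hYconn⟩
  have hYX' : Y.carrier ⊆ Wᶜ := hYX
  have hr' : (Y.carrier)ᶜ = ⋃ (i : ℕ) (e : ℕ) (_ : r i = e + 1), boxQ e := hr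
  have hYpre : IsPreconnected Y.carrier := by
    have := hYconn ∅ isClosed_empty (empty_subset _) (covDimLT_empty _)
    rwa [sdiff_empty] at this
  have hSL : ∀ m e, SL (pre p m, e) → ∀ y ∈ Y.carrier, y ∉ boxQ e := by
    intro m e hm y hy hye
    exact hYX' hy ((hWmem y).2 ⟨m, e, hm, hye⟩)
  have h01 : ∀ i, ∀ y ∈ Y.carrier, (y (3 * i) : ℝ) = 0 ∨ (y (3 * i) : ℝ) = 1 := by
    intro i y hy
    have h1 := hSL 0 (bcode [cMid (3 * i)]) (Or.inl ⟨i, rfl⟩) y hy
    rw [boxQ_bcode, mem_cMid] at h1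
    have h2 := (y (3 * i)).2.1
    have h3 := (y (3 * i)).2.2
    by_contra hcon
    push Not at hcon
    apply h1
    exact ⟨⟨lt_of_le_of_ne h2 (Ne.symm hcon.1), lt_of_le_of_ne h3 hcon.2⟩, mem_box_nil⟩
  have h012 : ∀ i, ∀ y ∈ Y.carrier, (y (3 * i + 2) : ℝ) = 0 ∨ (y (3 * i + 2) : ℝ) = 1 := by
    intro i y hy
    have h1 := hSL 0 (bcode [cMid (3 * i + 2)])
      (Or.inr (Or.inr (Or.inr (Or.inr (Or.inl ⟨i, rfl⟩))))) y hy
    rw [boxQ_bcode, mem_cMid] at h1
    have h2 := (y (3 * i + 2)).2.1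
    have h3 := (y (3 * i + 2)).2.2
    by_contra hcon
    push Not at hcon
    apply h1
    exact ⟨⟨lt_of_le_of_ne h2 (Ne.symm hcon.1), lt_of_le_of_ne h3 hcon.2⟩, mem_box_nil⟩
  obtain ⟨y₀, hy₀, y₁, hy₁, hy01⟩ := exists_ne Y.isClosed hYdim
  have hc0 : ∀ i, ∀ y ∈ Y.carrier, (y (3 * i) : ℝ) = y₀ (3 * i) := fun i y hy =>
    constant_of_preconnected hYpre (3 * i) (h01 i) hy hy₀
  have hc2 : ∀ i, ∀ y ∈ Y.carrier, (y (3 * i + 2) : ℝ) = y₀ (3 * i + 2) := fun i y hy =>
    constant_of_preconnected hYpre (3 * i + 2) (h012 i) hy hy₀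
  obtain ⟨kk, hkk⟩ : ∃ i, (y₀ (3 * i) : ℝ) = 1 := by
    by_contra hcon
    push Not at hcon
    apply hy01
    funext j
    apply Subtype.ext
    have h3 : ∀ i, ∀ y ∈ Y.carrier, (y (3 * i) : ℝ) = 0 := by
      intro i y hy
      rw [hc0 i y hy]
      rcases h01 i y₀ hy₀ with h | h
      · exact h
      · exact absurd h (hcon i)
    have h4 : ∀ i, ∀ y ∈ Y.carrier, (y (3 * i + 1) : ℝ) = 0 := by
      intro i y hy
      have h1 := hSL 0 (bcode [cLow (3 * i), cHigh (3 * i + 1)])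
        (Or.inr (Or.inl ⟨i, rfl⟩)) y hy
      rw [boxQ_bcode, mem_cLow, mem_cHigh, h3 i y hy] at h1
      have h2 := (y (3 * i + 1)).2.1
      by_contra hne
      exact h1 ⟨by norm_num, lt_of_le_of_ne h2 (Ne.symm hne), mem_box_nil⟩
    obtain ⟨i, hi | hi | hi⟩ : ∃ i, j = 3 * i ∨ j = 3 * i + 1 ∨ j = 3 * i + 2 :=
      ⟨j / 3, by omega⟩
    · subst hi; exact (hc0 i y₁ hy₁).symm
    · subst hi; rw [h4 i y₀ hy₀, h4 i y₁ hy₁]
    · subst hi; exact (hc2 i y₁ hy₁).symm
  classical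
  set z : ℕ → Bool := fun i => decide ((y₀ (3 * i + 2) : ℝ) = 1) with hz
  have hzval : ∀ i, (y₀ (3 * i + 2) : ℝ) = if z i = true then 1 else 0 := by
    intro i
    simp only [hz, decide_eq_true_eq]
    split_ifs with h
    · exact h
    · rcases h012 i y₀ hy₀ with h' | h'
      · exact h'
      · exact absurd h' h
  have huniq : ∀ v, (y₀ (3 * v) : ℝ) = 1 → v = kk := by
    intro v hv
    by_contra hne
    have h1 := hSL 0 (bcode [cHigh (3 * v), cHigh (3 * kk)])
      (Or.inr (Or.inr (Or.inl ⟨v, kk, hne, rfl⟩))) y₀ hy₀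
    rw [boxQ_bcode, mem_cHigh, mem_cHigh, hv, hkk] at h1
    exact h1 ⟨by norm_num, by norm_num, mem_box_nil⟩
  refine ⟨join (fun _ => kk) (fun i => (z i).toNat), (kk, z), ?_, ⟨?_, ?_⟩, ⟨?_, ?_⟩⟩
  · intro n v
    unfold HL join
    rcases Nat.mod_two_eq_zero_or_one n with hn | hn
    · simp only [hn, if_true, true_and, zero_ne_one, false_and, or_false]
      have h1 := covers_ods (p := p) hr' [cHigh (3 * v)]
      unfold join at h1
      rw [h1]
      constructor
      · intro h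
        have h2 := h y₀ hy₀
        rw [mem_cHigh] at h2
        apply huniq
        rcases h01 v y₀ hy₀ with h3 | h3
        · rw [h3] at h2; exact absurd h2.1 (lt_irrefl _)
        · exact h3
      · rintro rfl y hy
        rw [mem_cHigh, hc0 _ y hy, hkk]
        exact ⟨by norm_num, mem_box_nil⟩
    · simp only [hn, one_ne_zero, if_false, true_and, false_and, false_or]
      have h1 := covers_ods (p := p) hr' [cLow (3 * (n / 2) + 2)]
      have h2 := covers_ods (p := p) hr' [cHigh (3 * (n / 2) + 2)]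
      unfold join at h1 h2
      rw [exists_or, exists_and_left, exists_and_left, h1, h2]
      have h3 : (∀ x ∈ Y.carrier, x ∈ box [cLow (3 * (n / 2) + 2)]) ↔ z (n / 2) = false := by
        constructor
        · intro h
          have h4 := h y₀ hy₀
          rw [mem_cLow, hzval] at h4
          by_contra hne
          rw [if_pos (by simpa using hne)] at h4
          exact absurd h4.1 (lt_irrefl _)
        · intro h y hy
          rw [mem_cLow, hc2 _ y hy, hzval, if_neg (by simp [h])]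
          exact ⟨by norm_num, mem_box_nil⟩
      have h3' : (∀ x ∈ Y.carrier, x ∈ box [cHigh (3 * (n / 2) + 2)]) ↔ z (n / 2) = true := by
        constructor
        · intro h
          have h4 := h y₀ hy₀
          rw [mem_cHigh, hzval] at h4
          by_contra hne
          rw [if_neg hne] at h4
          exact absurd h4.1 (lt_irrefl _)
        · intro h y hy
          rw [mem_cHigh, hc2 _ y hy, hzval, if_pos h]
          exact ⟨by norm_num, mem_box_nil⟩
      rw [h3, h3']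
      cases z (n / 2) <;> simp
  · show join (fun _ => kk) (fun i => (z i).toNat) (2 * 0) = kk
    rw [join_even]
  · intro i
    show join (fun _ => kk) (fun i => (z i).toNat) (2 * i + 1) = _
    rw [join_odd]
  · show kk ∈ (A₁ : Set ℕ)
    by_contra hcon
    have h1 : kk ∈ (A₁ : Set ℕ)ᶜ := hcon
    rw [hp₁'] at h1
    simp only [mem_iUnion, mem_singleton_iff] at h1
    obtain ⟨i, e, hi, rfl⟩ := h1
    have h2 := hSL (2 * i + 1) (bcode [cHigh (3 * kk)]) (Or.inr (Or.inr (Or.inr (Or.inl ⟨kk, by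
      rw [evs_pre]
      exact mem_pre.2 ⟨i, by omega, hi⟩, rfl⟩)))) y₀ hy₀
    rw [boxQ_bcode, mem_cHigh, hkk] at h2
    exact h2 ⟨by norm_num, mem_box_nil⟩
  · show z ∈ (A₂ : Set (ℕ → Bool))
    by_contra hcon
    have h1 : z ∈ (A₂ : Set (ℕ → Bool))ᶜ := hcon
    rw [hp₂'] at h1
    simp only [mem_iUnion] at h1
    obtain ⟨i, e, hi, m, hm⟩ := h1
    have h2 := hSL (2 * i + 2) (bcode ((List.range (pre z m).length).map fun i =>
      cBit (3 * i + 2) ((pre z m).getD i false)))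
      (Or.inr (Or.inr (Or.inr (Or.inr (Or.inr ⟨pre z m, by
      rw [ods_pre]
      exact mem_pre.2 ⟨i, by omega, by rw [hi, hm]⟩, rfl⟩))))) y₀ hy₀
    rw [boxQ_bcode, mem_box_bits] at h2
    apply h2
    intro i hi
    rw [pre_length] at hi
    rw [pre_getD _ _ _ _ hi, hzval]
    split_ifs with h <;> norm_num

end Pool.Agent.CMTW
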