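import Pool.Agent.Lib_fca3ff.Lower
import Pool.Agent.Lib_fca3ff.Cube

set_option autoImplicit false

/-!
# `C_ℕ × C_{2^ℕ} ≤_W CMT_n` for all `n ≥ 1`

The coordinate number `Nat.pair 0 i` selects the block `i`, the coordinate number `Nat.pair 1 i` is
the `i`-th bit of the path, the coordinates number `Nat.pair (a + 2) i` are the cube coordinates of
the block `i`.
-/

namespace Pool.Agent.CMTW

open Prim Set

/-- the boxes of the instance -/
def SLn (x : List ℕ × ℕ) : Prop :=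
  (∃ i, x.2 = bcode [cMid (Nat.pair 0 i)]) ∨
  (∃ y : ℕ × ℕ, x.2 = bcode [cLow (Nat.pair 0 y.2), cHigh (Nat.pair (y.1 + 2) y.2)]) ∨
  (∃ y : ℕ × ℕ, y.1 ≠ y.2 ∧ x.2 = bcode [cHigh (Nat.pair 0 y.1), cHigh (Nat.pair 0 y.2)]) ∨
  (∃ i, i + 1 ∈ evs x.1 ∧ x.2 = bcode [cHigh (Nat.pair 0 i)]) ∨
  (∃ i, x.2 = bcode [cMid (Nat.pair 1 i)]) ∨
  (∃ τ : List Bool, Encodable.encode τ + 1 ∈ ods x.1 ∧
    x.2 = bcode ((List.range τ.length).map fun i => cBit (Nat.pair 1 i) (τ.getD i false)))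

theorem sig1_SLn : Sig1 SLn := by
  unfold SLn
  refine Sig1.or ?_ (Sig1.or ?_ (Sig1.or ?_ (Sig1.or ?_ (Sig1.or ?_ ?_))))
  · apply Sig1.ex (P := fun (x : List ℕ × ℕ) i => x.2 = bcode [cMid (Nat.pair 0 i)])
    apply Sig1.of_prim
    unfold bcode cMid
    fun_prop
  · apply Sig1.ex (P := fun (x : List ℕ × ℕ) (y : ℕ × ℕ) =>
      x.2 = bcode [cLow (Nat.pair 0 y.2), cHigh (Nat.pair (y.1 + 2) y.2)])
    apply Sig1.of_prim
    unfold bcode cLow cHigh
    fun_prop
  · apply Sig1.ex (P := fun (x : List ℕ × ℕ) (y : ℕ × ℕ) => y.1 ≠ y.2 ∧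
      x.2 = bcode [cHigh (Nat.pair 0 y.1), cHigh (Nat.pair 0 y.2)])
    apply Sig1.of_prim
    unfold bcode cHigh
    apply and'
    · exact not' (by fun_prop)
    · fun_prop
  · apply Sig1.ex (P := fun (x : List ℕ × ℕ) i => i + 1 ∈ evs x.1 ∧
      x.2 = bcode [cHigh (Nat.pair 0 i)])
    apply Sig1.of_prim
    unfold bcode cHigh
    apply and'
    · exact mem' (by fun_prop) (by fun_prop)
    · fun_prop
  · apply Sig1.ex (P := fun (x : List ℕ × ℕ) i => x.2 = bcode [cMid (Nat.pair 1 i)])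
    apply Sig1.of_prim
    unfold bcode cMid
    fun_prop
  · apply Sig1.ex (P := fun (x : List ℕ × ℕ) (τ : List Bool) =>
      Encodable.encode τ + 1 ∈ ods x.1 ∧
      x.2 = bcode ((List.range τ.length).map fun i => cBit (Nat.pair 1 i) (τ.getD i false)))
    apply Sig1.of_prim
    apply and'
    · exact mem' (by fun_prop) (by fun_prop)
    · apply eq' (by fun_prop)
      unfold bcode
      apply encode'
      apply map' (g := fun (x : (List ℕ × ℕ) × List Bool) i =>
        cBit (Nat.pair 1 i) (x.2.getD i false)) _ (by fun_prop)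
      unfold cBit
      have h1 : Primrec fun x : ((List ℕ × ℕ) × List Bool) × ℕ =>
          (x.1.2.getD x.2 false).toNat := bool_fun' Bool.toNat (by fun_prop)
      fun_prop

/-- the points of the block `k` -/
noncomputable def ptN (k : ℕ) (z : ℕ → Bool) (t : Q) : Q := fun j =>
  if j.unpair.1 = 0 then (if j.unpair.2 = k then 1 else 0)
  else if j.unpair.1 = 1 then (if z j.unpair.2 = true then 1 else 0)
  else if j.unpair.2 = k then t (j.unpair.1 - 2) else 0

theorem continuous_ptN (k : ℕ) (z : ℕ → Bool) : Continuous (ptN k z) := by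
  apply continuous_pi
  intro j
  unfold ptN
  split_ifs <;> fun_prop

theorem ptN_0 (k : ℕ) (z : ℕ → Bool) (t : Q) (i : ℕ) :
    ptN k z t (Nat.pair 0 i) = if i = k then 1 else 0 := by
  simp [ptN]

theorem ptN_1 (k : ℕ) (z : ℕ → Bool) (t : Q) (i : ℕ) :
    ptN k z t (Nat.pair 1 i) = if z i = true then 1 else 0 := by
  simp [ptN]

theorem ptN_2 (k : ℕ) (z : ℕ → Bool) (t : Q) (a i : ℕ) :
    ptN k z t (Nat.pair (a + 2) i) = if i = k then t a else 0 := by
  simp [ptN]

theorem mem_box_bitsN {τ : List Bool} {x : Q} :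
    x ∈ box ((List.range τ.length).map fun i => cBit (Nat.pair 1 i) (τ.getD i false)) ↔
      ∀ i < τ.length, if τ.getD i false = true then 0 < (x (Nat.pair 1 i) : ℝ)
        else (x (Nat.pair 1 i) : ℝ) < 1 := by
  rw [mem_box]
  constructor
  · intro h i hi
    have h1 := h _ (List.mem_map.2 ⟨i, List.mem_range.2 hi, rfl⟩)
    have h2 : x ∈ box [cBit (Nat.pair 1 i) (τ.getD i false)] := by
      rw [mem_box]
      intro t ht
      rw [List.mem_singleton] at ht
      subst ht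
      exact h1
    cases hb : τ.getD i false with
    | true =>
      rw [hb, cBit_true, mem_cHigh] at h2
      simpa using h2.1
    | false =>
      rw [hb, cBit_false, mem_cLow] at h2
      simpa using h2.1
  · intro h t ht
    obtain ⟨i, hi, rfl⟩ := List.mem_map.1 ht
    rw [List.mem_range] at hi
    have h1 := h i hi
    have h2 : x ∈ box [cBit (Nat.pair 1 i) (τ.getD i false)] := by
      cases hb : τ.getD i false with
      | true =>
        rw [hb] at h1
        rw [cBit_true, mem_cHigh]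
        exact ⟨by simpa using h1, mem_box_nil⟩
      | false =>
        rw [hb] at h1
        rw [cBit_false, mem_cLow]
        exact ⟨by simpa using h1, mem_box_nil⟩
    rw [mem_box] at h2
    exact h2 _ (List.mem_singleton.2 rfl)

/-- the backward functional -/
def HLn (x : List ℕ × ℕ × ℕ) : Prop :=
  (x.2.1 % 2 = 0 ∧ CoversQ (ods x.1 ++ [bcode [cHigh (Nat.pair 0 x.2.2)] + 1])) ∨
  (x.2.1 % 2 = 1 ∧
    ((x.2.2 = 0 ∧ CoversQ (ods x.1 ++ [bcode [cLow (Nat.pair 1 (x.2.1 / 2))] + 1])) ∨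
     (x.2.2 = 1 ∧ CoversQ (ods x.1 ++ [bcode [cHigh (Nat.pair 1 (x.2.1 / 2))] + 1]))))

theorem sig1_HLn : Sig1 HLn := by
  unfold HLn
  have h1 : Primrec fun x : List ℕ × ℕ × ℕ => ods x.1 ++ [bcode [cHigh (Nat.pair 0 x.2.2)] + 1] := by
    unfold bcode cHigh; fun_prop
  have h2 : Primrec fun x : List ℕ × ℕ × ℕ =>
      ods x.1 ++ [bcode [cLow (Nat.pair 1 (x.2.1 / 2))] + 1] := by
    unfold bcode cLow; fun_prop
  have h3 : Primrec fun x : List ℕ × ℕ × ℕ =>
      ods x.1 ++ [bcode [cHigh (Nat.pair 1 (x.2.1 / 2))] + 1] := by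
    unfold bcode cHigh; fun_prop
  refine Sig1.or (Sig1.and (Sig1.of_prim (by fun_prop)) (sig1_coversQ h1))
    (Sig1.and (Sig1.of_prim (by fun_prop)) (Sig1.or
      (Sig1.and (Sig1.of_prim (by fun_prop)) (sig1_coversQ h2))
      (Sig1.and (Sig1.of_prim (by fun_prop)) (sig1_coversQ h3))))

theorem lowerN {n : ℕ} (hn1 : 1 ≤ n) : (CN.prod CCantor).WLE (CMT n) := by
  obtain ⟨K, hK, hKe⟩ := enum_functional SLn sig1_SLn
  refine ⟨K, HLn, hK.re, sig1_HLn.re, ?_⟩
  rintro p ⟨(A₁ : TopologicalSpace.Closeds ℕ), (A₂ : TopologicalSpace.Closeds (ℕ → Bool))⟩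
    ⟨hp₁, hp₂⟩ ⟨⟨k₀, hk₀⟩, ⟨z₀, hz₀⟩⟩
  have hp₁' : (A₁ : Set ℕ)ᶜ = ⋃ (i : ℕ) (e : ℕ) (_ : p (2 * i) = e + 1), {e} := hp₁
  have hp₂' : (A₂ : Set (ℕ → Bool))ᶜ = ⋃ (i : ℕ) (e : ℕ) (_ : p (2 * i + 1) = e + 1), cyl e := hp₂
  obtain ⟨k, hk, hke⟩ := hKe p
  -- the instance
  set W : Set Q := ⋃ (i : ℕ) (e : ℕ) (_ : k i = e + 1), boxQ e with hW
  have hWo : IsOpen W := isOpen_iUnion fun _ => isOpen_iUnion fun _ => isOpen_iUnion fun _ =>
    isOpen_boxQ _
  have hWmem : ∀ x, x ∈ W ↔ ∃ m e, SLn (pre p m, e) ∧ x ∈ boxQ e := by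
    intro x
    simp only [hW, mem_iUnion]
    constructor
    · rintro ⟨i, e, hi, hx⟩
      obtain ⟨m, hm⟩ := (hke e).1 ⟨i, hi⟩
      exact ⟨m, e, hm, hx⟩
    · rintro ⟨m, e, hm, hx⟩
      obtain ⟨i, hi⟩ := (hke e).2 ⟨m, hm⟩
      exact ⟨i, e, hi, hx⟩
  -- membership of the points `ptN`
  have hptW : ∀ t, ptN k₀ z₀ t ∉ W := by
    intro t ht
    obtain ⟨m, e, hm, hx⟩ := (hWmem _).1 ht
    rcases hm with ⟨i, he⟩ | ⟨⟨a, i⟩, he⟩ | ⟨⟨i, j⟩, hij, he⟩ | ⟨i, hi, he⟩ | ⟨i, he⟩ | ⟨τ, hτ, he⟩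
    · simp only at he
      rw [he, boxQ_bcode, mem_cMid, ptN_0] at hx
      split_ifs at hx <;> simp at hx
    · simp only at he
      rw [he, boxQ_bcode, mem_cLow, mem_cHigh, ptN_0, ptN_2] at hx
      split_ifs at hx <;> simp at hx
    · simp only at he hij
      rw [he, boxQ_bcode, mem_cHigh, mem_cHigh, ptN_0, ptN_0] at hx
      obtain ⟨h1, h2, -⟩ := hx
      split_ifs at h1 h2
      · omega
      · simp at h2
      · simp at h1
      · simp at h1
    · simp only at he hi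
      rw [he, boxQ_bcode, mem_cHigh, ptN_0] at hx
      split_ifs at hx with h
      · subst h
        rw [evs_pre] at hi
        obtain ⟨i', -, hi'⟩ := mem_pre.1 hi
        have : i ∈ (A₁ : Set ℕ)ᶜ := by
          rw [hp₁']
          simp only [mem_iUnion]
          exact ⟨i', i, hi', rfl⟩
        exact this hk₀
      · simp at hx
    · simp only at he
      rw [he, boxQ_bcode, mem_cMid, ptN_1] at hx
      split_ifs at hx <;> simp at hx
    · simp only at he hτ
      rw [he, boxQ_bcode, mem_box_bitsN] at hx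
      rw [ods_pre] at hτ
      obtain ⟨i', -, hi'⟩ := mem_pre.1 hτ
      have : z₀ ∈ (A₂ : Set (ℕ → Bool))ᶜ := by
        rw [hp₂']
        simp only [mem_iUnion]
        refine ⟨i', _, hi', τ.length, ?_⟩
        congr 1
        apply List.ext_getElem?
        intro i
        rw [pre_getElem?]
        split_ifs with hi
        · have h1 := hx i hi
          rw [ptN_1] at h1
          rw [List.getElem?_eq_getElem hi]
          rw [List.getD_eq_getElem _ _ hi] at h1
          cases hz : z₀ i <;> cases hb : τ[i] <;> simp [hz, hb] at h1 ⊢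
        · rw [List.getElem?_eq_none (by omega)]
      exact this hz₀
  refine ⟨k, ⟨Wᶜ, hWo.isClosed_compl⟩, hk, ?_, ?_, ?_⟩
  · show (Wᶜ)ᶜ = _
    rw [compl_compl]
  · show ¬ CovDimLT (Wᶜ : Set Q) n
    refine not_covDimLT_cube (fun i => Nat.pair (i + 2) k₀) (ptN k₀ z₀) (continuous_ptN _ _)
      (fun t i _ => ?_) hptW
    rw [ptN_2, if_pos rfl]
  -- the backward direction
  rintro r Y hr ⟨hYX, hYdim, hYconn⟩
  have hYX' : Y.carrier ⊆ Wᶜ := hYX
  have hr' : (Y.carrier)ᶜ = ⋃ (i : ℕ) (e : ℕ) (_ : r i = e + 1), boxQ e := hr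
  have hYpre : IsPreconnected Y.carrier := by
    have := hYconn ∅ isClosed_empty (empty_subset _) (covDimLT_empty _)
    rwa [sdiff_empty] at this
  have hYdim1 : ¬ CovDimLT Y.carrier 1 := fun h => hYdim (covDimLT_mono hn1 h)
  have hSLn : ∀ m e, SLn (pre p m, e) → ∀ y ∈ Y.carrier, y ∉ boxQ e := by
    intro m e hm y hy hye
    exact hYX' hy ((hWmem y).2 ⟨m, e, hm, hye⟩)
  have h01 : ∀ i, ∀ y ∈ Y.carrier, (y (Nat.pair 0 i) : ℝ) = 0 ∨ (y (Nat.pair 0 i) : ℝ) = 1 := by
    intro i y hy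
    have h1 := hSLn 0 (bcode [cMid (Nat.pair 0 i)]) (Or.inl ⟨i, rfl⟩) y hy
    rw [boxQ_bcode, mem_cMid] at h1
    have h2 := (y (Nat.pair 0 i)).2.1
    have h3 := (y (Nat.pair 0 i)).2.2
    by_contra hcon
    push Not at hcon
    apply h1
    exact ⟨⟨lt_of_le_of_ne h2 (Ne.symm hcon.1), lt_of_le_of_ne h3 hcon.2⟩, mem_box_nil⟩
  have h012 : ∀ i, ∀ y ∈ Y.carrier, (y (Nat.pair 1 i) : ℝ) = 0 ∨ (y (Nat.pair 1 i) : ℝ) = 1 := by
    intro i y hy
    have h1 := hSLn 0 (bcode [cMid (Nat.pair 1 i)])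
      (Or.inr (Or.inr (Or.inr (Or.inr (Or.inl ⟨i, rfl⟩))))) y hy
    rw [boxQ_bcode, mem_cMid] at h1
    have h2 := (y (Nat.pair 1 i)).2.1
    have h3 := (y (Nat.pair 1 i)).2.2
    by_contra hcon
    push Not at hcon
    apply h1
    exact ⟨⟨lt_of_le_of_ne h2 (Ne.symm hcon.1), lt_of_le_of_ne h3 hcon.2⟩, mem_box_nil⟩
  obtain ⟨y₀, hy₀, y₁, hy₁, hy01⟩ := exists_ne Y.isClosed hYdim1
  have hc0 : ∀ i, ∀ y ∈ Y.carrier, (y (Nat.pair 0 i) : ℝ) = y₀ (Nat.pair 0 i) := fun i y hy =>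
    constant_of_preconnected hYpre (Nat.pair 0 i) (h01 i) hy hy₀
  have hc2 : ∀ i, ∀ y ∈ Y.carrier, (y (Nat.pair 1 i) : ℝ) = y₀ (Nat.pair 1 i) := fun i y hy =>
    constant_of_preconnected hYpre (Nat.pair 1 i) (h012 i) hy hy₀
  obtain ⟨kk, hkk⟩ : ∃ i, (y₀ (Nat.pair 0 i) : ℝ) = 1 := by
    by_contra hcon
    push Not at hcon
    apply hy01
    funext j
    apply Subtype.ext
    have h3 : ∀ i, ∀ y ∈ Y.carrier, (y (Nat.pair 0 i) : ℝ) = 0 := by
      intro i y hy
      rw [hc0 i y hy]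
      rcases h01 i y₀ hy₀ with h | h
      · exact h
      · exact absurd h (hcon i)
    have h4 : ∀ a i, ∀ y ∈ Y.carrier, (y (Nat.pair (a + 2) i) : ℝ) = 0 := by
      intro a i y hy
      have h1 := hSLn 0 (bcode [cLow (Nat.pair 0 i), cHigh (Nat.pair (a + 2) i)])
        (Or.inr (Or.inl ⟨(a, i), rfl⟩)) y hy
      rw [boxQ_bcode, mem_cLow, mem_cHigh, h3 i y hy] at h1
      have h2 := (y (Nat.pair (a + 2) i)).2.1
      by_contra hne
      exact h1 ⟨by norm_num, lt_of_le_of_ne h2 (Ne.symm hne), mem_box_nil⟩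
    obtain ⟨a, i, hai⟩ : ∃ a i, j = Nat.pair a i := ⟨j.unpair.1, j.unpair.2, (Nat.pair_unpair j).symm⟩
    rcases a with _ | _ | a
    · subst hai; exact (hc0 i y₁ hy₁).symm
    · subst hai; exact (hc2 i y₁ hy₁).symm
    · subst hai
      exact (h4 a i y₀ hy₀).trans (h4 a i y₁ hy₁).symm
  classical
  set z : ℕ → Bool := fun i => decide ((y₀ (Nat.pair 1 i) : ℝ) = 1) with hz
  have hzval : ∀ i, (y₀ (Nat.pair 1 i) : ℝ) = if z i = true then 1 else 0 := by
    intro i
    simp only [hz, decide_eq_true_eq]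
    split_ifs with h
    · exact h
    · rcases h012 i y₀ hy₀ with h' | h'
      · exact h'
      · exact absurd h' h
  have huniq : ∀ v, (y₀ (Nat.pair 0 v) : ℝ) = 1 → v = kk := by
    intro v hv
    by_contra hne
    have h1 := hSLn 0 (bcode [cHigh (Nat.pair 0 v), cHigh (Nat.pair 0 kk)])
      (Or.inr (Or.inr (Or.inl ⟨(v, kk), hne, rfl⟩))) y₀ hy₀
    rw [boxQ_bcode, mem_cHigh, mem_cHigh, hv, hkk] at h1
    exact h1 ⟨by norm_num, by norm_num, mem_box_nil⟩
  refine ⟨join (fun _ => kk) (fun i => (z i).toNat), (kk, z), ?_, ⟨?_, ?_⟩, ⟨?_, ?_⟩⟩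
  · intro n v
    unfold HLn join
    rcases Nat.mod_two_eq_zero_or_one n with hn | hn
    · simp only [hn, if_true, true_and, zero_ne_one, false_and, or_false]
      have h1 := covers_ods (p := p) hr' [cHigh (Nat.pair 0 v)]
      unfold join at h1
      rw [h1]
      constructor
      · intro h
        have h2 := h y₀ hy₀
        rw [mem_cHigh] at h2
        apply huniq
        rcases h01 v y₀ hy₀ with h3 | h3
        · rw [h3] at h2; exact absurd h2.1 (lt_irrefl _)
        · exact h3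
      · rintro rfl y hy
        rw [mem_cHigh, hc0 _ y hy, hkk]
        exact ⟨by norm_num, mem_box_nil⟩
    · simp only [hn, one_ne_zero, if_false, true_and, false_and, false_or]
      have h1 := covers_ods (p := p) hr' [cLow (Nat.pair 1 (n / 2))]
      have h2 := covers_ods (p := p) hr' [cHigh (Nat.pair 1 (n / 2))]
      unfold join at h1 h2
      rw [exists_or, exists_and_left, exists_and_left, h1, h2]
      have h3 : (∀ x ∈ Y.carrier, x ∈ box [cLow (Nat.pair 1 (n / 2))]) ↔ z (n / 2) = false := by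
        constructor
        · intro h
          have h4 := h y₀ hy₀
          rw [mem_cLow, hzval] at h4
          by_contra hne
          rw [if_pos (by simpa using hne)] at h4
          exact absurd h4.1 (lt_irrefl _)
        · intro h y hy
          rw [mem_cLow, hc2 _ y hy, hzval, if_neg (by simp [h])]
          exact ⟨by norm_num, mem_box_nil⟩
      have h3' : (∀ x ∈ Y.carrier, x ∈ box [cHigh (Nat.pair 1 (n / 2))]) ↔ z (n / 2) = true := by
        constructor
        · intro h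
          have h4 := h y₀ hy₀
          rw [mem_cHigh, hzval] at h4
          by_contra hne
          rw [if_neg hne] at h4
          exact absurd h4.1 (lt_irrefl _)
        · intro h y hy
          rw [mem_cHigh, hc2 _ y hy, hzval, if_pos h]
          exact ⟨by norm_num, mem_box_nil⟩
      rw [h3, h3']
      cases z (n / 2) <;> simp
  · show join (fun _ => kk) (fun i => (z i).toNat) (2 * 0) = kk
    rw [join_even]
  · intro i
    show join (fun _ => kk) (fun i => (z i).toNat) (2 * i + 1) = _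
    rw [join_odd]
  · show kk ∈ (A₁ : Set ℕ)
    by_contra hcon
    have h1 : kk ∈ (A₁ : Set ℕ)ᶜ := hcon
    rw [hp₁'] at h1
    simp only [mem_iUnion, mem_singleton_iff] at h1
    obtain ⟨i, e, hi, rfl⟩ := h1
    have h2 := hSLn (2 * i + 1) (bcode [cHigh (Nat.pair 0 kk)]) (Or.inr (Or.inr (Or.inr (Or.inl ⟨kk, by
      rw [evs_pre]
      exact mem_pre.2 ⟨i, by omega, hi⟩, rfl⟩)))) y₀ hy₀
    rw [boxQ_bcode, mem_cHigh, hkk] at h2
    exact h2 ⟨by norm_num, mem_box_nil⟩
  · show z ∈ (A₂ : Set (ℕ → Bool))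
    by_contra hcon
    have h1 : z ∈ (A₂ : Set (ℕ → Bool))ᶜ := hcon
    rw [hp₂'] at h1
    simp only [mem_iUnion] at h1
    obtain ⟨i, e, hi, m, hm⟩ := h1
    have h2 := hSLn (2 * i + 2) (bcode ((List.range (pre z m).length).map fun i =>
      cBit (Nat.pair 1 i) ((pre z m).getD i false)))
      (Or.inr (Or.inr (Or.inr (Or.inr (Or.inr ⟨pre z m, by
      rw [ods_pre]
      exact mem_pre.2 ⟨i, by omega, by rw [hi, hm]⟩, rfl⟩))))) y₀ hy₀
    rw [boxQ_bcode, mem_box_bitsN] at h2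
    apply h2
    intro i hi
    rw [pre_length] at hi
    rw [pre_getD _ _ _ _ hi, hzval]
    split_ifs with h <;> norm_num

end Pool.Agent.CMTW
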