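import Pool.Agent.Lib_fca3ff.TentThin

set_option autoImplicit false

/-!
# `CMT_n` is not reducible to `C_ℕ × C_{2^ℕ}` for `n ≥ 2`
-/

namespace Pool.Agent.CMTW

open Set

/-- the name of the point `(j, z)` -/
def rz (j : ℕ) (z : ℕ → Bool) : ℕ → ℕ := join (fun _ => j) (fun i => (z i).toNat)

theorem rz_pre {j : ℕ} {z z' : ℕ → Bool} {m : ℕ} (h : pre z' m = pre z m) :
    pre (rz j z') m = pre (rz j z) m := by
  apply pre_join rfl
  rw [pre_eq_iff] at h ⊢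
  intro i hi
  simp only [h i hi]

/-- finitely many of the sets of a sequence cover a compact set -/
theorem finite_prefix {Z : Type} [TopologicalSpace Z] {T : Set Z} (hT : IsCompact T)
    {B : ℕ → Set Z} (hB : ∀ e, IsOpen (B e)) {q : ℕ → ℕ}
    (h : ∀ x ∈ T, ∃ i e, q i = e + 1 ∧ x ∈ B e) :
    ∃ l, ∀ x ∈ T, ∃ i < l, ∃ e, q i = e + 1 ∧ x ∈ B e := by
  obtain ⟨l, hl⟩ := hT.elim_directed_cover (fun l => ⋃ (i : ℕ) (_ : i < l) (e : ℕ)
    (_ : q i = e + 1), B e) (fun l => isOpen_iUnion fun i => isOpen_iUnion fun _ =>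
      isOpen_iUnion fun e => isOpen_iUnion fun _ => hB e) (by
    intro x hx
    obtain ⟨i, e, hi, hxe⟩ := h x hx
    simp only [mem_iUnion, exists_prop]
    exact ⟨i + 1, i, Nat.lt_succ_self i, e, hi, hxe⟩) (directed_of_isDirected_le (by
    intro l l' hll x hx
    simp only [mem_iUnion, exists_prop] at hx ⊢
    obtain ⟨i, hi, e, hie, hxe⟩ := hx
    exact ⟨i, lt_of_lt_of_le hi hll, e, hie, hxe⟩))
  refine ⟨l, fun x hx => ?_⟩
  have := hl hx
  simpa only [mem_iUnion, exists_prop] using this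

theorem not_cmt_tle {n : ℕ} (hn : 2 ≤ n) : ¬ (CMT n).TLE (CN.prod CCantor) := by
  classical
  rintro ⟨K, H, hKH⟩
  have h1 : ∀ p : ℕ → ℕ, ∃ (k : ℕ → ℕ) (A₁ : TopologicalSpace.Closeds ℕ)
      (A₂ : TopologicalSpace.Closeds (ℕ → Bool)), Sends K (nuX n p) k ∧
      (A₁ : Set ℕ)ᶜ = (⋃ (i : ℕ) (e : ℕ) (_ : k (2 * i) = e + 1), {e}) ∧
      (A₂ : Set (ℕ → Bool))ᶜ = (⋃ (i : ℕ) (e : ℕ) (_ : k (2 * i + 1) = e + 1), cyl e) ∧
      (A₁ : Set ℕ).Nonempty ∧ (A₂ : Set (ℕ → Bool)).Nonempty ∧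
      ∀ j ∈ (A₁ : Set ℕ), ∀ z ∈ (A₂ : Set (ℕ → Bool)), ∃ (q : ℕ → ℕ) (Y : Set Q),
        Sends H (join (nuX n p) (rz j z)) q ∧ IsClosed Y ∧
        Yᶜ = (⋃ (i : ℕ) (e : ℕ) (_ : q i = e + 1), boxQ e) ∧ Y ⊆ XI n p ∧ ¬ CovDimLT Y n ∧
        ∀ C : Set Q, IsClosed C → C ⊆ Y → CovDimLT C (n - 1) → IsPreconnected (Y \ C) := by
    intro p
    obtain ⟨k, ⟨(A₁ : TopologicalSpace.Closeds ℕ), (A₂ : TopologicalSpace.Closeds (ℕ → Bool))⟩,
      hk, ⟨hn1, hn2⟩, ⟨hd1, hd2⟩, hr⟩ := hKH (nuX n p) ⟨XI n p, isClosed_XI n p⟩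
        (name_nuX n p) (not_covDimLT_XI n p)
    refine ⟨k, A₁, A₂, hk, hn1, hn2, hd1, hd2, fun j hj z hz => ?_⟩
    obtain ⟨q, (Y : TopologicalSpace.Closeds Q), hq, hqY, hY1, hY2, hY3⟩ := hr (rz j z) (j, z)
      ⟨by show rz j z (2 * 0) = j; exact join_even _ _ 0,
        fun i => by show rz j z (2 * i + 1) = _; exact join_odd _ _ i⟩ ⟨hj, hz⟩
    exact ⟨q, Y.carrier, hq, Y.isClosed, hqY, hY1, hY2, hY3⟩
  choose k A₁ A₂ hsend hA₁ hA₂ hne₁ hne₂ hsol using h1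
  have hcont : ∀ p l, ∃ m, ∀ p', pre p' m = pre p m → pre (k p') l = pre (k p) l := by
    intro p l
    obtain ⟨m, hm⟩ := (hsend p).cont l
    exact ⟨m, fun p' hp' => hm _ _ (hsend p') (nuX_pre hp')⟩
  -- the discrete part of the solution may be fixed
  obtain ⟨j, p₁, m₁, hj⟩ := baire_pre (E := fun j => {p | j ∈ (A₁ p : Set ℕ)}) (by
      intro j p hp
      have hp' : j ∈ (A₁ p : Set ℕ)ᶜ := hp
      rw [hA₁ p] at hp'
      simp only [mem_iUnion, exists_prop, mem_singleton_iff] at hp'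
      obtain ⟨i, e, hi, rfl⟩ := hp'
      obtain ⟨m, hm⟩ := hcont p (2 * i + 1)
      refine ⟨m, fun p' h h' => ?_⟩
      have h2 := (pre_eq_iff.1 (hm p' h)) (2 * i) (by omega)
      have h3 : j ∈ (A₁ p' : Set ℕ)ᶜ := by
        rw [hA₁ p']
        simp only [mem_iUnion, exists_prop, mem_singleton_iff]
        exact ⟨i, j, by rw [h2, hi], rfl⟩
      exact h3 h') (fun p => hne₁ p)
  have hj' : ∀ p, pre p m₁ = pre p₁ m₁ → j ∈ (A₁ p : Set ℕ) := hj
  -- the generic sequence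
  obtain ⟨p, hp, hD⟩ := baire_dense (p₁ := p₁) (m₁ := m₁) (D := fun N => {p | ∃ e, N ≤ e ∧
      (∃ t, p t = e + 1) ∧ ∀ z ∈ (A₂ p : Set (ℕ → Bool)), ∀ q, Sends H (join (nuX n p) (rz j z)) q →
        ∀ x : Q, (x (n + e) : ℝ) = 1 → ∃ i e', q i = e' + 1 ∧ x ∈ boxQ e'}) (by
    intro N p M hp
    set M₀ := max M m₁ with hM₀
    set p₀ : ℕ → ℕ := fun i => if i < M₀ then p i else 0 with hp₀
    have hp₀pre : pre p₀ M₀ = pre p M₀ := by
      rw [pre_eq_iff]
      intro i hi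
      simp only [hp₀, if_pos hi]
    set e : ℕ := N + ∑ i ∈ Finset.range M₀, p i with he
    have he₀ : ∀ t, p₀ t ≠ e + 1 := by
      intro t ht
      simp only [hp₀] at ht
      split_ifs at ht with h
      · have := Finset.single_le_sum (f := p) (fun _ _ => Nat.zero_le _) (Finset.mem_range.2 h)
        omega
    have hjp₀ : j ∈ (A₁ p₀ : Set ℕ) := hj' p₀ ((pre_le hp₀pre (le_max_right _ _)).trans hp)
    have hTc : IsCompact {x : Q | (x (n + e) : ℝ) = 1} :=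
      (isClosed_eq (continuous_subtype_val.comp (continuous_apply _)) continuous_const).isCompact
    have hz : ∀ z ∈ (A₂ p₀ : Set (ℕ → Bool)), ∃ m, ∀ r' q', Sends H r' q' →
        pre r' m = pre (join (nuX n p₀) (rz j z)) m →
        ∀ x : Q, (x (n + e) : ℝ) = 1 → ∃ i e', q' i = e' + 1 ∧ x ∈ boxQ e' := by
      intro z hz
      obtain ⟨q, Y, hq, hYc, hqY, hYX, hYd, hYs⟩ := hsol p₀ j hjp₀ z hz
      have hY0 := XI_zero hn hYX hYd hYs he₀
      obtain ⟨l, hl⟩ := finite_prefix hTc isOpen_boxQ (q := q) (by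
        intro x hx
        have h2 : x ∈ Yᶜ := by
          intro hxY
          have h3 := hY0 x hxY
          have h4 : (x (n + e) : ℝ) = 1 := hx
          rw [h4] at h3
          norm_num at h3
        rw [hqY] at h2
        simpa only [mem_iUnion, exists_prop] using h2)
      obtain ⟨m, hm⟩ := hq.cont l
      refine ⟨m, fun r' q' hq' hr' x hx => ?_⟩
      obtain ⟨i, hi, e', hie, hxe⟩ := hl x hx
      have h2 := pre_eq_iff.1 (hm r' q' hq' hr') i hi
      exact ⟨i, e', by rw [h2, hie], hxe⟩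
    choose! mz hmz using hz
    obtain ⟨t, htA, htc⟩ := (A₂ p₀).isClosed.isCompact.elim_nhds_subcover
      (fun z => {z' : ℕ → Bool | pre z' (mz z) = pre z (mz z)})
      (fun z _ => (isOpen_pre z (mz z)).mem_nhds rfl)
    set V : Set (ℕ → Bool) := ⋃ z ∈ t, {z' : ℕ → Bool | pre z' (mz z) = pre z (mz z)} with hV
    have hVo : IsOpen V := isOpen_biUnion fun z _ => isOpen_pre z (mz z)
    obtain ⟨l, hl⟩ := finite_prefix hVo.isClosed_compl.isCompact isOpen_cyl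
      (q := fun i => k p₀ (2 * i + 1)) (by
        intro z hz
        have h2 : z ∈ (A₂ p₀ : Set (ℕ → Bool))ᶜ := fun hzA => hz (htc hzA)
        rw [hA₂ p₀] at h2
        simpa only [mem_iUnion, exists_prop] using h2)
    obtain ⟨m₂, hm₂⟩ := hcont p₀ (2 * l + 1)
    have hA₂V : ∀ p', pre p' m₂ = pre p₀ m₂ → (A₂ p' : Set (ℕ → Bool)) ⊆ V := by
      intro p' hp' z hz
      by_contra hzV
      obtain ⟨i, hi, e', hie, hze⟩ := hl z hzV
      have h2 := pre_eq_iff.1 (hm₂ p' hp') (2 * i + 1) (by omega)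
      have h3 : z ∈ (A₂ p' : Set (ℕ → Bool))ᶜ := by
        rw [hA₂ p']
        simp only [mem_iUnion, exists_prop]
        exact ⟨i, e', by rw [h2]; exact hie, hze⟩
      exact h3 hz
    set M₁ := max (max M₀ m₂) (t.sup mz) with hM₁
    set p' : ℕ → ℕ := fun i => if i < M₁ then p₀ i else e + 1 with hp'
    have hp'pre : pre p' M₁ = pre p₀ M₁ := by
      rw [pre_eq_iff]
      intro i hi
      simp only [hp', if_pos hi]
    have hM₀₁ : M₀ ≤ M₁ := (le_max_left _ _).trans (le_max_left _ _)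
    refine ⟨p', M₁ + 1, ?_, ?_⟩
    · exact (pre_le hp'pre ((le_max_left M m₁).trans hM₀₁)).trans (pre_le hp₀pre (le_max_left _ _))
    · intro p'' hp''
      have hp''₀ : pre p'' M₁ = pre p₀ M₁ := (pre_le hp'' (Nat.le_succ _)).trans hp'pre
      refine ⟨e, by omega, ⟨M₁, ?_⟩, ?_⟩
      · rw [pre_eq_iff.1 hp'' M₁ (by omega)]
        simp only [hp', lt_irrefl, if_false]
      · intro z hz q hq x hx
        have h2 := hA₂V p'' (pre_le hp''₀ ((le_max_right _ _).trans (le_max_left _ _))) hz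
        obtain ⟨z', hz't, hz'⟩ := mem_iUnion₂.1 h2
        have hz'' : pre z (mz z') = pre z' (mz z') := hz'
        refine hmz z' (htA z' hz't) _ q hq (pre_join (nuX_pre (pre_le hp''₀ ?_)) (rz_pre hz'')) x hx
        exact (Finset.le_sup (f := mz) hz't).trans (le_max_right _ _))
  obtain ⟨z, hz⟩ := hne₂ p
  obtain ⟨q, Y, hq, hYc, hqY, hYX, hYd, hYs⟩ := hsol p j (hj' p hp) z hz
  apply hYd
  apply covDimLT_of_missing (by omega) hYc hYX
  · intro e he
    exact XI_zero hn hYX hYd hYs he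
  · intro N
    obtain ⟨e, heN, ht, h2⟩ := hD N
    refine ⟨e, heN, ht, fun y hy hy1 => ?_⟩
    obtain ⟨i, e', hie, hye⟩ := h2 z hz q hq y hy1
    have h3 : y ∈ Yᶜ := by
      rw [hqY]
      simp only [mem_iUnion, exists_prop]
      exact ⟨i, e', hie, hye⟩
    exact h3 hy

end Pool.Agent.CMTW
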