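import Pool.Agent.Lib_fca3ff.Topo

set_option autoImplicit false

/-!
# `lim` is not reducible to `CMT_n`
-/

namespace Pool.Agent.CMTW

open Set

theorem exists_solution {n : ℕ} (hn : 1 ≤ n) {X D : Set Q} (hD : IsClosed D) (hDX : D ⊆ X)
    (hdim : ¬ CovDimLT D n) : ∃ Y ⊆ D, IsClosed Y ∧ Y ⊆ X ∧ ¬ CovDimLT Y n ∧
      ∀ C : Set Q, IsClosed C → C ⊆ Y → CovDimLT C (n - 1) → IsPreconnected (Y \ C) := by
  obtain ⟨k, hk⟩ : ∃ k, ¬ Thin n k D := by
    by_contra hcon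
    push Not at hcon
    exact hdim (covDimLT_of_thin hD hcon)
  obtain ⟨Y, hYD, hY⟩ := exists_minFat hD hk
  obtain ⟨n', rfl⟩ : ∃ n', n = n' + 1 := ⟨n - 1, by omega⟩
  exact ⟨Y, hYD, hY.1, hYD.trans hDX, hY.solution.1, hY.solution.2⟩

theorem not_lim_tle {n : ℕ} (hn : 1 ≤ n) : ¬ Lim.TLE (CMT n) := by
  classical
  rintro ⟨K, H, hKH⟩
  have h1 : ∀ q : ℕ → ℕ, ∃ (k : ℕ → ℕ) (u : TopologicalSpace.Closeds Q), Sends K (nu q) k ∧
      (u.carrier)ᶜ = (⋃ (i : ℕ) (e : ℕ) (_ : k i = e + 1), boxQ e) ∧ ¬ CovDimLT u.carrier n ∧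
      ∀ (r : ℕ → ℕ) (v : TopologicalSpace.Closeds Q),
        (v.carrier)ᶜ = (⋃ (i : ℕ) (e : ℕ) (_ : r i = e + 1), boxQ e) → (CMT n).Val u v →
          ∃ q' : ℕ → ℕ, Sends H (join (nu q) r) q' ∧ Lim.Val (nu q) q' := by
    intro q
    obtain ⟨k, u, h1, h2, h3, h4⟩ := hKH (nu q) (nu q) rfl (dom_nu q)
    refine ⟨k, u, h1, h2, h3, fun r v hr hv => ?_⟩
    obtain ⟨q', y, h5, h6, h7⟩ := h4 r v hr hv
    have h6' : q' = y := h6
    subst h6'
    exact ⟨q', h5, h7⟩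
  choose nm X hsend hname hdim hval using h1
  have hcont : ∀ q l, ∃ m, ∀ q', pre q' m = pre q m → pre (nm q') l = pre (nm q) l := by
    intro q l
    obtain ⟨m, hm⟩ := (hsend q).cont l
    exact ⟨m, fun q' hq' => hm _ _ (hsend q') (nu_pre hq')⟩
  -- nearby instances are in a neighbourhood
  have hnear : ∀ q (W : Set Q), IsOpen W → (X q).carrier ⊆ W →
      ∃ m, ∀ q', pre q' m = pre q m → (X q').carrier ⊆ W := by
    intro q W hW hXW
    obtain ⟨l, hl⟩ := prefix_cover (hname q) [] hW (by rwa [Zs_nil])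
    obtain ⟨m, hm⟩ := hcont q l
    refine ⟨m, fun q' hq' x hx => ?_⟩
    rcases hl x with h | ⟨e, he, hxe⟩
    · exact h
    · exfalso
      rw [List.append_nil, ← hm q' hq'] at he
      obtain ⟨i, -, hi⟩ := mem_pre.1 he
      have : x ∈ ((X q').carrier)ᶜ := by
        rw [hname q']
        simp only [mem_iUnion, exists_prop]
        exact ⟨i, e, hi, hxe⟩
      exact this hx
  -- Baire category
  obtain ⟨k, q₁, m₁, hfat⟩ := baire_pre (E := fun k => {q | ¬ Thin n k (X q).carrier}) (by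
      intro k q hq
      have hq' : Thin n k (X q).carrier := not_not.1 hq
      obtain ⟨W, hW, hXW, hthin⟩ := hq'.nhd
      obtain ⟨m, hm⟩ := hnear q W hW hXW
      exact ⟨m, fun q' h h' => h' (hthin _ (hm q' h))⟩) (by
      intro q
      by_contra hcon
      push Not at hcon
      exact hdim q (covDimLT_of_thin (X q).isClosed fun k => not_not.1 (hcon k)))
  have hfat' : ∀ q', pre q' m₁ = pre q₁ m₁ → ¬ Thin n k (X q').carrier := hfat
  -- the base point and the number to be enumerated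
  set q₀ : ℕ → ℕ := fun i => if i < m₁ then q₁ i else 0 with hq₀
  have hq₀pre : pre q₀ m₁ = pre q₁ m₁ := by
    rw [pre_eq_iff]
    intro i hi
    simp only [hq₀, if_pos hi]
  set e : ℕ := ∑ i ∈ Finset.range m₁, q₁ i with he
  have he₀ : ¬ ∃ i, q₀ i = e + 1 := by
    rintro ⟨i, hi⟩
    simp only [hq₀] at hi
    split_ifs at hi with h
    · have := Finset.single_le_sum (f := q₁) (fun _ _ => Nat.zero_le _) (Finset.mem_range.2 h)
      omega
  -- the decisions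
  set O : (ℕ → ℕ) × ℕ → Set Q := fun y => ⋂ i ∈ Finset.range y.2,
    (⋃ (e' : ℕ) (_ : y.1 i = e' + 1), closure (boxQ e'))ᶜ with hO
  have hOo : ∀ y, IsOpen (O y) := by
    intro y
    apply isOpen_biInter_finset
    intro i _
    rw [isOpen_compl_iff]
    rcases Nat.eq_zero_or_pos (y.1 i) with h0 | h0
    · have : (⋃ (e' : ℕ) (_ : y.1 i = e' + 1), closure (boxQ e')) = ∅ := by
        ext x; simp [h0]
      rw [this]
      exact isClosed_empty
    · obtain ⟨e', he'⟩ : ∃ e', y.1 i = e' + 1 := ⟨y.1 i - 1, by omega⟩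
      have : (⋃ (e'' : ℕ) (_ : y.1 i = e'' + 1), closure (boxQ e'')) = closure (boxQ e') := by
        ext x
        simp only [mem_iUnion, exists_prop, he']
        constructor
        · rintro ⟨e'', h, hx⟩
          have : e' = e'' := by omega
          rwa [this]
        · intro hx; exact ⟨e', rfl, hx⟩
      rw [this]
      exact isClosed_closure
  have hOmem : ∀ y x, x ∈ O y ↔ ∀ i < y.2, ∀ e', y.1 i = e' + 1 → x ∉ closure (boxQ e') := by
    intro y x
    simp only [hO, mem_iInter, Finset.mem_range, mem_compl_iff, mem_iUnion, exists_prop,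
      not_exists, not_and]
  set Dec : Set ((ℕ → ℕ) × ℕ) := {y | H (pre (join (nu q₀) y.1) y.2, e, 0)} with hDec
  have hsol : ∀ (q : ℕ → ℕ) (Y : Set Q), IsClosed Y → Y ⊆ (X q).carrier → ¬ CovDimLT Y n →
      (∀ C : Set Q, IsClosed C → C ⊆ Y → CovDimLT C (n - 1) → IsPreconnected (Y \ C)) →
      ∀ r : ℕ → ℕ, (Yᶜ = ⋃ (i : ℕ) (e : ℕ) (_ : r i = e + 1), boxQ e) →
      ∃ q' : ℕ → ℕ, Sends H (join (nu q) r) q' ∧ Lim.Val (nu q) q' := by
    intro q Y hY hYX hYd hYc r hr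
    exact hval q r ⟨Y, hY⟩ hr ⟨hYX, hYd, hYc⟩
  -- the part of `X q₀` on which nothing is decided is thin
  have hthin : Thin n k ((X q₀).carrier \ ⋃ y ∈ Dec, O y) := by
    by_contra hcon
    have hcl : IsClosed ((X q₀).carrier \ ⋃ y ∈ Dec, O y) :=
      (X q₀).isClosed.sdiff (isOpen_biUnion fun y _ => hOo y)
    obtain ⟨Y, hYs, hY⟩ := exists_minFat hcl hcon
    have hsub : Y ⊆ (X q₀).carrier := hYs.trans sdiff_subset
    obtain ⟨r, hr, hrd⟩ := exists_name hY.1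
    obtain ⟨n', hn'⟩ : ∃ n', n = n' + 1 := ⟨n - 1, by omega⟩
    have hYsol : ¬ CovDimLT Y n ∧ ∀ C : Set Q, IsClosed C → C ⊆ Y → CovDimLT C (n - 1) →
        IsPreconnected (Y \ C) := by
      subst hn'
      exact hY.solution
    obtain ⟨q', hq', hv⟩ := hsol q₀ Y hY.1 hsub hYsol.1 hYsol.2 r hr
    have h0 : q' e = 0 := val_nu_neg hv he₀
    obtain ⟨l, hl⟩ := (hq' e 0).2 h0.symm
    have hne : Y.Nonempty := by
      by_contra h
      rw [not_nonempty_iff_eq_empty] at h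
      exact hY.2.1 (h ▸ thin_empty n k)
    obtain ⟨x, hx⟩ := hne
    apply (hYs hx).2
    refine mem_biUnion (show (r, l) ∈ Dec from hl) ?_
    rw [hOmem]
    intro i _ e' hi hxe
    exact Set.disjoint_left.1 (hrd i e' hi) hxe hx
  -- finitely many decisions suffice
  obtain ⟨W, hW, hXW, hWthin⟩ := hthin.nhd
  have hcomp : IsCompact ((X q₀).carrier \ W) := ((X q₀).isClosed.sdiff hW).isCompact
  obtain ⟨t, htD, htf, ht⟩ := hcomp.elim_finite_subcover_image (b := Dec) (c := O)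
    (fun y _ => hOo y) (by
      intro x hx
      by_contra hcon
      exact hx.2 (hXW ⟨hx.1, hcon⟩))
  have hXsub : (X q₀).carrier ⊆ W ∪ ⋃ y ∈ t, O y := by
    intro x hx
    by_cases hxW : x ∈ W
    · exact Or.inl hxW
    · exact Or.inr (ht ⟨hx, hxW⟩)
  obtain ⟨m₂, hm₂⟩ := hnear q₀ (W ∪ ⋃ y ∈ t, O y)
    (hW.union (isOpen_biUnion fun y _ => hOo y)) hXsub
  obtain ⟨m₃, hm₃⟩ : ∃ m₃, ∀ y ∈ t, y.2 ≤ m₃ := by
    refine ⟨htf.toFinset.sup fun y => y.2, fun y hy => ?_⟩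
    exact Finset.le_sup (f := fun y : (ℕ → ℕ) × ℕ => y.2) (htf.mem_toFinset.2 hy)
  set m : ℕ := max m₁ (max m₂ m₃) with hm
  set q₂ : ℕ → ℕ := fun i => if i < m then q₀ i else e + 1 with hq₂
  have hq₂pre : pre q₂ m = pre q₀ m := by
    rw [pre_eq_iff]
    intro i hi
    simp only [hq₂, if_pos hi]
  have hfat₂ : ¬ Thin n k (X q₂).carrier :=
    hfat' q₂ ((pre_le hq₂pre (le_max_left _ _)).trans hq₀pre)
  have hX₂ : (X q₂).carrier ⊆ W ∪ ⋃ y ∈ t, O y :=
    hm₂ q₂ (pre_le hq₂pre ((le_max_left _ _).trans (le_max_right _ _)))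
  obtain ⟨Y, hYX, hY⟩ := exists_minFat (X q₂).isClosed hfat₂
  obtain ⟨y, hyt, hyY⟩ : ∃ y ∈ t, (O y ∩ Y).Nonempty := by
    by_contra hcon
    push Not at hcon
    apply hY.2.1
    apply hWthin
    intro x hx
    rcases hX₂ (hYX hx) with h | h
    · exact h
    · exfalso
      obtain ⟨y, hy, hxy⟩ := mem_iUnion₂.1 h
      have : x ∈ O y ∩ Y := ⟨hxy, hx⟩
      rw [hcon y hy] at this
      exact this
  obtain ⟨D, hDc, hDO, hDY, hDd⟩ := hY.large (hOo y) hyY
  obtain ⟨Y', hY'D, hY'c, hY'X, hY'd, hY's⟩ := exists_solution hn hDc (hDY.trans hYX) hDd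
  obtain ⟨r', hr', hr'p⟩ := exists_name_prefix hY'c y.1 y.2 (by
    intro i hi e' hie
    rw [Set.disjoint_left]
    intro x hx hxY
    exact (hOmem y x).1 (hDO (hY'D hxY)) i hi e' hie (subset_closure hx))
  obtain ⟨q', hq', hv⟩ := hsol q₂ Y' hY'c hY'X hY'd hY's r' hr'
  have h1 : q' e = 1 := val_nu_pos hv ⟨m, by simp only [hq₂, lt_irrefl, if_false]⟩
  have h2 : H (pre (join (nu q₀) y.1) y.2, e, 0) := htD hyt
  have h3 : pre (join (nu q₂) r') y.2 = pre (join (nu q₀) y.1) y.2 :=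
    pre_join (nu_pre (pre_le hq₂pre ((hm₃ y hyt).trans
      ((le_max_right _ _).trans (le_max_right _ _))))) hr'p
  rw [← h3] at h2
  have h4 := (hq' e 0).1 ⟨_, h2⟩
  omega

end Pool.Agent.CMTW
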