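import Mathlib

set_option autoImplicit false

/-!
# A small `fun_prop` toolbox for primitive recursiveness
-/

attribute [fun_prop] Primrec PrimrecPred
attribute [fun_prop] Primrec.id Primrec.const Primrec.comp Primrec.fst Primrec.snd Primrec.pair

namespace Pool.Agent.CMTW.Prim

variable {α β γ δ : Type} [Primcodable α] [Primcodable β] [Primcodable γ] [Primcodable δ]

@[fun_prop] theorem fst' {f : α → β × γ} (hf : Primrec f) : Primrec fun a => (f a).1 :=
  Primrec.fst.comp hf
@[fun_prop] theorem snd' {f : α → β × γ} (hf : Primrec f) : Primrec fun a => (f a).2 :=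
  Primrec.snd.comp hf
@[fun_prop] theorem add' {f g : α → ℕ} (hf : Primrec f) (hg : Primrec g) :
    Primrec fun a => f a + g a := Primrec.nat_add.comp hf hg
@[fun_prop] theorem sub' {f g : α → ℕ} (hf : Primrec f) (hg : Primrec g) :
    Primrec fun a => f a - g a := Primrec.nat_sub.comp hf hg
@[fun_prop] theorem mul' {f g : α → ℕ} (hf : Primrec f) (hg : Primrec g) :
    Primrec fun a => f a * g a := Primrec.nat_mul.comp hf hg
@[fun_prop] theorem div' {f g : α → ℕ} (hf : Primrec f) (hg : Primrec g) :
    Primrec fun a => f a / g a := Primrec.nat_div.comp hf hg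
@[fun_prop] theorem mod' {f g : α → ℕ} (hf : Primrec f) (hg : Primrec g) :
    Primrec fun a => f a % g a := Primrec.nat_mod.comp hf hg
@[fun_prop] theorem succ' {f : α → ℕ} (hf : Primrec f) : Primrec fun a => Nat.succ (f a) :=
  Primrec.succ.comp hf
@[fun_prop] theorem max' {f g : α → ℕ} (hf : Primrec f) (hg : Primrec g) :
    Primrec fun a => max (f a) (g a) := Primrec.nat_max.comp hf hg
@[fun_prop] theorem min' {f g : α → ℕ} (hf : Primrec f) (hg : Primrec g) :
    Primrec fun a => min (f a) (g a) := Primrec.nat_min.comp hf hg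
@[fun_prop] theorem pow' {f g : α → ℕ} (hf : Primrec f) (hg : Primrec g) :
    Primrec fun a => f a ^ g a := by
  have h : Primrec₂ ((· ^ ·) : ℕ → ℕ → ℕ) := Primrec₂.unpaired'.1 Nat.Primrec.pow
  exact h.comp hf hg
@[fun_prop] theorem natPair' {f g : α → ℕ} (hf : Primrec f) (hg : Primrec g) :
    Primrec fun a => Nat.pair (f a) (g a) := Primrec₂.natPair.comp hf hg
@[fun_prop] theorem unpair' {f : α → ℕ} (hf : Primrec f) :
    Primrec fun a => Nat.unpair (f a) := Primrec.unpair.comp hf
@[fun_prop] theorem encode' {f : α → β} (hf : Primrec f) :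
    Primrec fun a => Encodable.encode (f a) := Primrec.encode.comp hf
@[fun_prop] theorem decode' {f : α → ℕ} (hf : Primrec f) :
    Primrec fun a => (Encodable.decode (f a) : Option β) := Primrec.decode.comp hf
@[fun_prop] theorem ofNat' {σ : Type} [Denumerable σ] {f : α → ℕ} (hf : Primrec f) :
    Primrec fun a => Denumerable.ofNat σ (f a) := (Primrec.ofNat σ).comp hf
@[fun_prop] theorem some' {f : α → β} (hf : Primrec f) : Primrec fun a => some (f a) :=
  Primrec.option_some.comp hf
@[fun_prop] theorem getD' {f : α → Option β} {g : α → β} (hf : Primrec f) (hg : Primrec g) :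
    Primrec fun a => (f a).getD (g a) := Primrec.option_getD.comp hf hg
@[fun_prop] theorem isSome' {f : α → Option β} (hf : Primrec f) :
    Primrec fun a => (f a).isSome := Primrec.option_isSome.comp hf
@[fun_prop] theorem length' {f : α → List β} (hf : Primrec f) :
    Primrec fun a => (f a).length := Primrec.list_length.comp hf
@[fun_prop] theorem append' {f g : α → List β} (hf : Primrec f) (hg : Primrec g) :
    Primrec fun a => f a ++ g a := Primrec.list_append.comp hf hg
@[fun_prop] theorem cons' {f : α → β} {g : α → List β} (hf : Primrec f) (hg : Primrec g) :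
    Primrec fun a => f a :: g a := Primrec.list_cons.comp hf hg
@[fun_prop] theorem getElem?' {f : α → List β} {g : α → ℕ} (hf : Primrec f) (hg : Primrec g) :
    Primrec fun a => (f a)[g a]? := Primrec.list_getElem?.comp hf hg
@[fun_prop] theorem listGetD' {f : α → List β} {g : α → ℕ} (hf : Primrec f) (hg : Primrec g)
    (d : β) : Primrec fun a => (f a).getD (g a) d := (Primrec.list_getD d).comp hf hg
@[fun_prop] theorem take' {f : α → List β} {g : α → ℕ} (hf : Primrec f) (hg : Primrec g) :
    Primrec fun a => (f a).take (g a) := Primrec.list_take.comp hg hf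
@[fun_prop] theorem drop' {f : α → List β} {g : α → ℕ} (hf : Primrec f) (hg : Primrec g) :
    Primrec fun a => (f a).drop (g a) := Primrec.list_drop.comp hg hf
@[fun_prop] theorem range' {f : α → ℕ} (hf : Primrec f) :
    Primrec fun a => List.range (f a) := Primrec.list_range.comp hf
@[fun_prop] theorem bool_fun' {f : α → Bool} (g : Bool → β) (hf : Primrec f) :
    Primrec fun a => g (f a) := (Primrec.dom_bool g).comp hf

theorem map' {f : α → List β} {g : α → β → γ} (hg : Primrec fun x : α × β => g x.1 x.2)
    (hf : Primrec f) : Primrec fun a => (f a).map (g a) := Primrec.list_map hf hg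
theorem flatMap' {f : α → List β} {g : α → β → List γ}
    (hg : Primrec fun x : α × β => g x.1 x.2)
    (hf : Primrec f) : Primrec fun a => (f a).flatMap (g a) := Primrec.list_flatMap hf hg
theorem filter' {f : α → List β} {p : β → Prop} [DecidablePred p]
    (hp : PrimrecPred p) (hf : Primrec f) : Primrec fun a => (f a).filter (fun b => p b) :=
  (Primrec.listFilter hp).comp hf
theorem filterMap' {f : α → List β} {g : α → β → Option γ}
    (hg : Primrec fun x : α × β => g x.1 x.2)
    (hf : Primrec f) : Primrec fun a => (f a).filterMap (g a) :=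
  Primrec.listFilterMap hf hg

theorem rec' {f : α → ℕ} {g : α → β} {h : α → ℕ → β → β} (hf : Primrec f) (hg : Primrec g)
    (hh : Primrec fun x : α × ℕ × β => h x.1 x.2.1 x.2.2) :
    Primrec fun a => (Nat.rec (g a) (h a) (f a) : β) :=
  (Primrec.nat_rec' (h := fun a x => h a x.1 x.2) hf hg hh)

@[fun_prop] theorem and' {p q : α → Prop} (hp : PrimrecPred p) (hq : PrimrecPred q) :
    PrimrecPred fun a => p a ∧ q a := hp.and hq
@[fun_prop] theorem or' {p q : α → Prop} (hp : PrimrecPred p) (hq : PrimrecPred q) :
    PrimrecPred fun a => p a ∨ q a := hp.or hq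
@[fun_prop] theorem not' {p : α → Prop} (hp : PrimrecPred p)  : PrimrecPred fun a => ¬ p a := hp.not
@[fun_prop] theorem le' {f g : α → ℕ} (hf : Primrec f) (hg : Primrec g) :
    PrimrecPred fun a => f a ≤ g a := Primrec.nat_le.comp hf hg
@[fun_prop] theorem lt' {f g : α → ℕ} (hf : Primrec f) (hg : Primrec g) :
    PrimrecPred fun a => f a < g a := Primrec.nat_lt.comp hf hg
@[fun_prop] theorem eq' {f g : α → β} (hf : Primrec f) (hg : Primrec g) :
    PrimrecPred fun a => f a = g a := Primrec.eq.comp hf hg

theorem imp' {p q : α → Prop} (hp : PrimrecPred p) (hq : PrimrecPred q) :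
    PrimrecPred fun a => p a → q a :=
  (hp.not.or hq).of_eq fun a => by
    constructor
    · rintro (h | h) h'
      · exact absurd h' h
      · exact h
    · intro h
      by_cases h' : p a
      · exact Or.inr (h h')
      · exact Or.inl h'

theorem of_bool {f : α → Bool} (hf : Primrec f) : PrimrecPred fun a => f a = true :=
  eq' hf (Primrec.const true)

theorem pcomp {p : β → Prop} {f : α → β} (hp : PrimrecPred p) (hf : Primrec f) :
    PrimrecPred fun a => p (f a) := hp.comp hf

theorem ite' {p : α → Prop} [DecidablePred p] {f g : α → β} (hp : PrimrecPred p) (hf : Primrec f)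
    (hg : Primrec g) : Primrec fun a => if p a then f a else g a := Primrec.ite hp hf hg

theorem ex_mem {P : α → β → Prop} {L : α → List β} (hP : PrimrecPred fun x : α × β => P x.1 x.2)
    (hL : Primrec L) : PrimrecPred fun a => ∃ b ∈ L a, P a b := by
  have h := PrimrecRel.exists_mem_list (R := fun (b : β) (a : α) => P a b)
    (hP.comp (Primrec.snd.pair Primrec.fst))
  exact h.comp hL Primrec.id

theorem all_mem {P : α → β → Prop} {L : α → List β} (hP : PrimrecPred fun x : α × β => P x.1 x.2)
    (hL : Primrec L) : PrimrecPred fun a => ∀ b ∈ L a, P a b := by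
  have h := PrimrecRel.forall_mem_list (R := fun (b : β) (a : α) => P a b)
    (hP.comp (Primrec.snd.pair Primrec.fst))
  exact h.comp hL Primrec.id

theorem ex_lt {P : α → ℕ → Prop} {f : α → ℕ} (hP : PrimrecPred fun x : α × ℕ => P x.1 x.2)
    (hf : Primrec f) : PrimrecPred fun a => ∃ i < f a, P a i := by
  have h : PrimrecPred fun a => ∃ i ∈ List.range (f a), P a i := ex_mem hP (range' hf)
  exact h.of_eq fun a => by simp

theorem all_lt {P : α → ℕ → Prop} {f : α → ℕ} (hP : PrimrecPred fun x : α × ℕ => P x.1 x.2)
    (hf : Primrec f) : PrimrecPred fun a => ∀ i < f a, P a i := by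
  have h : PrimrecPred fun a => ∀ i ∈ List.range (f a), P a i := all_mem hP (range' hf)
  exact h.of_eq fun a => by simp

theorem mem' {f : α → β} {L : α → List β} (hf : Primrec f) (hL : Primrec L) :
    PrimrecPred fun a => f a ∈ L a := by
  have h : PrimrecPred fun a => ∃ b ∈ L a, f a = b := ex_mem (by fun_prop) hL
  exact h.of_eq fun a => by simp

/-- A projection of a primitive recursive predicate is r.e. -/
theorem re_exists_nat {P : α → ℕ → Prop} (hP : PrimrecPred fun x : α × ℕ => P x.1 x.2) :
    REPred fun a => ∃ n, P a n := by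
  classical
  have h1 : Computable₂ fun (a : α) (n : ℕ) => decide (P a n) := by
    have := hP.decide
    exact this.to_comp
  have h2 : Partrec fun a : α => Nat.rfind ((fun n => (decide (P a n) : Bool)) : ℕ →. Bool) :=
    Partrec.rfind h1.partrec₂
  refine (Partrec.dom_re h2).of_eq fun a => ?_
  refine Iff.trans Nat.rfind_dom ?_
  constructor
  · rintro ⟨n, hn, -⟩
    refine ⟨n, ?_⟩
    simpa using hn
  · rintro ⟨n, hn⟩
    refine ⟨n, ?_, ?_⟩
    · simpa using hn
    · intro m hm
      exact trivial

theorem re_exists {P : α → β → Prop} (hP : PrimrecPred fun x : α × β => P x.1 x.2) :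
    REPred fun a => ∃ b, P a b := by
  classical
  have h : PrimrecPred fun x : α × ℕ => ∃ b ∈ (Encodable.decode (α := β) x.2).toList,
      P x.1 b := by
    apply ex_mem (α := α × ℕ) (β := β) (P := fun x b => P x.1 b)
    · exact hP.comp (f := fun x : (α × ℕ) × β => (x.1.1, x.2)) (by fun_prop)
    · exact Primrec.optionToList.comp (by fun_prop)
  refine (re_exists_nat (P := fun a n => ∃ b ∈ (Encodable.decode (α := β) n).toList, P a b)
    h).of_eq fun a => ?_
  constructor
  · rintro ⟨n, b, -, hb⟩
    exact ⟨b, hb⟩
  · rintro ⟨b, hb⟩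
    exact ⟨Encodable.encode b, b, by simp, hb⟩

end Pool.Agent.CMTW.Prim
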