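import Pool.Agent.Lib_fca3ff.Greedy

set_option autoImplicit false

/-!
# The removal of too many boxes is semidecidable
-/

namespace Pool.Agent.CMTW

open Prim Set

variable {α : Type} [Primcodable α]

/-- the class `lam` of cells of level `N` touches the lattice point `w` -/
def touch (N : ℕ) (w : List ℕ) (lam : List (List ℕ)) : Prop :=
  ∃ c ∈ lam, ∀ j ∈ List.range N, c.getD j 0 ≤ w.getD j 0 ∧ w.getD j 0 ≤ c.getD j 0 + 1

/-- the cells of level `N` which are not in the boxes of `σ` are in classes which are small at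
scale `k` and of order at most `n` -/
def RefL (n k : ℕ) (σ : List ℕ) (N : ℕ) (Lam : List (List (List ℕ))) : Prop :=
  k ≤ N ∧
  (∀ c ∈ cells N, (∃ v ∈ σ, 0 < v ∧ inBox c (v - 1)) ∨ ∃ lam ∈ Lam, c ∈ lam) ∧
  (∀ lam ∈ Lam, ∀ c ∈ lam, ∀ c' ∈ lam, ∀ j ∈ List.range k,
    (c.getD j 0 + 2) * 2 ^ k ≤ 2 ^ N + c'.getD j 0 * 2 ^ k) ∧
  (∀ w ∈ lists (2 ^ N + 1) N, ∃ J ∈ lists (Lam.length + 1) n, ∀ i ∈ List.range Lam.length,
    touch N w (Lam.getD i []) → i ∈ J)

/-- the semidecidable form of thinness -/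
def Ref (n k : ℕ) (σ : List ℕ) : Prop := ∃ y : ℕ × List (List (List ℕ)), RefL n k σ y.1 y.2

theorem primrec_RefL (n : ℕ) {f : α → List ℕ} {g h : α → ℕ} {L : α → List (List (List ℕ))}
    (hf : Primrec f) (hg : Primrec g) (hh : Primrec h) (hL : Primrec L) :
    PrimrecPred fun a => RefL n (g a) (f a) (h a) (L a) := by
  unfold RefL
  apply and' (by fun_prop)
  apply and'
  · apply all_mem (P := fun a (c : List ℕ) => (∃ v ∈ f a, 0 < v ∧ inBox c (v - 1)) ∨
      ∃ lam ∈ L a, c ∈ lam) _ (by fun_prop)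
    apply or'
    · apply ex_mem (P := fun (x : α × List ℕ) (v : ℕ) => 0 < v ∧ inBox x.2 (v - 1)) _ (by fun_prop)
      apply and' (by fun_prop)
      exact primrec_inBox (by fun_prop) (by fun_prop)
    · apply ex_mem (P := fun (x : α × List ℕ) (lam : List (List ℕ)) => x.2 ∈ lam) _ (by fun_prop)
      exact mem' (by fun_prop) (by fun_prop)
  apply and'
  · apply all_mem (P := fun a (lam : List (List ℕ)) => ∀ c ∈ lam, ∀ c' ∈ lam,
      ∀ j ∈ List.range (g a), (c.getD j 0 + 2) * 2 ^ g a ≤ 2 ^ h a + c'.getD j 0 * 2 ^ g a) _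
      (by fun_prop)
    apply all_mem (P := fun (x : α × List (List ℕ)) (c : List ℕ) => ∀ c' ∈ x.2,
      ∀ j ∈ List.range (g x.1), (c.getD j 0 + 2) * 2 ^ g x.1 ≤
        2 ^ h x.1 + c'.getD j 0 * 2 ^ g x.1) _ (by fun_prop)
    apply all_mem (P := fun (x : (α × List (List ℕ)) × List ℕ) (c' : List ℕ) =>
      ∀ j ∈ List.range (g x.1.1), (x.2.getD j 0 + 2) * 2 ^ g x.1.1 ≤
        2 ^ h x.1.1 + c'.getD j 0 * 2 ^ g x.1.1) _ (by fun_prop)
    apply all_mem (P := fun (x : ((α × List (List ℕ)) × List ℕ) × List ℕ) (j : ℕ) =>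
      (x.1.2.getD j 0 + 2) * 2 ^ g x.1.1.1 ≤
        2 ^ h x.1.1.1 + x.2.getD j 0 * 2 ^ g x.1.1.1) _ (by fun_prop)
    fun_prop
  · apply all_mem (P := fun a (w : List ℕ) => ∃ J ∈ lists ((L a).length + 1) n,
      ∀ i ∈ List.range (L a).length, touch (h a) w ((L a).getD i []) → i ∈ J) _
      (primrec_lists (by fun_prop) (by fun_prop))
    apply ex_mem (P := fun (x : α × List ℕ) (J : List ℕ) =>
      ∀ i ∈ List.range (L x.1).length, touch (h x.1) x.2 ((L x.1).getD i []) → i ∈ J) _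
      (primrec_lists (by fun_prop) (by fun_prop))
    apply all_mem (P := fun (x : (α × List ℕ) × List ℕ) (i : ℕ) =>
      touch (h x.1.1) x.1.2 ((L x.1.1).getD i []) → i ∈ x.2) _ (by fun_prop)
    apply imp'
    · unfold touch
      apply ex_mem (P := fun (x : ((α × List ℕ) × List ℕ) × ℕ) (c : List ℕ) =>
        ∀ j ∈ List.range (h x.1.1.1), c.getD j 0 ≤ x.1.1.2.getD j 0 ∧
          x.1.1.2.getD j 0 ≤ c.getD j 0 + 1) _ (by fun_prop)
      apply all_mem (P := fun (x : (((α × List ℕ) × List ℕ) × ℕ) × List ℕ) (j : ℕ) =>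
        x.2.getD j 0 ≤ x.1.1.1.2.getD j 0 ∧ x.1.1.1.2.getD j 0 ≤ x.2.getD j 0 + 1) _ (by fun_prop)
      fun_prop
    · exact mem' (by fun_prop) (by fun_prop)

theorem sig1_Ref (n : ℕ) {f : α → List ℕ} {g : α → ℕ} (hf : Primrec f) (hg : Primrec g) :
    Sig1 fun a => Ref n (g a) (f a) := by
  unfold Ref
  apply Sig1.ex (P := fun a (y : ℕ × List (List (List ℕ))) => RefL n (g a) (f a) y.1 y.2)
  apply Sig1.of_prim
  exact primrec_RefL n (by fun_prop) (by fun_prop) (by fun_prop) (by fun_prop)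

/-- the enlarged cell -/
def ecell (N : ℕ) (c : List ℕ) : Set Q := {x | ∀ j < N,
  (c.getD j 0 : ℝ) - 1 / 4 < 2 ^ N * x j ∧ 2 ^ N * (x j : ℝ) < c.getD j 0 + 5 / 4}

theorem isOpen_ecell (N : ℕ) (c : List ℕ) : IsOpen (ecell N c) := by
  have : ecell N c = ⋂ j ∈ Finset.range N, {x : Q | (c.getD j 0 : ℝ) - 1 / 4 < 2 ^ N * x j ∧
      2 ^ N * (x j : ℝ) < c.getD j 0 + 5 / 4} := by
    ext x; simp [ecell]
  rw [this]
  apply isOpen_biInter_finset
  intro j _
  have hc : Continuous fun x : Q => (2 : ℝ) ^ N * x j :=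
    continuous_const.mul (continuous_subtype_val.comp (continuous_apply _))
  exact (isOpen_lt continuous_const hc).inter (isOpen_lt hc continuous_const)

theorem thin_of_RefL {n k : ℕ} {σ : List ℕ} {N : ℕ} {Lam : List (List (List ℕ))} {Y : Set Q}
    (h : RefL n k σ N Lam) (hY : ∀ x ∈ Y, ∀ e, e + 1 ∈ σ → x ∉ boxQ e) : Thin n k Y := by
  obtain ⟨hkN, hcov, hsm, hord⟩ := h
  have hp := two_pow_pos' N
  have hpk := two_pow_pos' k
  refine ⟨Fin Lam.length, inferInstance, fun i => ⋃ (c : List ℕ) (_ : c ∈ Lam[i]), ecell N c,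
    fun i => isOpen_iUnion fun c => isOpen_iUnion fun _ => isOpen_ecell _ _, ?_, ?_, ?_⟩
  · intro x hx
    obtain ⟨c, hc, hxc⟩ := exists_cell N x
    rcases hcov c hc with ⟨v, hv, hv0, hvc⟩ | ⟨lam, hlam, hcl⟩
    · exfalso
      exact hY x hx (v - 1) (by rwa [Nat.sub_add_cancel hv0]) (cell_subset_of_inBox hvc hxc)
    · obtain ⟨i, hi, hil⟩ := List.getElem_of_mem hlam
      refine mem_iUnion.2 ⟨⟨i, hi⟩, mem_iUnion.2 ⟨c, mem_iUnion.2 ⟨?_, ?_⟩⟩⟩
      · show c ∈ Lam[i]
        rw [hil]; exact hcl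
      · intro j hj
        have h1 := mem_cell.1 hxc j (by rw [(mem_cells.1 hc).1]; exact hj)
        rw [(mem_cells.1 hc).1] at h1
        constructor <;> linarith [h1.1, h1.2]
  · intro i x hx y hy j hj
    simp only [mem_iUnion] at hx hy
    obtain ⟨c, hc, hxc⟩ := hx
    obtain ⟨c', hc', hyc⟩ := hy
    have hm : Lam[i] ∈ Lam := List.getElem_mem _
    have h1 := hsm _ hm c hc c' hc' j (List.mem_range.2 hj)
    have h2 := hsm _ hm c' hc' c hc j (List.mem_range.2 hj)
    have h1' : ((c.getD j 0 : ℝ) + 2) * 2 ^ k ≤ 2 ^ N + c'.getD j 0 * 2 ^ k := by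
      exact_mod_cast h1
    have h2' : ((c'.getD j 0 : ℝ) + 2) * 2 ^ k ≤ 2 ^ N + c.getD j 0 * 2 ^ k := by
      exact_mod_cast h2
    obtain ⟨h3, h4⟩ := hxc j (by omega)
    obtain ⟨h5, h6⟩ := hyc j (by omega)
    have h7 : ((x j : ℝ) - y j) * 2 ^ k * 2 ^ N < 1 * 2 ^ N := by
      have : 2 ^ N * ((x j : ℝ) - y j) < c.getD j 0 - c'.getD j 0 + 3 / 2 := by linarith
      have := mul_lt_mul_of_pos_right this hpk
      nlinarith
    have h8 : ((y j : ℝ) - x j) * 2 ^ k * 2 ^ N < 1 * 2 ^ N := by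
      have : 2 ^ N * ((y j : ℝ) - x j) < c'.getD j 0 - c.getD j 0 + 3 / 2 := by linarith
      have := mul_lt_mul_of_pos_right this hpk
      nlinarith
    have h9 := lt_of_mul_lt_mul_right h7 hp.le
    have h10 := lt_of_mul_lt_mul_right h8 hp.le
    rcases abs_cases ((x j : ℝ) - y j) with ⟨h, -⟩ | ⟨h, -⟩ <;> rw [h] <;> linarith
  · intro x
    set w : List ℕ := pre (fun j => ⌊(2 : ℝ) ^ N * x j + 1 / 2⌋₊) N with hw
    have hx0 : ∀ j, (0 : ℝ) ≤ 2 ^ N * x j := fun j => mul_nonneg hp.le (x j).2.1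
    have hwm : w ∈ lists (2 ^ N + 1) N := by
      rw [mem_lists]
      refine ⟨pre_length _ _, fun d hd => ?_⟩
      obtain ⟨j, -, rfl⟩ := mem_pre.1 hd
      rw [Nat.floor_lt (by linarith [hx0 j])]
      push_cast
      have := (x j).2.2
      nlinarith
    obtain ⟨J, hJ, hJt⟩ := hord w hwm
    have hJl := (mem_lists.1 hJ).1
    have h1 : {i : Fin Lam.length | x ∈ ⋃ (c : List ℕ) (_ : c ∈ Lam[i]), ecell N c}.encard ≤
        {i : ℕ | i ∈ J}.encard := by
      apply encard_le_encard_of_injOn (f := fun i : Fin Lam.length => (i : ℕ))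
      · intro i hi
        have hi' : x ∈ ⋃ (c : List ℕ) (_ : c ∈ Lam[i]), ecell N c := hi
        simp only [mem_iUnion] at hi'
        obtain ⟨c, hc, hxc⟩ := hi'
        apply hJt i (List.mem_range.2 i.2)
        refine ⟨c, ?_, fun j hj => ?_⟩
        · rw [List.getD_eq_getElem _ _ i.2]; exact hc
        · rw [List.mem_range] at hj
          obtain ⟨h2, h3⟩ := hxc j hj
          rw [hw, pre_getD _ _ _ _ hj]
          constructor
          · rw [Nat.le_floor_iff (by linarith [hx0 j])]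
            linarith
          · rw [← Nat.lt_succ_iff, Nat.floor_lt (by linarith [hx0 j])]
            push_cast
            linarith
      · intro i _ j _ h; exact Fin.ext h
    refine h1.trans ?_
    have h2 : {i : ℕ | i ∈ J} = (J.toFinset : Set ℕ) := by ext i; simp
    rw [h2, encard_coe_eq_coe_finsetCard, ← hJl]
    exact_mod_cast J.toFinset_card_le

/-- a finite part of a name suffices -/
theorem prefix_cover {p : ℕ → ℕ} {X : Set Q}
    (hp : Xᶜ = ⋃ (i : ℕ) (e : ℕ) (_ : p i = e + 1), boxQ e) (F : List ℕ) {W : Set Q}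
    (hW : IsOpen W) (hXW : Zs X F ⊆ W) :
    ∃ m, ∀ x, x ∈ W ∨ ∃ e, e + 1 ∈ pre p m ++ F ∧ x ∈ boxQ e := by
  set V : ℕ → Set Q := fun m => ⋃ (e : ℕ) (_ : e + 1 ∈ pre p m ++ F), boxQ e with hV
  have hVo : ∀ m, IsOpen (V m) := fun m => isOpen_iUnion fun e => isOpen_iUnion fun _ =>
    isOpen_boxQ e
  have hVm : Monotone V := by
    intro m m' hmm x hx
    simp only [hV, mem_iUnion] at hx ⊢
    obtain ⟨e, he, hxe⟩ := hx
    refine ⟨e, ?_, hxe⟩
    rcases List.mem_append.1 he with he | he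
    · obtain ⟨i, hi, hie⟩ := mem_pre.1 he
      exact List.mem_append.2 (Or.inl (mem_pre.2 ⟨i, by omega, hie⟩))
    · exact List.mem_append.2 (Or.inr he)
  obtain ⟨m, hm⟩ := hW.isClosed_compl.isCompact.elim_directed_cover V hVo (by
    intro x hx
    have hx' : x ∉ Zs X F := fun h => hx (hXW h)
    by_cases hxX : x ∈ X
    · have : ∃ e, e + 1 ∈ F ∧ x ∈ boxQ e := by
        by_contra hcon
        push Not at hcon
        exact hx' ⟨hxX, hcon⟩
      obtain ⟨e, he, hxe⟩ := this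
      exact mem_iUnion.2 ⟨0, mem_iUnion.2 ⟨e, mem_iUnion.2 ⟨List.mem_append.2 (Or.inr he), hxe⟩⟩⟩
    · have h1 : x ∈ Xᶜ := hxX
      rw [hp] at h1
      simp only [mem_iUnion] at h1
      obtain ⟨i, e, hie, hxe⟩ := h1
      exact mem_iUnion.2 ⟨i + 1, mem_iUnion.2 ⟨e, mem_iUnion.2 ⟨List.mem_append.2 (Or.inl
        (mem_pre.2 ⟨i, by omega, hie⟩)), hxe⟩⟩⟩) (directed_of_isDirected_le hVm)
  refine ⟨m, fun x => ?_⟩
  by_cases hx : x ∈ W
  · exact Or.inl hx
  · right
    have := hm hx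
    simp only [hV, mem_iUnion, exists_prop] at this
    exact this

theorem ref_of_thin {n k : ℕ} {p : ℕ → ℕ} {X : Set Q}
    (hp : Xᶜ = ⋃ (i : ℕ) (e : ℕ) (_ : p i = e + 1), boxQ e) (F : List ℕ)
    (h : Thin n k (Zs X F)) : ∃ m, Ref n k (pre p m ++ F) := by
  classical
  obtain ⟨ι, hι, O', hO', hYO, hOs', hOn'⟩ := h
  obtain ⟨l, ⟨eqv⟩⟩ := Finite.exists_equiv_fin ι
  set O : Fin l → Set Q := fun i => O' (eqv.symm i) with hOdef
  have hO : ∀ i, IsOpen (O i) := fun i => hO' _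
  have hOs : ∀ i, Small k (O i) := fun i => hOs' _
  have hYO2 : Zs X F ⊆ ⋃ i, O i := by
    intro x hx
    obtain ⟨i, hi⟩ := mem_iUnion.1 (hYO hx)
    refine mem_iUnion.2 ⟨eqv i, ?_⟩
    simp only [hOdef, Equiv.symm_apply_apply]
    exact hi
  have hOn : ∀ x, (Finset.univ.filter fun i : Fin l => x ∈ O i).card ≤ n := by
    intro x
    have h1 : {i : Fin l | x ∈ O i}.encard ≤ n := by
      refine le_trans ?_ (hOn' x)
      apply encard_le_encard_of_injOn (f := fun i => eqv.symm i)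
      · intro i hi; exact hi
      · intro i _ j _ h; exact eqv.symm.injective h
    have h2 : {i : Fin l | x ∈ O i} = ((Finset.univ.filter fun i : Fin l => x ∈ O i) :
        Set (Fin l)) := by ext i; simp
    rw [h2, encard_coe_eq_coe_finsetCard] at h1
    exact_mod_cast h1
  obtain ⟨m, hm⟩ := prefix_cover hp F (isOpen_iUnion hO) hYO2
  refine ⟨m, ?_⟩
  set σ := pre p m ++ F with hσ
  obtain ⟨N₀, hN₀⟩ := lebesgue (K := univ) isClosed_univ
    (U := fun y : {e // e + 1 ∈ σ} ⊕ Fin l => y.elim (fun e => boxQ e.1) O) (by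
      rintro (e | i)
      · exact isOpen_boxQ _
      · exact hO i) (by
      intro x _
      rcases hm x with hx | ⟨e, he, hx⟩
      · obtain ⟨i, hi⟩ := mem_iUnion.1 hx
        exact mem_iUnion.2 ⟨Sum.inr i, hi⟩
      · exact mem_iUnion.2 ⟨Sum.inl ⟨e, he⟩, hx⟩)
  obtain ⟨M, hM⟩ : ∃ M, ∀ v ∈ σ, ∀ t ∈ Denumerable.ofNat (List (ℕ × ℕ × ℕ × ℕ)) (v - 1),
      t.1 < M := by
    have h1 : ∀ v, ∃ M, ∀ t ∈ Denumerable.ofNat (List (ℕ × ℕ × ℕ × ℕ)) (v - 1), t.1 < M := by
      intro v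
      refine ⟨((Denumerable.ofNat (List (ℕ × ℕ × ℕ × ℕ)) (v - 1)).map (·.1)).sum + 1, ?_⟩
      intro t ht
      exact Nat.lt_succ_of_le (List.le_sum_of_mem (List.mem_map.2 ⟨t, ht, rfl⟩))
    choose M hM using h1
    refine ⟨(σ.map M).sum, ?_⟩
    intro v hv t ht
    exact lt_of_lt_of_le (hM v t ht) (List.le_sum_of_mem (List.mem_map.2 ⟨v, hv, rfl⟩))
  set N := max (max N₀ k) M with hN
  set lam : Fin l → List (List ℕ) := fun i => (cells N).filter fun c => decide (cell c ⊆ O i)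
    with hlam
  have hlamm : ∀ i c, c ∈ lam i ↔ c ∈ cells N ∧ cell c ⊆ O i := by
    intro i c
    simp [hlam, List.mem_filter]
  set Lam : List (List (List ℕ)) := (List.finRange l).map lam with hLam
  have hLl : Lam.length = l := by simp [hLam]
  have hLmem : ∀ y, y ∈ Lam ↔ ∃ i, y = lam i := by
    intro y
    simp only [hLam, List.mem_map, List.mem_finRange, true_and]
    exact ⟨fun ⟨i, hi⟩ => ⟨i, hi.symm⟩, fun ⟨i, hi⟩ => ⟨i, hi.symm⟩⟩
  have hLget : ∀ i (hi : i < l), Lam.getD i [] = lam ⟨i, hi⟩ := by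
    intro i hi
    rw [List.getD_eq_getElem _ _ (by rw [hLl]; exact hi)]
    simp [hLam]
  refine ⟨(N, Lam), ?_, ?_, ?_, ?_⟩
  · exact le_trans (le_max_right _ _) (le_max_left _ _)
  · intro c hc
    obtain ⟨x, hx⟩ := cell_nonempty hc
    obtain ⟨y, hy⟩ := hN₀ x (mem_univ _)
    have hsub : cell c ⊆ (y.elim (fun e : {e // e + 1 ∈ σ} => boxQ e.1) O : Set Q) := by
      intro z hz
      exact hy z ((nearB_of_cell hc hx hz).mono (le_trans (le_max_left _ _) (le_max_left _ _)))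
    rcases y with ⟨e, he⟩ | i
    · left
      refine ⟨e + 1, he, by omega, ?_⟩
      apply inBox_of_subset hc hsub
      intro t ht
      exact lt_of_lt_of_le (hM _ he t ht) (le_max_right _ _)
    · right
      exact ⟨lam i, (hLmem _).2 ⟨i, rfl⟩, (hlamm i c).2 ⟨hc, hsub⟩⟩
  · intro y hy c hc c' hc' j hj
    obtain ⟨i, rfl⟩ := (hLmem y).1 hy
    obtain ⟨hc1, hc2⟩ := (hlamm i c).1 hc
    obtain ⟨hc1', hc2'⟩ := (hlamm i c').1 hc'
    rw [List.mem_range] at hj
    have hkN : k ≤ N := le_trans (le_max_right _ _) (le_max_left _ _)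
    have hjN : j < N := by omega
    have h1 := hc2 (corner_mem hc1 (f := fun i => c.getD i 0 + 1) fun i _ => ⟨by omega, le_rfl⟩)
    have h2 := hc2' (corner_mem hc1' (f := fun i => c'.getD i 0) fun i _ => ⟨le_rfl, by omega⟩)
    have h3 := hOs i _ h1 _ h2 j hj
    have h5 := getD_lt hc1 j
    have h5' := getD_lt hc1' j
    have h6 := corner_apply (f := fun i => c.getD i 0 + 1) hjN (by omega)
    have h7 := corner_apply (f := fun i => c'.getD i 0) hjN (by omega)
    have hp' := two_pow_pos' N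
    have hpk := two_pow_pos' k
    have h8 : ((c.getD j 0 : ℝ) + 1) * 2 ^ k < 2 ^ N + c'.getD j 0 * 2 ^ k := by
      have h9 := le_abs_self ((corner N (fun i => c.getD i 0 + 1) j : ℝ) -
        corner N (fun i => c'.getD i 0) j)
      have h10 : ((corner N (fun i => c.getD i 0 + 1) j : ℝ) -
        corner N (fun i => c'.getD i 0) j) * 2 ^ k < 1 := by nlinarith
      have h11 := mul_lt_mul_of_pos_left h10 hp'
      push_cast at h6
      have h12 : (2 : ℝ) ^ N * (((corner N (fun i => c.getD i 0 + 1) j : ℝ) -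
        corner N (fun i => c'.getD i 0) j) * 2 ^ k) =
        (2 ^ N * (corner N (fun i => c.getD i 0 + 1) j : ℝ) -
          2 ^ N * corner N (fun i => c'.getD i 0) j) * 2 ^ k := by ring
      rw [h12, h6, h7] at h11
      linarith
    have h13 : (c.getD j 0 + 1) * 2 ^ k < 2 ^ N + c'.getD j 0 * 2 ^ k := by exact_mod_cast h8
    obtain ⟨t, ht⟩ := Nat.exists_eq_add_of_le hkN
    rw [ht, pow_add] at h13 ⊢
    have h14 : (c.getD j 0 + 1) * 2 ^ k < (2 ^ t + c'.getD j 0) * 2 ^ k := by linarith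
    have h15 := Nat.lt_of_mul_lt_mul_right h14
    have h16 : (c.getD j 0 + 2) * 2 ^ k ≤ (2 ^ t + c'.getD j 0) * 2 ^ k :=
      Nat.mul_le_mul_right _ (by omega)
    linarith
  · intro w hw
    set xw : Q := corner N (fun j => w.getD j 0) with hxw
    have hwle : ∀ j, w.getD j 0 ≤ 2 ^ N := by
      intro j
      by_cases hj : j < w.length
      · rw [List.getD_eq_getElem _ _ hj]
        exact Nat.lt_succ_iff.1 ((mem_lists.1 hw).2 _ (List.getElem_mem hj))
      · rw [List.getD_eq_default _ _ (by omega)]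
        exact Nat.zero_le _
    set s : Finset (Fin l) := Finset.univ.filter fun i : Fin l => xw ∈ O i with hs
    have hsc : s.card ≤ n := hOn xw
    set J : List ℕ := s.toList.map (fun i : Fin l => (i : ℕ)) ++ List.replicate (n - s.card) 0
      with hJ
    refine ⟨J, ?_, ?_⟩
    · rw [mem_lists]
      refine ⟨?_, ?_⟩
      · simp [hJ]; omega
      · intro d hd
        rcases List.mem_append.1 hd with hd | hd
        · obtain ⟨i, -, rfl⟩ := List.mem_map.1 hd
          show (i : ℕ) < Lam.length + 1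
          rw [hLl]; omega
        · rw [(List.mem_replicate.1 hd).2]; omega
    · intro i hi ht
      rw [List.mem_range] at hi
      have hi' : i < l := by rw [← hLl]; exact hi
      obtain ⟨c, hc, hct⟩ := ht
      simp only at hc hct
      rw [hLget i hi'] at hc
      obtain ⟨hc1, hc2⟩ := (hlamm _ c).1 hc
      have h1 : xw ∈ O ⟨i, hi'⟩ := hc2 (corner_mem hc1 fun j hj => hct j (List.mem_range.2 hj))
      apply List.mem_append.2 (Or.inl _)
      exact List.mem_map.2 ⟨⟨i, hi'⟩, by simp [hs, h1], rfl⟩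

theorem ref_iff {n k : ℕ} {p : ℕ → ℕ} {X : Set Q}
    (hp : Xᶜ = ⋃ (i : ℕ) (e : ℕ) (_ : p i = e + 1), boxQ e) (F : List ℕ) :
    (∃ m, Ref n k (pre p m ++ F)) ↔ Thin n k (Zs X F) := by
  constructor
  · rintro ⟨m, ⟨N, Lam⟩, h⟩
    refine thin_of_RefL h ?_
    intro x hx e he hxe
    rcases List.mem_append.1 he with he | he
    · obtain ⟨i, -, hi⟩ := mem_pre.1 he
      have : x ∈ Xᶜ := by
        rw [hp]
        simp only [mem_iUnion]
        exact ⟨i, e, hi, hxe⟩
      exact this hx.1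
    · exact hx.2 e he hxe
  · exact ref_of_thin hp F

end Pool.Agent.CMTW
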