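import Pool.Agent.Lib_fca3ff.Topo
import Pool.Agent.Lib_fca3ff.Cube

set_option autoImplicit false

/-!
# The instances with tents

The coordinates `x i`, `i < n`, are cube coordinates; the coordinate `x (n + e)` is a tent over the
centres of the dyadic cubes of level `e`; the width of the tents is decided when `e` is enumerated,
otherwise the tents degenerate to vertical segments.
-/

namespace Pool.Agent.CMTW

open Set

/-- the distance to the nearest integer -/
noncomputable def dI (u : ℝ) : ℝ := |u - round u|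

theorem continuous_dI : Continuous dI := by
  have : dI = fun u : ℝ => ‖(u : UnitAddCircle)‖ := by
    funext u; rw [UnitAddCircle.norm_eq]; rfl
  rw [this]
  exact continuous_norm.comp (AddCircle.continuous_mk' 1)

theorem dI_nonneg (u : ℝ) : 0 ≤ dI u := abs_nonneg _

theorem dI_le (u : ℝ) : dI u ≤ 1 / 2 := abs_sub_round u

theorem dI_eq_min (u : ℝ) : dI u = min (Int.fract u) (1 - Int.fract u) := abs_sub_round_eq_min u

theorem fract_of_dI {u : ℝ} (h : dI u = 1 / 2) : Int.fract u = 1 / 2 := by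
  rw [dI_eq_min] at h
  rcases min_cases (Int.fract u) (1 - Int.fract u) with ⟨h1, -⟩ | ⟨h1, -⟩ <;> linarith

theorem dI_int (m : ℤ) : dI (m : ℝ) = 0 := by
  simp [dI]

theorem dI_disjoint {e e' : ℕ} (h : e < e') {v : ℝ} (hv : dI (2 ^ e * v) = 1 / 2) :
    dI (2 ^ e' * v) = 0 := by
  obtain ⟨t, rfl⟩ : ∃ t, e' = e + (t + 1) := ⟨e' - e - 1, by omega⟩
  have h1 := fract_of_dI hv
  have h2 := Int.floor_add_fract ((2 : ℝ) ^ e * v)
  have h3 : (2 : ℝ) ^ (e + (t + 1)) * v = ((2 ^ t * (2 * ⌊(2 : ℝ) ^ e * v⌋ + 1) : ℤ) : ℝ) := by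
    push_cast
    have h4 : (2 : ℝ) ^ (e + (t + 1)) * v = 2 ^ t * (2 * (2 ^ e * v)) := by
      rw [pow_add, pow_succ]; ring
    rw [h4]
    congr 1
    linarith
  rw [h3]
  exact dI_int _

/-- the distance to the centres of the cubes of level `e` -/
noncomputable def dC (n e : ℕ) (x : Q) : ℝ := ∑ i ∈ Finset.range n, (1 / 2 - dI (2 ^ e * x i))

theorem continuous_dC (n e : ℕ) : Continuous (dC n e) := by
  unfold dC
  refine continuous_finsetSum _ fun i _ => continuous_const.sub (continuous_dI.comp ?_)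
  exact continuous_const.mul (continuous_subtype_val.comp (continuous_apply _))

theorem dC_nonneg (n e : ℕ) (x : Q) : 0 ≤ dC n e x :=
  Finset.sum_nonneg fun i _ => by linarith [dI_le (2 ^ e * (x i : ℝ))]

theorem dC_eq_zero {n e : ℕ} {x : Q} : dC n e x = 0 ↔ ∀ i < n, dI (2 ^ e * x i) = 1 / 2 := by
  unfold dC
  rw [Finset.sum_eq_zero_iff_of_nonneg fun i _ => by linarith [dI_le (2 ^ e * (x i : ℝ))]]
  constructor
  · intro h i hi
    linarith [h i (Finset.mem_range.2 hi)]
  · intro h i hi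
    linarith [h i (Finset.mem_range.1 hi)]

theorem dC_congr {n e : ℕ} {x y : Q} (h : ∀ i < n, x i = y i) : dC n e x = dC n e y := by
  unfold dC
  refine Finset.sum_congr rfl fun i hi => ?_
  rw [h i (Finset.mem_range.1 hi)]

theorem dC_disjoint {n e e' : ℕ} (hn : 1 ≤ n) (h : e ≠ e') {x : Q} (hx : dC n e x = 0) :
    dC n e' x ≠ 0 := by
  intro hx'
  rw [dC_eq_zero] at hx hx'
  have h1 := hx 0 (by omega)
  have h2 := hx' 0 (by omega)
  rcases lt_or_gt_of_ne h with h | h
  · rw [dI_disjoint h h1] at h2; norm_num at h2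
  · rw [dI_disjoint h h2] at h1; norm_num at h1

/-- the tents -/
noncomputable def tau (n e s : ℕ) (x : Q) : ℝ := max 0 (1 - (s + 1) * dC n e x)

theorem continuous_tau (n e s : ℕ) : Continuous (tau n e s) :=
  continuous_const.max (continuous_const.sub (continuous_const.mul (continuous_dC n e)))

theorem tau_nonneg (n e s : ℕ) (x : Q) : 0 ≤ tau n e s x := le_max_left _ _

theorem tau_le_one (n e s : ℕ) (x : Q) : tau n e s x ≤ 1 := by
  have h1 := dC_nonneg n e x
  have h2 : (0 : ℝ) ≤ (s + 1) * dC n e x := by positivity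
  exact max_le zero_le_one (by linarith)

theorem tau_anti {n e s s' : ℕ} (h : s ≤ s') (x : Q) : tau n e s' x ≤ tau n e s x := by
  have h1 := dC_nonneg n e x
  have h2 : (s : ℝ) ≤ s' := by exact_mod_cast h
  apply max_le_max le_rfl
  nlinarith

theorem tau_eq_one {n e s : ℕ} {x : Q} : tau n e s x = 1 ↔ dC n e x = 0 := by
  unfold tau
  have h1 := dC_nonneg n e x
  constructor
  · intro h
    rcases max_cases (0 : ℝ) (1 - (s + 1) * dC n e x) with ⟨h2, -⟩ | ⟨h2, -⟩
    · rw [h2] at h; norm_num at h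
    · rw [h2] at h
      have h3 : ((s : ℝ) + 1) * dC n e x = 0 := by linarith
      rcases mul_eq_zero.1 h3 with h4 | h4
      · have : (0 : ℝ) ≤ s := Nat.cast_nonneg _
        linarith
      · exact h4
  · intro h
    rw [h, mul_zero, sub_zero]
    exact max_eq_right zero_le_one

theorem tau_congr {n e s : ℕ} {x y : Q} (h : ∀ i < n, x i = y i) : tau n e s x = tau n e s y := by
  unfold tau
  rw [dC_congr h]

theorem exists_tau_zero {n e : ℕ} {x : Q} (h : dC n e x ≠ 0) : ∃ s, tau n e s x = 0 := by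
  have h1 : 0 < dC n e x := lt_of_le_of_ne (dC_nonneg n e x) (Ne.symm h)
  obtain ⟨s, hs⟩ := exists_nat_gt (1 / dC n e x)
  refine ⟨s, ?_⟩
  rw [div_lt_iff₀ h1] at hs
  apply max_eq_left
  nlinarith

/-- the instance at stage `s` -/
def XS (n : ℕ) (p : ℕ → ℕ) (s : ℕ) : Set Q := {x | ∀ e,
  (∀ t < s, p t = e + 1 → (∀ t' < t, p t' ≠ e + 1) → (x (n + e) : ℝ) = tau n e t x) ∧
  ((∀ t < s, p t ≠ e + 1) → (x (n + e) : ℝ) ≤ tau n e s x)}

/-- the instance -/
def XI (n : ℕ) (p : ℕ → ℕ) : Set Q := ⋂ s, XS n p s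

theorem isClosed_XS (n : ℕ) (p : ℕ → ℕ) (s : ℕ) : IsClosed (XS n p s) := by
  have hc : ∀ j, Continuous fun x : Q => (x j : ℝ) := fun j =>
    continuous_subtype_val.comp (continuous_apply _)
  have : XS n p s = ⋂ e : ℕ, (⋂ (t : ℕ) (_ : t < s) (_ : p t = e + 1)
      (_ : ∀ t' < t, p t' ≠ e + 1), {x : Q | (x (n + e) : ℝ) = tau n e t x}) ∩
      ⋂ (_ : ∀ t < s, p t ≠ e + 1), {x : Q | (x (n + e) : ℝ) ≤ tau n e s x} := by
    ext x; simp [XS]
  rw [this]
  refine isClosed_iInter fun e => IsClosed.inter ?_ ?_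
  · exact isClosed_iInter fun t => isClosed_iInter fun _ => isClosed_iInter fun _ =>
      isClosed_iInter fun _ => isClosed_eq (hc _) (continuous_tau _ _ _)
  · exact isClosed_iInter fun _ => isClosed_le (hc _) (continuous_tau _ _ _)

theorem isClosed_XI (n : ℕ) (p : ℕ → ℕ) : IsClosed (XI n p) :=
  isClosed_iInter fun s => isClosed_XS n p s

theorem mem_XI {n : ℕ} {p : ℕ → ℕ} {x : Q} : x ∈ XI n p ↔ ∀ e,
    (∀ t, p t = e + 1 → (∀ t' < t, p t' ≠ e + 1) → (x (n + e) : ℝ) = tau n e t x) ∧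
    ((∀ t, p t ≠ e + 1) → ∀ s, (x (n + e) : ℝ) ≤ tau n e s x) := by
  classical
  constructor
  · intro h e
    refine ⟨fun t ht ht' => ?_, fun he s => ?_⟩
    · exact ((mem_iInter.1 h (t + 1)) e).1 t (by omega) ht ht'
    · exact ((mem_iInter.1 h s) e).2 fun t _ => he t
  · intro h
    refine mem_iInter.2 fun s e => ⟨fun t _ ht ht' => (h e).1 t ht ht', fun he => ?_⟩
    by_cases hA : ∃ t, p t = e + 1
    · have h1 := (h e).1 (Nat.find hA) (Nat.find_spec hA) fun t' ht' => Nat.find_min hA ht'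
      rw [h1]
      apply tau_anti
      by_contra hcon
      rw [not_le] at hcon
      exact he _ hcon (Nat.find_spec hA)
    · push Not at hA
      exact (h e).2 hA s

theorem XS_pre {n : ℕ} {p p' : ℕ → ℕ} {s : ℕ} (h : pre p' s = pre p s) : XS n p' s = XS n p s := by
  rw [pre_eq_iff] at h
  ext x
  unfold XS
  simp only [Set.mem_ofPred_eq]
  refine forall_congr' fun e => and_congr ?_ ?_
  · refine forall₂_congr fun t ht => ?_
    rw [h t ht]
    have : (∀ t' < t, p' t' ≠ e + 1) ↔ ∀ t' < t, p t' ≠ e + 1 :=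
      forall₂_congr fun t' ht' => by rw [h t' (by omega)]
    rw [this]
  · have : (∀ t < s, p' t ≠ e + 1) ↔ ∀ t < s, p t ≠ e + 1 :=
      forall₂_congr fun t ht => by rw [h t ht]
    rw [this]

/-- the name of the instance -/
noncomputable def nuX (n : ℕ) (p : ℕ → ℕ) : ℕ → ℕ := fun i =>
  open Classical in if Disjoint (boxQ i.unpair.2) (XS n p i.unpair.1) then i.unpair.2 + 1 else 0

theorem nuX_pre {n : ℕ} {p p' : ℕ → ℕ} {m : ℕ} (h : pre p' m = pre p m) :
    pre (nuX n p') m = pre (nuX n p) m := by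
  rw [pre_eq_iff]
  intro i hi
  have h1 : XS n p' i.unpair.1 = XS n p i.unpair.1 :=
    XS_pre (pre_le h ((Nat.unpair_left_le i).trans hi.le))
  unfold nuX
  rw [h1]

theorem name_nuX (n : ℕ) (p : ℕ → ℕ) :
    (XI n p)ᶜ = ⋃ (i : ℕ) (e : ℕ) (_ : nuX n p i = e + 1), boxQ e := by
  ext x
  simp only [mem_iUnion, exists_prop]
  constructor
  · intro hx
    have : ∃ s, x ∉ XS n p s := by
      by_contra hcon
      push Not at hcon
      exact hx (mem_iInter.2 hcon)
    obtain ⟨s, hs⟩ := this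
    obtain ⟨e, hxe, he⟩ := boxQ_base (XS n p s)ᶜ x (isClosed_XS n p s).isOpen_compl hs
    have hd : Disjoint (boxQ (Nat.unpair (Nat.pair s e)).2)
        (XS n p (Nat.unpair (Nat.pair s e)).1) := by
      rw [Nat.unpair_pair, Set.disjoint_left]
      exact fun z hz => he hz
    refine ⟨Nat.pair s e, e, ?_, hxe⟩
    unfold nuX
    rw [if_pos hd, Nat.unpair_pair]
  · rintro ⟨i, e, hie, hxe⟩ hx
    simp only [nuX] at hie
    split_ifs at hie with h
    have h1 : i.unpair.2 = e := by omega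
    rw [h1] at h
    exact Set.disjoint_left.1 h hxe (mem_iInter.1 hx _)

open Classical in
/-- the graph map -/
noncomputable def grph (n : ℕ) (p : ℕ → ℕ) (t : Q) : Q := fun j =>
  if j < n then t j else
    if h : ∃ s, p s = (j - n) + 1 then
      ⟨tau n (j - n) (Nat.find h) t, tau_nonneg _ _ _ _, tau_le_one _ _ _ _⟩ else 0

theorem continuous_grph (n : ℕ) (p : ℕ → ℕ) : Continuous (grph n p) := by
  apply continuous_pi
  intro j
  unfold grph
  split_ifs
  · exact continuous_apply j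
  · exact (continuous_tau _ _ _).subtype_mk _
  · exact continuous_const

theorem grph_lt {n : ℕ} {p : ℕ → ℕ} {t : Q} {i : ℕ} (hi : i < n) : grph n p t i = t i := by
  unfold grph
  rw [if_pos hi]

theorem grph_mem (n : ℕ) (p : ℕ → ℕ) (t : Q) : grph n p t ∈ XI n p := by
  classical
  rw [mem_XI]
  have hτ : ∀ e s, tau n e s (grph n p t) = tau n e s t := fun e s =>
    tau_congr fun i hi => grph_lt hi
  intro e
  refine ⟨fun s hs hs' => ?_, fun he s => ?_⟩
  · rw [hτ]
    unfold grph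
    have hex : ∃ s, p s = (n + e - n) + 1 := ⟨s, by rw [hs]; omega⟩
    rw [if_neg (by omega), dif_pos hex]
    have h1 : Nat.find hex = s := by
      rw [Nat.find_eq_iff]
      refine ⟨by rw [hs]; omega, fun t' ht' h => hs' t' ht' (by rw [h]; omega)⟩
    have h2 : n + e - n = e := by omega
    show tau n (n + e - n) (Nat.find hex) t = tau n e s t
    rw [h1, h2]
  · have h1 : (grph n p t (n + e) : ℝ) = 0 := by
      unfold grph
      rw [if_neg (by omega), dif_neg]
      · rfl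
      · rintro ⟨s, hs⟩
        exact he s (by rw [hs]; omega)
    rw [h1]
    exact tau_nonneg _ _ _ _

theorem not_covDimLT_XI (n : ℕ) (p : ℕ → ℕ) : ¬ CovDimLT (XI n p) n :=
  not_covDimLT_cube (fun i => i) (grph n p) (continuous_grph n p) (fun _ _ hi => grph_lt hi)
    (grph_mem n p)

/-- on a segment the other coordinates are determined -/
theorem dC_of_pos {n : ℕ} {p : ℕ → ℕ} {x : Q} (hx : x ∈ XI n p) {e : ℕ} (he : ∀ t, p t ≠ e + 1)
    (h0 : 0 < (x (n + e) : ℝ)) : dC n e x = 0 := by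
  by_contra hcon
  obtain ⟨s, hs⟩ := exists_tau_zero hcon
  have := ((mem_XI.1 hx) e).2 he s
  linarith

theorem finite_level {n : ℕ} (hn : 1 ≤ n) {p : ℕ → ℕ} {e : ℕ} (he : ∀ t, p t ≠ e + 1) {u : ℝ}
    (hu : 0 < u) : {x : Q | x ∈ XI n p ∧ (x (n + e) : ℝ) = u}.Finite := by
  classical
  have hfin : (Set.Icc (fun _ : Fin n => (0 : ℤ)) (fun _ => 2 ^ e)).Finite := Set.finite_Icc _ _
  refine Set.Finite.of_injOn (f := fun (x : Q) (i : Fin n) => ⌊(2 : ℝ) ^ e * x i⌋) ?_ ?_ hfin
  · rintro x -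
    rw [Set.mem_Icc]
    constructor
    · intro i
      have := (x i).2.1
      exact Int.floor_nonneg.2 (by positivity)
    · intro i
      have h1 := (x i).2.2
      have h2 : (2 : ℝ) ^ e * x i ≤ ((2 ^ e : ℤ) : ℝ) := by
        push_cast
        have := two_pow_pos' e
        nlinarith
      have h3 := Int.floor_mono h2
      rwa [Int.floor_intCast] at h3
  · rintro x ⟨hx, hxu⟩ x' ⟨hx', hxu'⟩ hxx
    have h1 : dC n e x = 0 := dC_of_pos hx he (by rw [hxu]; exact hu)
    have h1' : dC n e x' = 0 := dC_of_pos hx' he (by rw [hxu']; exact hu)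
    have h2 : ∀ i < n, x i = x' i := by
      intro i hi
      have h3 := fract_of_dI (dC_eq_zero.1 h1 i hi)
      have h3' := fract_of_dI (dC_eq_zero.1 h1' i hi)
      have h4 : ⌊(2 : ℝ) ^ e * x i⌋ = ⌊(2 : ℝ) ^ e * x' i⌋ := congrFun hxx ⟨i, hi⟩
      have h5 := Int.floor_add_fract ((2 : ℝ) ^ e * x i)
      have h5' := Int.floor_add_fract ((2 : ℝ) ^ e * x' i)
      have h6 : (2 : ℝ) ^ e * x i = 2 ^ e * x' i := by
        rw [← h5, ← h5', h3, h3', h4]
      exact Subtype.ext (mul_left_cancel₀ (two_pow_pos' e).ne' h6)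
    funext j
    by_cases hj : j < n
    · exact h2 j hj
    · obtain ⟨e', rfl⟩ : ∃ e', j = n + e' := ⟨j - n, by omega⟩
      apply Subtype.ext
      by_cases hee : e' = e
      · subst hee; rw [hxu, hxu']
      · by_cases hA : ∃ t, p t = e' + 1
        · rw [((mem_XI.1 hx) e').1 _ (Nat.find_spec hA) fun t' ht' => Nat.find_min hA ht',
            ((mem_XI.1 hx') e').1 _ (Nat.find_spec hA) fun t' ht' => Nat.find_min hA ht']
          exact tau_congr h2
        · push Not at hA
          have h7 : ∀ z ∈ XI n p, dC n e z = 0 → (z (n + e') : ℝ) = 0 := by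
            intro z hz hz0
            obtain ⟨s, hs⟩ := exists_tau_zero (dC_disjoint hn (Ne.symm hee) hz0)
            have h8 := ((mem_XI.1 hz) e').2 hA s
            rw [hs] at h8
            exact le_antisymm h8 (z (n + e')).2.1
          rw [h7 x hx h1, h7 x' hx' h1']

/-- Solutions of the instance do not contain parts of the segments. -/
theorem XI_zero {n : ℕ} (hn : 2 ≤ n) {p : ℕ → ℕ} {Y : Set Q} (hYX : Y ⊆ XI n p)
    (hd : ¬ CovDimLT Y n)
    (hs : ∀ C : Set Q, IsClosed C → C ⊆ Y → CovDimLT C (n - 1) → IsPreconnected (Y \ C))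
    {e : ℕ} (he : ∀ t, p t ≠ e + 1) : ∀ y ∈ Y, (y (n + e) : ℝ) = 0 := by
  have hc : Continuous fun x : Q => (x (n + e) : ℝ) :=
    continuous_subtype_val.comp (continuous_apply _)
  have hfin : ∀ u : ℝ, 0 < u → {x : Q | x ∈ Y ∧ (x (n + e) : ℝ) = u}.Finite := fun u hu =>
    (finite_level (by omega) he hu).subset fun x hx => ⟨hYX hx.1, hx.2⟩
  -- the coordinate is constant
  have hlt : ∀ y ∈ Y, ∀ y' ∈ Y, ¬ (y (n + e) : ℝ) < y' (n + e) := by
    intro y hy y' hy' hlt
    obtain ⟨u, hu1, hu2⟩ := exists_between hlt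
    have hu0 : 0 < u := lt_of_le_of_lt (y (n + e)).2.1 hu1
    have hpre := hs {x : Q | x ∈ Y ∧ (x (n + e) : ℝ) = u} (hfin u hu0).isClosed
      (fun x hx => hx.1) (covDimLT_mono (by omega) (covDimLT_finite (hfin u hu0)))
    obtain ⟨z, ⟨hz1, hz2⟩, hz3, hz4⟩ := hpre {x : Q | (x (n + e) : ℝ) < u}
      {x : Q | u < (x (n + e) : ℝ)} (isOpen_lt hc continuous_const)
      (isOpen_lt continuous_const hc) (by
        intro x hx
        rcases lt_trichotomy (x (n + e) : ℝ) u with h | h | h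
        · exact Or.inl h
        · exact absurd ⟨hx.1, h⟩ hx.2
        · exact Or.inr h)
      ⟨y, ⟨hy, fun h => absurd h.2 hu1.ne⟩, hu1⟩ ⟨y', ⟨hy', fun h => absurd h.2 hu2.ne'⟩, hu2⟩
    exact lt_asymm (show (z (n + e) : ℝ) < u from hz3) (show u < (z (n + e) : ℝ) from hz4)
  intro y hy
  by_contra hne
  have h0 : 0 < (y (n + e) : ℝ) := lt_of_le_of_ne (y (n + e)).2.1 (Ne.symm hne)
  apply hd
  have hY : Y = {x : Q | x ∈ Y ∧ (x (n + e) : ℝ) = y (n + e)} := by
    ext x
    refine ⟨fun hx => ⟨hx, ?_⟩, fun hx => hx.1⟩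
    exact le_antisymm (not_lt.1 (hlt y hy x hx)) (not_lt.1 (hlt x hx y hy))
  have hYf : Y.Finite := by rw [hY]; exact hfin _ h0
  exact covDimLT_mono (by omega) (covDimLT_finite hYf)

end Pool.Agent.CMTW
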