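import Pool.Agent.Lib_fca3ff.Tent

set_option autoImplicit false

/-!
# Closed sets which miss the centres of the dyadic cubes of infinitely many levels
-/

namespace Pool.Agent.CMTW

open Set

theorem CovDimLT.of_homeo {X Y : Type} [TopologicalSpace X] [TopologicalSpace Y] {k : ℕ}
    (h : X ≃ₜ Y) (hX : CovDimLT X k) : CovDimLT Y k := by
  intro 𝒰 hfin hopen hcov
  obtain ⟨𝒱, h1, h2, h3, h4, h5⟩ := hX ((fun U => h ⁻¹' U) '' 𝒰) (hfin.image _)
    (by
      rintro _ ⟨U, hU, rfl⟩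
      exact (hopen U hU).preimage h.continuous)
    (by
      rw [eq_univ_iff_forall]
      intro x
      obtain ⟨U, hU, hxU⟩ : ∃ U ∈ 𝒰, h x ∈ U := by
        have : h x ∈ ⋃₀ 𝒰 := by rw [hcov]; trivial
        exact this
      exact ⟨_, ⟨U, hU, rfl⟩, hxU⟩)
  refine ⟨(fun V => h.symm ⁻¹' V) '' 𝒱, h1.image _, ?_, ?_, ?_, ?_⟩
  · rintro _ ⟨V, hV, rfl⟩
    exact (h2 V hV).preimage h.symm.continuous
  · rw [eq_univ_iff_forall]
    intro y
    obtain ⟨V, hV, hyV⟩ : ∃ V ∈ 𝒱, h.symm y ∈ V := by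
      have : h.symm y ∈ ⋃₀ 𝒱 := by rw [h3]; trivial
      exact this
    exact ⟨_, ⟨V, hV, rfl⟩, hyV⟩
  · rintro _ ⟨V, hV, rfl⟩
    obtain ⟨_, ⟨U, hU, rfl⟩, hVU⟩ := h4 V hV
    refine ⟨U, hU, fun y hy => ?_⟩
    have := hVU hy
    simpa using this
  · intro y
    refine le_trans ?_ (h5 (h.symm y))
    refine le_trans (encard_le_encard ?_) (encard_image_le (fun V => h.symm ⁻¹' V)
      {V | V ∈ 𝒱 ∧ h.symm y ∈ V})
    rintro _ ⟨⟨V, hV, rfl⟩, hy⟩
    exact ⟨V, ⟨hV, hy⟩, rfl⟩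

/-- the radius of the interval number `b` for the threshold `θ` -/
noncomputable def rad (θ : ℝ) (b : ℕ) : ℝ := if b % 2 = 0 then θ else 1 / 2 - θ

theorem interval_inj {θ u : ℝ} (h0 : 0 ≤ θ) (h1 : θ ≤ 1 / 2) {b b' : ℕ}
    (hb : |u - b / 2| < rad θ b) (hb' : |u - b' / 2| < rad θ b') : b = b' := by
  have key : ∀ {c c' : ℕ}, |u - c / 2| < rad θ c → |u - c' / 2| < rad θ c' → ¬ c < c' := by
    intro c c' hc hc' hlt
    have h2 : (c' : ℝ) / 2 - c / 2 < rad θ c + rad θ c' := by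
      have h3 := (abs_lt.1 hc).2
      have h4 := (abs_lt.1 hc').1
      linarith
    unfold rad at h2
    have h5 : (c : ℝ) + 1 ≤ c' := by exact_mod_cast hlt
    split_ifs at h2 with h6 h7 h7
    · have h8 : c + 2 ≤ c' := by omega
      have h9 : (c : ℝ) + 2 ≤ c' := by exact_mod_cast h8
      linarith
    · linarith
    · linarith
    · have h8 : c + 2 ≤ c' := by omega
      have h9 : (c : ℝ) + 2 ≤ c' := by exact_mod_cast h8
      linarith
  rcases lt_trichotomy b b' with h | h | h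
  · exact absurd h (key hb hb')
  · exact h
  · exact absurd h (key hb' hb)

theorem exists_interval {θ u : ℝ} {e : ℕ} (hu0 : 0 ≤ u) (hu1 : u ≤ 2 ^ e) (h : dI u ≠ θ) :
    ∃ b : ℕ, b < 2 ^ (e + 1) + 2 ∧ |u - b / 2| < rad θ b := by
  rcases lt_or_gt_of_ne h with h | h
  · -- near an integer
    have h1 : 0 ≤ round u := by
      rw [round_eq]
      exact Int.floor_nonneg.2 (by linarith)
    have h2 : round u ≤ 2 ^ e := by
      have h3 := abs_le.1 (abs_sub_round u)
      have h4 : (round u : ℝ) < ((2 ^ e + 1 : ℤ) : ℝ) := by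
        push_cast; linarith [h3.1]
      have h5 : round u < 2 ^ e + 1 := by exact_mod_cast h4
      omega
    obtain ⟨a, ha⟩ := Int.eq_ofNat_of_zero_le h1
    refine ⟨2 * a, ?_, ?_⟩
    · rw [ha] at h2
      have h6 : a ≤ 2 ^ e := by exact_mod_cast h2
      rw [pow_succ]; omega
    · have h7 : (2 * a) % 2 = 0 := by omega
      unfold rad
      rw [if_pos h7]
      have h8 : u - ((2 * a : ℕ) : ℝ) / 2 = u - round u := by
        rw [ha]; push_cast; ring
      rw [h8]
      exact h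
  · -- near a half integer
    have h1 : 0 ≤ ⌊u⌋ := Int.floor_nonneg.2 hu0
    have h2 : ⌊u⌋ ≤ 2 ^ e := by
      have h3 : (⌊u⌋ : ℝ) ≤ ((2 ^ e : ℤ) : ℝ) := by
        push_cast; exact (Int.floor_le u).trans hu1
      exact_mod_cast h3
    obtain ⟨a, ha⟩ := Int.eq_ofNat_of_zero_le h1
    refine ⟨2 * a + 1, ?_, ?_⟩
    · rw [ha] at h2
      have h6 : a ≤ 2 ^ e := by exact_mod_cast h2
      rw [pow_succ]; omega
    · have h7 : ¬ (2 * a + 1) % 2 = 0 := by omega
      unfold rad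
      rw [if_neg h7]
      have h8 : u - ((2 * a + 1 : ℕ) : ℝ) / 2 = Int.fract u - 1 / 2 := by
        have h9 := Int.floor_add_fract u
        rw [ha] at h9
        push_cast at h9 ⊢
        linarith
      rw [h8]
      rw [dI_eq_min] at h
      have h10 : θ < Int.fract u := lt_of_lt_of_le h (min_le_left _ _)
      have h11 : θ < 1 - Int.fract u := lt_of_lt_of_le h (min_le_right _ _)
      rw [abs_lt]
      constructor <;> linarith

theorem thin_of_missing {n k e : ℕ} (hn : 1 ≤ n) (hk : k ≤ e) {P : Set Q} (hP : IsClosed P)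
    (h0 : ∀ x ∈ P, ∀ j, n ≤ j → (x j : ℝ) = 0) (hc : ∀ x ∈ P, dC n e x ≠ 0) : Thin n k P := by
  classical
  rcases P.eq_empty_or_nonempty with rfl | hne
  · exact thin_empty n k
  obtain ⟨x₀, hx₀, hmin⟩ := hP.isCompact.exists_isMinOn hne (continuous_dC n e).continuousOn
  set c := dC n e x₀ with hcdef
  have hc0 : 0 < c := lt_of_le_of_ne (dC_nonneg n e x₀) (Ne.symm (hc x₀ hx₀))
  have hnr : (0 : ℝ) < n := by exact_mod_cast hn
  set ρ := c / n with hρ
  have hρ0 : 0 < ρ := div_pos hc0 hnr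
  have hex : ∀ x ∈ P, ∃ i : Fin n, dI (2 ^ e * x i) ≤ 1 / 2 - ρ := by
    intro x hx
    by_contra hcon
    push Not at hcon
    have h1 : dC n e x < ∑ _i ∈ Finset.range n, ρ := by
      unfold dC
      apply Finset.sum_lt_sum_of_nonempty ⟨0, Finset.mem_range.2 (by omega)⟩
      intro i hi
      have := hcon ⟨i, Finset.mem_range.1 hi⟩
      simp only at this
      linarith
    rw [Finset.sum_const, Finset.card_range, nsmul_eq_mul, hρ, mul_div_cancel₀ _ hnr.ne'] at h1
    have h2 : c ≤ dC n e x := hmin hx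
    linarith
  have hρ1 : ρ ≤ 1 / 2 := by
    obtain ⟨i, hi⟩ := hex x₀ hx₀
    have := dI_nonneg (2 ^ e * (x₀ i : ℝ))
    linarith
  set θ : Fin n → ℝ := fun m => 1 / 2 - ρ + ρ * (((m : ℕ) : ℝ) + 1) / n with hθ
  have hθ1 : ∀ m, 1 / 2 - ρ < θ m := by
    intro m
    have : 0 < ρ * (((m : ℕ) : ℝ) + 1) / n := by positivity
    simp only [hθ]; linarith
  have hθ2 : ∀ m, θ m ≤ 1 / 2 := by
    intro m
    have h1 : (((m : ℕ) : ℝ) + 1) ≤ n := by
      have : (m : ℕ) + 1 ≤ n := m.2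
      exact_mod_cast this
    have h2 : ρ * (((m : ℕ) : ℝ) + 1) / n ≤ ρ := by
      rw [div_le_iff₀ hnr]
      exact mul_le_mul_of_nonneg_left h1 hρ0.le
    simp only [hθ]; linarith
  have hθ0 : ∀ m, 0 ≤ θ m := fun m => by linarith [hθ1 m]
  have hθinj : Function.Injective θ := by
    intro m m' h
    simp only [hθ] at h
    have h1 : ρ * (((m : ℕ) : ℝ) + 1) / n = ρ * (((m' : ℕ) : ℝ) + 1) / n := by linarith
    rw [div_left_inj' hnr.ne'] at h1
    have h2 := mul_left_cancel₀ hρ0.ne' h1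
    have h3 : ((m : ℕ) : ℝ) = ((m' : ℕ) : ℝ) := by linarith
    exact Fin.ext (by exact_mod_cast h3)
  have hu0 : ∀ (x : Q) (j : ℕ), (0 : ℝ) ≤ 2 ^ e * x j := fun x j =>
    mul_nonneg (two_pow_pos' e).le (x j).2.1
  have hu1 : ∀ (x : Q) (j : ℕ), (2 : ℝ) ^ e * x j ≤ 2 ^ e := fun x j => by
    have h1 := (x j).2.2
    have h2 := two_pow_pos' e
    nlinarith
  have hcc : ∀ j, Continuous fun x : Q => (x j : ℝ) := fun j =>
    continuous_subtype_val.comp (continuous_apply _)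
  refine ⟨Fin n × (Fin n → Fin (2 ^ (e + 1) + 2)), inferInstance, fun y =>
    {x : Q | ∀ i : Fin n, |2 ^ e * (x i : ℝ) - ((y.2 i : ℕ) : ℝ) / 2| < rad (θ y.1) (y.2 i)} ∩
      {x : Q | ∀ j ∈ Finset.range k, n ≤ j → (x j : ℝ) * 2 ^ k < 1}, ?_, ?_, ?_, ?_⟩
  · intro y
    apply IsOpen.inter
    · have : {x : Q | ∀ i : Fin n, |2 ^ e * (x i : ℝ) - ((y.2 i : ℕ) : ℝ) / 2| <
          rad (θ y.1) (y.2 i)} = ⋂ i : Fin n, {x : Q |
          |2 ^ e * (x i : ℝ) - ((y.2 i : ℕ) : ℝ) / 2| < rad (θ y.1) (y.2 i)} := by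
        ext x; simp
      rw [this]
      refine isOpen_iInter_of_finite fun i => isOpen_lt ?_ continuous_const
      exact ((continuous_const.mul (hcc i)).sub continuous_const).abs
    · have : {x : Q | ∀ j ∈ Finset.range k, n ≤ j → (x j : ℝ) * 2 ^ k < 1} =
          ⋂ j ∈ Finset.range k, ⋂ (_ : n ≤ j), {x : Q | (x j : ℝ) * 2 ^ k < 1} := by
        ext x; simp
      rw [this]
      refine isOpen_biInter_finset fun j _ => isOpen_iInter_of_finite fun _ =>
        isOpen_lt ((hcc j).mul continuous_const) continuous_const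
  · intro x hx
    obtain ⟨i₀, hi₀⟩ := hex x hx
    obtain ⟨m, hm⟩ : ∃ m : Fin n, ∀ i : Fin n, dI (2 ^ e * x i) ≠ θ m := by
      by_contra hcon
      push Not at hcon
      choose f hf using hcon
      have hfi : Function.Injective f := by
        intro m m' h
        apply hθinj
        rw [← hf m, ← hf m', h]
      obtain ⟨m, hm⟩ := Finite.injective_iff_surjective.1 hfi i₀
      have h1 := hf m
      rw [hm] at h1
      linarith [hθ1 m]
    have h2 : ∀ i : Fin n, ∃ b : Fin (2 ^ (e + 1) + 2),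
        |2 ^ e * (x i : ℝ) - ((b : ℕ) : ℝ) / 2| < rad (θ m) b := by
      intro i
      obtain ⟨b, hb, hb'⟩ := exists_interval (hu0 x i) (hu1 x i) (hm i)
      exact ⟨⟨b, hb⟩, hb'⟩
    choose b hb using h2
    refine mem_iUnion.2 ⟨(m, b), hb, ?_⟩
    intro j _ hj
    rw [h0 x hx j hj, zero_mul]
    norm_num
  · intro y x hx z hz j hj
    by_cases hjn : j < n
    · have h1 := abs_lt.1 (hx.1 ⟨j, hjn⟩)
      have h2 := abs_lt.1 (hz.1 ⟨j, hjn⟩)
      have hr : rad (θ y.1) (y.2 ⟨j, hjn⟩) ≤ 1 / 2 := by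
        unfold rad
        split_ifs
        · exact hθ2 _
        · linarith [hθ0 y.1]
      simp only at h1 h2
      have h3 : |(x j : ℝ) - z j| * 2 ^ e < 1 := by
        have h4 : |(x j : ℝ) - z j| * 2 ^ e = |2 ^ e * (x j : ℝ) - 2 ^ e * z j| := by
          rw [← mul_sub, abs_mul, abs_of_pos (two_pow_pos' e)]
          ring
        rw [h4, abs_lt]
        constructor <;> linarith [h1.1, h1.2, h2.1, h2.2]
      have h5 : (2 : ℝ) ^ k ≤ 2 ^ e := pow_le_pow_right₀ (by norm_num) hk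
      have h6 : 0 ≤ |(x j : ℝ) - z j| := abs_nonneg _
      nlinarith
    · have h1 : (x j : ℝ) * 2 ^ k < 1 := hx.2 j (Finset.mem_range.2 hj) (by omega)
      have h2 : (z j : ℝ) * 2 ^ k < 1 := hz.2 j (Finset.mem_range.2 hj) (by omega)
      have h3 : (0 : ℝ) ≤ (x j : ℝ) * 2 ^ k := mul_nonneg (x j).2.1 (two_pow_pos' k).le
      have h4 : (0 : ℝ) ≤ (z j : ℝ) * 2 ^ k := mul_nonneg (z j).2.1 (two_pow_pos' k).le
      have h5 : |(x j : ℝ) - z j| * 2 ^ k = |(x j : ℝ) * 2 ^ k - z j * 2 ^ k| := by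
        rw [← sub_mul, abs_mul, abs_of_pos (two_pow_pos' k)]
      rw [h5, abs_lt]
      constructor <;> linarith
  · intro x
    have h1 : {y : Fin n × (Fin n → Fin (2 ^ (e + 1) + 2)) | x ∈
        {x : Q | ∀ i : Fin n, |2 ^ e * (x i : ℝ) - ((y.2 i : ℕ) : ℝ) / 2| <
          rad (θ y.1) (y.2 i)} ∩
        {x : Q | ∀ j ∈ Finset.range k, n ≤ j → (x j : ℝ) * 2 ^ k < 1}}.encard ≤
        (univ : Set (Fin n)).encard := by
      apply encard_le_encard_of_injOn (f := Prod.fst)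
      · intro y _; trivial
      · rintro ⟨m, b⟩ hb ⟨m', b'⟩ hb' h
        simp only at h
        subst h
        congr 1
        funext i
        exact Fin.ext (interval_inj (hθ0 m) (hθ2 m) (hb.1 i) (hb'.1 i))
    refine h1.trans ?_
    rw [encard_univ, ENat.card_eq_coe_fintype_card, Fintype.card_fin]

/-- F2 -/
theorem covDimLT_of_missing {n : ℕ} (hn : 1 ≤ n) {p : ℕ → ℕ} {Y : Set Q} (hY : IsClosed Y)
    (hYX : Y ⊆ XI n p) (h0 : ∀ e, (∀ t, p t ≠ e + 1) → ∀ y ∈ Y, (y (n + e) : ℝ) = 0)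
    (h1 : ∀ N, ∃ e ≥ N, (∃ t, p t = e + 1) ∧ ∀ y ∈ Y, (y (n + e) : ℝ) ≠ 1) : CovDimLT Y n := by
  classical
  set π : Q → Q := fun x j => if j < n then x j else 0 with hπ
  have hπc : Continuous π := by
    apply continuous_pi
    intro j
    simp only [hπ]
    split_ifs
    · exact continuous_apply j
    · exact continuous_const
  have hπlt : ∀ x, ∀ i < n, π x i = x i := fun x i hi => if_pos hi
  have hinj : InjOn π Y := by
    intro x hx x' hx' h
    have h2 : ∀ i < n, x i = x' i := by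
      intro i hi
      rw [← hπlt x i hi, ← hπlt x' i hi, h]
    funext j
    by_cases hj : j < n
    · exact h2 j hj
    · obtain ⟨e, rfl⟩ : ∃ e, j = n + e := ⟨j - n, by omega⟩
      apply Subtype.ext
      by_cases hA : ∃ t, p t = e + 1
      · rw [((mem_XI.1 (hYX hx)) e).1 _ (Nat.find_spec hA) fun t' ht' => Nat.find_min hA ht',
          ((mem_XI.1 (hYX hx')) e).1 _ (Nat.find_spec hA) fun t' ht' => Nat.find_min hA ht']
        exact tau_congr h2
      · push Not at hA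
        rw [h0 e hA x hx, h0 e hA x' hx']
  set P : Set Q := π '' Y with hP
  have hPc : IsClosed P := (hY.isCompact.image hπc).isClosed
  have hPdim : CovDimLT P n := by
    apply covDimLT_of_thin hPc
    intro k
    obtain ⟨e, hek, hA, he⟩ := h1 k
    apply thin_of_missing hn hek hPc
    · rintro _ ⟨x, -, rfl⟩ j hj
      simp only [hπ, if_neg (not_lt.2 hj)]
      rfl
    · rintro _ ⟨x, hx, rfl⟩ hc
      apply he x hx
      rw [((mem_XI.1 (hYX hx)) e).1 _ (Nat.find_spec hA) fun t' ht' => Nat.find_min hA ht',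
        tau_eq_one, ← hc]
      exact dC_congr fun i hi => (hπlt x i hi).symm
  have : CompactSpace Y := isCompact_iff_compactSpace.1 hY.isCompact
  set f : Y ≃ P := (Equiv.Set.imageOfInjOn π Y hinj) with hf
  have hfc : Continuous f := by
    apply Continuous.subtype_mk
    exact hπc.comp continuous_subtype_val
  exact hPdim.of_homeo (hfc.homeoOfEquivCompactToT2).symm

end Pool.Agent.CMTW
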