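import Pool.Agent.Lib_fca3ff.Geo
import Pool.Agent.Lib_fca3ff.Dim

set_option autoImplicit false

/-!
# Covers of small mesh and small order
-/

namespace Pool.Agent.CMTW

open Set

/-- small at scale `k` -/
def Small (k : ℕ) (U : Set Q) : Prop := ∀ x ∈ U, ∀ y ∈ U, ∀ i < k, |(x i : ℝ) - y i| * 2 ^ k < 1

theorem Small.mono {k : ℕ} {U V : Set Q} (h : Small k U) (hVU : V ⊆ U) : Small k V :=
  fun x hx y hy i hi => h x (hVU hx) y (hVU hy) i hi

/-- `Y` has a finite cover by open sets which are small at scale `k`, of order at most `n` -/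
def Thin (n k : ℕ) (Y : Set Q) : Prop :=
  ∃ (ι : Type) (_ : Finite ι) (O : ι → Set Q), (∀ i, IsOpen (O i)) ∧ Y ⊆ ⋃ i, O i ∧
    (∀ i, Small k (O i)) ∧ ∀ x, {i | x ∈ O i}.encard ≤ n

theorem Thin.mono {n k : ℕ} {Y Z : Set Q} (h : Thin n k Y) (hZ : Z ⊆ Y) : Thin n k Z := by
  obtain ⟨ι, hι, O, h1, h2, h3, h4⟩ := h
  exact ⟨ι, hι, O, h1, hZ.trans h2, h3, h4⟩

theorem Thin.nhd {n k : ℕ} {Y : Set Q} (h : Thin n k Y) :
    ∃ W, IsOpen W ∧ Y ⊆ W ∧ ∀ Z ⊆ W, Thin n k Z := by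
  obtain ⟨ι, hι, O, h1, h2, h3, h4⟩ := h
  exact ⟨⋃ i, O i, isOpen_iUnion h1, h2, fun Z hZ => ⟨ι, hι, O, h1, hZ, h3, h4⟩⟩

theorem thin_empty (n k : ℕ) : Thin n k ∅ :=
  ⟨Empty, inferInstance, fun _ => ∅, fun i => i.elim, empty_subset _, fun i => i.elim, fun x => by
    simp [eq_empty_of_isEmpty]⟩

/-- closed sets in a decreasing sequence -/
theorem thin_iInter {n k : ℕ} {F : ℕ → Set Q} (hF : ∀ j, IsClosed (F j))
    (hanti : ∀ j, F (j + 1) ⊆ F j) (h : Thin n k (⋂ j, F j)) : ∃ j, Thin n k (F j) := by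
  obtain ⟨W, hW, hsub, hthin⟩ := h.nhd
  have hanti' : Antitone F := antitone_nat_of_succ_le hanti
  obtain ⟨j, hj⟩ := exists_subset_nhds_of_isCompact (V := F) (directed_of_isDirected_le
    (fun a b hab => hanti' hab)) (fun j => (hF j).isCompact)
    (U := W) (fun x hx => hW.mem_nhds (hsub hx))
  exact ⟨j, hthin _ hj⟩

theorem exists_pos_fun {U : Set Q} (hU : IsOpen U) :
    ∃ f : Q → ℝ, Continuous f ∧ (∀ x, 0 ≤ f x) ∧ ∀ x, 0 < f x ↔ x ∈ U := by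
  have hm : TopologicalSpace.MetrizableSpace Q :=
    TopologicalSpace.metrizableSpace_of_t3_secondCountable Q
  let _ : MetricSpace Q := TopologicalSpace.metrizableSpaceMetric Q
  rcases eq_or_ne U univ with rfl | hne
  · exact ⟨fun _ => 1, continuous_const, fun _ => zero_le_one, fun x => by simp⟩
  · have hn : (Uᶜ).Nonempty := by
      rw [nonempty_compl]; exact hne
    refine ⟨fun x => Metric.infDist x Uᶜ, Metric.continuous_infDist_pt _,
      fun x => Metric.infDist_nonneg, fun x => ?_⟩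
    have h := hU.isClosed_compl.notMem_iff_infDist_pos hn (x := x)
    rw [← h]
    simp

theorem swell {ι : Type} [Finite ι] {n : ℕ} {Y : Set Q} {O : ι → Set Q}
    (hO : ∀ i, IsOpen (O i)) (hn : ∀ x ∈ Y, {i | x ∈ O i}.encard ≤ n) :
    ∃ O' : ι → Set Q, (∀ i, IsOpen (O' i)) ∧ (∀ i, O' i ⊆ O i) ∧
      (∀ x ∈ Y, ∀ i, x ∈ O i → x ∈ O' i) ∧ ∀ x, {i | x ∈ O' i}.encard ≤ n := by
  classical
  choose f hfc hf0 hf using fun i => exists_pos_fun (hO i)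
  refine ⟨fun i => {x | 0 < f i x ∧ ∀ T : Finset ι, i ∈ T → T.card = n + 1 →
    ∃ j ∈ T, f j x < f i x}, ?_, ?_, ?_, ?_⟩
  · intro i
    have h1 : {x | 0 < f i x ∧ ∀ T : Finset ι, i ∈ T → T.card = n + 1 →
        ∃ j ∈ T, f j x < f i x} = {x | 0 < f i x} ∩ ⋂ (T : Finset ι) (_ : i ∈ T)
          (_ : T.card = n + 1), ⋃ j ∈ T, {x | f j x < f i x} := by
      ext x
      simp
    show IsOpen {x | 0 < f i x ∧ ∀ T : Finset ι, i ∈ T → T.card = n + 1 → ∃ j ∈ T, f j x < f i x}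
    rw [h1]
    refine (isOpen_lt continuous_const (hfc i)).inter ?_
    refine isOpen_iInter_of_finite fun T => isOpen_iInter_of_finite fun _ =>
      isOpen_iInter_of_finite fun _ => ?_
    exact isOpen_biUnion fun j _ => isOpen_lt (hfc j) (hfc i)
  · intro i x hx
    exact (hf i x).1 hx.1
  · intro x hx i hi
    refine ⟨(hf i x).2 hi, fun T _ hT => ?_⟩
    by_contra hcon
    push Not at hcon
    have h2 : (T : Set ι) ⊆ {i | x ∈ O i} := by
      intro j hj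
      exact (hf j x).1 (lt_of_lt_of_le ((hf i x).2 hi) (hcon j hj))
    have h3 := (encard_le_encard h2).trans (hn x hx)
    rw [encard_coe_eq_coe_finsetCard, hT] at h3
    exact absurd h3 (by exact_mod_cast Nat.not_succ_le_self n)
  · intro x
    by_contra hcon
    rw [not_le] at hcon
    have h4 : ((n + 1 : ℕ) : ℕ∞) ≤ {i | 0 < f i x ∧ ∀ T : Finset ι, i ∈ T → T.card = n + 1 →
        ∃ j ∈ T, f j x < f i x}.encard := by
      have := Order.add_one_le_of_lt hcon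
      exact_mod_cast this
    obtain ⟨t, ht, htc⟩ := exists_subset_encard_eq h4
    have htf : t.Finite := toFinite t
    have hcard : htf.toFinset.card = n + 1 := by
      rw [htf.encard_eq_coe_toFinset_card] at htc
      exact_mod_cast htc
    have hne : htf.toFinset.Nonempty := by
      rw [← Finset.card_pos, hcard]; omega
    obtain ⟨i, hi, hmin⟩ := Finset.exists_min_image htf.toFinset (fun i => f i x) hne
    obtain ⟨j, hj, hlt⟩ := (ht ((htf.mem_toFinset).1 hi)).2 _ hi hcard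
    exact absurd (hmin j hj) (not_le.2 hlt)

theorem thin_of_rel {ι : Type} [Finite ι] {n k : ℕ} {Y : Set Q} {O : ι → Set Q}
    (hO : ∀ i, IsOpen (O i)) (hY : Y ⊆ ⋃ i, O i) (hs : ∀ i, Small k (O i))
    (hn : ∀ x ∈ Y, {i | x ∈ O i}.encard ≤ n) : Thin n k Y := by
  obtain ⟨O', h1, h2, h3, h4⟩ := swell hO hn
  refine ⟨ι, inferInstance, O', h1, ?_, fun i => (hs i).mono (h2 i), h4⟩
  intro x hx
  obtain ⟨i, hi⟩ := mem_iUnion.1 (hY hx)
  exact mem_iUnion.2 ⟨i, h3 x hx i hi⟩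

/-- small neighbourhoods -/
theorem small_star (k : ℕ) (x : Q) : Small k (box (star (k + 4) x)) := by
  intro y hy z hz i hi
  have h1 := near_of_mem_star hy i (by omega)
  have h2 := near_of_mem_star hz i (by omega)
  have h3 : |(y i : ℝ) - z i| ≤ |(x i : ℝ) - y i| + |(x i : ℝ) - z i| := by
    have := abs_sub_le (y i : ℝ) (x i) (z i)
    rwa [abs_sub_comm (y i : ℝ) (x i)] at this
  have h4 : (2 : ℝ) ^ (k + 4) = 2 ^ k * 16 := by rw [pow_add]; norm_num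
  rw [h4] at h1 h2
  have h5 := two_pow_pos' k
  nlinarith

theorem CovDimLT.thin {n : ℕ} {Y : Set Q} (h : CovDimLT Y n) (k : ℕ) : Thin n k Y := by
  obtain ⟨T, hT⟩ := isCompact_univ.elim_finite_subcover
    (fun x : Q => box (star (k + 4) x)) (fun x => isOpen_box _)
    (fun x _ => mem_iUnion.2 ⟨x, mem_star_self _ _⟩)
  obtain ⟨𝒱, hfin, hopen, hcov, href, hord⟩ := h
    ((fun x : Q => ((↑) : Y → Q) ⁻¹' box (star (k + 4) x)) '' (T : Set Q))
    (T.finite_toSet.image _)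
    (by
      rintro _ ⟨x, -, rfl⟩
      exact (isOpen_box _).preimage continuous_subtype_val)
    (by
      rw [eq_univ_iff_forall]
      intro y
      obtain ⟨x, hx, hy⟩ := mem_iUnion₂.1 (hT (mem_univ y.1))
      exact ⟨_, ⟨x, hx, rfl⟩, hy⟩)
  have h1 : ∀ V : 𝒱, ∃ O : Set Q, IsOpen O ∧ ((↑) : Y → Q) ⁻¹' O = V.1 ∧ Small k O := by
    rintro ⟨V, hV⟩
    obtain ⟨O, hO, hOV⟩ := isOpen_induced_iff.1 (hopen V hV)
    obtain ⟨_, ⟨x, -, rfl⟩, hVx⟩ := href V hV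
    refine ⟨O ∩ box (star (k + 4) x), hO.inter (isOpen_box _), ?_,
      (small_star k x).mono inter_subset_right⟩
    rw [preimage_inter, hOV]
    exact inter_eq_left.2 hVx
  choose O hO hOV hOs using h1
  have : Finite 𝒱 := hfin
  refine thin_of_rel (ι := 𝒱) hO ?_ hOs ?_
  · intro y hy
    obtain ⟨V, hV, hyV⟩ : ∃ V ∈ 𝒱, (⟨y, hy⟩ : Y) ∈ V := by
      have : (⟨y, hy⟩ : Y) ∈ ⋃₀ 𝒱 := by rw [hcov]; trivial
      exact this
    refine mem_iUnion.2 ⟨⟨V, hV⟩, ?_⟩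
    have h2 : (⟨y, hy⟩ : Y) ∈ ((↑) : Y → Q) ⁻¹' O ⟨V, hV⟩ := by
      rw [hOV ⟨V, hV⟩]; exact hyV
    exact h2
  · intro y hy
    refine le_trans ?_ (hord ⟨y, hy⟩)
    apply encard_le_encard_of_injOn (f := fun V : 𝒱 => V.1)
    · intro V hV
      refine ⟨V.2, ?_⟩
      have h2 : (⟨y, hy⟩ : Y) ∈ ((↑) : Y → Q) ⁻¹' O V := hV
      rw [hOV V] at h2
      exact h2
    · exact Subtype.val_injective.injOn

theorem covDimLT_of_thin {n : ℕ} {Y : Set Q} (hY : IsClosed Y) (h : ∀ k, Thin n k Y) :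
    CovDimLT Y n := by
  classical
  intro 𝒰 hfin hopen hcov
  have h1 : ∀ U : 𝒰, ∃ O : Set Q, IsOpen O ∧ ((↑) : Y → Q) ⁻¹' O = U.1 := fun U =>
    isOpen_induced_iff.1 (hopen U.1 U.2)
  choose O hO hOU using h1
  obtain ⟨N, hN⟩ := lebesgue hY hO (by
    intro y hy
    obtain ⟨U, hU, hyU⟩ : ∃ U ∈ 𝒰, (⟨y, hy⟩ : Y) ∈ U := by
      have : (⟨y, hy⟩ : Y) ∈ ⋃₀ 𝒰 := by rw [hcov]; trivial
      exact this
    refine mem_iUnion.2 ⟨⟨U, hU⟩, ?_⟩
    have h2 : (⟨y, hy⟩ : Y) ∈ ((↑) : Y → Q) ⁻¹' O ⟨U, hU⟩ := by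
      rw [hOU ⟨U, hU⟩]; exact hyU
    exact h2)
  obtain ⟨ι, hι, P, hP, hYP, hPs, hPn⟩ := h N
  refine ⟨(fun i => ((↑) : Y → Q) ⁻¹' P i) '' {i | (P i ∩ Y).Nonempty},
    (toFinite _).image _, ?_, ?_, ?_, ?_⟩
  · rintro _ ⟨i, -, rfl⟩
    exact (hP i).preimage continuous_subtype_val
  · rw [eq_univ_iff_forall]
    intro y
    obtain ⟨i, hi⟩ := mem_iUnion.1 (hYP y.2)
    exact ⟨_, ⟨i, ⟨y.1, hi, y.2⟩, rfl⟩, hi⟩
  · rintro _ ⟨i, ⟨y, hyi, hyY⟩, rfl⟩
    obtain ⟨U, hU⟩ := hN y hyY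
    refine ⟨U.1, U.2, ?_⟩
    intro w hw
    rw [← hOU U]
    apply hU
    intro j hj
    have := hPs i y hyi w.1 hw j hj
    linarith
  · intro y
    refine le_trans ?_ (hPn y.1)
    refine le_trans (encard_le_encard ?_) (encard_image_le
      (fun i => ((↑) : Y → Q) ⁻¹' P i) {i | y.1 ∈ P i})
    rintro _ ⟨⟨i, -, rfl⟩, hyi⟩
    exact ⟨i, hyi, rfl⟩

theorem covDimLT_iff_thin {n : ℕ} {Y : Set Q} (hY : IsClosed Y) :
    CovDimLT Y n ↔ ∀ k, Thin n k Y := ⟨fun h k => h.thin k, covDimLT_of_thin hY⟩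

theorem covDimLT_mono {X : Type} [TopologicalSpace X] {m n : ℕ} (h : m ≤ n) (hX : CovDimLT X m) :
    CovDimLT X n := by
  intro 𝒰 h1 h2 h3
  obtain ⟨𝒱, a, b, c, d, e⟩ := hX 𝒰 h1 h2 h3
  exact ⟨𝒱, a, b, c, d, fun x => (e x).trans (by exact_mod_cast h)⟩

theorem covDimLT_subset {n : ℕ} {Y Z : Set Q} (hZ : IsClosed Z) (hZY : Z ⊆ Y)
    (h : CovDimLT Y n) : CovDimLT Z n := covDimLT_of_thin hZ fun k => (h.thin k).mono hZY

/-- finite sets -/
theorem covDimLT_finite {Y : Set Q} (hY : Y.Finite) : CovDimLT Y 1 := by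
  have : Finite Y := hY
  exact covDimLT_one

end Pool.Agent.CMTW
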