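import Pool.Agent.Lib_fca3ff.Ref
import Pool.Agent.Lib_fca3ff.LimDefs

set_option autoImplicit false

/-!
# Continuity and Baire category on Baire space
-/

namespace Pool.Agent.CMTW

open Set

theorem pre_le {α : Type} {p q : ℕ → α} {m l : ℕ} (h : pre p m = pre q m) (hl : l ≤ m) :
    pre p l = pre q l := by
  rw [pre_eq_iff] at h ⊢
  exact fun i hi => h i (by omega)

theorem pre_join {p p' r r' : ℕ → ℕ} {l : ℕ} (h : pre p' l = pre p l) (h' : pre r' l = pre r l) :
    pre (join p' r') l = pre (join p r) l := by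
  rw [pre_eq_iff] at h h' ⊢
  intro i hi
  unfold join
  split_ifs
  · exact h _ (by omega)
  · exact h' _ (by omega)

theorem Sends.cont {W : List ℕ × ℕ × ℕ → Prop} {p q : ℕ → ℕ} (h : Sends W p q) (l : ℕ) :
    ∃ m, ∀ p' q', Sends W p' q' → pre p' m = pre p m → pre q' l = pre q l := by
  have h1 : ∀ i, ∃ m, W (pre p m, i, q i) := fun i => (h i (q i)).2 rfl
  choose M hM using h1
  refine ⟨∑ i ∈ Finset.range l, M i, fun p' q' h' hp => ?_⟩
  rw [pre_eq_iff]
  intro i hi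
  have h2 : M i ≤ ∑ i ∈ Finset.range l, M i :=
    Finset.single_le_sum (f := M) (fun _ _ => Nat.zero_le _) (Finset.mem_range.2 hi)
  have h3 := pre_le hp h2
  exact ((h' i (q i)).1 ⟨M i, by rw [h3]; exact hM i⟩).symm

theorem isOpen_pre {α : Type} [TopologicalSpace α] [DiscreteTopology α] (q : ℕ → α) (m : ℕ) :
    IsOpen {q' : ℕ → α | pre q' m = pre q m} := by
  have : {q' : ℕ → α | pre q' m = pre q m} = PiNat.cylinder (E := fun _ => α) q m := by
    ext q'
    rw [PiNat.mem_cylinder_iff]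
    exact pre_eq_iff
  rw [this]
  exact PiNat.isOpen_cylinder _ _ _

theorem exists_pre {U : Set (ℕ → ℕ)} (hU : IsOpen U) {q : ℕ → ℕ} (hq : q ∈ U) :
    ∃ m, ∀ q', pre q' m = pre q m → q' ∈ U := by
  obtain ⟨_, ⟨x, m, rfl⟩, hqx, hxU⟩ :=
    (PiNat.isTopologicalBasis_cylinders (fun _ : ℕ => ℕ)).exists_subset_of_mem_open hq hU
  rw [PiNat.mem_cylinder_iff] at hqx
  refine ⟨m, fun q' hq' => hxU ?_⟩
  rw [PiNat.mem_cylinder_iff]
  rw [pre_eq_iff] at hq'
  intro i hi
  rw [hq' i hi, hqx i hi]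

/-- Baire category theorem -/
theorem baire_pre {E : ℕ → Set (ℕ → ℕ)}
    (hE : ∀ k, ∀ q ∉ E k, ∃ m, ∀ q', pre q' m = pre q m → q' ∉ E k)
    (hcov : ∀ q, ∃ k, q ∈ E k) : ∃ k q m, ∀ q', pre q' m = pre q m → q' ∈ E k := by
  have hcl : ∀ k, IsClosed (E k) := by
    intro k
    rw [← isOpen_compl_iff, isOpen_iff_mem_nhds]
    intro q hq
    obtain ⟨m, hm⟩ := hE k q hq
    exact Filter.mem_of_superset ((isOpen_pre q m).mem_nhds rfl) fun q' hq' => hm q' hq'
  obtain ⟨k, q, hq⟩ := nonempty_interior_of_iUnion_of_closed hcl (by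
    rw [eq_univ_iff_forall]
    intro q
    exact mem_iUnion.2 (hcov q))
  obtain ⟨m, hm⟩ := exists_pre isOpen_interior hq
  exact ⟨k, q, m, fun q' hq' => interior_subset (hm q' hq')⟩

/-- Baire category theorem, second form -/
theorem baire_dense {D : ℕ → Set (ℕ → ℕ)} {p₁ : ℕ → ℕ} {m₁ : ℕ}
    (h : ∀ N p M, pre p m₁ = pre p₁ m₁ → ∃ p' M', pre p' M = pre p M ∧
      ∀ p'', pre p'' M' = pre p' M' → p'' ∈ D N) :
    ∃ p, pre p m₁ = pre p₁ m₁ ∧ ∀ N, p ∈ D N := by
  set U : ℕ → Set (ℕ → ℕ) := fun N => {p | pre p m₁ ≠ pre p₁ m₁ ∨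
    ∃ M', ∀ p'', pre p'' M' = pre p M' → p'' ∈ D N} with hU
  have hUo : ∀ N, IsOpen (U N) := by
    intro N
    rw [isOpen_iff_mem_nhds]
    rintro p (hp | ⟨M', hp⟩)
    · refine Filter.mem_of_superset ((isOpen_pre p m₁).mem_nhds rfl) fun p' hp' => Or.inl ?_
      have : pre p' m₁ = pre p m₁ := hp'
      rwa [this]
    · refine Filter.mem_of_superset ((isOpen_pre p M').mem_nhds rfl) fun p' hp' =>
        Or.inr ⟨M', fun p'' hp'' => hp p'' (hp''.trans hp')⟩
  have hUd : ∀ N, Dense (U N) := by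
    intro N
    rw [dense_iff_inter_open]
    rintro W hW ⟨p, hp⟩
    by_cases hpp : pre p m₁ = pre p₁ m₁
    · obtain ⟨M, hM⟩ := exists_pre hW hp
      obtain ⟨p', M', h1, h2⟩ := h N p M hpp
      exact ⟨p', hM p' h1, Or.inr ⟨M', h2⟩⟩
    · exact ⟨p, hp, Or.inl hpp⟩
  obtain ⟨p, hp, hpU⟩ := (dense_iff_inter_open.1 (dense_iInter_of_isOpen_nat hUo hUd))
    {p | pre p m₁ = pre p₁ m₁} (isOpen_pre p₁ m₁) ⟨p₁, rfl⟩
  refine ⟨p, hp, fun N => ?_⟩
  rcases mem_iInter.1 hpU N with h1 | ⟨M', h1⟩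
  · exact absurd hp h1
  · exact h1 p rfl

theorem isOpen_cyl (e : ℕ) : IsOpen (cyl e) := by
  rw [isOpen_iff_mem_nhds]
  rintro z ⟨m, hm⟩
  refine Filter.mem_of_superset ((isOpen_pre z m).mem_nhds rfl) fun z' hz' => ⟨m, ?_⟩
  have : pre z' m = pre z m := hz'
  rw [this]; exact hm

/-- the sequence of the finite approximations of the characteristic function of the set
enumerated by `q` -/
noncomputable def nu (q : ℕ → ℕ) : ℕ → ℕ := fun i =>
  open Classical in if i.unpair.2 + 1 ∈ pre q i.unpair.1 then 1 else 0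

theorem nu_pre {q q' : ℕ → ℕ} {m : ℕ} (h : pre q' m = pre q m) : pre (nu q') m = pre (nu q) m := by
  rw [pre_eq_iff]
  intro i hi
  have h1 : pre q' i.unpair.1 = pre q i.unpair.1 :=
    pre_le h ((Nat.unpair_left_le i).trans hi.le)
  simp only [nu, h1]

theorem nu_mem {q : ℕ → ℕ} {e i : ℕ} (h : q i = e + 1) : ∀ s, i + 1 ≤ s →
    nu q (Nat.pair s e) = 1 := by
  intro s hs
  simp only [nu, Nat.unpair_pair]
  rw [if_pos (mem_pre.2 ⟨i, by omega, h⟩)]

theorem nu_notMem {q : ℕ → ℕ} {e : ℕ} (h : ¬ ∃ i, q i = e + 1) (s : ℕ) :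
    nu q (Nat.pair s e) = 0 := by
  simp only [nu, Nat.unpair_pair]
  rw [if_neg]
  intro h1
  obtain ⟨i, -, hi⟩ := mem_pre.1 h1
  exact h ⟨i, hi⟩

theorem dom_nu (q : ℕ → ℕ) : Lim.Dom (nu q) := by
  classical
  refine ⟨fun e => if ∃ i, q i = e + 1 then 1 else 0, fun e => ?_⟩
  by_cases h : ∃ i, q i = e + 1
  · obtain ⟨i, hi⟩ := h
    refine ⟨i + 1, fun s hs => ?_⟩
    rw [nu_mem hi s hs]
    exact (if_pos ⟨i, hi⟩).symm
  · refine ⟨0, fun s _ => ?_⟩
    rw [nu_notMem h]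
    exact (if_neg h).symm

theorem val_nu_pos {q y : ℕ → ℕ} (hy : Lim.Val (nu q) y) {e : ℕ} (h : ∃ i, q i = e + 1) :
    y e = 1 := by
  obtain ⟨i, hi⟩ := h
  obtain ⟨N, hN⟩ := hy e
  rw [← hN (max N (i + 1)) (le_max_left _ _)]
  exact nu_mem hi _ (le_max_right _ _)

theorem val_nu_neg {q y : ℕ → ℕ} (hy : Lim.Val (nu q) y) {e : ℕ} (h : ¬ ∃ i, q i = e + 1) :
    y e = 0 := by
  obtain ⟨N, hN⟩ := hy e
  rw [← hN N le_rfl]
  exact nu_notMem h _

/-- names consisting of boxes whose closures miss the set -/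
theorem exists_name {Y : Set Q} (hY : IsClosed Y) : ∃ r : ℕ → ℕ,
    (Yᶜ = ⋃ (i : ℕ) (e : ℕ) (_ : r i = e + 1), boxQ e) ∧
      ∀ i e, r i = e + 1 → Disjoint (closure (boxQ e)) Y := by
  classical
  refine ⟨fun e => if Disjoint (closure (boxQ e)) Y then e + 1 else 0, ?_, ?_⟩
  · ext x
    simp only [mem_iUnion, exists_prop]
    constructor
    · intro hx
      obtain ⟨P, hP, hxP, hPY⟩ := normal_exists_closure_subset (isClosed_singleton (x := x))
        hY.isOpen_compl (singleton_subset_iff.2 hx)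
      obtain ⟨e, hxe, heP⟩ := boxQ_base P x hP (hxP rfl)
      refine ⟨e, e, ?_, hxe⟩
      rw [if_pos]
      rw [Set.disjoint_left]
      intro z hz
      exact hPY (closure_mono heP hz)
    · rintro ⟨i, e, hie, hx⟩
      split_ifs at hie with h
      have : i = e := by omega
      subst this
      exact fun hxY => Set.disjoint_left.1 h (subset_closure hx) hxY
  · intro i e hie
    simp only at hie
    split_ifs at hie with h
    have : i = e := by omega
    subst this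
    exact h

/-- a name may be preceded by finitely many boxes which miss the set -/
theorem exists_name_prefix {Y : Set Q} (hY : IsClosed Y) (r : ℕ → ℕ) (l : ℕ)
    (h : ∀ i < l, ∀ e, r i = e + 1 → Disjoint (boxQ e) Y) : ∃ r' : ℕ → ℕ,
    (Yᶜ = ⋃ (i : ℕ) (e : ℕ) (_ : r' i = e + 1), boxQ e) ∧ pre r' l = pre r l := by
  obtain ⟨r₀, hr₀, -⟩ := exists_name hY
  refine ⟨fun i => if i < l then r i else r₀ (i - l), ?_, ?_⟩
  · ext x
    simp only [mem_iUnion, exists_prop]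
    constructor
    · intro hx
      rw [hr₀] at hx
      simp only [mem_iUnion, exists_prop] at hx
      obtain ⟨i, e, hie, hxe⟩ := hx
      refine ⟨i + l, e, ?_, hxe⟩
      rw [if_neg (by omega), Nat.add_sub_cancel]
      exact hie
    · rintro ⟨i, e, hie, hxe⟩
      split_ifs at hie with h1
      · exact fun hxY => Set.disjoint_left.1 (h i h1 e hie) hxe hxY
      · rw [hr₀]
        simp only [mem_iUnion, exists_prop]
        exact ⟨i - l, e, hie, hxe⟩
  · rw [pre_eq_iff]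
    intro i hi
    exact if_pos hi

end Pool.Agent.CMTW
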