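import Pool.Agent.Lib_fca3ff.Geo
import Pool.Agent.Lib_fca3ff.Dim

set_option autoImplicit false

/-!
# Trees of cells and connected sets
-/

namespace Pool.Agent.CMTW

open Set

/-- number of a cell -/
def enc (c : List ℕ) : ℕ := Encodable.encode c

theorem enc_inj {c c' : List ℕ} (h : enc c = enc c') : c = c' := Encodable.encode_injective h

/-- the parent of a cell -/
def parent (c : List ℕ) : List ℕ := (c.take (c.length - 1)).map (fun d => d / 2)

/-- two cells of the same level are adjacent or equal -/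
def adj (c c' : List ℕ) : Prop :=
  ∀ i < c.length, c.getD i 0 ≤ c'.getD i 0 + 1 ∧ c'.getD i 0 ≤ c.getD i 0 + 1

/-- the conditions on the tree of cells `z` with parameter `k = ⟨i, ⟨a, e⟩⟩` -/
structure Good (X : Set Q) (k : ℕ) (z : ℕ → Bool) : Prop where
  meets : ∀ m, ∀ c ∈ cells m, z (enc c) = true → ∃ x ∈ X, x ∈ cell c
  par : ∀ m, ∀ c ∈ cells (m + 1), z (enc c) = true → z (enc (parent c)) = true
  conn : ∀ m, ∀ S : List (List ℕ), (∃ c ∈ cells m, c ∈ S ∧ z (enc c) = true) →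
    (∃ c ∈ cells m, c ∉ S ∧ z (enc c) = true) →
    ∃ c ∈ cells m, ∃ c' ∈ cells m, c ∈ S ∧ c' ∉ S ∧ z (enc c) = true ∧ z (enc c') = true ∧
      adj c c'
  low : ∀ m, k.unpair.1 < m → k.unpair.2.unpair.2 ≤ m → ∃ c ∈ cells m, z (enc c) = true ∧
    c.getD k.unpair.1 0 ≤ k.unpair.2.unpair.1 * 2 ^ (m - k.unpair.2.unpair.2)
  high : ∀ m, k.unpair.1 < m → k.unpair.2.unpair.2 ≤ m → ∃ c ∈ cells m, z (enc c) = true ∧
    (k.unpair.2.unpair.1 + 1) * 2 ^ (m - k.unpair.2.unpair.2) ≤ c.getD k.unpair.1 0 + 1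

theorem parent_length (c : List ℕ) : (parent c).length = c.length - 1 := by
  unfold parent
  rw [List.length_map, List.length_take]
  omega

theorem parent_getD {c : List ℕ} {i : ℕ} (hi : i < c.length - 1) :
    (parent c).getD i 0 = c.getD i 0 / 2 := by
  unfold parent
  rw [List.getD_eq_getElem?_getD, List.getElem?_map, List.getElem?_take, if_pos hi,
    List.getD_eq_getElem?_getD, List.getElem?_eq_getElem (by omega)]
  rfl

theorem parent_mem {m : ℕ} {c : List ℕ} (hc : c ∈ cells (m + 1)) : parent c ∈ cells m := by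
  rw [mem_cells] at hc ⊢
  refine ⟨by rw [parent_length, hc.1]; rfl, ?_⟩
  intro d hd
  unfold parent at hd
  obtain ⟨d', hd', rfl⟩ := List.mem_map.1 hd
  have h1 := hc.2 d' (List.mem_of_mem_take hd')
  rw [pow_succ] at h1
  omega

theorem cell_subset_parent {m : ℕ} {c : List ℕ} (hc : c ∈ cells (m + 1)) :
    cell c ⊆ cell (parent c) := by
  have hl := (mem_cells.1 hc).1
  intro x hx
  rw [mem_cell, parent_length, hl]
  rw [mem_cell, hl] at hx
  intro i hi
  simp only [Nat.add_sub_cancel] at hi ⊢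
  rw [parent_getD (by omega)]
  obtain ⟨h1, h2⟩ := hx i (by omega)
  have h3 : 2 * (c.getD i 0 / 2) ≤ c.getD i 0 := by omega
  have h4 : c.getD i 0 ≤ 2 * (c.getD i 0 / 2) + 1 := by omega
  have h3' : 2 * ((c.getD i 0 / 2 : ℕ) : ℝ) ≤ c.getD i 0 := by exact_mod_cast h3
  have h4' : (c.getD i 0 : ℝ) ≤ 2 * ((c.getD i 0 / 2 : ℕ) : ℝ) + 1 := by exact_mod_cast h4
  rw [pow_succ] at h1 h2
  constructor <;> linarith

theorem adj_of_mem {m : ℕ} {c c' : List ℕ} (hc : c ∈ cells m) (hc' : c' ∈ cells m) {x : Q}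
    (hx : x ∈ cell c) (hx' : x ∈ cell c') : adj c c' := by
  have hl := (mem_cells.1 hc).1
  have hl' := (mem_cells.1 hc').1
  intro i hi
  rw [hl] at hi
  rw [mem_cell, hl] at hx
  rw [mem_cell, hl'] at hx'
  obtain ⟨h1, h2⟩ := hx i hi
  obtain ⟨h3, h4⟩ := hx' i hi
  constructor
  · have : (c.getD i 0 : ℝ) ≤ c'.getD i 0 + 1 := by linarith
    exact_mod_cast this
  · have : (c'.getD i 0 : ℝ) ≤ c.getD i 0 + 1 := by linarith
    exact_mod_cast this

theorem inter_of_adj {m : ℕ} {c c' : List ℕ} (hc : c ∈ cells m) (hc' : c' ∈ cells m)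
    (h : adj c c') : (cell c ∩ cell c').Nonempty := by
  have hl := (mem_cells.1 hc).1
  refine ⟨corner m (fun i => max (c.getD i 0) (c'.getD i 0)), corner_mem hc ?_,
    corner_mem hc' ?_⟩
  · intro i hi
    have := h i (by omega)
    constructor <;> omega
  · intro i hi
    have := h i (by omega)
    constructor <;> omega

theorem isClosed_cell (c : List ℕ) : IsClosed (cell c) := by
  have : cell c = ⋂ i ∈ Finset.range c.length, {x : Q | (c.getD i 0 : ℝ) ≤ 2 ^ c.length * x i ∧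
      2 ^ c.length * (x i : ℝ) ≤ c.getD i 0 + 1} := by
    ext x
    simp [mem_cell]
  rw [this]
  apply isClosed_biInter
  intro i _
  have hc : Continuous fun y : Q => (2 : ℝ) ^ c.length * (y i : ℝ) :=
    continuous_const.mul (continuous_subtype_val.comp (continuous_apply _))
  exact (isClosed_le continuous_const hc).inter (isClosed_le hc continuous_const)

theorem isPreconnected_cell (c : List ℕ) : IsPreconnected (cell c) := by
  have : cell c = Set.pi univ (fun i : ℕ => {t : unitInterval | i < c.length →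
      (c.getD i 0 : ℝ) ≤ 2 ^ c.length * t ∧ 2 ^ c.length * (t : ℝ) ≤ c.getD i 0 + 1}) := by
    ext x
    simp [mem_cell]
  rw [this]
  apply isPreconnected_univ_pi
  intro i
  apply Set.OrdConnected.isPreconnected
  constructor
  intro s hs t ht u hu hi
  have h1 := hs hi
  have h2 := ht hi
  have h3 : (s : ℝ) ≤ u := hu.1
  have h4 : (u : ℝ) ≤ t := hu.2
  have hp := two_pow_pos' c.length
  constructor <;> nlinarith [h1.1, h2.2]

/-- level `m` of the tree -/
def U (z : ℕ → Bool) (m : ℕ) : Set Q := {x | ∃ c ∈ cells m, z (enc c) = true ∧ x ∈ cell c}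

theorem isClosed_U (z : ℕ → Bool) (m : ℕ) : IsClosed (U z m) := by
  have : U z m = ⋃ c ∈ {c | c ∈ cells m ∧ z (enc c) = true}, cell c := by
    ext x
    simp only [U, mem_iUnion, Set.mem_ofPred_eq]
    constructor
    · rintro ⟨c, hc, hz, hx⟩; exact ⟨c, ⟨hc, hz⟩, hx⟩
    · rintro ⟨c, ⟨hc, hz⟩, hx⟩; exact ⟨c, hc, hz, hx⟩
  rw [this]
  apply Set.Finite.isClosed_biUnion
  · exact (List.finite_toSet (cells m)).subset fun c hc => hc.1
  · intro c _
    exact isClosed_cell c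

/-- nested intersections of compact connected sets are connected -/
theorem isPreconnected_nested {F : ℕ → Set Q} (hF : ∀ m, IsClosed (F m))
    (hmono : ∀ m, F (m + 1) ⊆ F m) (hpre : ∀ m, IsPreconnected (F m)) :
    IsPreconnected (⋂ m, F m) := by
  have hanti : Antitone F := antitone_nat_of_succ_le hmono
  have hclosed : IsClosed (⋂ m, F m) := isClosed_iInter hF
  rw [isPreconnected_closed_iff]
  intro A B hA hB hAB hYA hYB
  by_contra hcon
  have hdisj : Disjoint ((⋂ m, F m) ∩ A) ((⋂ m, F m) ∩ B) := by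
    rw [Set.disjoint_left]
    intro x hx hx'
    exact hcon ⟨x, hx.1, hx.2, hx'.2⟩
  obtain ⟨O, P, hO, hP, hAO, hBP, hOP⟩ := SeparatedNhds.of_isCompact_isCompact
    (hclosed.inter hA).isCompact (hclosed.inter hB).isCompact hdisj
  have hsub : (⋂ m, F m) ⊆ O ∪ P := by
    intro x hx
    rcases hAB hx with h | h
    · exact Or.inl (hAO ⟨hx, h⟩)
    · exact Or.inr (hBP ⟨hx, h⟩)
  obtain ⟨m, hm⟩ : ∃ m, F m ⊆ O ∪ P := by
    by_contra hno
    push Not at hno
    have hne : ∀ m, (F m \ (O ∪ P)).Nonempty := fun m => by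
      obtain ⟨x, hx, hx'⟩ := Set.not_subset.1 (hno m)
      exact ⟨x, hx, hx'⟩
    have hcl : ∀ m, IsClosed (F m \ (O ∪ P)) := fun m => by
      rw [Set.sdiff_eq]
      exact (hF m).inter (hO.union hP).isClosed_compl
    obtain ⟨x, hx⟩ := IsCompact.nonempty_iInter_of_sequence_nonempty_isCompact_isClosed
      (fun m => F m \ (O ∪ P)) (fun m x hx => ⟨hmono m hx.1, hx.2⟩) hne
      (hcl 0).isCompact hcl
    rw [mem_iInter] at hx
    exact (hx 0).2 (hsub (mem_iInter.2 fun m => (hx m).1))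
  obtain ⟨x, hx⟩ := hYA
  obtain ⟨y, hy⟩ := hYB
  obtain ⟨w, hw, hw'⟩ := hpre m O P hO hP hm ⟨x, mem_iInter.1 hx.1 m, hAO hx⟩
    ⟨y, mem_iInter.1 hy.1 m, hBP hy⟩
  exact Set.disjoint_left.1 hOP hw'.1 hw'.2

theorem Good.isPreconnected_U {X : Set Q} {k : ℕ} {z : ℕ → Bool} (h : Good X k z) (m : ℕ) :
    IsPreconnected (U z m) := by
  classical
  rw [isPreconnected_closed_iff]
  intro A B hA hB hAB hUA hUB
  by_contra hcon
  have hdisj : ∀ x ∈ U z m, x ∈ A → x ∈ B → False := fun x hx h1 h2 =>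
    hcon ⟨x, hx, h1, h2⟩
  have hcell : ∀ c ∈ cells m, z (enc c) = true → (cell c ⊆ A ∨ cell c ⊆ B) := by
    intro c hc hz
    have hsubU : cell c ⊆ U z m := fun x hx => ⟨c, hc, hz, hx⟩
    by_contra hno
    push Not at hno
    obtain ⟨x, hx, hxA⟩ := Set.not_subset.1 hno.1
    obtain ⟨y, hy, hyB⟩ := Set.not_subset.1 hno.2
    have hxB : x ∈ B := (hAB (hsubU hx)).resolve_left hxA
    have hyA : y ∈ A := (hAB (hsubU hy)).resolve_right hyB
    obtain ⟨w, hw, hwA, hwB⟩ := isPreconnected_closed_iff.1 (isPreconnected_cell c) A B hA hB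
      (fun x hx => hAB (hsubU hx)) ⟨y, hy, hyA⟩ ⟨x, hx, hxB⟩
    exact hdisj w (hsubU hw) hwA hwB
  obtain ⟨x, ⟨c, hc, hz, hxc⟩, hxA⟩ := hUA
  obtain ⟨y, ⟨c', hc', hz', hyc'⟩, hyB⟩ := hUB
  have hcA : cell c ⊆ A := by
    rcases hcell c hc hz with h1 | h1
    · exact h1
    · exact (hdisj x ⟨c, hc, hz, hxc⟩ hxA (h1 hxc)).elim
  have hcB : cell c' ⊆ B := by
    rcases hcell c' hc' hz' with h1 | h1
    · exact (hdisj y ⟨c', hc', hz', hyc'⟩ (h1 hyc') hyB).elim
    · exact h1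
  obtain ⟨d, hd, d', hd', hdS, hdS', hzd, hzd', hadj⟩ := h.conn m
    ((cells m).filter fun d => cell d ⊆ A)
    ⟨c, hc, List.mem_filter.2 ⟨hc, by simpa using hcA⟩, hz⟩
    ⟨c', hc', fun hmem => by
      have h1 : cell c' ⊆ A := by simpa using (List.mem_filter.1 hmem).2
      obtain ⟨w, hw⟩ := cell_nonempty hc'
      exact hdisj w ⟨c', hc', hz', hw⟩ (h1 hw) (hcB hw), hz'⟩
  have hdA : cell d ⊆ A := by simpa using (List.mem_filter.1 hdS).2
  have hdB : cell d' ⊆ B := by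
    rcases hcell d' hd' hzd' with h1 | h1
    · exact (hdS' (List.mem_filter.2 ⟨hd', by simpa using h1⟩)).elim
    · exact h1
  obtain ⟨w, hw, hw'⟩ := inter_of_adj hd hd' hadj
  exact hdisj w ⟨d, hd, hzd, hw⟩ (hdA hw) (hdB hw')

theorem Good.U_anti {X : Set Q} {k : ℕ} {z : ℕ → Bool} (h : Good X k z) (m : ℕ) :
    U z (m + 1) ⊆ U z m := by
  rintro x ⟨c, hc, hz, hx⟩
  exact ⟨parent c, parent_mem hc, h.par m c hc hz, cell_subset_parent hc hx⟩

theorem Good.subset {X : Set Q} (hX : IsClosed X) {k : ℕ} {z : ℕ → Bool} (h : Good X k z) :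
    (⋂ m, U z m) ⊆ X := by
  intro x hx
  by_contra hxX
  obtain ⟨N, hN⟩ := near_of_isOpen hX.isOpen_compl hxX
  obtain ⟨c, hc, hz, hxc⟩ := mem_iInter.1 hx N
  obtain ⟨y, hyX, hyc⟩ := h.meets N c hc hz
  refine hN y ?_ hyX
  intro i hi
  have := nearB_of_cell hc hxc hyc i hi
  linarith

theorem Good.exists_pts {X : Set Q} {k : ℕ} {z : ℕ → Bool} (h : Good X k z) :
    ∃ x ∈ ⋂ m, U z m, ∃ y ∈ ⋂ m, U z m, x ≠ y := by
  set i := k.unpair.1 with hi
  set a := k.unpair.2.unpair.1 with ha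
  set e := k.unpair.2.unpair.2 with he
  have hanti : Antitone (U z) := antitone_nat_of_succ_le h.U_anti
  have hc : Continuous fun y : Q => (2 : ℝ) ^ e * (y i : ℝ) :=
    continuous_const.mul (continuous_subtype_val.comp (continuous_apply _))
  have key : ∀ T : Set Q, IsClosed T → (∀ m, i < m → e ≤ m → (U z m ∩ T).Nonempty) →
      ∃ x ∈ ⋂ m, U z m, x ∈ T := by
    intro T hT hne
    have hne' : ∀ m, (U z m ∩ T).Nonempty := by
      intro m
      obtain ⟨x, hx, hxT⟩ := hne (max m (max (i + 1) e)) (by omega) (by omega)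
      exact ⟨x, hanti (le_max_left _ _) hx, hxT⟩
    obtain ⟨x, hx⟩ := IsCompact.nonempty_iInter_of_sequence_nonempty_isCompact_isClosed
      (fun m => U z m ∩ T) (fun m x hx => ⟨h.U_anti m hx.1, hx.2⟩) hne'
      ((isClosed_U z 0).inter hT).isCompact (fun m => (isClosed_U z m).inter hT)
    rw [mem_iInter] at hx
    exact ⟨x, mem_iInter.2 fun m => (hx m).1, (hx 0).2⟩
  obtain ⟨x, hx, hxT⟩ := key {x : Q | (2 : ℝ) ^ e * (x i : ℝ) ≤ a}
    (isClosed_le hc continuous_const) (by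
      intro m him hem
      obtain ⟨c, hcm, hz, hle⟩ := h.low m him hem
      have hcor := corner_mem hcm (f := fun i => c.getD i 0) fun i _ => ⟨le_rfl, by omega⟩
      refine ⟨_, ⟨c, hcm, hz, hcor⟩, ?_⟩
      have h1 := corner_apply (f := fun i => c.getD i 0) him (getD_lt hcm _).le
      have h2 : (c.getD i 0 : ℝ) ≤ a * 2 ^ (m - e) := by exact_mod_cast hle
      have h3 : (2 : ℝ) ^ m = 2 ^ e * 2 ^ (m - e) := by rw [← pow_add]; congr 1; omega
      have h4 := two_pow_pos' (m - e)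
      show (2 : ℝ) ^ e * (corner m (fun i => c.getD i 0) i : ℝ) ≤ a
      rw [h3] at h1
      have h5 : (2 ^ e * (corner m (fun i => c.getD i 0) i : ℝ)) * 2 ^ (m - e) ≤
          a * 2 ^ (m - e) := by
        calc (2 ^ e * (corner m (fun i => c.getD i 0) i : ℝ)) * 2 ^ (m - e)
            = 2 ^ e * 2 ^ (m - e) * (corner m (fun i => c.getD i 0) i : ℝ) := by ring
          _ = c.getD i 0 := h1
          _ ≤ _ := h2
      exact le_of_mul_le_mul_right h5 h4)
  obtain ⟨y, hy, hyT⟩ := key {x : Q | (a : ℝ) + 1 ≤ (2 : ℝ) ^ e * (x i : ℝ)}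
    (isClosed_le continuous_const hc) (by
      intro m him hem
      obtain ⟨c, hcm, hz, hle⟩ := h.high m him hem
      have hcor := corner_mem hcm (f := fun i => c.getD i 0 + 1) fun i _ => ⟨by omega, le_rfl⟩
      refine ⟨_, ⟨c, hcm, hz, hcor⟩, ?_⟩
      have h1 := corner_apply (f := fun i => c.getD i 0 + 1) him (getD_lt hcm _)
      have h2 : ((a : ℝ) + 1) * 2 ^ (m - e) ≤ ((c.getD i 0 + 1 : ℕ) : ℝ) := by
        exact_mod_cast hle
      have h3 : (2 : ℝ) ^ m = 2 ^ e * 2 ^ (m - e) := by rw [← pow_add]; congr 1; omega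
      have h4 := two_pow_pos' (m - e)
      show (a : ℝ) + 1 ≤ (2 : ℝ) ^ e * (corner m (fun i => c.getD i 0 + 1) i : ℝ)
      rw [h3] at h1
      have h5 : ((a : ℝ) + 1) * 2 ^ (m - e) ≤
          (2 ^ e * (corner m (fun i => c.getD i 0 + 1) i : ℝ)) * 2 ^ (m - e) := by
        calc ((a : ℝ) + 1) * 2 ^ (m - e) ≤ _ := h2
          _ = 2 ^ e * 2 ^ (m - e) * (corner m (fun i => c.getD i 0 + 1) i : ℝ) := h1.symm
          _ = _ := by ring
      exact le_of_mul_le_mul_right h5 h4)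
  refine ⟨x, hx, y, hy, ?_⟩
  rintro rfl
  have h1 : (2 : ℝ) ^ e * (x i : ℝ) ≤ a := hxT
  have h2 : (a : ℝ) + 1 ≤ (2 : ℝ) ^ e * (x i : ℝ) := hyT
  linarith

/-- a closed set of positive dimension has a good tree -/
theorem exists_good {X : Set Q} (hX : IsClosed X) (hdim : ¬ CovDimLT X 1) :
    ∃ k z, Good X k z := by
  classical
  obtain ⟨Y, hYX, hpre, x₀, hx₀, y₀, hy₀, hne⟩ := exists_preconnected hX hdim
  obtain ⟨i, x, hx, y, hy, hlt⟩ : ∃ i, ∃ x ∈ Y, ∃ y ∈ Y, (x i : ℝ) < y i := by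
    by_contra hcon
    push Not at hcon
    apply hne
    funext i
    exact Subtype.ext (le_antisymm (hcon i y₀ hy₀ x₀ hx₀) (hcon i x₀ hx₀ y₀ hy₀))
  obtain ⟨e, he⟩ : ∃ e : ℕ, 2 < 2 ^ e * ((y i : ℝ) - x i) := by
    obtain ⟨e, he⟩ := exists_nat_gt (2 / ((y i : ℝ) - x i))
    refine ⟨e, ?_⟩
    have h1 : (0 : ℝ) < (y i : ℝ) - x i := by linarith
    rw [div_lt_iff₀ h1] at he
    have h2 : (e : ℝ) < 2 ^ e := by exact_mod_cast Nat.lt_two_pow_self
    nlinarith
  set a : ℕ := ⌈(2 : ℝ) ^ e * x i⌉₊ with ha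
  have h0 : (0 : ℝ) ≤ 2 ^ e * x i := mul_nonneg (by positivity) (x i).2.1
  have ha1 : (2 : ℝ) ^ e * x i ≤ a := Nat.le_ceil _
  have ha2 : (a : ℝ) + 1 ≤ 2 ^ e * y i := by
    have := Nat.ceil_lt_add_one h0
    rw [← ha] at this
    nlinarith
  set z : ℕ → Bool := fun n => decide (∃ c, enc c = n ∧ (cell c ∩ Y).Nonempty) with hz
  have hzc : ∀ c, z (enc c) = true ↔ (cell c ∩ Y).Nonempty := by
    intro c
    simp only [hz, decide_eq_true_eq]
    constructor
    · rintro ⟨c', hc', h⟩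
      rwa [enc_inj hc'] at h
    · intro h
      exact ⟨c, rfl, h⟩
  refine ⟨Nat.pair i (Nat.pair a e), z, ?_, ?_, ?_, ?_, ?_⟩
  · intro m c _ hzz
    obtain ⟨w, hw, hwY⟩ := (hzc c).1 hzz
    exact ⟨w, hYX hwY, hw⟩
  · intro m c hc hzz
    obtain ⟨w, hw, hwY⟩ := (hzc c).1 hzz
    exact (hzc _).2 ⟨w, cell_subset_parent hc hw, hwY⟩
  · intro m S hS hS'
    by_contra hcon
    push Not at hcon
    set A : Set Q := ⋃ c ∈ {c | c ∈ cells m ∧ c ∈ S ∧ z (enc c) = true}, cell c with hA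
    set B : Set Q := ⋃ c ∈ {c | c ∈ cells m ∧ c ∉ S ∧ z (enc c) = true}, cell c with hB
    have hAc : IsClosed A := by
      apply Set.Finite.isClosed_biUnion
      · exact (List.finite_toSet (cells m)).subset fun c hc => hc.1
      · intro c _; exact isClosed_cell c
    have hBc : IsClosed B := by
      apply Set.Finite.isClosed_biUnion
      · exact (List.finite_toSet (cells m)).subset fun c hc => hc.1
      · intro c _; exact isClosed_cell c
    have hcov : Y ⊆ A ∪ B := by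
      intro w hw
      obtain ⟨c, hc, hwc⟩ := exists_cell m w
      have hzz := (hzc c).2 ⟨w, hwc, hw⟩
      by_cases hcS : c ∈ S
      · exact Or.inl (mem_biUnion (show c ∈ {c | c ∈ cells m ∧ c ∈ S ∧ z (enc c) = true} from
          ⟨hc, hcS, hzz⟩) hwc)
      · exact Or.inr (mem_biUnion (show c ∈ {c | c ∈ cells m ∧ c ∉ S ∧ z (enc c) = true} from
          ⟨hc, hcS, hzz⟩) hwc)
    obtain ⟨c, hc, hcS, hzz⟩ := hS
    obtain ⟨c', hc', hcS', hzz'⟩ := hS'
    obtain ⟨w, hw, hwY⟩ := (hzc c).1 hzz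
    obtain ⟨w', hw', hwY'⟩ := (hzc c').1 hzz'
    obtain ⟨v, hvY, hvA, hvB⟩ := isPreconnected_closed_iff.1 hpre A B hAc hBc hcov
      ⟨w, hwY, mem_biUnion (show c ∈ {c | c ∈ cells m ∧ c ∈ S ∧ z (enc c) = true} from
          ⟨hc, hcS, hzz⟩) hw⟩
      ⟨w', hwY', mem_biUnion (show c' ∈ {c | c ∈ cells m ∧ c ∉ S ∧ z (enc c) = true} from
          ⟨hc', hcS', hzz'⟩) hw'⟩
    obtain ⟨d, ⟨hd, hdS, hzd⟩, hvd⟩ := mem_iUnion₂.1 hvA
    obtain ⟨d', ⟨hd', hdS', hzd'⟩, hvd'⟩ := mem_iUnion₂.1 hvB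
    exact hcon d hd d' hd' hdS hdS' hzd hzd' (adj_of_mem hd hd' hvd hvd')
  · intro m him hem
    simp only [Nat.unpair_pair] at him hem ⊢
    refine ⟨pre (fun j => dig m (x j)) m, pre_mem_cells fun j _ => dig_lt _ _, ?_, ?_⟩
    · exact (hzc _).2 ⟨x, mem_cell_pre.2 fun j _ => ⟨dig_le _ _, le_dig _ _⟩, hx⟩
    · rw [pre_getD _ _ _ _ him]
      have h1 := dig_le m (x i)
      have h3 : (2 : ℝ) ^ m = 2 ^ e * 2 ^ (m - e) := by rw [← pow_add]; congr 1; omega
      have h4 := two_pow_pos' (m - e)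
      have h5 : (dig m (x i) : ℝ) ≤ a * 2 ^ (m - e) := by
        calc (dig m (x i) : ℝ) ≤ 2 ^ m * x i := h1
          _ = (2 ^ e * x i) * 2 ^ (m - e) := by rw [h3]; ring
          _ ≤ _ := mul_le_mul_of_nonneg_right ha1 h4.le
      exact_mod_cast h5
  · intro m him hem
    simp only [Nat.unpair_pair] at him hem ⊢
    refine ⟨pre (fun j => dig m (y j)) m, pre_mem_cells fun j _ => dig_lt _ _, ?_, ?_⟩
    · exact (hzc _).2 ⟨y, mem_cell_pre.2 fun j _ => ⟨dig_le _ _, le_dig _ _⟩, hy⟩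
    · rw [pre_getD _ _ _ _ him]
      have h1 := le_dig m (y i)
      have h3 : (2 : ℝ) ^ m = 2 ^ e * 2 ^ (m - e) := by rw [← pow_add]; congr 1; omega
      have h4 := two_pow_pos' (m - e)
      have h5 : ((a : ℝ) + 1) * 2 ^ (m - e) ≤ dig m (y i) + 1 := by
        calc ((a : ℝ) + 1) * 2 ^ (m - e) ≤ (2 ^ e * y i) * 2 ^ (m - e) :=
              mul_le_mul_of_nonneg_right ha2 h4.le
          _ = 2 ^ m * y i := by rw [h3]; ring
          _ ≤ _ := h1
      exact_mod_cast h5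

theorem covDimLT_zero {C : Set Q} (h : CovDimLT C 0) : C = ∅ := by
  by_contra hne
  obtain ⟨x, hx⟩ := Set.nonempty_iff_ne_empty.2 hne
  obtain ⟨𝒱, -, -, hcov, -, hord⟩ := h {univ} (finite_singleton _) (by simp) (by simp)
  have h1 : (⟨x, hx⟩ : C) ∈ ⋃₀ 𝒱 := by rw [hcov]; trivial
  obtain ⟨V, hV, hxV⟩ := h1
  have h2 := hord ⟨x, hx⟩
  simp only [Nat.cast_zero, nonpos_iff_eq_zero, encard_eq_zero] at h2
  have h3 : V ∈ ({V ∈ 𝒱 | (⟨x, hx⟩ : C) ∈ V} : Set (Set C)) := ⟨hV, hxV⟩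
  rw [h2] at h3
  exact h3

/-- a good tree gives a solution of `CMT_1` -/
theorem Good.solution {X : Set Q} (hX : IsClosed X) {k : ℕ} {z : ℕ → Bool} (h : Good X k z) :
    (⋂ m, U z m) ⊆ X ∧ ¬ CovDimLT (⋂ m, U z m : Set Q) 1 ∧
    ∀ C : Set Q, IsClosed C → C ⊆ (⋂ m, U z m) → CovDimLT C (1 - 1) →
      IsPreconnected ((⋂ m, U z m) \ C) := by
  have hpre : IsPreconnected (⋂ m, U z m) :=
    isPreconnected_nested (isClosed_U z) h.U_anti h.isPreconnected_U
  obtain ⟨x, hx, y, hy, hxy⟩ := h.exists_pts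
  refine ⟨h.subset hX, not_covDimLT_of_preconnected hpre subset_rfl hx hy hxy, ?_⟩
  intro C _ _ hC
  rw [covDimLT_zero hC, sdiff_empty]
  exact hpre

end Pool.Agent.CMTW
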