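import Pool.Agent.Lib_fca3ff.Tree
import Pool.Agent.Lib_fca3ff.Choice
import Pool.Agent.Lib_fca3ff.Lower

set_option autoImplicit false

/-!
# `CMT_1 ≤_W C_ℕ × C_{2^ℕ}`
-/

namespace Pool.Agent.CMTW

open Prim Set

section prim
variable {α : Type} [Primcodable α]

@[fun_prop] theorem primrec_enc {f : α → List ℕ} (hf : Primrec f) : Primrec fun a => enc (f a) :=
  encode' hf

@[fun_prop] theorem primrec_parent {f : α → List ℕ} (hf : Primrec f) :
    Primrec fun a => parent (f a) := by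
  unfold parent
  exact map' (g := fun _ d => d / 2) (by fun_prop) (by fun_prop)

theorem primrec_adj {f g : α → List ℕ} (hf : Primrec f) (hg : Primrec g) :
    PrimrecPred fun a => adj (f a) (g a) := by
  unfold adj
  exact all_lt (P := fun a i => (f a).getD i 0 ≤ (g a).getD i 0 + 1 ∧
    (g a).getD i 0 ≤ (f a).getD i 0 + 1) (by fun_prop) (by fun_prop)

end prim

/-- boxes whose union is the complement of a cell (shifted codes) -/
def complC (c : List ℕ) : List ℕ :=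
  ((List.range c.length).map fun i => bcode [(i, 0, c.getD i 0, 2 ^ c.length - 1)] + 1) ++
  ((List.range c.length).map fun i =>
    bcode [(i, c.getD i 0 + 2, 2 ^ c.length + 1, 2 ^ c.length - 1)] + 1)

theorem primrec_complC {α : Type} [Primcodable α] {f : α → List ℕ} (hf : Primrec f) :
    Primrec fun a => complC (f a) := by
  unfold complC bcode
  apply append'
  · apply map' (g := fun a i =>
      Encodable.encode [((i, 0, (f a).getD i 0, 2 ^ (f a).length - 1) : ℕ × ℕ × ℕ × ℕ)] + 1)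
    · fun_prop
    · fun_prop
  · apply map' (g := fun a i => Encodable.encode [((i, (f a).getD i 0 + 2, 2 ^ (f a).length + 1,
      2 ^ (f a).length - 1) : ℕ × ℕ × ℕ × ℕ)] + 1)
    · fun_prop
    · fun_prop

theorem mem_complC {c : List ℕ} {x : Q} :
    (∃ e, e + 1 ∈ complC c ∧ x ∈ boxQ e) ↔ x ∉ cell c := by
  have hp := two_pow_pos' c.length
  constructor
  · rintro ⟨e, he, hx⟩ hxc
    rw [mem_cell] at hxc
    rcases List.mem_append.1 he with he | he
    · obtain ⟨i, hi, hie⟩ := List.mem_map.1 he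
      rw [List.mem_range] at hi
      have : e = bcode [(i, 0, c.getD i 0, 2 ^ c.length - 1)] := by omega
      rw [this, boxQ_bcode, mem_box_cons] at hx
      simp only [pow_sub_one_cast] at hx
      have h1 := hx.1.2
      have h2 := (hxc i hi).1
      linarith
    · obtain ⟨i, hi, hie⟩ := List.mem_map.1 he
      rw [List.mem_range] at hi
      have : e = bcode [(i, c.getD i 0 + 2, 2 ^ c.length + 1, 2 ^ c.length - 1)] := by omega
      rw [this, boxQ_bcode, mem_box_cons] at hx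
      simp only [pow_sub_one_cast] at hx
      have h1 := hx.1.1
      have h2 := (hxc i hi).2
      push_cast at h1
      linarith
  · intro hx
    rw [mem_cell] at hx
    push Not at hx
    obtain ⟨i, hi, h⟩ := hx
    by_cases h1 : (c.getD i 0 : ℝ) ≤ 2 ^ c.length * x i
    · have h2 := h h1
      refine ⟨bcode [(i, c.getD i 0 + 2, 2 ^ c.length + 1, 2 ^ c.length - 1)],
        List.mem_append_right _ (List.mem_map.2 ⟨i, List.mem_range.2 hi, rfl⟩), ?_⟩
      rw [boxQ_bcode, mem_box_cons]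
      simp only [pow_sub_one_cast]
      push_cast
      refine ⟨⟨by linarith, ?_⟩, mem_box_nil⟩
      have h3 : (x i : ℝ) ≤ 1 := (x i).2.2
      nlinarith
    · rw [not_le] at h1
      refine ⟨bcode [(i, 0, c.getD i 0, 2 ^ c.length - 1)],
        List.mem_append_left _ (List.mem_map.2 ⟨i, List.mem_range.2 hi, rfl⟩), ?_⟩
      rw [boxQ_bcode, mem_box_cons]
      simp only [pow_sub_one_cast]
      push_cast
      refine ⟨⟨?_, h1⟩, mem_box_nil⟩
      have h3 : (0 : ℝ) ≤ x i := (x i).2.1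
      nlinarith

/-- the bit number `enc c` of `τ` is known and equal to `b` -/
def tb (τ : List Bool) (c : List ℕ) (b : Bool) : Prop := τ[enc c]? = some b

theorem tb_pre {z : ℕ → Bool} {m : ℕ} {c : List ℕ} {b : Bool} :
    tb (pre z m) c b ↔ enc c < m ∧ z (enc c) = b := by
  unfold tb
  rw [pre_getElem?]
  split_ifs with h <;> simp [h]

theorem primrec_tb {α : Type} [Primcodable α] {f : α → List Bool} {g : α → List ℕ}
    (hf : Primrec f) (hg : Primrec g) (b : Bool) : PrimrecPred fun a => tb (f a) (g a) b := by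
  unfold tb
  fun_prop

/-- first violation: a chosen cell is disjoint from the instance -/
def V1 (x : List ℕ × ℕ × List Bool) : Prop :=
  ∃ y : ℕ × List ℕ, (y.2 ∈ cells y.1 ∧ tb x.2.2 y.2 true) ∧ CoversQ (x.1 ++ complC y.2)
/-- second violation: parents -/
def V2 (x : List ℕ × ℕ × List Bool) : Prop :=
  ∃ m, ∃ c ∈ cells (m + 1), tb x.2.2 c true ∧ tb x.2.2 (parent c) false
/-- third violation: splitting -/
def V3 (x : List ℕ × ℕ × List Bool) : Prop :=
  ∃ y : ℕ × List (List ℕ), (∀ c ∈ cells y.1, enc c < x.2.2.length) ∧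
    (∃ c ∈ cells y.1, c ∈ y.2 ∧ tb x.2.2 c true) ∧
    (∃ c ∈ cells y.1, c ∉ y.2 ∧ tb x.2.2 c true) ∧
    ∀ c ∈ cells y.1, ∀ c' ∈ cells y.1,
      ¬ (c ∈ y.2 ∧ c' ∉ y.2 ∧ tb x.2.2 c true ∧ tb x.2.2 c' true ∧ adj c c')
/-- fourth violation: no cell on the left -/
def V4 (x : List ℕ × ℕ × List Bool) : Prop :=
  ∃ m, x.2.1.unpair.1 < m ∧ x.2.1.unpair.2.unpair.2 ≤ m ∧
    (∀ c ∈ cells m, enc c < x.2.2.length) ∧
    ∀ c ∈ cells m, ¬ (tb x.2.2 c true ∧
      c.getD x.2.1.unpair.1 0 ≤ x.2.1.unpair.2.unpair.1 * 2 ^ (m - x.2.1.unpair.2.unpair.2))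
/-- fifth violation: no cell on the right -/
def V5 (x : List ℕ × ℕ × List Bool) : Prop :=
  ∃ m, x.2.1.unpair.1 < m ∧ x.2.1.unpair.2.unpair.2 ≤ m ∧
    (∀ c ∈ cells m, enc c < x.2.2.length) ∧
    ∀ c ∈ cells m, ¬ (tb x.2.2 c true ∧
      (x.2.1.unpair.2.unpair.1 + 1) * 2 ^ (m - x.2.1.unpair.2.unpair.2) ≤
        c.getD x.2.1.unpair.1 0 + 1)

/-- all violations -/
def VV (x : List ℕ × ℕ × List Bool) : Prop := V1 x ∨ V2 x ∨ V3 x ∨ V4 x ∨ V5 x

theorem sig1_VV : Sig1 VV := by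
  unfold VV
  refine Sig1.or ?_ (Sig1.or ?_ (Sig1.or ?_ (Sig1.or ?_ ?_)))
  · unfold V1
    apply Sig1.ex (P := fun (x : List ℕ × ℕ × List Bool) (y : ℕ × List ℕ) =>
      (y.2 ∈ cells y.1 ∧ tb x.2.2 y.2 true) ∧ CoversQ (x.1 ++ complC y.2))
    apply Sig1.and
    · apply Sig1.of_prim
      apply and'
      · exact mem' (by fun_prop) (by fun_prop)
      · exact primrec_tb (by fun_prop) (by fun_prop) _
    · apply sig1_coversQ
      exact append' (by fun_prop) (primrec_complC (by fun_prop))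
  · unfold V2
    apply Sig1.ex (P := fun (x : List ℕ × ℕ × List Bool) m =>
      ∃ c ∈ cells (m + 1), tb x.2.2 c true ∧ tb x.2.2 (parent c) false)
    apply Sig1.of_prim
    apply ex_mem (P := fun (x : (List ℕ × ℕ × List Bool) × ℕ) c =>
      tb x.1.2.2 c true ∧ tb x.1.2.2 (parent c) false) _ (by fun_prop)
    apply and'
    · exact primrec_tb (by fun_prop) (by fun_prop) _
    · exact primrec_tb (by fun_prop) (by fun_prop) _
  · unfold V3
    apply Sig1.ex (P := fun (x : List ℕ × ℕ × List Bool) (y : ℕ × List (List ℕ)) =>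
      (∀ c ∈ cells y.1, enc c < x.2.2.length) ∧
      (∃ c ∈ cells y.1, c ∈ y.2 ∧ tb x.2.2 c true) ∧
      (∃ c ∈ cells y.1, c ∉ y.2 ∧ tb x.2.2 c true) ∧
      ∀ c ∈ cells y.1, ∀ c' ∈ cells y.1,
        ¬ (c ∈ y.2 ∧ c' ∉ y.2 ∧ tb x.2.2 c true ∧ tb x.2.2 c' true ∧ adj c c'))
    apply Sig1.of_prim
    apply and'
    · exact all_mem (P := fun (x : (List ℕ × ℕ × List Bool) × ℕ × List (List ℕ)) c =>
        enc c < x.1.2.2.length) (by fun_prop) (by fun_prop)
    apply and'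
    · apply ex_mem (P := fun (x : (List ℕ × ℕ × List Bool) × ℕ × List (List ℕ)) c =>
        c ∈ x.2.2 ∧ tb x.1.2.2 c true) _ (by fun_prop)
      apply and'
      · exact mem' (by fun_prop) (by fun_prop)
      · exact primrec_tb (by fun_prop) (by fun_prop) _
    apply and'
    · apply ex_mem (P := fun (x : (List ℕ × ℕ × List Bool) × ℕ × List (List ℕ)) c =>
        c ∉ x.2.2 ∧ tb x.1.2.2 c true) _ (by fun_prop)
      apply and'
      · exact not' (mem' (by fun_prop) (by fun_prop))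
      · exact primrec_tb (by fun_prop) (by fun_prop) _
    · apply all_mem (P := fun (x : (List ℕ × ℕ × List Bool) × ℕ × List (List ℕ)) c =>
        ∀ c' ∈ cells x.2.1,
        ¬ (c ∈ x.2.2 ∧ c' ∉ x.2.2 ∧ tb x.1.2.2 c true ∧ tb x.1.2.2 c' true ∧ adj c c')) _
        (by fun_prop)
      apply all_mem (P := fun (w : ((List ℕ × ℕ × List Bool) × ℕ × List (List ℕ)) × List ℕ) c' =>
        ¬ (w.2 ∈ w.1.2.2 ∧ c' ∉ w.1.2.2 ∧ tb w.1.1.2.2 w.2 true ∧ tb w.1.1.2.2 c' true ∧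
          adj w.2 c')) _ (by fun_prop)
      apply not'
      apply and'
      · exact mem' (by fun_prop) (by fun_prop)
      apply and'
      · exact not' (mem' (by fun_prop) (by fun_prop))
      apply and'
      · exact primrec_tb (by fun_prop) (by fun_prop) _
      apply and'
      · exact primrec_tb (by fun_prop) (by fun_prop) _
      · exact primrec_adj (by fun_prop) (by fun_prop)
  · unfold V4
    apply Sig1.ex (P := fun (x : List ℕ × ℕ × List Bool) m =>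
      x.2.1.unpair.1 < m ∧ x.2.1.unpair.2.unpair.2 ≤ m ∧
      (∀ c ∈ cells m, enc c < x.2.2.length) ∧
      ∀ c ∈ cells m, ¬ (tb x.2.2 c true ∧
        c.getD x.2.1.unpair.1 0 ≤ x.2.1.unpair.2.unpair.1 * 2 ^ (m - x.2.1.unpair.2.unpair.2)))
    apply Sig1.of_prim
    apply and' (by fun_prop)
    apply and' (by fun_prop)
    apply and'
    · exact all_mem (P := fun (x : (List ℕ × ℕ × List Bool) × ℕ) c =>
        enc c < x.1.2.2.length) (by fun_prop) (by fun_prop)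
    · apply all_mem (P := fun (x : (List ℕ × ℕ × List Bool) × ℕ) c =>
        ¬ (tb x.1.2.2 c true ∧ c.getD x.1.2.1.unpair.1 0 ≤
          x.1.2.1.unpair.2.unpair.1 * 2 ^ (x.2 - x.1.2.1.unpair.2.unpair.2))) _ (by fun_prop)
      apply not'
      apply and'
      · exact primrec_tb (by fun_prop) (by fun_prop) _
      · fun_prop
  · unfold V5
    apply Sig1.ex (P := fun (x : List ℕ × ℕ × List Bool) m =>
      x.2.1.unpair.1 < m ∧ x.2.1.unpair.2.unpair.2 ≤ m ∧
      (∀ c ∈ cells m, enc c < x.2.2.length) ∧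
      ∀ c ∈ cells m, ¬ (tb x.2.2 c true ∧
        (x.2.1.unpair.2.unpair.1 + 1) * 2 ^ (m - x.2.1.unpair.2.unpair.2) ≤
          c.getD x.2.1.unpair.1 0 + 1))
    apply Sig1.of_prim
    apply and' (by fun_prop)
    apply and' (by fun_prop)
    apply and'
    · exact all_mem (P := fun (x : (List ℕ × ℕ × List Bool) × ℕ) c =>
        enc c < x.1.2.2.length) (by fun_prop) (by fun_prop)
    · apply all_mem (P := fun (x : (List ℕ × ℕ × List Bool) × ℕ) c =>
        ¬ (tb x.1.2.2 c true ∧ (x.1.2.1.unpair.2.unpair.1 + 1) *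
          2 ^ (x.2 - x.1.2.1.unpair.2.unpair.2) ≤ c.getD x.1.2.1.unpair.1 0 + 1)) _ (by fun_prop)
      apply not'
      apply and'
      · exact primrec_tb (by fun_prop) (by fun_prop) _
      · fun_prop

theorem exists_enc_bound (m : ℕ) : ∃ M, ∀ c ∈ cells m, enc c < M := by
  refine ⟨((cells m).map enc).sum + 1, fun c hc => ?_⟩
  exact Nat.lt_succ_of_le (List.le_sum_of_mem (List.mem_map.2 ⟨c, hc, rfl⟩))

theorem good_iff {p : ℕ → ℕ} {X : Set Q}
    (hp : Xᶜ = ⋃ (i : ℕ) (e : ℕ) (_ : p i = e + 1), boxQ e) (k : ℕ) (z : ℕ → Bool) :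
    Good X k z ↔ ∀ m m', ¬ VV (pre p m, k, pre z m') := by
  constructor
  · rintro h m m' (hV | hV | hV | hV | hV)
    · obtain ⟨⟨l, c⟩, ⟨hc, htb⟩, hcov⟩ := hV
      simp only at hc htb hcov
      obtain ⟨x, hx, hxc⟩ := h.meets l c hc (tb_pre.1 htb).2
      have h1 := (coversQ_prefix hp (complC c)).1 ⟨m, hcov⟩ x hx
      exact mem_complC.1 h1 hxc
    · obtain ⟨l, c, hc, h1, h2⟩ := hV
      have h3 := h.par l c hc (tb_pre.1 h1).2
      have h4 := (tb_pre.1 h2).2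
      rw [h3] at h4
      exact absurd h4 (by simp)
    · obtain ⟨⟨l, S⟩, hlen, ⟨c, hc, hcS, hcz⟩, ⟨c', hc', hcS', hcz'⟩, hno⟩ := hV
      simp only [pre_length] at hlen
      obtain ⟨d, hd, d', hd', h1, h2, h3, h4, h5⟩ := h.conn l S
        ⟨c, hc, hcS, (tb_pre.1 hcz).2⟩ ⟨c', hc', hcS', (tb_pre.1 hcz').2⟩
      exact hno d hd d' hd' ⟨h1, h2, tb_pre.2 ⟨hlen d hd, h3⟩, tb_pre.2 ⟨hlen d' hd', h4⟩, h5⟩
    · obtain ⟨l, h1, h2, hlen, hno⟩ := hV
      simp only [pre_length] at hlen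
      obtain ⟨c, hc, hz, hle⟩ := h.low l h1 h2
      exact hno c hc ⟨tb_pre.2 ⟨hlen c hc, hz⟩, hle⟩
    · obtain ⟨l, h1, h2, hlen, hno⟩ := hV
      simp only [pre_length] at hlen
      obtain ⟨c, hc, hz, hle⟩ := h.high l h1 h2
      exact hno c hc ⟨tb_pre.2 ⟨hlen c hc, hz⟩, hle⟩
  · intro h
    refine ⟨?_, ?_, ?_, ?_, ?_⟩
    · intro l c hc hz
      by_contra hcon
      push Not at hcon
      obtain ⟨m, hm⟩ := (coversQ_prefix hp (complC c)).2 fun x hx => mem_complC.2 (hcon x hx)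
      exact h m (enc c + 1) (Or.inl ⟨(l, c), ⟨hc, tb_pre.2 ⟨Nat.lt_succ_self _, hz⟩⟩, hm⟩)
    · intro l c hc hz
      by_contra hcon
      rw [Bool.not_eq_true] at hcon
      exact h 0 (enc c + enc (parent c) + 1) (Or.inr (Or.inl ⟨l, c, hc,
        tb_pre.2 ⟨by omega, hz⟩, tb_pre.2 ⟨by omega, hcon⟩⟩))
    · intro l S ⟨c, hc, hcS, hcz⟩ ⟨c', hc', hcS', hcz'⟩
      by_contra hcon
      push Not at hcon
      obtain ⟨M, hM⟩ := exists_enc_bound l
      refine h 0 M (Or.inr (Or.inr (Or.inl ⟨(l, S), ?_, ⟨c, hc, hcS, tb_pre.2 ⟨hM c hc, hcz⟩⟩,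
        ⟨c', hc', hcS', tb_pre.2 ⟨hM c' hc', hcz'⟩⟩, ?_⟩)))
      · simpa only [pre_length] using hM
      · rintro d hd d' hd' ⟨h1, h2, h3, h4, h5⟩
        exact hcon d hd d' hd' h1 h2 (tb_pre.1 h3).2 (tb_pre.1 h4).2 h5
    · intro l h1 h2
      by_contra hcon
      push Not at hcon
      obtain ⟨M, hM⟩ := exists_enc_bound l
      refine h 0 M (Or.inr (Or.inr (Or.inr (Or.inl ⟨l, h1, h2, ?_, ?_⟩))))
      · simpa only [pre_length] using hM
      · rintro c hc ⟨h3, h4⟩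
        exact absurd h4 (not_le.2 (hcon c hc (tb_pre.1 h3).2))
    · intro l h1 h2
      by_contra hcon
      push Not at hcon
      obtain ⟨M, hM⟩ := exists_enc_bound l
      refine h 0 M (Or.inr (Or.inr (Or.inr (Or.inr ⟨l, h1, h2, ?_, ?_⟩))))
      · simpa only [pre_length] using hM
      · rintro c hc ⟨h3, h4⟩
        exact absurd h4 (not_le.2 (hcon c hc (tb_pre.1 h3).2))

/-- sufficient condition for `boxQ e` to be disjoint from `cell c` -/
def dj (c : List ℕ) (e : ℕ) : Prop :=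
  ∃ t ∈ Denumerable.ofNat (List (ℕ × ℕ × ℕ × ℕ)) e, t.1 < c.length ∧
    (t.2.2.1 * 2 ^ c.length ≤ (t.2.2.2 + 1) * c.getD t.1 0 ∨
      (t.2.2.2 + 1) * (c.getD t.1 0 + 1) + 2 ^ c.length ≤ t.2.1 * 2 ^ c.length)

theorem not_mem_of_dj {c : List ℕ} {e : ℕ} (h : dj c e) {x : Q} (hx : x ∈ boxQ e) :
    x ∉ cell c := by
  intro hxc
  obtain ⟨t, ht, h1, h2⟩ := h
  obtain ⟨h3, h4⟩ := mem_boxQ.1 hx t ht
  obtain ⟨h5, h6⟩ := mem_cell.1 hxc _ h1
  have hp := two_pow_pos' c.length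
  have ht0 : (0 : ℝ) < (t.2.2.2 : ℝ) + 1 := by positivity
  rcases h2 with h2 | h2
  · have h2' : (t.2.2.1 : ℝ) * 2 ^ c.length ≤ (t.2.2.2 + 1) * c.getD t.1 0 := by
      exact_mod_cast h2
    have h7 : ((t.2.2.2 : ℝ) + 1) * c.getD t.1 0 ≤ (t.2.2.2 + 1) * (2 ^ c.length * x t.1) :=
      mul_le_mul_of_nonneg_left h5 ht0.le
    have h8 : ((t.2.2.2 : ℝ) + 1) * (x t.1 : ℝ) * 2 ^ c.length < t.2.2.1 * 2 ^ c.length :=
      mul_lt_mul_of_pos_right h4 hp
    nlinarith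
  · have h2' : ((t.2.2.2 : ℝ) + 1) * (c.getD t.1 0 + 1) + 2 ^ c.length ≤
        t.2.1 * 2 ^ c.length := by exact_mod_cast h2
    have h7 : ((t.2.2.2 : ℝ) + 1) * (2 ^ c.length * x t.1) ≤ (t.2.2.2 + 1) * (c.getD t.1 0 + 1) :=
      mul_le_mul_of_nonneg_left h6 ht0.le
    have h8 : (t.2.1 : ℝ) * 2 ^ c.length < ((t.2.2.2 + 1) * x t.1 + 1) * 2 ^ c.length :=
      mul_lt_mul_of_pos_right h3 hp
    nlinarith

theorem dj_star {m : ℕ} {c : List ℕ} (hc : c ∈ cells m) {x : Q} (hx : x ∉ cell c) :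
    dj c (bcode (star m x)) := by
  have hl := (mem_cells.1 hc).1
  rw [mem_cell] at hx
  push Not at hx
  obtain ⟨i, hi, h⟩ := hx
  rw [hl] at hi h
  have h1 : 1 ≤ 2 ^ m := Nat.one_le_two_pow
  have h0 : (0 : ℝ) ≤ 2 ^ m * x i := mul_nonneg (by positivity) (x i).2.1
  refine ⟨(i, ⌈(2 : ℝ) ^ m * x i⌉₊, ⌊(2 : ℝ) ^ m * x i⌋₊ + 1, 2 ^ m - 1), ?_, by rw [hl]; exact hi,
    ?_⟩
  · simp only [bcode, Denumerable.ofNat_encode]
    exact List.mem_map.2 ⟨i, List.mem_range.2 hi, rfl⟩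
  · simp only [hl, Nat.sub_add_cancel h1]
    by_cases h2 : (c.getD i 0 : ℝ) ≤ 2 ^ m * x i
    · right
      have h3 := h h2
      have h4 : c.getD i 0 + 1 < ⌈(2 : ℝ) ^ m * x i⌉₊ := by
        rw [Nat.lt_ceil]
        push_cast
        exact h3
      nlinarith
    · left
      rw [not_le] at h2
      have h4 : ⌊(2 : ℝ) ^ m * x i⌋₊ < c.getD i 0 := by
        rw [Nat.floor_lt h0]
        exact h2
      nlinarith

/-- the output enumeration: boxes disjoint from some level of the tree -/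
def SH (x : List ℕ × ℕ) : Prop :=
  0 < (ods x.1).length ∧ ∃ m, ∀ c ∈ cells m,
    (ods (ods x.1))[Nat.pair ((ods x.1).getD 0 0) (enc c)]? = some 0 ∨
    ((ods (ods x.1))[Nat.pair ((ods x.1).getD 0 0) (enc c)]? = some 1 ∧ dj c x.2)

theorem sig1_SH : Sig1 SH := by
  unfold SH
  apply Sig1.and (Sig1.of_prim (by fun_prop))
  apply Sig1.ex (P := fun (x : List ℕ × ℕ) m => ∀ c ∈ cells m,
    (ods (ods x.1))[Nat.pair ((ods x.1).getD 0 0) (enc c)]? = some 0 ∨
    ((ods (ods x.1))[Nat.pair ((ods x.1).getD 0 0) (enc c)]? = some 1 ∧ dj c x.2))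
  apply Sig1.of_prim
  apply all_mem (P := fun (x : (List ℕ × ℕ) × ℕ) c =>
    (ods (ods x.1.1))[Nat.pair ((ods x.1.1).getD 0 0) (enc c)]? = some 0 ∨
    ((ods (ods x.1.1))[Nat.pair ((ods x.1.1).getD 0 0) (enc c)]? = some 1 ∧ dj c x.1.2)) _
    (by fun_prop)
  apply or' (by fun_prop)
  apply and' (by fun_prop)
  unfold dj
  apply ex_mem (P := fun (w : ((List ℕ × ℕ) × ℕ) × List ℕ) (t : ℕ × ℕ × ℕ × ℕ) =>
    t.1 < w.2.length ∧
    (t.2.2.1 * 2 ^ w.2.length ≤ (t.2.2.2 + 1) * w.2.getD t.1 0 ∨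
      (t.2.2.2 + 1) * (w.2.getD t.1 0 + 1) + 2 ^ w.2.length ≤ t.2.1 * 2 ^ w.2.length))
  · fun_prop
  · fun_prop

theorem ods_ods_join (p r : ℕ → ℕ) (m : ℕ) :
    ods (ods (pre (join p r) m)) = pre (fun i => r (2 * i + 1)) (m / 2 / 2) := by
  rw [ods_join, ods_pre]

theorem SH_iff {p r : ℕ → ℕ} {n : ℕ} {z' : ℕ → Bool} (h0 : r 0 = n)
    (h1 : ∀ i, r (2 * i + 1) = (z' i).toNat) (e : ℕ) :
    (∃ m, SH (pre (join p r) m, e)) ↔
      ∃ m, ∀ c ∈ cells m, slc z' n (enc c) = true → dj c e := by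
  constructor
  · rintro ⟨M, hpos, m, hm⟩
    refine ⟨m, fun c hc hz => ?_⟩
    have h2 := hm c hc
    simp only at hpos h2
    rw [ods_ods_join, ods_join, pre_getElem?] at h2
    rw [ods_join, pre_length] at hpos
    rw [pre_getD _ _ _ _ hpos, h0] at h2
    have hz' : z' (Nat.pair n (enc c)) = true := hz
    split_ifs at h2 with h3
    · rw [h1, hz'] at h2
      simpa using h2
    · simp at h2
  · rintro ⟨m, hm⟩
    obtain ⟨M, hM⟩ := exists_enc_bound m
    refine ⟨4 * (Nat.pair n M + 1), ?_, m, fun c hc => ?_⟩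
    · show 0 < (ods (pre (join p r) _)).length
      rw [ods_join, pre_length]; omega
    · simp only
      rw [ods_ods_join, ods_join, pre_getElem?, pre_getD _ _ _ _ (by omega), h0]
      have h2 : Nat.pair n (enc c) < Nat.pair n M := Nat.pair_lt_pair_right n (hM c hc)
      rw [if_pos (by omega), h1]
      cases hz : z' (Nat.pair n (enc c)) with
      | false => left; rfl
      | true => right; exact ⟨rfl, hm c hc hz⟩

theorem upper : (CMT 1).WLE (CN.prod CCantor) := by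
  obtain ⟨K, hK, hKe⟩ := choice_main sig1_VV
  obtain ⟨H, hH, hHe⟩ := enum_functional SH sig1_SH
  refine ⟨K, H, hK.re, hH.re, ?_⟩
  intro p X hp hdim
  have hp' : (X.carrier)ᶜ = ⋃ (i : ℕ) (e : ℕ) (_ : p i = e + 1), boxQ e := hp
  have hdim' : ¬ CovDimLT X.carrier 1 := hdim
  obtain ⟨k, z, hgood⟩ := exists_good X.isClosed hdim'
  obtain ⟨kk, A, hkk, hA, hAd, hAv⟩ := hKe p ⟨k, z, (good_iff hp' k z).1 hgood⟩
  refine ⟨kk, A, hkk, hA, hAd, ?_⟩
  rintro r ⟨n, z'⟩ ⟨hr1, hr2⟩ hval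
  have hgood' : Good X.carrier n (slc z' n) := (good_iff hp' _ _).2 (hAv n z' hval)
  obtain ⟨q, hq, hqe⟩ := hHe (join p r)
  have h0 : r 0 = n := hr1
  have h1 : ∀ i, r (2 * i + 1) = (z' i).toNat := hr2
  have hcl : IsClosed (⋂ m, U (slc z' n) m) := isClosed_iInter fun m => isClosed_U _ m
  refine ⟨q, ⟨⋂ m, U (slc z' n) m, hcl⟩, hq, ?_, ?_⟩
  · show (⋂ m, U (slc z' n) m)ᶜ = ⋃ (i : ℕ) (e : ℕ) (_ : q i = e + 1), boxQ e
    ext x
    simp only [mem_iUnion, mem_compl_iff, mem_iInter, not_forall]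
    constructor
    · rintro ⟨m, hm⟩
      have h2 : ∃ m, ∀ c ∈ cells m, slc z' n (enc c) = true → dj c (bcode (star m x)) :=
        ⟨m, fun c hc hz => dj_star hc fun hx => hm ⟨c, hc, hz, hx⟩⟩
      have h3 : ∃ m', ∀ c ∈ cells m', slc z' n (enc c) = true → dj c (bcode (star m x)) :=
        ⟨m, fun c hc hz => dj_star hc fun hx => hm ⟨c, hc, hz, hx⟩⟩
      obtain ⟨i, hi⟩ := (hqe _).2 ((SH_iff (p := p) h0 h1 _).2 h3)
      refine ⟨i, _, hi, ?_⟩
      rw [boxQ_bcode]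
      exact mem_star_self m x
    · rintro ⟨i, e, hi, hx⟩
      obtain ⟨m, hm⟩ := (SH_iff (p := p) h0 h1 e).1 ((hqe e).1 ⟨i, hi⟩)
      refine ⟨m, ?_⟩
      rintro ⟨c, hc, hz, hxc⟩
      exact not_mem_of_dj (hm c hc hz) hx hxc
  · exact hgood'.solution X.isClosed

/-- The Weihrauch degree of the `1`-dimensional Cantor manifold theorem. -/
theorem cmt_one : (CMT 1).WEquiv (CN.prod CCantor) := ⟨upper, lower⟩

end Pool.Agent.CMTW
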