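import Pool.Agent.Lib_fca3ff.Ref
import Pool.Agent.Lib_fca3ff.LimDefs

set_option autoImplicit false

/-!
# `CMT_n ≤_W lim`
-/

namespace Pool.Agent.CMTW

open Prim Set

open Classical in
/-- the approximation at stage `t` of the first level at which the instance is not thin -/
noncomputable def lev (T : List ℕ → ℕ → Prop) : ℕ → ℕ
  | 0 => 0
  | t + 1 => if T [] (lev T t) then lev T t + 1 else lev T t

open Classical in
theorem lev_eq_rec (T : List ℕ → ℕ → Prop) (t : ℕ) : lev T t =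
    (Nat.rec 0 (fun _ a => if T [] a then a + 1 else a) t : ℕ) := by
  induction t with
  | zero => rfl
  | succ t ih => rw [lev, ih]

theorem lev_eq {T : List ℕ → ℕ → Prop} {k₀ : ℕ} (h : ∀ k < k₀, T [] k) (h0 : ¬ T [] k₀) (t : ℕ) :
    lev T t = min t k₀ := by
  induction t with
  | zero => simp [lev]
  | succ t ih =>
    rw [lev, ih]
    by_cases ht : t < k₀
    · rw [min_eq_left ht.le, if_pos (h t ht)]
      omega
    · rw [min_eq_right (by omega), if_neg h0]
      omega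

theorem gr_congr {T T' : List ℕ → Prop} {j : ℕ} (h : ∀ i < j, (T ((i + 1) :: gr T' i) ↔
    T' ((i + 1) :: gr T' i))) : gr T j = gr T' j := by
  induction j with
  | zero => rfl
  | succ j ih =>
    have h1 : gr T j = gr T' j := ih fun i hi => h i (by omega)
    have h2 := h j (by omega)
    rw [gr, gr, h1]
    by_cases h3 : T' ((j + 1) :: gr T' j)
    · rw [if_pos h3, if_pos (h2.2 h3)]
    · rw [if_neg h3, if_neg fun h4 => h3 (h2.1 h4)]

open Classical in
theorem gr_eq_rec (T : List ℕ → Prop) (j : ℕ) : gr T j =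
    (Nat.rec [] (fun i L => if T ((i + 1) :: L) then L else (i + 1) :: L) j : List ℕ) := by
  induction j with
  | zero => rfl
  | succ j ih => rw [gr, ih]

/-- the stage bounded form of `T` -/
def stg (R : List ℕ × ℕ → ℕ → Prop) (σ : List ℕ) (s : ℕ) (F : List ℕ) (k : ℕ) : Prop :=
  ∃ m ∈ List.range (s + 1), ∃ c ∈ List.range (s + 1), R (σ.take m ++ F, k) c

open Classical in
/-- the approximation of the greedy construction -/
noncomputable def apx (R : List ℕ × ℕ → ℕ → Prop) (σ : List ℕ) (i : ℕ) : ℕ :=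
  if i.unpair.2 + 1 ∈ gr (fun F => stg R σ i.unpair.1 F (lev (stg R σ i.unpair.1) i.unpair.1))
    (i.unpair.2 + 1) then 1 else 0

theorem primrec_stg {α : Type} [Primcodable α] {R : List ℕ × ℕ → ℕ → Prop}
    (hR : PrimrecPred fun x : (List ℕ × ℕ) × ℕ => R x.1 x.2) {f g : α → List ℕ} {h h' : α → ℕ}
    (hf : Primrec f) (hg : Primrec g) (hh : Primrec h) (hh' : Primrec h') :
    PrimrecPred fun a => stg R (f a) (h a) (g a) (h' a) := by
  unfold stg
  apply ex_mem (P := fun a m => ∃ c ∈ List.range (h a + 1), R ((f a).take m ++ g a, h' a) c) _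
    (by fun_prop)
  apply ex_mem (P := fun (x : α × ℕ) c => R ((f x.1).take x.2 ++ g x.1, h' x.1) c) _ (by fun_prop)
  exact hR.comp (f := fun x : (α × ℕ) × ℕ =>
    (((f x.1.1).take x.1.2 ++ g x.1.1, h' x.1.1), x.2)) (by fun_prop)

theorem primrec_apx {R : List ℕ × ℕ → ℕ → Prop}
    (hR : PrimrecPred fun x : (List ℕ × ℕ) × ℕ => R x.1 x.2) :
    Primrec fun x : List ℕ × ℕ => apx R x.1 x.2 := by
  classical
  have hlev : Primrec fun x : List ℕ × ℕ => lev (stg R x.1 x.2.unpair.1) x.2.unpair.1 := by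
    simp only [lev_eq_rec]
    apply rec' (β := ℕ) (f := fun x : List ℕ × ℕ => x.2.unpair.1) (g := fun _ => 0) (h := fun (x : List ℕ × ℕ) _ (a : ℕ) =>
      if stg R x.1 x.2.unpair.1 [] a then a + 1 else a) (by fun_prop) (by fun_prop)
    apply ite' _ (by fun_prop) (by fun_prop)
    exact primrec_stg hR (by fun_prop) (by fun_prop) (by fun_prop) (by fun_prop)
  have hgr : Primrec fun x : List ℕ × ℕ => gr (fun F => stg R x.1 x.2.unpair.1 F
      (lev (stg R x.1 x.2.unpair.1) x.2.unpair.1)) (x.2.unpair.2 + 1) := by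
    simp only [gr_eq_rec]
    apply rec' (β := List ℕ) (f := fun x : List ℕ × ℕ => x.2.unpair.2 + 1) (g := fun _ => [])
      (h := fun (x : List ℕ × ℕ) i (L : List ℕ) =>
      if stg R x.1 x.2.unpair.1 ((i + 1) :: L)
        (lev (stg R x.1 x.2.unpair.1) x.2.unpair.1) then L else (i + 1) :: L) (by fun_prop)
      (by fun_prop)
    apply ite' _ (by fun_prop) (by fun_prop)
    apply primrec_stg hR (by fun_prop) (by fun_prop) (by fun_prop)
    exact hlev.comp (g := fun y : (List ℕ × ℕ) × ℕ × List ℕ => y.1) (by fun_prop)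
  unfold apx
  apply ite' _ (by fun_prop) (by fun_prop)
  exact mem' (by fun_prop) hgr

/-- the backward functional -/
def SU (x : List ℕ × ℕ) : Prop := x.2 + 1 ∈ evs x.1 ∨ (ods x.1)[x.2]? = some 1

theorem sig1_SU : Sig1 SU := by
  unfold SU
  apply Sig1.of_prim
  apply or'
  · exact mem' (by fun_prop) (by fun_prop)
  · fun_prop

theorem SU_iff {p r : ℕ → ℕ} (e : ℕ) :
    (∃ m, SU (pre (join p r) m, e)) ↔ (∃ i, p i = e + 1) ∨ r e = 1 := by
  unfold SU
  simp only [evs_join, ods_join]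
  constructor
  · rintro ⟨m, h | h⟩
    · obtain ⟨i, -, hi⟩ := mem_pre.1 h
      exact Or.inl ⟨i, hi⟩
    · rw [pre_getElem?] at h
      split_ifs at h with h1
      exact Or.inr (Option.some.inj h)
  · rintro (⟨i, hi⟩ | h)
    · exact ⟨2 * i + 2, Or.inl (mem_pre.2 ⟨i, by omega, hi⟩)⟩
    · refine ⟨2 * (e + 1), Or.inr ?_⟩
      rw [pre_getElem?, if_pos (by omega), h]

theorem upperLim {n : ℕ} (hn : 1 ≤ n) : (CMT n).WLE Lim := by
  classical
  obtain ⟨R, hR, hRR⟩ := sig1_Ref (α := List ℕ × ℕ) n (f := fun x => x.1) (g := fun x => x.2)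
    (by fun_prop) (by fun_prop)
  obtain ⟨K, hK, hKs⟩ := prim_functional (apx R) (primrec_apx hR)
  obtain ⟨H, hH, hHe⟩ := enum_functional SU sig1_SU
  refine ⟨K, H, hK.re, hH.re, ?_⟩
  intro p (X : TopologicalSpace.Closeds Q) hp hdim
  have hp' : (X.carrier)ᶜ = ⋃ (i : ℕ) (e : ℕ) (_ : p i = e + 1), boxQ e := hp
  have hdim' : ¬ CovDimLT X.carrier n := hdim
  -- the stages
  set T : List ℕ → ℕ → Prop := fun F k => Thin n k (Zs X.carrier F) with hT
  have hTs : ∀ F k, T F k ↔ ∃ m c, R (pre p m ++ F, k) c := by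
    intro F k
    show Thin n k (Zs X.carrier F) ↔ _
    rw [← ref_iff hp']
    exact exists_congr fun m => hRR (pre p m ++ F, k)
  have hstg : ∀ i F k, stg R (pre p i) i.unpair.1 F k ↔
      ∃ m ≤ i.unpair.1, ∃ c ≤ i.unpair.1, R (pre p m ++ F, k) c := by
    intro i F k
    have hi : i.unpair.1 ≤ i := Nat.unpair_left_le i
    unfold stg
    constructor
    · rintro ⟨m, hm, c, hc, h⟩
      rw [List.mem_range] at hm hc
      rw [take_pre, min_eq_left (by omega)] at h
      exact ⟨m, by omega, c, by omega, h⟩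
    · rintro ⟨m, hm, c, hc, h⟩
      refine ⟨m, List.mem_range.2 (by omega), c, List.mem_range.2 (by omega), ?_⟩
      rw [take_pre, min_eq_left (by omega)]
      exact h
  have hsound : ∀ i F k, stg R (pre p i) i.unpair.1 F k → T F k := by
    intro i F k h
    obtain ⟨m, -, c, -, h⟩ := (hstg i F k).1 h
    exact (hTs F k).2 ⟨m, c, h⟩
  have hcompl : ∀ F k, T F k → ∃ S, ∀ i, S ≤ i.unpair.1 → stg R (pre p i) i.unpair.1 F k := by
    intro F k h
    obtain ⟨m, c, h⟩ := (hTs F k).1 h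
    exact ⟨m + c, fun i hi => (hstg i F k).2 ⟨m, by omega, c, by omega, h⟩⟩
  obtain ⟨k₁, hk₁⟩ : ∃ k, ¬ T [] k := by
    by_contra hcon
    push Not at hcon
    apply hdim'
    apply covDimLT_of_thin X.isClosed
    intro k
    have h1 : Thin n k (Zs X.carrier []) := hcon k
    rwa [Zs_nil] at h1
  have hex : ∃ k, ¬ T [] k := ⟨k₁, hk₁⟩
  set k₀ := Nat.find hex with hk₀
  have hk₀n : ¬ T [] k₀ := Nat.find_spec hex
  have hk₀m : ∀ k < k₀, T [] k := fun k hk => not_not.1 (Nat.find_min hex hk)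
  obtain ⟨S₀, hS₀⟩ : ∃ S, ∀ i, S ≤ i.unpair.1 →
      lev (stg R (pre p i) i.unpair.1) i.unpair.1 = k₀ := by
    have h1 : ∀ k, ∃ S, k < k₀ → ∀ i, S ≤ i.unpair.1 → stg R (pre p i) i.unpair.1 [] k := by
      intro k
      by_cases hk : k < k₀
      · obtain ⟨S, hS⟩ := hcompl [] k (hk₀m k hk)
        exact ⟨S, fun _ => hS⟩
      · exact ⟨0, fun h => absurd h hk⟩
    choose S hS using h1
    refine ⟨k₀ + ∑ k ∈ Finset.range k₀, S k, fun i hi => ?_⟩
    rw [lev_eq (k₀ := k₀)]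
    · omega
    · intro k hk
      have h2 : S k ≤ ∑ k ∈ Finset.range k₀, S k :=
        Finset.single_le_sum (f := S) (fun _ _ => Nat.zero_le _) (Finset.mem_range.2 hk)
      exact hS k hk i (by omega)
    · exact fun h => hk₀n (hsound _ _ _ h)
  have hconv : ∀ j, ∃ S, ∀ i, S ≤ i.unpair.1 →
      gr (fun F => stg R (pre p i) i.unpair.1 F (lev (stg R (pre p i) i.unpair.1) i.unpair.1)) j =
        gr (fun F => T F k₀) j := by
    intro j
    have h1 : ∀ t, ∃ S, ∀ i, S ≤ i.unpair.1 →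
        (stg R (pre p i) i.unpair.1 ((t + 1) :: gr (fun F => T F k₀) t) k₀ ↔
          T ((t + 1) :: gr (fun F => T F k₀) t) k₀) := by
      intro t
      by_cases h : T ((t + 1) :: gr (fun F => T F k₀) t) k₀
      · obtain ⟨S, hS⟩ := hcompl _ _ h
        exact ⟨S, fun i hi => ⟨fun _ => h, fun _ => hS i hi⟩⟩
      · exact ⟨0, fun i _ => ⟨fun h' => absurd (hsound _ _ _ h') h, fun h' => absurd h' h⟩⟩
    choose S hS using h1
    refine ⟨S₀ + ∑ t ∈ Finset.range j, S t, fun i hi => ?_⟩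
    rw [hS₀ i (by omega)]
    apply gr_congr
    intro t ht
    have h2 : S t ≤ ∑ t ∈ Finset.range j, S t :=
      Finset.single_le_sum (f := S) (fun _ _ => Nat.zero_le _) (Finset.mem_range.2 ht)
    exact hS t i (by omega)
  set y : ℕ → ℕ := fun j => if j + 1 ∈ gr (fun F => T F k₀) (j + 1) then 1 else 0 with hy
  have hlim : ∀ j, ∃ N, ∀ i, N ≤ i → apx R (pre p (Nat.pair i j)) (Nat.pair i j) = y j := by
    intro j
    obtain ⟨S, hS⟩ := hconv (j + 1)
    refine ⟨S, fun i hi => ?_⟩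
    have h1 := hS (Nat.pair i j) (by rw [Nat.unpair_pair]; exact hi)
    simp only [Nat.unpair_pair] at h1
    simp only [apx, hy, Nat.unpair_pair, h1]
  refine ⟨_, _, hKs p, rfl, ⟨y, hlim⟩, ?_⟩
  rintro r v hrv hval
  have hrv' : r = v := hrv
  subst hrv'
  have hry : r = y := by
    funext j
    obtain ⟨N, hN⟩ := hval j
    obtain ⟨N', hN'⟩ := hlim j
    exact (hN (max N N') (le_max_left _ _)).symm.trans (hN' (max N N') (le_max_right _ _))
  obtain ⟨q, hq, hqe⟩ := hHe (join p r)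
  obtain ⟨n', rfl⟩ : ∃ n', n = n' + 1 := ⟨n - 1, by omega⟩
  have hfat : ¬ Thin (n' + 1) k₀ X.carrier := by
    have h1 : ¬ Thin (n' + 1) k₀ (Zs X.carrier []) := hk₀n
    rwa [Zs_nil] at h1
  have hmf := minFat_grY X.isClosed hfat
  refine ⟨q, ⟨grY (n' + 1) k₀ X.carrier, isClosed_grY X.isClosed⟩, hq, ?_, grY_subset,
    hmf.solution.1, hmf.solution.2⟩
  show (grY (n' + 1) k₀ X.carrier)ᶜ = ⋃ (i : ℕ) (e : ℕ) (_ : q i = e + 1), boxQ e
  ext x
  simp only [mem_iUnion, mem_compl_iff, mem_grY, exists_prop]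
  constructor
  · intro hx
    by_cases hxX : x ∈ X.carrier
    · have hx' : ¬ ∀ e, e + 1 ∈ gr (fun F => T F k₀) (e + 1) → x ∉ boxQ e := fun h =>
        hx ⟨hxX, h⟩
      push Not at hx'
      obtain ⟨e, he, hxe⟩ := hx'
      have h1 : r e = 1 := by rw [hry, hy]; simp only [if_pos he]
      obtain ⟨i, hi⟩ := (hqe e).2 ((SU_iff e).2 (Or.inr h1))
      exact ⟨i, e, hi, hxe⟩
    · have h1 : x ∈ (X.carrier)ᶜ := hxX
      rw [hp'] at h1
      simp only [mem_iUnion, exists_prop] at h1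
      obtain ⟨i, e, hie, hxe⟩ := h1
      obtain ⟨i', hi'⟩ := (hqe e).2 ((SU_iff e).2 (Or.inl ⟨i, hie⟩))
      exact ⟨i', e, hi', hxe⟩
  · rintro ⟨i, e, hie, hxe⟩ ⟨hxX, h⟩
    rcases (SU_iff e).1 ((hqe e).1 ⟨i, hie⟩) with ⟨i', hi'⟩ | h1
    · have h2 : x ∈ (X.carrier)ᶜ := by
        rw [hp']
        simp only [mem_iUnion, exists_prop]
        exact ⟨i', e, hi', hxe⟩
      exact h2 hxX
    · refine h e ?_ hxe
      rw [hry, hy] at h1
      simp only at h1
      by_contra hcon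
      rw [if_neg hcon] at h1
      exact absurd h1 (by norm_num)

end Pool.Agent.CMTW
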